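import Pool.Agent.MP_20b2fd_nt.F5.Util

/-! The sum of the mean values over the moduli. -/

set_option autoImplicit false

namespace Pool.Agent.MP_20b2fd_nt.F5

open MeasureTheory Complex Finset Filter Topology ArithmeticFunction
open Pool.Agent.MP_c5bf7b_nt.H38 (Phi Ch)
open Pool.Agent.MP_20b2fd_nt.H38
open scoped Real

namespace ALA

theorem sum_mu (k : ℕ) (hk : k ≠ 0) :
    ∑ e ∈ k.divisors, (moebius e : ℂ) = if k = 1 then 1 else 0 := by
  have h := congrArg (fun f : ArithmeticFunction ℂ => f k) (coe_moebius_mul_coe_zeta (R := ℂ))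
  simp only [coe_mul_zeta_apply, intCoe_apply, one_apply] at h
  exact h

theorem sum_mu_cop (m β : ℕ) (hm : m ≠ 0) :
    ∑ e ∈ m.divisors, (if e ∣ β then (moebius e : ℂ) else 0) = if m.Coprime β then 1 else 0 := by
  rw [← sum_filter]
  have hg : m.gcd β ≠ 0 := (Nat.gcd_pos_of_pos_left β (Nat.pos_of_ne_zero hm)).ne'
  have : m.divisors.filter (· ∣ β) = (m.gcd β).divisors := by
    ext d
    simp only [Nat.mem_divisors, mem_filter, Nat.dvd_gcd_iff]
    constructor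
    · rintro ⟨⟨h1, _⟩, h2⟩; exact ⟨⟨h1, h2⟩, hg⟩
    · rintro ⟨⟨h1, h2⟩, _⟩; exact ⟨⟨h1, hm⟩, h2⟩
  rw [this, sum_mu _ hg]

/-- detection of the greatest common divisor -/
theorem detect {D : ℕ} [NeZero D] (χ : Ch D) (n α g : ℕ) (hn : 1 ≤ n) (hg : g ∣ n) :
    χ ((n / g : ℕ) : ZMod D) *
      ∑ e ∈ (n / g).divisors, (if g * D * e ∣ α then (moebius e : ℂ) else 0) =
      if g = n.gcd α ∧ D ∣ α / n.gcd α then χ ((n / g : ℕ) : ZMod D) else 0 := by
  obtain ⟨m, rfl⟩ := hg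
  have hg0 : 0 < g := Nat.pos_of_mul_pos_right hn |> fun h => by
    rcases Nat.eq_zero_or_pos g with h0 | h0
    · simp [h0] at hn
    · exact h0
  have hm0 : m ≠ 0 := by rintro rfl; simp at hn
  have hD0 : 0 < D := Nat.pos_of_ne_zero (NeZero.ne D)
  rw [Nat.mul_div_cancel_left m hg0]
  by_cases h1 : g * D ∣ α
  · obtain ⟨β, rfl⟩ := h1
    have e1 : ∀ e : ℕ, (g * D * e ∣ g * D * β) ↔ e ∣ β := fun e =>
      Nat.mul_dvd_mul_iff_left (Nat.mul_pos hg0 hD0)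
    simp only [e1]
    rw [sum_mu_cop m β hm0]
    have e2 : (g * m).gcd (g * D * β) = g * m.gcd (D * β) := by
      rw [mul_assoc, Nat.gcd_mul_left]
    by_cases h2 : m.Coprime D
    · by_cases h3 : m.Coprime β
      · have h4 : m.gcd (D * β) = 1 := Nat.Coprime.mul_right h2 h3
        rw [if_pos h3, e2, h4, mul_one, mul_one, if_pos]
        refine ⟨rfl, ?_⟩
        rw [mul_assoc, Nat.mul_div_cancel_left _ hg0]
        exact Dvd.intro _ rfl
      · rw [if_neg h3, mul_zero, if_neg]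
        rintro ⟨h4, -⟩
        rw [e2] at h4
        have h5 : m.gcd (D * β) = 1 := by
          have := Nat.eq_of_mul_eq_mul_left hg0 (show g * 1 = g * m.gcd (D * β) by
            rw [mul_one]; exact h4)
          exact this.symm
        exact h3 (Nat.Coprime.coprime_mul_left_right h5)
    · have h3 : χ ((m : ℕ) : ZMod D) = 0 :=
        χ.map_nonunit (by rw [ZMod.isUnit_iff_coprime]; exact h2)
      rw [h3, zero_mul, ite_self]
  · rw [sum_eq_zero, mul_zero, if_neg]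
    · rintro ⟨h2, h3⟩
      apply h1
      rw [← h2] at h3
      have h4 : g ∣ α := h2 ▸ Nat.gcd_dvd_right _ _
      obtain ⟨β, rfl⟩ := h4
      rw [Nat.mul_div_cancel_left _ hg0] at h3
      exact Nat.mul_dvd_mul_left g h3
    · intro e _
      rw [if_neg]
      exact fun h => h1 (Dvd.dvd.trans (Dvd.intro _ rfl) h)

/-- the coefficient of a pair of divisors -/
noncomputable def cf {D : ℕ} (χ : Ch D) (N n : ℕ) (h : ℤ) (g e : ℕ) : ℂ :=
  χ ((-N * (h / g) : ℤ) : ZMod D) * χ ((n / g : ℕ) : ZMod D) * (moebius e : ℂ) / (D * e)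

theorem rho_eq (hR : RHS) {D : ℕ} [NeZero D] (χ : Ch D) (N n α : ℕ) (h : ℤ) (hp : χ.IsPrimitive)
    (hsq : χ ^ 2 = 1) (hN : N.Prime) (hα : 1 ≤ α) (hαN : α < N) (hn : 1 ≤ n) :
    rho0 χ α n (h * N) = ∑ g ∈ (n.gcd h.natAbs).divisors, ∑ e ∈ (n / g).divisors,
      cf χ N n h g e * (if g * D * e ∣ α then 1 / ((α / (g * D * e) : ℕ) : ℂ) else 0) := by
  have hD0 : 0 < D := Nat.pos_of_ne_zero (NeZero.ne D)
  have hgn : n.gcd h.natAbs ≠ 0 := (Nat.gcd_pos_of_pos_left _ hn).ne'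
  have h1 : ∀ g ∈ (n.gcd h.natAbs).divisors, ∑ e ∈ (n / g).divisors,
      cf χ N n h g e * (if g * D * e ∣ α then 1 / ((α / (g * D * e) : ℕ) : ℂ) else 0) =
      if g = n.gcd α then (if D ∣ α / n.gcd α then χ ((-N * (h / g) : ℤ) : ZMod D) *
        χ ((n / g : ℕ) : ZMod D) / ((α / g : ℕ) : ℂ) else 0) else 0 := by
    intro g hg
    have hg1 : g ∣ n := (Nat.dvd_of_mem_divisors hg).trans (Nat.gcd_dvd_left _ _)
    have hg0 : 0 < g := Nat.pos_of_mem_divisors hg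
    have h2 : ∀ e ∈ (n / g).divisors,
        cf χ N n h g e * (if g * D * e ∣ α then 1 / ((α / (g * D * e) : ℕ) : ℂ) else 0) =
        χ ((-N * (h / g) : ℤ) : ZMod D) / ((α / g : ℕ) : ℂ) * (χ ((n / g : ℕ) : ZMod D) *
          (if g * D * e ∣ α then (moebius e : ℂ) else 0)) := by
      intro e he
      have he0 : 0 < e := Nat.pos_of_mem_divisors he
      split_ifs with h3
      · obtain ⟨β, rfl⟩ := h3
        have hβ : β ≠ 0 := by rintro rfl; simp at hα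
        rw [Nat.mul_div_cancel_left β (by positivity),
          show g * D * e * β = g * (D * e * β) by ring, Nat.mul_div_cancel_left _ hg0]
        unfold cf
        have c1 : (D : ℂ) ≠ 0 := by exact_mod_cast hD0.ne'
        have c2 : (e : ℂ) ≠ 0 := by exact_mod_cast he0.ne'
        have c3 : (β : ℂ) ≠ 0 := by exact_mod_cast hβ
        push_cast
        field_simp
      · simp
    rw [sum_congr rfl h2, ← mul_sum, ← mul_sum, detect χ n α g hn hg1]
    by_cases h3 : g = n.gcd α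
    · by_cases h4 : D ∣ α / n.gcd α
      · rw [if_pos ⟨h3, h4⟩, if_pos h3, if_pos h4]; ring
      · rw [if_neg (fun h => h4 h.2), if_pos h3, if_neg h4, mul_zero]
    · rw [if_neg (fun h => h3 h.1), if_neg h3, mul_zero]
  rw [sum_congr rfl h1, sum_ite_eq', hR D χ α n (h * N) hp hsq hα hn]
  set g := n.gcd α with hg
  have hg0 : 0 < g := Nat.gcd_pos_of_pos_left _ hn
  have hgN : g < N := (Nat.le_of_dvd hα (Nat.gcd_dvd_right _ _)).trans_lt hαN
  have hcop : g.Coprime N :=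
    ((Nat.Prime.coprime_iff_not_dvd hN).mpr (Nat.not_dvd_of_pos_of_lt hg0 hgN)).symm
  have h3 : ((g : ℤ) ∣ h * N) ↔ g ∈ (n.gcd h.natAbs).divisors := by
    rw [Nat.mem_divisors, Nat.dvd_gcd_iff, Int.natCast_dvd, Int.natAbs_mul, Int.natAbs_natCast]
    constructor
    · intro h4
      exact ⟨⟨Nat.gcd_dvd_left _ _, hcop.dvd_of_dvd_mul_right h4⟩, hgn⟩
    · rintro ⟨⟨-, h4⟩, -⟩
      exact h4.mul_right _
  by_cases h4 : g ∈ (n.gcd h.natAbs).divisors
  · rw [if_pos h4]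
    by_cases h5 : D ∣ α / g
    · rw [if_pos ⟨h3.mpr h4, h5⟩, if_pos h5]
      have h6 : (g : ℤ) ∣ h := by
        rw [Int.natCast_dvd]
        exact (Nat.dvd_of_mem_divisors h4).trans (Nat.gcd_dvd_right _ _)
      have h7 : -(h * N / g) = -N * (h / g) := by
        obtain ⟨k, rfl⟩ := h6
        have c : (g : ℤ) ≠ 0 := by exact_mod_cast hg0.ne'
        rw [mul_assoc, Int.mul_ediv_cancel_left _ c, Int.mul_ediv_cancel_left _ c]
        ring
      rw [h7]
    · rw [if_neg (fun h => h5 h.2), if_neg h5]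
  · rw [if_neg h4, if_neg (fun h => h4 (h3.mp h.1))]

theorem sum_mult (m A : ℕ) (hm : 0 < m) (f : ℕ → ℂ) :
    ∑ α ∈ Icc 1 A, (if m ∣ α then 1 / ((α / m : ℕ) : ℂ) else 0) * f α =
      ∑ β ∈ Icc 1 (A / m), f (m * β) / β := by
  have h1 : ∀ α ∈ Icc 1 A, (if m ∣ α then 1 / ((α / m : ℕ) : ℂ) else 0) * f α =
      if m ∣ α then f α / ((α / m : ℕ) : ℂ) else 0 := by
    intro α _
    split_ifs
    · ring
    · simp
  rw [sum_congr rfl h1, ← sum_filter]
  symm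
  refine sum_bij (fun β _ => m * β) ?_ ?_ ?_ ?_
  · intro β hβ
    rw [mem_Icc] at hβ
    rw [mem_filter, mem_Icc]
    refine ⟨⟨Nat.mul_pos hm hβ.1, ?_⟩, Dvd.intro _ rfl⟩
    exact (Nat.mul_le_mul_left m hβ.2).trans (Nat.mul_div_le A m)
  · intro a _ b _ h
    exact Nat.eq_of_mul_eq_mul_left hm h
  · intro α hα
    rw [mem_filter, mem_Icc] at hα
    obtain ⟨⟨h2, h3⟩, β, rfl⟩ := hα
    refine ⟨β, ?_, rfl⟩
    rw [mem_Icc]
    refine ⟨Nat.pos_of_ne_zero (by rintro rfl; simp at h2), ?_⟩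
    rw [Nat.le_div_iff_mul_le hm, mul_comm]
    exact h3
  · intro β _
    rw [Nat.mul_div_cancel_left β hm]

/-- the harmonic sum over the multiples -/
theorem harm {C : ℝ}
    (hH : ∀ (Y : ℝ) (A : ℕ), 0 < Y → 2 * Y ≤ ((A : ℝ) + 1) ^ 2 →
      |2 * ∑ β ∈ Icc 1 A, om0 ((β : ℝ) ^ 2 / Y) / β -
        (Real.log Y + 2 * Real.eulerMascheroniConstant)| ≤ C / √Y)
    (m A : ℕ) (hm : 0 < m) (Y : ℝ) (hY : 0 < Y) (hA : 2 * Y ≤ ((A : ℝ) + 1) ^ 2) :
    ‖2 * ∑ α ∈ Icc 1 A, (if m ∣ α then 1 / ((α / m : ℕ) : ℂ) else 0) *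
        (om0 ((α : ℝ) ^ 2 / Y) : ℝ) -
      ((Real.log Y - 2 * Real.log m + 2 * Real.eulerMascheroniConstant : ℝ) : ℂ)‖ ≤
      C * m / √Y := by
  have hm' : (0 : ℝ) < m := by exact_mod_cast hm
  rw [sum_mult m A hm fun α => (om0 ((α : ℝ) ^ 2 / Y) : ℝ)]
  have h1 : (A : ℝ) + 1 ≤ m * (((A / m : ℕ) : ℝ) + 1) := by
    have := Nat.lt_mul_div_succ A hm
    exact_mod_cast this
  have h2 : 2 * (Y / (m : ℝ) ^ 2) ≤ (((A / m : ℕ) : ℝ) + 1) ^ 2 := by
    rw [← mul_div_assoc, div_le_iff₀ (by positivity)]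
    refine hA.trans ?_
    rw [← mul_pow, mul_comm]
    exact pow_le_pow_left₀ (by positivity) h1 2
  have h3 := hH (Y / (m : ℝ) ^ 2) (A / m) (by positivity) h2
  rw [Real.log_div hY.ne' (by positivity), Real.log_pow, Real.sqrt_div hY.le,
    Real.sqrt_sq hm'.le, div_div_eq_mul_div] at h3
  have h4 : (2 : ℂ) * ∑ β ∈ Icc 1 (A / m), ((om0 (((m * β : ℕ) : ℝ) ^ 2 / Y) : ℝ) : ℂ) / β -
      ((Real.log Y - 2 * Real.log m + 2 * Real.eulerMascheroniConstant : ℝ) : ℂ) =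
      ((2 * ∑ β ∈ Icc 1 (A / m), om0 ((β : ℝ) ^ 2 / (Y / (m : ℝ) ^ 2)) / β -
        (Real.log Y - (2 : ℕ) * Real.log m + 2 * Real.eulerMascheroniConstant) : ℝ) : ℂ) := by
    have e : ∀ β : ℕ, ((m * β : ℕ) : ℝ) ^ 2 / Y = (β : ℝ) ^ 2 / (Y / (m : ℝ) ^ 2) := by
      intro β
      push_cast
      field_simp
    simp only [e]
    push_cast
    ring
  rw [h4, Complex.norm_real, Real.norm_eq_abs]
  exact h3

theorem cf_le {D : ℕ} [NeZero D] (χ : Ch D) (N n : ℕ) (h : ℤ) (g e : ℕ) :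
    ‖cf χ N n h g e‖ ≤ 1 / (D * e) := by
  unfold cf
  rw [norm_div, norm_mul, norm_mul, norm_mul, Complex.norm_natCast, Complex.norm_natCast]
  refine div_le_div_of_nonneg_right ?_ (by positivity)
  have h1 := χ.norm_le_one ((-N * (h / g) : ℤ) : ZMod D)
  have h2 := χ.norm_le_one ((n / g : ℕ) : ZMod D)
  have h3 : ‖(moebius e : ℂ)‖ ≤ 1 := by
    rw [Complex.norm_intCast]
    exact_mod_cast abs_moebius_le_one
  exact mul_le_one₀ (mul_le_one₀ h1 (norm_nonneg _) h2) (norm_nonneg _) h3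

end ALA

open ALA in
theorem alOf : ALOf := by
  intro hR hH
  obtain ⟨-, C, hC, hH⟩ := hH
  refine ⟨C, hC, fun D _ χ N n A h Y hp hsq hN hA hn hh hY hYA => ?_⟩
  have hD0 : 0 < D := Nat.pos_of_ne_zero (NeZero.ne D)
  have h1 : ∀ α ∈ Icc 1 A, rho0 χ α n (h * N) * (om0 ((α : ℝ) ^ 2 / Y) : ℝ) =
      ∑ g ∈ (n.gcd h.natAbs).divisors, ∑ e ∈ (n / g).divisors, cf χ N n h g e *
        ((if g * D * e ∣ α then 1 / ((α / (g * D * e) : ℕ) : ℂ) else 0) *
          (om0 ((α : ℝ) ^ 2 / Y) : ℝ)) := by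
    intro α hα
    rw [mem_Icc] at hα
    rw [rho_eq hR χ N n α h hp hsq hN hα.1 (hα.2.trans_lt hA) hn, sum_mul]
    refine sum_congr rfl fun g _ => ?_
    rw [sum_mul]
    exact sum_congr rfl fun e _ => mul_assoc _ _ _
  have h2 : 2 * ∑ α ∈ Icc 1 A, rho0 χ α n (h * N) * (om0 ((α : ℝ) ^ 2 / Y) : ℝ) -
      zc χ N n h (Real.log Y) =
      ∑ g ∈ (n.gcd h.natAbs).divisors, ∑ e ∈ (n / g).divisors, cf χ N n h g e *
        (2 * ∑ α ∈ Icc 1 A, (if g * D * e ∣ α then 1 / ((α / (g * D * e) : ℕ) : ℂ) else 0) *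
          (om0 ((α : ℝ) ^ 2 / Y) : ℝ) -
        ((Real.log Y - 2 * Real.log ((g * D * e : ℕ) : ℝ) +
          2 * Real.eulerMascheroniConstant : ℝ) : ℂ)) := by
    rw [sum_congr rfl h1, sum_comm, mul_sum]
    unfold zc
    rw [← sum_sub_distrib]
    refine sum_congr rfl fun g _ => ?_
    rw [sum_comm, mul_sum, ← sum_sub_distrib]
    refine sum_congr rfl fun e _ => ?_
    rw [← mul_sum, mul_sub, mul_left_comm]
    unfold cf
    simp only [Nat.cast_mul]
  rw [h2]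
  have hs : 0 < √Y := Real.sqrt_pos.mpr hY
  have hb : ∀ g ∈ (n.gcd h.natAbs).divisors, ‖∑ e ∈ (n / g).divisors, cf χ N n h g e *
        (2 * ∑ α ∈ Icc 1 A, (if g * D * e ∣ α then 1 / ((α / (g * D * e) : ℕ) : ℂ) else 0) *
          (om0 ((α : ℝ) ^ 2 / Y) : ℝ) -
        ((Real.log Y - 2 * Real.log ((g * D * e : ℕ) : ℝ) +
          2 * Real.eulerMascheroniConstant : ℝ) : ℂ))‖ ≤ tau n * (C * |(h : ℝ)| / √Y) := by
    intro g hg
    have hg0 : 0 < g := Nat.pos_of_mem_divisors hg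
    have hg1 : g ∣ n := (Nat.dvd_of_mem_divisors hg).trans (Nat.gcd_dvd_left _ _)
    have hg2 : g ∣ h.natAbs := (Nat.dvd_of_mem_divisors hg).trans (Nat.gcd_dvd_right _ _)
    have hg3 : (g : ℝ) ≤ |(h : ℝ)| := by
      have := Nat.le_of_dvd (Int.natAbs_pos.mpr hh) hg2
      rw [← Int.cast_abs, ← Nat.cast_natAbs]
      exact_mod_cast this
    refine (norm_sum_le _ _).trans ((sum_le_card_nsmul _ _ (C * |(h : ℝ)| / √Y) ?_).trans ?_)
    · intro e he
      have he0 : 0 < e := Nat.pos_of_mem_divisors he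
      have c1 : (0 : ℝ) < D := by exact_mod_cast hD0
      have c2 : (0 : ℝ) < e := by exact_mod_cast he0
      rw [norm_mul]
      refine (mul_le_mul (cf_le χ N n h g e)
        (harm hH (g * D * e) A (by positivity) Y hY hYA) (norm_nonneg _) (by positivity)).trans ?_
      have e1 : 1 / ((D : ℝ) * e) * (C * ((g * D * e : ℕ) : ℝ) / √Y) = C * g / √Y := by
        push_cast
        field_simp
      rw [e1]
      gcongr
    · rw [nsmul_eq_mul]
      refine mul_le_mul_of_nonneg_right ?_ (by positivity)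
      exact U.tau_dvd (Nat.div_dvd_of_dvd hg1) (by omega)
  refine (norm_sum_le _ _).trans ((sum_le_card_nsmul _ _ _ hb).trans ?_)
  rw [nsmul_eq_mul]
  have h3 : ((n.gcd h.natAbs).divisors.card : ℝ) ≤ tau n :=
    U.tau_dvd (Nat.gcd_dvd_left _ _) (by omega)
  have h4 := U.tau_nonneg n
  calc ((n.gcd h.natAbs).divisors.card : ℝ) * (tau n * (C * |(h : ℝ)| / √Y))
      ≤ tau n * (tau n * (C * |(h : ℝ)| / √Y)) :=
        mul_le_mul_of_nonneg_right h3 (by positivity)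
    _ = _ := by ring

end Pool.Agent.MP_20b2fd_nt.F5
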