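import Pool.Agent.MP_20b2fd_nt.F5.Util

/-! Regularity and size of the arithmetic factors. -/

set_option autoImplicit false

namespace Pool.Agent.MP_20b2fd_nt.F5

open Complex Finset Filter Topology ArithmeticFunction
open DirichletCharacter (LFunction)
open Pool.Agent.MP_c5bf7b_nt.H38 (Phi Ch)
open Pool.Agent.MP_20b2fd_nt.H38

namespace AR0A

theorem cardA (n : ℕ) : (n.divisorsAntidiagonal.card : ℝ) = tau n := by
  rw [← Nat.map_div_right_divisors, card_map, tau]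

theorem pos {n : ℕ} {x : ℕ × ℕ} (h : x ∈ n.divisorsAntidiagonal) :
    0 < x.1 ∧ 0 < x.2 ∧ x.1 * x.2 = n := by
  obtain ⟨h1, h2⟩ := Nat.mem_divisorsAntidiagonal.1 h
  rw [← h1] at h2
  exact ⟨Nat.pos_of_ne_zero (left_ne_zero_of_mul h2),
    Nat.pos_of_ne_zero (right_ne_zero_of_mul h2), h1⟩

theorem ne1 {n : ℕ} {x : ℕ × ℕ} (h : x ∈ n.divisorsAntidiagonal) : (x.1 : ℂ) ≠ 0 :=
  Nat.cast_ne_zero.2 (pos h).1.ne'

theorem ne2 {n : ℕ} {x : ℕ × ℕ} (h : x ∈ n.divisorsAntidiagonal) : (x.2 : ℂ) ≠ 0 :=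
  Nat.cast_ne_zero.2 (pos h).2.1.ne'

theorem cp {d : ℕ} (hd : 0 < d) {a : ℂ} {σ : ℝ} (h : a.re ≤ σ) : ‖(d : ℂ) ^ a‖ ≤ (d : ℝ) ^ σ := by
  rw [norm_natCast_cpow_of_pos hd]
  exact Real.rpow_le_rpow_of_exponent_le (by exact_mod_cast hd) h

variable {D : ℕ} (χ : Ch D)

theorem gen {n : ℕ} {a b : ℂ} {σ M : ℝ} {g : ℕ × ℕ → ℂ} (M0 : 0 ≤ M) (ha : a.re ≤ σ)
    (hb : b.re ≤ σ) (hg : ∀ y : ℕ × ℕ, 0 < y.1 → 0 < y.2 → y.1 * y.2 ∣ n →
      ‖g y‖ ≤ (y.2 : ℝ) ^ σ * M) :
    ‖∑ x ∈ n.divisorsAntidiagonal, χ x.1 * (x.1 : ℂ) ^ a *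
      ∑ y ∈ x.2.divisorsAntidiagonal, (moebius y.1 : ℂ) * χ y.1 * (y.1 : ℂ) ^ b * g y‖ ≤
      (n : ℝ) ^ σ * tau n ^ 2 * M := by
  have t0 := U.tau_nonneg n
  refine (norm_sum_le _ _).trans ((sum_le_card_nsmul _ _ ((n : ℝ) ^ σ * tau n * M)
    fun x hx => ?_).trans (le_of_eq (by rw [nsmul_eq_mul, cardA]; ring)))
  obtain ⟨x1, x2, e⟩ := pos hx
  have hn := (Nat.mem_divisorsAntidiagonal.1 hx).2
  have h1 : ‖∑ y ∈ x.2.divisorsAntidiagonal,
      (moebius y.1 : ℂ) * χ y.1 * (y.1 : ℂ) ^ b * g y‖ ≤ tau n * ((x.2 : ℝ) ^ σ * M) := by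
    refine (norm_sum_le _ _).trans ((sum_le_card_nsmul _ _ ((x.2 : ℝ) ^ σ * M)
      fun y hy => ?_).trans ?_)
    · obtain ⟨y1, y2, e'⟩ := pos hy
      have m1 : ‖(moebius y.1 : ℂ)‖ ≤ 1 := by
        rw [norm_intCast]
        exact_mod_cast abs_moebius_le_one
      have h2 := hg y y1 y2 (by rw [e', ← e]; exact dvd_mul_left _ _)
      rw [norm_mul, norm_mul, norm_mul, ← e', Nat.cast_mul,
        Real.mul_rpow (Nat.cast_nonneg _) (Nat.cast_nonneg _), mul_assoc ((y.1 : ℝ) ^ σ)]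
      refine mul_le_mul ?_ h2 (norm_nonneg _) (by positivity)
      exact (mul_le_of_le_one_left (norm_nonneg _)
        (mul_le_one₀ m1 (norm_nonneg _) (χ.norm_le_one _))).trans (cp y1 hb)
    · rw [nsmul_eq_mul, cardA]
      exact mul_le_mul_of_nonneg_right (U.tau_dvd (e ▸ dvd_mul_left _ _) hn) (by positivity)
  rw [norm_mul, norm_mul]
  refine (mul_le_mul ((mul_le_of_le_one_left (norm_nonneg _) (χ.norm_le_one _)).trans (cp x1 ha))
    h1 (norm_nonneg _) (by positivity)).trans (le_of_eq ?_)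
  have : (n : ℝ) ^ σ = (x.1 : ℝ) ^ σ * (x.2 : ℝ) ^ σ := by
    rw [← Real.mul_rpow (Nat.cast_nonneg _) (Nat.cast_nonneg _), ← Nat.cast_mul, e]
  rw [this]
  ring

theorem bAf {n : ℕ} (hn : 1 ≤ n) {u w : ℂ} {σ : ℝ} (h1 : -u.re ≤ σ)
    (h2 : -1 - u.re - 2 * w.re ≤ σ) (h3 : -w.re ≤ σ) :
    ‖Af χ u w n‖ ≤ (n : ℝ) ^ σ * tau n ^ 3 := by
  refine (gen χ (g := fun y => (tau y.2 : ℝ) * (y.2 : ℂ) ^ (-w)) (M := tau n) (σ := σ)
    (U.tau_nonneg n) (by simpa using h1) (by simpa using h2) fun y _ y2 hy => ?_).trans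
    (le_of_eq (by ring))
  rw [norm_mul, norm_real, Real.norm_of_nonneg (U.tau_nonneg _), mul_comm]
  exact mul_le_mul (cp y2 (by simpa using h3))
    (U.tau_dvd ((dvd_mul_left _ _).trans hy) (by omega)) (U.tau_nonneg _) (by positivity)

theorem bA1 {n : ℕ} (hn : 1 ≤ n) {u : ℂ} {σ : ℝ} (h0 : 0 ≤ σ) (h1 : -u.re ≤ σ) :
    ‖A1 χ u n‖ ≤ (n : ℝ) ^ σ * tau n ^ 3 * (2 * Real.log n) := by
  have l0 := Real.log_natCast_nonneg n
  have t0 := U.tau_nonneg n
  refine (gen χ (g := fun y => ((tau y.2 * Real.log ((y.1 : ℝ) ^ 2 * y.2) : ℝ) : ℂ))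
    (M := tau n * (2 * Real.log n)) (σ := σ) (by positivity) (by simpa using h1)
    (by simp only [sub_re, neg_re, one_re]; linarith) fun y y1 y2 hy => ?_).trans
    (le_of_eq (by ring))
  have a1 : (1 : ℝ) ≤ y.1 := by exact_mod_cast y1
  have a2 : (1 : ℝ) ≤ y.2 := by exact_mod_cast y2
  have a3 : (y.1 : ℝ) * y.2 ≤ n := by exact_mod_cast Nat.le_of_dvd hn hy
  have a4 : (1 : ℝ) ≤ (y.1 : ℝ) ^ 2 * y.2 := one_le_mul_of_one_le_of_one_le (one_le_pow₀ a1) a2
  have a5 : Real.log ((y.1 : ℝ) ^ 2 * y.2) ≤ 2 * Real.log n := by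
    have : Real.log ((n : ℝ) ^ 2) = 2 * Real.log n := by rw [Real.log_pow]; norm_num
    rw [← this]
    refine Real.log_le_log (by linarith) (le_trans ?_ (pow_le_pow_left₀ (by positivity) a3 2))
    rw [mul_pow]
    exact mul_le_mul_of_nonneg_left (by nlinarith) (by positivity)
  have a6 := Real.log_nonneg a4
  rw [norm_real, Real.norm_of_nonneg (mul_nonneg (U.tau_nonneg _) a6)]
  refine le_trans ?_ (le_mul_of_one_le_left (by positivity) (Real.one_le_rpow a2 h0))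
  exact mul_le_mul (U.tau_dvd ((dvd_mul_left _ _).trans hy) (by omega)) a5 a6 t0

theorem dAfu (n : ℕ) (w : ℂ) : Differentiable ℂ fun u => Af χ u w n := by
  unfold Af
  refine Differentiable.fun_sum fun x hx => Differentiable.mul ?_
    (Differentiable.fun_sum fun y hy => Differentiable.mul_const ?_ _)
  · exact (Differentiable.const_cpow (by fun_prop) (.inl (ne1 hx))).const_mul _
  · exact (Differentiable.const_cpow (by fun_prop) (.inl (ne1 hy))).const_mul _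

theorem dAfw (n : ℕ) (u : ℂ) : Differentiable ℂ fun w => Af χ u w n := by
  unfold Af
  refine Differentiable.fun_sum fun x _ => Differentiable.const_mul
    (Differentiable.fun_sum fun y hy => Differentiable.mul ?_ ?_) _
  · exact (Differentiable.const_cpow (by fun_prop) (.inl (ne1 hy))).const_mul _
  · exact (Differentiable.const_cpow (by fun_prop) (.inl (ne2 hy))).const_mul _

theorem dA1 (n : ℕ) : Differentiable ℂ fun u => A1 χ u n := by
  unfold A1
  refine Differentiable.fun_sum fun x hx => Differentiable.mul ?_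
    (Differentiable.fun_sum fun y hy => Differentiable.mul_const ?_ _)
  · exact (Differentiable.const_cpow (by fun_prop) (.inl (ne1 hx))).const_mul _
  · exact (Differentiable.const_cpow (by fun_prop) (.inl (ne1 hy))).const_mul _

theorem hAf (n : ℕ) (u : ℂ) : HasDerivAt (fun w => Af χ u w n) (-A1 χ u n) 0 := by
  unfold Af A1
  rw [← sum_neg_distrib]
  refine HasDerivAt.fun_sum fun x _ => ?_
  rw [← mul_neg, ← sum_neg_distrib]
  refine HasDerivAt.const_mul _ (HasDerivAt.fun_sum fun y hy => ?_)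
  have h1 : HasDerivAt (fun w : ℂ => -1 - u - 2 * w) (-2) 0 := by
    simpa using ((hasDerivAt_id (0 : ℂ)).const_mul 2).const_sub (-1 - u)
  have h2 := ((h1.const_cpow (.inl (ne1 hy))).const_mul ((moebius y.1 : ℂ) * χ y.1)).mul
    (((hasDerivAt_neg (0 : ℂ)).const_cpow (.inl (ne2 hy))).const_mul ((tau y.2 : ℝ) : ℂ))
  refine h2.congr_deriv ?_
  obtain ⟨y1, y2, -⟩ := pos hy
  rw [Real.log_mul (by positivity) (by positivity), Real.log_pow]
  simp only [mul_zero, sub_zero, neg_zero, cpow_zero]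
  push_cast
  ring

end AR0A

open AR0A in
theorem ar0 : AR0S := by
  obtain ⟨C, C1, hC⟩ := U.tau_eps (ε := 1 / 4) (by norm_num)
  refine ⟨C ^ 3, one_le_pow₀ C1, fun D _ χ n hn => ⟨dAfu χ n, dAfw χ n, dA1 χ n, fun u hu => ?_,
    fun u hu => ?_, fun u w hu hw => ?_, fun hχ La => ⟨?_, fun u => ?_⟩⟩⟩
  · rw [Real.sqrt_eq_rpow]
    exact ⟨bAf χ hn (by linarith) (by simp only [zero_re]; linarith) (by simp),
      bA1 χ hn (by norm_num) (by linarith)⟩
  · have n0 : (0 : ℝ) < n := by exact_mod_cast hn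
    have h1 : (n : ℝ) ^ (2 : ℝ) * tau n ^ 3 ≤ (n : ℝ) ^ 5 := by
      rw [Real.rpow_two, show (n : ℝ) ^ 5 = n ^ 2 * n ^ 3 by ring]
      exact mul_le_mul_of_nonneg_left (pow_le_pow_left₀ (U.tau_nonneg n) (U.tau_le n) 3)
        (by positivity)
    refine ⟨(bAf χ hn (by linarith) (by simp only [zero_re]; linarith) (by simp)).trans h1,
      (bA1 χ hn (σ := 2) (by norm_num) (by linarith)).trans ?_⟩
    have l0 := Real.log_natCast_nonneg n
    have h2 : 2 * Real.log n ≤ 2 * n := by linarith [Real.log_le_sub_one_of_pos n0]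
    exact (mul_le_mul h1 h2 (by positivity) (by positivity)).trans (le_of_eq (by ring))
  · have a := abs_le.1 ((abs_re_le_norm u).trans hu)
    have b := abs_le.1 ((abs_re_le_norm w).trans hw)
    have n1 : (1 : ℝ) ≤ n := by exact_mod_cast hn
    refine (bAf χ hn (σ := 1 / 4) (by linarith) (by linarith) (by linarith)).trans ?_
    refine (mul_le_mul_of_nonneg_left (pow_le_pow_left₀ (U.tau_nonneg n) (hC n) 3)
      (by positivity)).trans (le_of_eq ?_)
    have : ((n : ℝ) ^ (1 / 4 : ℝ)) ^ 4 = n := by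
      rw [← Real.rpow_natCast, ← Real.rpow_mul (by linarith)]
      norm_num
    linear_combination C ^ 3 * this
  · have hL := DirichletCharacter.differentiable_LFunction hχ
    have a : Differentiable ℂ fun u : ℂ => LFunction χ (1 + u) := hL.comp (by fun_prop)
    have b : Differentiable ℂ fun u : ℂ => deriv (LFunction χ) (1 + u) :=
      hL.deriv.comp (by fun_prop)
    exact ((a.pow 2).mul (((dAfu χ n 0).const_mul _).sub (dA1 χ n))).add
      (((a.const_mul 2).mul b).mul (dAfu χ n 0))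
  · have hL := DirichletCharacter.differentiable_LFunction hχ
    have a : HasDerivAt (fun w : ℂ => LFunction χ (1 + u + w)) (deriv (LFunction χ) (1 + u)) 0 := by
      have h := (hL (1 + u + 0)).hasDerivAt.comp_const_add (1 + u) 0
      rwa [add_zero] at h
    have b := ((hasDerivAt_id (0 : ℂ)).const_mul (La : ℂ)).cexp
    refine ((b.mul (a.pow 2)).mul (hAf χ n u)).congr_deriv ?_
    simp [Hf]
    ring

end Pool.Agent.MP_20b2fd_nt.F5
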