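import Pool.Agent.MP_20b2fd_nt.F5.Util

/-! Row AR1: the Dirichlet series of the diagonal. -/

set_option autoImplicit false

namespace Pool.Agent.MP_20b2fd_nt.F5

open Complex Finset ArithmeticFunction
open DirichletCharacter (LFunction)
open Pool.Agent.MP_c5bf7b_nt.H38 (Ch)
open Pool.Agent.MP_20b2fd_nt.H38

namespace AR1A

theorem tr {f g : ℕ → ℂ} {a b : ℂ} (h : HasSum f a) (e : ∀ k, g k = f k) (e' : b = a) :
    HasSum g b := by
  rw [funext e, e']; exact h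

variable {D : ℕ} [NeZero D] (χ : Ch D)

/-- the value of the inner series -/
noncomputable def iv (La : ℝ) (g : ℕ) (u : ℂ) : ℂ :=
  LFunction χ (1 + u) ^ 2 *
      (La * T0 χ g (1 + u) - ((Real.log g : ℝ) * T0 χ g (1 + u) + T1 χ g (1 + u))) +
    2 * LFunction χ (1 + u) * deriv (LFunction χ) (1 + u) * T0 χ g (1 + u)

theorem inner (h3 : AR3S) (La : ℝ) {g : ℕ} {u : ℂ} (hg : 1 ≤ g) (hu : 0 < u.re) :
    HasSum (fun h : ℕ => χ h * l0 La (h * g) * (h : ℂ) ^ (-(1 + u))) (iv χ La g u) := by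
  obtain ⟨a, b⟩ := h3 D χ g (1 + u) hg (by simp; linarith)
  have c := (a.mul_left ((La : ℂ) - (Real.log g : ℝ))).sub b
  refine tr c (fun h => ?_) ?_
  · rcases Nat.eq_zero_or_pos h with rfl | hh
    · simp [l0, U.tau_zero]
    · have h1 : (h : ℝ) ≠ 0 := by positivity
      have h2 : (g : ℝ) ≠ 0 := by positivity
      rw [l0, mul_comm h g, Nat.cast_mul g h, Real.log_mul h2 h1]
      push_cast
      ring
  · unfold iv; ring

theorem one (h3 : AR3S) (La : ℝ) {d g : ℕ} {u : ℂ} (hd : 1 ≤ d) (hg : 1 ≤ g) (hu : 0 < u.re) :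
    HasSum (fun k : ℕ => χ k * (if d ∣ k then (d : ℂ) * l0 La (k * (d * g) / d ^ 2) else 0) *
      (k : ℂ) ^ (-(1 + u))) (χ d * (d : ℂ) ^ (-u) * iv χ La g u) := by
  have inj : Function.Injective fun h : ℕ => d * h := mul_right_injective₀ (by omega)
  rw [← inj.hasSum_iff]
  · refine tr ((inner χ h3 La hg hu).mul_left (χ d * (d : ℂ) ^ (-u))) (fun h => ?_) rfl
    have e1 : d * h * (d * g) / d ^ 2 = h * g := by
      rw [show d * h * (d * g) = d ^ 2 * (h * g) by ring]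
      exact Nat.mul_div_cancel_left _ (by positivity)
    have h0 : (d : ℂ) ≠ 0 := by exact_mod_cast (by omega : d ≠ 0)
    have e2 : (d : ℂ) ^ (-u) = d * (d : ℂ) ^ (-(1 + u)) := by
      rw [show -u = 1 + -(1 + u) by ring, cpow_add _ _ h0, cpow_one]
    simp only [Function.comp_apply]
    rw [if_pos (dvd_mul_right d h), e1, e2, Nat.cast_mul d h, Nat.cast_mul d h, map_mul,
      natCast_mul_natCast_cpow]
    ring
  · intro k hk
    rw [if_neg, mul_zero, zero_mul]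
    rintro ⟨h, rfl⟩
    exact hk ⟨h, rfl⟩

omit [NeZero D] in
theorem af (u : ℂ) (n : ℕ) : Af χ u 0 n =
    ∑ x ∈ n.divisorsAntidiagonal, χ x.1 * (x.1 : ℂ) ^ (-u) * T0 χ x.2 (1 + u) := by
  unfold Af T0
  refine sum_congr rfl fun x _ => ?_
  congr 1
  refine sum_congr rfl fun y _ => ?_
  rw [neg_zero, cpow_zero, mul_one, show -1 - u - 2 * 0 = -(1 + u) by ring]

omit [NeZero D] in
theorem a1 (u : ℂ) (n : ℕ) : A1 χ u n =
    ∑ x ∈ n.divisorsAntidiagonal, χ x.1 * (x.1 : ℂ) ^ (-u) *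
      ((Real.log x.2 : ℝ) * T0 χ x.2 (1 + u) + T1 χ x.2 (1 + u)) := by
  unfold A1 T0 T1
  refine sum_congr rfl fun x _ => ?_
  congr 1
  rw [mul_sum, ← sum_add_distrib]
  refine sum_congr rfl fun y hy => ?_
  obtain ⟨h1, h2⟩ := Nat.mem_divisorsAntidiagonal.mp hy
  have h3 : y.1 * y.2 ≠ 0 := h1 ▸ h2
  have h4 : (y.1 : ℝ) ≠ 0 := by exact_mod_cast left_ne_zero_of_mul h3
  have h5 : (y.2 : ℝ) ≠ 0 := by exact_mod_cast right_ne_zero_of_mul h3
  rw [← h1, Nat.cast_mul, Real.log_mul h4 h5, Real.log_mul (pow_ne_zero 2 h4) h5, Real.log_pow,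
    show -1 - u = -(1 + u) by ring]
  push_cast
  ring

theorem hf (La : ℝ) (n : ℕ) (u : ℂ) : Hf χ La n u =
    ∑ x ∈ n.divisorsAntidiagonal, χ x.1 * (x.1 : ℂ) ^ (-u) * iv χ La x.2 u := by
  rw [Hf, af, a1]
  simp only [mul_sum, ← sum_sub_distrib, ← sum_add_distrib]
  refine sum_congr rfl fun x _ => ?_
  unfold iv
  ring

end AR1A

open AR1A in
theorem ar1Of : AR1Of := by
  intro h3 D _ χ La n u hn hu
  rw [hf, Nat.sum_divisorsAntidiagonal fun a b => χ a * (a : ℂ) ^ (-u) * iv χ La b u]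
  have key := hasSum_sum (s := n.divisors)
    (f := fun (d k : ℕ) => χ k * (if d ∣ k then (d : ℂ) * l0 La (k * n / d ^ 2) else 0) *
      (k : ℂ) ^ (-(1 + u)))
    (a := fun d => χ d * (d : ℂ) ^ (-u) * iv χ La (n / d) u) fun d hd => by
      have h1 := Nat.dvd_of_mem_divisors hd
      have h2 : 1 ≤ d := Nat.pos_of_mem_divisors hd
      have h4 := one χ h3 La h2 (Nat.div_pos (Nat.le_of_dvd hn h1) h2) hu
      rwa [Nat.mul_div_cancel' h1] at h4
  refine tr key (fun k => ?_) rfl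
  rw [U.Bh_eq _ _ hn, mul_sum, sum_mul]

end Pool.Agent.MP_20b2fd_nt.F5
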