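import Pool.Agent.MP_20b2fd_nt.F5.Util

/-! Row AR2: the Dirichlet series of the twisted fourth moment. -/

set_option autoImplicit false

namespace Pool.Agent.MP_20b2fd_nt.F5

open Complex Finset ArithmeticFunction
open DirichletCharacter (LFunction)
open LSeries (convolution term)
open Pool.Agent.MP_c5bf7b_nt.H38 (Ch)
open Pool.Agent.MP_20b2fd_nt.H38

namespace AR2A

/-- multiplicative functions -/
def M (F : ℕ → ℂ) : Prop := F 1 = 1 ∧ ∀ m n : ℕ, m.Coprime n → F (m * n) = F m * F n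

variable {F G : ℕ → ℂ}

lemma M.af (h : M F) : (toArithmeticFunction F).IsMultiplicative := by
  refine ⟨by simp [toArithmeticFunction, h.1], fun {m n} hmn => ?_⟩
  by_cases hm : m = 0
  · simp [hm]
  by_cases hn : n = 0
  · simp [hn]
  simp [toArithmeticFunction, hm, hn, h.2 m n hmn]

lemma M.conv (hF : M F) (hG : M G) : M (convolution F G) :=
  ⟨(hF.af.mul hG.af).1, fun _ _ h => (hF.af.mul hG.af).2 h⟩

lemma M.mul (hF : M F) (hG : M G) : M fun n => F n * G n :=
  ⟨by simp [hF.1, hG.1], fun m n h => by simp only [hF.2 m n h, hG.2 m n h]; ring⟩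

lemma M_cpow (z : ℂ) : M fun n => (n : ℂ) ^ z :=
  ⟨by simp, fun m n _ => by simp only [Nat.cast_mul, natCast_mul_natCast_cpow]⟩

lemma M_chi {D : ℕ} (χ : Ch D) : M fun n => χ n := ⟨by simp, fun m n _ => by simp⟩

lemma M_mu : M fun n => (moebius n : ℂ) :=
  ⟨by simp, fun m n h => by simp [isMultiplicative_moebius.map_mul_of_coprime h]⟩

lemma M_tau : M fun n => (tau n : ℝ) :=
  ⟨by simp [tau], fun m n h => by simp [tau, h.card_divisors_mul]⟩

lemma M_fac (E : ℕ → ℕ → ℂ) : M fun l => ∏ p ∈ l.primeFactors, E p (l.factorization p) := by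
  refine ⟨by simp, fun m n h => ?_⟩
  change (m * n).factorization.prod E = m.factorization.prod E * n.factorization.prod E
  rw [Nat.factorization_mul_of_coprime h]
  exact Finsupp.prod_add_index_of_disjoint h.disjoint_primeFactors E

lemma fac_pow (E : ℕ → ℕ → ℂ) {p n : ℕ} (hp : p.Prime) (hn : n ≠ 0) :
    ∏ q ∈ (p ^ n).primeFactors, E q ((p ^ n).factorization q) = E p n := by
  rw [Nat.primeFactors_prime_pow hn hp, prod_singleton, hp.factorization_pow, Finsupp.single_eq_same]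

lemma split {p : ℕ} (hp : p.Prime) {A B h : ℕ → ℂ} {a : ℂ} (hA : HasSum A a)
    (hB : Summable B) (h0 : h 0 = 0) (e : ∀ i k, ¬p ∣ k → h (p ^ i * k) = A i * B k) :
    HasSum h (a * ∑' k : {k // ¬p ∣ k}, B k) := by
  have v : ∀ i k, ¬p ∣ k → (p ^ i * k).factorization p = i := fun i k hk => by
    rw [Nat.factorization_mul (pow_ne_zero _ hp.ne_zero) (by rintro rfl; simp at hk),
      hp.factorization_pow, Finsupp.add_apply, Finsupp.single_eq_same,
      Nat.factorization_eq_zero_of_not_dvd hk, add_zero]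
  have inj : Function.Injective fun x : ℕ × {k // ¬p ∣ k} => p ^ x.1 * x.2.1 := by
    rintro ⟨i, k, hk⟩ ⟨j, l, hl⟩ hx
    obtain rfl : i = j := (v i k hk).symm.trans ((congrArg (·.factorization p) hx).trans (v j l hl))
    obtain rfl : k = l := Nat.eq_of_mul_eq_mul_left (pow_pos hp.pos _) hx
    rfl
  have hB' : Summable fun k : {k // ¬p ∣ k} => B k := hB.subtype _
  refine (inj.hasSum_iff fun n hn => ?_).1 ?_
  · by_cases z : n = 0
    · rw [z, h0]
    · obtain ⟨i, k, hk, rfl⟩ := Nat.exists_eq_pow_mul_and_not_dvd z p hp.ne_one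
      exact absurd ⟨(i, ⟨k, hk⟩), rfl⟩ hn
  · have k := summable_mul_of_summable_norm (f := A) (g := fun k : {k // ¬p ∣ k} => B k)
      hA.summable.norm hB'.norm
    rw [show (h ∘ fun x : ℕ × {k // ¬p ∣ k} => p ^ x.1 * x.2.1) = fun x => A x.1 * B x.2.1 from
      funext fun x => e x.1 x.2.1 x.2.2]
    exact HasSum.mul (f := A) (g := fun k : {k // ¬p ∣ k} => B k) hA hB'.hasSum k

lemma twist {ψ f c : ℕ → ℂ} {s : ℕ → ℕ → ℂ} {S : ℂ} (hψ : ∀ m n, ψ (m * n) = ψ m * ψ n)
    (hq : ∀ p i, ψ (p ^ i) = ψ p ^ i) (h0 : ψ 0 = 0) (hf : M f)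
    (hs : ∀ p a, p.Prime → HasSum (fun i => ψ p ^ i * f (p ^ (i + a))) (s p a))
    (hc : ∀ p, p.Prime → s p 0 * c p = 1) (h1 : HasSum (fun k => ψ k * f k) S) (g : ℕ) :
    g ≠ 0 → HasSum (fun k => ψ k * f (k * g))
      (S * ∏ p ∈ g.primeFactors, s p (g.factorization p) * c p) := by
  induction g using Nat.recOnPrimePow with
  | zero => exact fun h => absurd rfl h
  | one => simpa using h1
  | prime_pow_mul a p n hp ha hn ih =>
    intro _
    have ih' := ih (by rintro rfl; simp at ha)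
    have key : ∀ n, HasSum (fun k => ψ k * f (k * (p ^ n * a)))
        (s p n * ∑' k : {k // ¬p ∣ k}, ψ k * f (k * a)) := fun n =>
      split (B := fun k => ψ k * f (k * a)) hp (hs p n hp) ih'.summable (by simp [h0])
        fun i k hk => by
          rw [show p ^ i * k * (p ^ n * a) = p ^ (i + n) * (k * a) by ring, hψ, hq, hf.2 _ _
            (((Nat.Prime.coprime_iff_not_dvd hp).2 (hp.not_dvd_mul hk ha)).pow_left _)]
          ring
    have k0 := key 0
    simp only [pow_zero, one_mul] at k0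
    have e := (M_fac fun p k => s p k * c p).2 _ _
      (((Nat.Prime.coprime_iff_not_dvd hp).2 ha).pow_left n)
    simp only at e
    rw [e, fac_pow (fun p k => s p k * c p) hp hn.ne', mul_left_comm, ← k0.unique ih',
      mul_assoc, ← mul_assoc (c p), mul_comm (c p), hc p hp, one_mul]
    exact key n

lemma shift {s z t x : ℂ} (h : LSeriesHasSum F t x) (ht : t = s + z)
    (e : ∀ n, n ≠ 0 → G n = F n * (n : ℂ) ^ (-z)) : LSeriesHasSum G s x := by
  have : term G s = term F t := funext fun n => by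
    by_cases hn : n = 0
    · simp [hn]
    · rw [LSeries.term_of_ne_zero hn, LSeries.term_of_ne_zero hn, e n hn, ht,
        cpow_add _ _ (Nat.cast_ne_zero.2 hn), cpow_neg]
      ring
  unfold LSeriesHasSum
  rwa [this]

lemma ls {D : ℕ} [NeZero D] (χ : Ch D) {s : ℂ} (hs : 1 < s.re) :
    LSeriesHasSum (fun n => χ n) s (LFunction χ s) := by
  rw [DirichletCharacter.LFunction_eq_LSeries χ hs]
  exact (DirichletCharacter.LSeriesSummable_of_one_lt_re χ hs).LSeriesHasSum

lemma Af_eq {D : ℕ} (χ : Ch D) (u w : ℂ) : Af χ u w = convolution (fun n : ℕ => χ n * (n : ℂ) ^ (-u))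
    (convolution (fun n : ℕ => (moebius n : ℂ) * χ n * (n : ℂ) ^ (-1 - u - 2 * w))
      fun n : ℕ => (tau n : ℝ) * (n : ℂ) ^ (-w)) := by
  simp only [LSeries.convolution_def]
  rfl

lemma base {D : ℕ} [NeZero D] (χ : Ch D) {u v w : ℂ} (hχ : χ ^ 2 = 1) (hu : ‖u‖ ≤ 1 / 100)
    (hw : ‖w‖ ≤ 1 / 100) (hv : v.re = 2) :
    HasSum (fun k : ℕ => χ k * (k : ℂ) ^ (-1 - v) * Af χ u w k)
      (LFunction (1 : Ch D) (1 + u + v) * LFunction χ (1 + v + w) ^ 2 /
        LFunction (1 : Ch D) (2 + u + v + 2 * w)) := by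
  have u1 := abs_le.1 ((abs_re_le_norm u).trans hu)
  have w1 := abs_le.1 ((abs_re_le_norm w).trans hw)
  have sq : ∀ n : ℕ, χ n * χ n = (1 : Ch D) n := fun n => by
    rw [← hχ, sq, MulChar.mul_apply]
  have r2 : 1 < (2 + u + v + 2 * w).re := by simp; linarith
  have a1 : LSeriesHasSum ((fun n : ℕ => χ n) * fun n : ℕ => χ n * (n : ℂ) ^ (-u)) (1 + v) _ :=
    shift (z := u) (ls (1 : Ch D) (s := 1 + u + v) (by simp; linarith)) (by ring) fun n _ => by
      rw [Pi.mul_apply, ← mul_assoc, sq]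
  have a2 : LSeriesHasSum ((fun n : ℕ => χ n) * fun n : ℕ =>
      (moebius n : ℂ) * χ n * (n : ℂ) ^ (-1 - u - 2 * w)) (1 + v) _ :=
    shift (z := 1 + u + 2 * w) (DirichletCharacter.LSeriesSummable_mul (1 : Ch D)
      (LSeriesSummable_moebius_iff.2 r2)).LSeriesHasSum (by ring) fun n _ => by
      rw [Pi.mul_apply, Pi.mul_apply, ← sq, show -(1 + u + 2 * w) = -1 - u - 2 * w by ring]
      ring
  have r3 : 1 < (1 + v + w).re := by simp; linarith
  have a3 : LSeriesHasSum ((fun n : ℕ => χ n) * fun n : ℕ => (tau n : ℝ) * (n : ℂ) ^ (-w))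
      (1 + v) _ :=
    shift (z := w) ((ls χ r3).convolution (ls χ r3)) rfl fun n _ => by
      have := congrFun (χ.mul_convolution_distrib 1 1) n
      simp only [mul_one] at this
      rw [this, Pi.mul_apply, Pi.mul_apply, ← mul_assoc, LSeries.convolution_def]
      simp [tau, ← Nat.map_div_right_divisors]
  have a := a1.convolution (a2.convolution a3)
  rw [χ.mul_convolution_distrib, χ.mul_convolution_distrib, ← Af_eq] at a
  have m := DirichletCharacter.LSeries.mul_mu_eq_one (1 : Ch D) r2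
  rw [← DirichletCharacter.LFunction_eq_LSeries _ r2] at m
  rw [eq_inv_of_mul_eq_one_right m] at a
  rw [div_eq_mul_inv, mul_assoc, mul_comm (_ ^ 2), pow_two]
  have e : (fun k : ℕ => χ k * (k : ℂ) ^ (-1 - v) * Af χ u w k) =
      term ((fun n : ℕ => χ n) * Af χ u w) (1 + v) := funext fun k => by
    rw [LSeries.term_def₀ (by simp [Af]), show -1 - v = -(1 + v) by ring, Pi.mul_apply]
    ring
  rw [e]
  exact a

end AR2A

open AR2A in
theorem ar2Of : AR2Of := by
  rintro ⟨C, A, -, hB⟩ D _ χ u v w l hχ hu hw hv hl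
  obtain ⟨-, hb, -⟩ := hB D χ u w hu hw
  have hv' : -1 / 4 ≤ v.re := by rw [hv]; norm_num
  have v0 : -1 - v ≠ 0 := fun e => by
    have := congrArg re e
    simp [hv] at this
    norm_num at this
  have hf : M (Af χ u w) := by
    rw [Af_eq]
    exact ((M_chi χ).mul (M_cpow _)).conv
      (((M_mu.mul (M_chi χ)).mul (M_cpow _)).conv (M_tau.mul (M_cpow _)))
  have hψ : ∀ m n : ℕ, χ (m * n : ℕ) * ((m * n : ℕ) : ℂ) ^ (-1 - v) =
      χ m * (m : ℂ) ^ (-1 - v) * (χ n * (n : ℂ) ^ (-1 - v)) := fun m n => by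
    rw [Nat.cast_mul, Nat.cast_mul, map_mul, natCast_mul_natCast_cpow]
    ring
  have hq : ∀ (z : ℂ) (p i : ℕ), χ (p ^ i : ℕ) * ((p ^ i : ℕ) : ℂ) ^ z = (χ p * (p : ℂ) ^ z) ^ i :=
    fun z p i => by
      rw [Nat.cast_pow, map_pow, mul_pow, Nat.cast_pow, ← natCast_cpow_natCast_mul, cpow_nat_mul]
  have T := twist (ψ := fun k => χ k * (k : ℂ) ^ (-1 - v)) (s := sl0 χ u v w) hψ (hq _)
    (by simp [v0]) hf (fun p a hp => ((hb v p hv' hp).2 a).of_norm.hasSum)
    (fun p hp => (hb v p hv' hp).1) (base χ hχ hu hw hv)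
  have hc := ((M_chi χ).mul (M_cpow (-v))).conv (M_fac (bl χ u v w))
  have e : Bf χ u v w l = ∑ d ∈ l.divisors, χ d * (d : ℂ) ^ (-v) *
      ∏ p ∈ (l / d).primeFactors, bl χ u v w p ((l / d).factorization p) := by
    have := Nat.multiplicative_factorization _ hc.2 hc.1 (n := l) (by omega)
    simp only [LSeries.convolution_def] at this
    rw [Nat.sum_divisorsAntidiagonal fun a b => χ a * (a : ℂ) ^ (-v) *
      ∏ p ∈ b.primeFactors, bl χ u v w p (b.factorization p)] at this
    rw [this]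
    refine prod_congr rfl fun p hp => ?_
    have hp := Nat.prime_of_mem_primeFactors hp
    beta_reduce
    rw [Nat.sum_divisorsAntidiagonal fun a b => χ a * (a : ℂ) ^ (-v) *
      ∏ p ∈ b.primeFactors, bl χ u v w p (b.factorization p), Nat.sum_divisors_prime_pow hp]
    refine sum_congr rfl fun i hi => ?_
    rw [hq, Nat.pow_div (Nat.lt_succ_iff.1 (mem_range.1 hi)) hp.pos]
    congr 1
    by_cases z : l.factorization p - i = 0
    · simp [z, (hb v p hv' hp).1]
    · exact (fac_pow _ hp z).symm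
  rw [e, mul_sum]
  simp only [U.Bh_eq _ _ hl, mul_sum, sum_mul]
  refine hasSum_sum fun d hd => ?_
  obtain ⟨g, rfl⟩ := Nat.dvd_of_mem_divisors hd
  have d0 : d ≠ 0 := left_ne_zero_of_mul (Nat.one_le_iff_ne_zero.1 hl)
  rw [Nat.mul_div_cancel_left _ (Nat.pos_of_ne_zero d0), mul_left_comm]
  refine ((mul_right_injective₀ d0).hasSum_iff fun n hn => ?_).1 ?_
  · rw [if_neg fun ⟨k, hk⟩ => hn ⟨k, hk.symm⟩, mul_zero, zero_mul]
  · have k := (T g (right_ne_zero_of_mul (Nat.one_le_iff_ne_zero.1 hl))).mul_left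
      (χ d * (d : ℂ) ^ (-v))
    refine HasSum.congr_fun k fun k => ?_
    have d1 : (d : ℂ) ^ (-v) = d * (d : ℂ) ^ (-1 - v) := by
      rw [show -v = 1 + (-1 - v) by ring, cpow_add _ _ (Nat.cast_ne_zero.2 d0), cpow_one]
    rw [Function.comp, if_pos (dvd_mul_right d k), show d * k * (d * g) = d ^ 2 * (k * g) by ring,
      Nat.mul_div_cancel_left _ (by positivity), show -(1 + v) = -1 - v by ring, mul_right_comm,
      hψ, d1]
    ring

end Pool.Agent.MP_20b2fd_nt.F5
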