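import Pool.Agent.MP_20b2fd_nt.F5.Util
import Pool.Agent.MP_20b2fd_nt.H38.M1

/-! The Dirichlet series of the shifted divisor function. -/

set_option autoImplicit false

namespace Pool.Agent.MP_20b2fd_nt.F5

open Complex Finset ArithmeticFunction
open DirichletCharacter (LFunction)
open Pool.Agent.MP_c5bf7b_nt.H38 (Ch)
open Pool.Agent.MP_20b2fd_nt.H38

namespace AR3A

theorem sum_const_div (n : ℕ) (c : ℂ) : ∑ _p ∈ n.divisorsAntidiagonal, c = (tau n : ℝ) * c := by
  rw [Nat.sum_divisorsAntidiagonal fun _ _ => c, sum_const, nsmul_eq_mul, tau, ofReal_natCast]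

theorem base {D : ℕ} [NeZero D] (χ : Ch D) {u : ℂ} (hu : 1 < u.re) :
    HasSum (fun h : ℕ => (tau h : ℝ) * χ h * (h : ℂ) ^ (-u)) (LFunction χ u ^ 2) ∧
    HasSum (fun h : ℕ => (tau h : ℝ) * (Real.log h : ℂ) * χ h * (h : ℂ) ^ (-u))
      (-(2 * LFunction χ u * deriv (LFunction χ) u)) := by
  have ha : LSeries.abscissaOfAbsConv (fun n : ℕ => χ n) < u.re := by
    rwa [DirichletCharacter.absicssaOfAbsConv_eq_one (NeZero.ne D), ← EReal.coe_one,
      EReal.coe_lt_coe_iff]
  have h0 := (DirichletCharacter.LSeriesSummable_of_one_lt_re χ hu).LSeriesHasSum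
  have h1 := (LSeriesSummable_logMul_of_lt_re ha).LSeriesHasSum
  rw [DirichletCharacter.deriv_LFunction_eq_deriv_LSeries χ hu, LSeries_deriv ha,
    DirichletCharacter.LFunction_eq_LSeries χ hu]
  constructor
  · rw [sq]
    refine (congrArg (HasSum · _) (funext fun h => ?_)).mp (h0.convolution h0)
    rw [LSeries.term_def₀ (LSeries.convolution_map_zero _ _), LSeries.convolution_def,
      ← sum_const_div]
    congr 1
    refine sum_congr rfl fun p hp => ?_
    rw [← (Nat.mem_divisorsAntidiagonal.1 hp).1, Nat.cast_mul, map_mul]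
  · have h2 := HasSum.add (h1.convolution h0) (h0.convolution h1)
    refine (congrArg₂ HasSum (funext fun h => ?_) (by ring)).mp h2
    rw [LSeries.term_def₀ (LSeries.convolution_map_zero _ _),
      LSeries.term_def₀ (LSeries.convolution_map_zero _ _), LSeries.convolution_def,
      LSeries.convolution_def, mul_assoc (tau h : ℂ), ← sum_const_div, ← add_mul,
      ← sum_add_distrib]
    congr 1
    refine sum_congr rfl fun p hp => ?_
    obtain ⟨a, b⟩ := Nat.ne_zero_of_mem_divisorsAntidiagonal hp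
    rw [← (Nat.mem_divisorsAntidiagonal.1 hp).1, Nat.cast_mul, Nat.cast_mul, map_mul,
      Real.log_mul (by exact_mod_cast a) (by exact_mod_cast b), ofReal_add, LSeries.logMul,
      LSeries.logMul, natCast_log, natCast_log]
    ring

theorem shift {e : ℕ} (he : e ≠ 0) {F : ℕ → ℂ} {a : ℂ} (h : HasSum (fun n => F (e * n)) a) :
    HasSum (fun n => if e ∣ n then F n else 0) a := by
  refine ((mul_right_injective₀ he).hasSum_iff fun n hn => if_neg ?_).1 ?_
  · rintro ⟨c, rfl⟩
    exact hn ⟨c, rfl⟩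
  · refine (congrArg (HasSum · _) (funext fun n => ?_)).mp h
    exact (if_pos (dvd_mul_right e n)).symm

theorem tau_eq {g : ℕ} (hg : 1 ≤ g) (h : ℕ) : ((tau (g * h) : ℝ) : ℂ) =
    ∑ y ∈ g.divisorsAntidiagonal,
      if y.1 ∣ h then (moebius y.1 : ℂ) * (tau y.2 : ℝ) * (tau (h / y.1) : ℝ) else 0 := by
  rcases Nat.eq_zero_or_pos h with rfl | hh
  · simp [tau]
  rw [M1A.tau_mul (mem_Icc.2 ⟨hg, le_rfl⟩) hh, Nat.sum_divisorsAntidiagonal fun a b =>
    if a ∣ h then (moebius a : ℂ) * (tau b : ℝ) * (tau (h / a) : ℝ) else 0, Nat.divisors,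
    sum_filter, ofReal_sum]
  refine sum_congr rfl fun e _ => ?_
  by_cases h1 : e ∣ g <;> by_cases h2 : e ∣ h <;> simp [h1, h2]

end AR3A

open AR3A in
theorem ar3 : AR3S := by
  intro D _ χ g u hg hu
  obtain ⟨b0, b1⟩ := base χ hu
  constructor
  · rw [T0, mul_sum]
    refine (congrArg (HasSum · _) (funext fun h => ?_)).mp (hasSum_sum fun y hy => shift
      (F := fun h => (moebius y.1 : ℂ) * (tau y.2 : ℝ) * (tau (h / y.1) : ℝ) * χ h * (h : ℂ) ^ (-u))
      (Nat.ne_zero_of_mem_divisorsAntidiagonal hy).1 ?_)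
    · rw [tau_eq hg, sum_mul, sum_mul]
      exact sum_congr rfl fun y _ => by split_ifs <;> simp
    · refine (congrArg (HasSum · _) (funext fun n => ?_)).mp (b0.mul_right _)
      rw [Nat.mul_div_cancel_left _ (Nat.ne_zero_of_mem_divisorsAntidiagonal hy).1.bot_lt,
        Nat.cast_mul, Nat.cast_mul, map_mul, natCast_mul_natCast_cpow]
      ring
  · rw [T0, T1, mul_sum, mul_sum, ← sum_sub_distrib]
    refine (congrArg (HasSum · _) (funext fun h => ?_)).mp (hasSum_sum fun y hy => shift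
      (F := fun h => (moebius y.1 : ℂ) * (tau y.2 : ℝ) * (tau (h / y.1) : ℝ) * (Real.log h : ℂ) *
        χ h * (h : ℂ) ^ (-u)) (Nat.ne_zero_of_mem_divisorsAntidiagonal hy).1 ?_)
    · rw [ofReal_mul, tau_eq hg, sum_mul, sum_mul, sum_mul]
      exact sum_congr rfl fun y _ => by split_ifs <;> simp
    · have h0 := (Nat.ne_zero_of_mem_divisorsAntidiagonal hy).1
      refine (congrArg₂ HasSum (funext fun n => ?_) (by ring)).mp
        ((b0.mul_right ((moebius y.1 : ℂ) * χ y.1 * (y.1 : ℂ) ^ (-u) *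
          ((tau y.2 * Real.log y.1 : ℝ) : ℂ))).add
          (b1.mul_right ((moebius y.1 : ℂ) * χ y.1 * (y.1 : ℂ) ^ (-u) * (tau y.2 : ℝ))))
      rw [Nat.mul_div_cancel_left _ h0.bot_lt]
      rcases eq_or_ne n 0 with rfl | hn
      · simp [tau]
      rw [Nat.cast_mul, Nat.cast_mul, Nat.cast_mul, map_mul, natCast_mul_natCast_cpow,
        Real.log_mul (by exact_mod_cast h0) (by exact_mod_cast hn), ofReal_add, ofReal_mul]
      ring

end Pool.Agent.MP_20b2fd_nt.F5
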