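import Pool.Agent.MP_20b2fd_nt.F5.Spec

/-! The local factors of the twisted fourth moment. -/

set_option autoImplicit false

namespace Pool.Agent.MP_20b2fd_nt.F5

open Complex Finset ArithmeticFunction
open Pool.Agent.MP_c5bf7b_nt.H38 (Ch)
open Pool.Agent.MP_20b2fd_nt.H38

namespace BLA

noncomputable def mu (a : ℕ) : ℂ := if a = 0 then 1 else if a = 1 then -1 else 0

noncomputable def gf (y z : ℂ) (j : ℕ) : ℂ :=
  ∑ b ∈ antidiagonal j, mu b.1 * z ^ b.1 * ((b.2 + 1) * y ^ b.2)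

noncomputable def cf (x y z : ℂ) (m : ℕ) : ℂ := ∑ a ∈ antidiagonal m, x ^ a.1 * gf y z a.2

/-- the inverse of the local factor -/
noncomputable def Ef (X Y Z : ℂ) : ℂ := (1 - X) * (1 - Y) ^ 2 / (1 - Z)

noncomputable def S (i : ℕ) : ℝ := ((i : ℝ) + 1) ^ 3 * (3 / 4) ^ i

noncomputable def K : ℝ := ∑' i, S i

theorem sumS : Summable S := by
  have h := (summable_nat_add_iff 1).2
    (summable_pow_mul_geometric_of_norm_lt_one 3 (r := (3 / 4 : ℝ)) (by norm_num))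
  refine (h.mul_left (4 / 3)).congr fun i => ?_
  unfold S
  push_cast
  ring

theorem K0 : 0 ≤ K := tsum_nonneg fun i => by unfold S; positivity

theorem mu_le (a : ℕ) : ‖mu a‖ ≤ 1 := by
  unfold mu
  split_ifs <;> simp

theorem sum_pp {p : ℕ} (hp : p.Prime) (f : ℕ → ℕ → ℂ) (m : ℕ) :
    ∑ x ∈ (p ^ m).divisorsAntidiagonal, f x.1 x.2
      = ∑ a ∈ antidiagonal m, f (p ^ a.1) (p ^ a.2) := by
  rw [Nat.sum_divisorsAntidiagonal f, Nat.sum_divisors_prime_pow hp,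
    Finset.Nat.sum_antidiagonal_eq_sum_range_succ fun i j => f (p ^ i) (p ^ j)]
  refine sum_congr rfl fun i hi => ?_
  rw [Nat.pow_div (Nat.lt_succ_iff.1 (mem_range.1 hi)) hp.pos]

theorem cpow_pp (p i : ℕ) (s : ℂ) : ((p ^ i : ℕ) : ℂ) ^ s = ((p : ℂ) ^ s) ^ i := by
  rw [Nat.cast_pow, ← natCast_cpow_natCast_mul, cpow_nat_mul]

theorem Af_pp {D : ℕ} (χ : Ch D) (u w : ℂ) {p : ℕ} (hp : p.Prime) (m : ℕ) :
    Af χ u w (p ^ m) = cf (χ p * (p : ℂ) ^ (-u)) ((p : ℂ) ^ (-w))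
      (χ p * (p : ℂ) ^ (-1 - u - 2 * w)) m := by
  unfold Af cf gf
  rw [sum_pp hp fun a b => χ a * (a : ℂ) ^ (-u) * ∑ y ∈ b.divisorsAntidiagonal,
    (moebius y.1 : ℂ) * χ y.1 * (y.1 : ℂ) ^ (-1 - u - 2 * w) *
      ((tau y.2 : ℝ) * (y.2 : ℂ) ^ (-w))]
  refine sum_congr rfl fun a _ => ?_
  rw [sum_pp hp fun a b => (moebius a : ℂ) * χ a * (a : ℂ) ^ (-1 - u - 2 * w) *
    ((tau b : ℝ) * (b : ℂ) ^ (-w)), cpow_pp, Nat.cast_pow, map_pow, mul_pow]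
  congr 1
  refine sum_congr rfl fun b _ => ?_
  have e1 : (moebius (p ^ b.1) : ℂ) = mu b.1 := by
    unfold mu
    split_ifs with h h'
    · simp [h]
    · simp [moebius_apply_prime hp, h']
    · simp [moebius_apply_prime_pow hp h, h']
  have e2 : ((tau (p ^ b.2) : ℝ) : ℂ) = b.2 + 1 := by
    rw [tau, Nat.divisors_prime_pow hp, card_map, card_range]
    norm_num
  rw [e1, e2, cpow_pp, cpow_pp, Nat.cast_pow, map_pow, mul_pow, mul_assoc (mu _)]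

theorem cf_one (x y z : ℂ) : cf x y z 1 = 2 * y + x - z := by
  simp [cf, gf, mu, Finset.Nat.antidiagonal_succ]
  ring

theorem cf_hom (x y z ψ : ℂ) (m : ℕ) : ψ ^ m * cf x y z m = cf (x * ψ) (y * ψ) (z * ψ) m := by
  unfold cf gf
  rw [mul_sum]
  refine sum_congr rfl fun a ha => ?_
  rw [mul_sum, mul_sum, mul_sum]
  refine sum_congr rfl fun b hb => ?_
  rw [← mem_antidiagonal.1 ha, ← mem_antidiagonal.1 hb]
  ring

theorem cf_sum {X Y Z : ℂ} (hX : ‖X‖ < 1) (hY : ‖Y‖ < 1) (hZ : ‖Z‖ < 1) :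
    (∑' m, cf X Y Z m) * Ef X Y Z = 1 := by
  have s1 := summable_norm_geometric_of_norm_lt_one hX
  have z2 : ∀ a ∉ range 2, mu a * Z ^ a = 0 := fun a ha => by
    have : ¬a < 2 := fun h => ha (mem_range.2 h)
    rw [mu, if_neg (by omega), if_neg (by omega), zero_mul]
  have s2 : Summable fun a => ‖mu a * Z ^ a‖ :=
    summable_of_ne_finset_zero (s := range 2) fun a ha => by rw [z2 a ha, norm_zero]
  have h3 := hasSum_choose_mul_geometric_of_norm_lt_one 1 hY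
  simp only [Nat.choose_one_right, Nat.cast_add, Nat.cast_one] at h3
  have s3 := h3.summable.norm
  have e2 := tsum_mul_tsum_eq_tsum_sum_antidiagonal_of_summable_norm s2 s3
  have e1 := tsum_mul_tsum_eq_tsum_sum_antidiagonal_of_summable_norm s1
    (summable_norm_sum_mul_antidiagonal_of_summable_norm s2 s3)
  rw [← e2, h3.tsum_eq, tsum_eq_sum z2, tsum_geometric_of_norm_lt_one hX] at e1
  have n : ∀ {W : ℂ}, ‖W‖ < 1 → 1 - W ≠ 0 := fun h e => by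
    rw [← sub_eq_zero.1 e, norm_one] at h
    exact lt_irrefl _ h
  have a1 := n hX
  have a2 := n hY
  have a3 := n hZ
  unfold cf gf Ef
  rw [← e1]
  simp only [sum_range_succ, sum_range_zero, mu]
  norm_num
  field_simp
  ring

theorem Ef_le {X Y Z : ℂ} {δ : ℝ} (hδ : δ ≤ 3 / 4) (hX : ‖X‖ ≤ δ) (hY : ‖Y‖ ≤ δ) (hZ : ‖Z‖ ≤ δ) :
    1 - Z ≠ 0 ∧ ‖Ef X Y Z - 1‖ ≤ 32 * δ ∧ ‖Ef X Y Z‖ ≤ 32 := by
  have h0 : 0 ≤ δ := (norm_nonneg _).trans hX
  have h1 : 1 / 4 ≤ ‖1 - Z‖ := by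
    have := norm_sub_norm_le 1 Z
    rw [norm_one] at this
    linarith
  have h2 : 1 - Z ≠ 0 := norm_pos_iff.1 (by linarith)
  have h3 : ‖Ef X Y Z - 1‖ ≤ 32 * δ := by
    have e : Ef X Y Z - 1 = (Z - 2 * Y + Y * Y - X * ((1 - Y) * (1 - Y))) / (1 - Z) := by
      unfold Ef
      field_simp
      ring
    have b : ‖1 - Y‖ ≤ 2 := (norm_sub_le _ _).trans (by rw [norm_one]; linarith)
    have b1 : ‖X * ((1 - Y) * (1 - Y))‖ ≤ δ * (2 * 2) := by
      rw [norm_mul, norm_mul]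
      gcongr
    have b2 : ‖Y * Y‖ ≤ δ * 1 := by
      rw [norm_mul]
      gcongr
      linarith
    have b3 : ‖2 * Y‖ ≤ 2 * δ := by
      rw [norm_mul, Complex.norm_ofNat]
      gcongr
    have b4 := norm_sub_le (Z - 2 * Y + Y * Y) (X * ((1 - Y) * (1 - Y)))
    have b5 := norm_add_le (Z - 2 * Y) (Y * Y)
    have b6 := norm_sub_le Z (2 * Y)
    rw [e, norm_div, div_le_iff₀ (by linarith)]
    nlinarith
  refine ⟨h2, h3, ?_⟩
  have := norm_sub_norm_le (Ef X Y Z) 1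
  rw [norm_one] at this
  linarith

section loc

variable {x y z ψ : ℂ} {t : ℝ} (hx : ‖x‖ ≤ t) (hy : ‖y‖ ≤ t) (hz : ‖z‖ ≤ t)

include hx hy hz

theorem cf_le (m : ℕ) : ‖cf x y z m‖ ≤ ((m : ℝ) + 1) ^ 3 * t ^ m := by
  have h0 : 0 ≤ t := (norm_nonneg _).trans hx
  have g : ∀ j : ℕ, ‖gf y z j‖ ≤ ((j : ℝ) + 1) ^ 2 * t ^ j := fun j => by
    refine (norm_sum_le _ _).trans ((sum_le_card_nsmul _ _ (((j : ℝ) + 1) * t ^ j)
      fun b hb => ?_).trans_eq ?_)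
    · have e := mem_antidiagonal.1 hb
      have b1 : ‖(b.2 : ℂ) + 1‖ ≤ (j : ℝ) + 1 := by
        rw [← Nat.cast_succ, Complex.norm_natCast]
        exact_mod_cast (by omega : b.2 + 1 ≤ j + 1)
      rw [norm_mul, norm_mul, norm_mul, norm_pow, norm_pow]
      calc _ ≤ 1 * t ^ b.1 * (((j : ℝ) + 1) * t ^ b.2) := by
            gcongr
            exact mu_le _
        _ = _ := by rw [← e]; ring
    · rw [Finset.Nat.card_antidiagonal, nsmul_eq_mul]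
      push_cast
      ring
  refine (norm_sum_le _ _).trans ((sum_le_card_nsmul _ _ (((m : ℝ) + 1) ^ 2 * t ^ m)
    fun a ha => ?_).trans_eq ?_)
  · have e := mem_antidiagonal.1 ha
    have b1 : (a.2 : ℝ) ≤ m := by exact_mod_cast (by omega : a.2 ≤ m)
    rw [norm_mul, norm_pow]
    calc _ ≤ t ^ a.1 * (((m : ℝ) + 1) ^ 2 * t ^ a.2) := by
          gcongr
          exact (g _).trans (by gcongr)
      _ = _ := by rw [← e]; ring
  · rw [Finset.Nat.card_antidiagonal, nsmul_eq_mul]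
    push_cast
    ring

variable (hψ : ‖ψ‖ * t ≤ 3 / 4)

include hψ

theorem term_le (a i : ℕ) : ‖ψ ^ i * cf x y z (i + a)‖ ≤ (8 * t) ^ a * S i := by
  have h0 : 0 ≤ t := (norm_nonneg _).trans hx
  have h1 : ((i + a : ℕ) : ℝ) + 1 ≤ ((i : ℝ) + 1) * 2 ^ a := by
    have : (a : ℝ) + 1 ≤ 2 ^ a := by exact_mod_cast Nat.lt_two_pow_self
    push_cast
    nlinarith [mul_nonneg (Nat.cast_nonneg (α := ℝ) i) (Nat.cast_nonneg (α := ℝ) a),
      mul_le_mul_of_nonneg_left this (Nat.cast_nonneg (α := ℝ) i)]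
  rw [norm_mul, norm_pow]
  calc _ ≤ ‖ψ‖ ^ i * ((((i : ℝ) + 1) * 2 ^ a) ^ 3 * t ^ (i + a)) := by
        gcongr
        exact (cf_le hx hy hz _).trans (by gcongr)
    _ = (2 ^ 3 * t) ^ a * (((i : ℝ) + 1) ^ 3 * (‖ψ‖ * t) ^ i) := by
        simp only [mul_pow, pow_add, ← pow_mul, mul_comm a 3]
        ring
    _ ≤ _ := by
        unfold S
        norm_num
        gcongr

theorem sum_norm (a : ℕ) : Summable fun i => ‖ψ ^ i * cf x y z (i + a)‖ :=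
  (sumS.mul_left _).of_nonneg_of_le (fun _ => norm_nonneg _) (term_le hx hy hz hψ a)

theorem sl_le (a : ℕ) : ‖∑' i, ψ ^ i * cf x y z (i + a)‖ ≤ (8 * t) ^ a * K :=
  tsum_of_norm_bounded (sumS.hasSum.mul_left _) (term_le hx hy hz hψ a)

omit hψ in
theorem mul_le : ‖x * ψ‖ ≤ ‖ψ‖ * t ∧ ‖y * ψ‖ ≤ ‖ψ‖ * t ∧ ‖z * ψ‖ ≤ ‖ψ‖ * t := by
  simp only [norm_mul, mul_comm _ ‖ψ‖]
  refine ⟨?_, ?_, ?_⟩ <;> gcongr

theorem bl_zero : (∑' i, ψ ^ i * cf x y z (i + 0)) * Ef (x * ψ) (y * ψ) (z * ψ) = 1 := by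
  obtain ⟨a, b, c⟩ := mul_le (ψ := ψ) hx hy hz
  simp only [add_zero, cf_hom]
  exact cf_sum (by linarith) (by linarith) (by linarith)

theorem bl_le (a : ℕ) :
    ‖(∑' i, ψ ^ i * cf x y z (i + a)) * Ef (x * ψ) (y * ψ) (z * ψ)‖ ≤ 32 * K * (8 * t) ^ a := by
  obtain ⟨a1, a2, a3⟩ := mul_le (ψ := ψ) hx hy hz
  rw [norm_mul]
  refine (mul_le_mul (sl_le hx hy hz hψ a) (Ef_le hψ a1 a2 a3).2.2 (norm_nonneg _)
    ((norm_nonneg _).trans (sl_le hx hy hz hψ a))).trans_eq (by ring)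

theorem bl_one : ‖(∑' i, ψ ^ i * cf x y z (i + 1)) * Ef (x * ψ) (y * ψ) (z * ψ) - (2 * y + x)‖
    ≤ 320 * K * (‖ψ‖ * t ^ 2) + ‖z‖ := by
  obtain ⟨a1, a2, a3⟩ := mul_le (ψ := ψ) hx hy hz
  have h1 := (sum_norm hx hy hz hψ 1).of_norm.tsum_eq_zero_add
  have h2 : ∑' i, ψ ^ (i + 1) * cf x y z (i + 1 + 1) = ψ * ∑' i, ψ ^ i * cf x y z (i + 2) := by
    rw [← tsum_mul_left]
    exact tsum_congr fun i => by ring
  rw [h2, pow_zero, one_mul, zero_add, cf_one] at h1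
  have h3 := sl_le hx hy hz hψ 1
  have h4 := sl_le hx hy hz hψ 2
  have h5 := (Ef_le hψ a1 a2 a3).2.1
  generalize ∑' i, ψ ^ i * cf x y z (i + 1) = s1 at h1 h3 ⊢
  generalize ∑' i, ψ ^ i * cf x y z (i + 2) = s2 at h1 h4
  generalize Ef (x * ψ) (y * ψ) (z * ψ) = E at h5 ⊢
  have e : s1 * E - (2 * y + x) = s1 * (E - 1) + ψ * s2 - z := by linear_combination h1
  have b1 : ‖s1 * (E - 1)‖ ≤ (8 * t) ^ 1 * K * (32 * (‖ψ‖ * t)) := by
    rw [norm_mul]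
    exact mul_le_mul h3 h5 (norm_nonneg _) ((norm_nonneg _).trans h3)
  have b2 : ‖ψ * s2‖ ≤ ‖ψ‖ * ((8 * t) ^ 2 * K) := by
    rw [norm_mul]
    gcongr
  have b3 := norm_sub_le (s1 * (E - 1) + ψ * s2) z
  have b4 := norm_add_le (s1 * (E - 1)) (ψ * s2)
  rw [e]
  linarith

end loc

section arith

variable {D : ℕ} (χ : Ch D) {p : ℕ} (hp : p.Prime)

include hp

theorem n1 {s : ℂ} {e : ℝ} (h : s.re ≤ e) : ‖(p : ℂ) ^ s‖ ≤ (p : ℝ) ^ e := by
  rw [norm_natCast_cpow_of_pos hp.pos]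
  exact Real.rpow_le_rpow_of_exponent_le (by exact_mod_cast hp.one_le) h

theorem n2 {s : ℂ} {e : ℝ} (h : s.re ≤ e) : ‖χ p * (p : ℂ) ^ s‖ ≤ (p : ℝ) ^ e := by
  rw [norm_mul]
  exact (mul_le_of_le_one_left (norm_nonneg _) (χ.norm_le_one _)).trans (n1 hp h)

theorem n3 {a b : ℝ} (h : a + b ≤ -1 / 2) : (p : ℝ) ^ a * (p : ℝ) ^ b ≤ 3 / 4 := by
  have h2 : (2 : ℝ) ≤ p := by exact_mod_cast hp.two_le
  rw [← Real.rpow_add (by linarith)]
  refine (Real.rpow_le_rpow_of_exponent_le (by linarith) h).trans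
    (le_of_sq_le_sq ?_ (by norm_num : (0 : ℝ) ≤ 3 / 4))
  rw [← Real.rpow_natCast, ← Real.rpow_mul (by linarith)]
  norm_num
  rw [Real.rpow_neg_one, inv_le_comm₀ (by linarith) (by norm_num)]
  linarith

theorem bl_eq (u v w : ℂ) (a : ℕ) : bl χ u v w p a =
    (∑' i, (χ p * (p : ℂ) ^ (-1 - v)) ^ i * cf (χ p * (p : ℂ) ^ (-u)) ((p : ℂ) ^ (-w))
      (χ p * (p : ℂ) ^ (-1 - u - 2 * w)) (i + a)) *
    Ef (χ p * (p : ℂ) ^ (-u) * (χ p * (p : ℂ) ^ (-1 - v)))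
      ((p : ℂ) ^ (-w) * (χ p * (p : ℂ) ^ (-1 - v)))
      (χ p * (p : ℂ) ^ (-1 - u - 2 * w) * (χ p * (p : ℂ) ^ (-1 - v))) := by
  have p0 : (p : ℂ) ≠ 0 := Nat.cast_ne_zero.2 hp.ne_zero
  unfold bl sl0 Ef
  simp only [Af_pp χ u w hp]
  rw [show -1 - u - v = -u + (-1 - v) by ring, show -1 - v - w = -w + (-1 - v) by ring,
    show -2 - u - v - 2 * w = -1 - u - 2 * w + (-1 - v) by ring, cpow_add _ _ p0, cpow_add _ _ p0,
    cpow_add _ _ p0]
  ring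

theorem hyp {u v w : ℂ} {ρ : ℝ} (hu : ‖u‖ ≤ ρ) (hw : ‖w‖ ≤ ρ) (hρ : ρ ≤ 1 / 100)
    (hv : -1 / 3 ≤ v.re) : ‖χ p * (p : ℂ) ^ (-u)‖ ≤ (p : ℝ) ^ ρ ∧ ‖(p : ℂ) ^ (-w)‖ ≤ (p : ℝ) ^ ρ ∧
      ‖χ p * (p : ℂ) ^ (-1 - u - 2 * w)‖ ≤ (p : ℝ) ^ ρ ∧
      ‖χ p * (p : ℂ) ^ (-1 - v)‖ * (p : ℝ) ^ ρ ≤ 3 / 4 := by
  have a1 := abs_le.1 ((abs_re_le_norm u).trans hu)
  have a2 := abs_le.1 ((abs_re_le_norm w).trans hw)
  refine ⟨n2 χ hp (by simp; linarith), n1 hp (by simp; linarith), n2 χ hp (by simp; linarith),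
    (mul_le_mul_of_nonneg_right (n2 χ hp (e := -2 / 3) (by simp; linarith)) (by positivity)).trans
      (n3 hp (by linarith))⟩

theorem bp_le {u v w : ℂ} {ρ B : ℝ} (hu : ‖u‖ ≤ ρ) (hw : ‖w‖ ≤ ρ) (hρ : ρ ≤ 1 / 100)
    (hv : -1 / 3 ≤ v.re) (h1 : ‖χ p * (p : ℂ) ^ (-v)‖ ≤ B) (h2 : 8 * (p : ℝ) ^ ρ ≤ B) (a : ℕ) :
    ‖bp χ u v w p a‖ ≤ 32 * K * (2 * B) ^ a := by
  obtain ⟨a1, a2, a3, a4⟩ := hyp χ hp hu hw hρ hv
  have hB : 0 ≤ B := (norm_nonneg _).trans h1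
  have hK := K0
  refine (norm_sum_le _ _).trans ((sum_le_card_nsmul _ _ (32 * K * B ^ a) fun i hi => ?_).trans ?_)
  · rw [norm_mul, norm_pow, bl_eq χ hp]
    calc _ ≤ B ^ i * (32 * K * B ^ (a - i)) := by
          gcongr
          exact (bl_le a1 a2 a3 a4 _).trans (by gcongr)
      _ = 32 * K * B ^ (i + (a - i)) := by ring
      _ = _ := by rw [Nat.add_sub_cancel' (Nat.lt_succ_iff.1 (mem_range.1 hi))]
  · have : ((a + 1 : ℕ) : ℝ) ≤ 2 ^ a := by exact_mod_cast Nat.lt_two_pow_self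
    rw [card_range, nsmul_eq_mul]
    calc _ ≤ 2 ^ a * (32 * K * B ^ a) := by gcongr
      _ = _ := by rw [mul_pow]; ring

theorem bp_diff {u v w : ℂ} (hu : ‖u‖ ≤ 1 / 100) (hw : ‖w‖ ≤ 1 / 100) (hv : -1 / 3 < v.re)
    (a : ℕ) : DifferentiableAt ℂ (fun v => bp χ u v w p a) v := by
  have p0 : (p : ℂ) ≠ 0 := Nat.cast_ne_zero.2 hp.ne_zero
  have d : ∀ {f : ℂ → ℂ} {v : ℂ}, DifferentiableAt ℂ f v →
      DifferentiableAt ℂ (fun v => (p : ℂ) ^ f v) v := fun h => h.const_cpow (.inl p0)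
  have d1 : ∀ v : ℂ, DifferentiableAt ℂ (fun v : ℂ => χ p * (p : ℂ) ^ (-1 - v)) v := fun v =>
    (d (by fun_prop)).const_mul _
  unfold bp
  refine DifferentiableAt.fun_sum fun i _ => (((d (by fun_prop)).const_mul _).pow i).mul ?_
  simp only [bl_eq χ hp]
  have hU : IsOpen {v : ℂ | -1 / 3 < v.re} := isOpen_lt continuous_const continuous_re
  obtain ⟨a1, a2, a3, a4⟩ := hyp χ hp hu hw le_rfl hv.le
  obtain ⟨b1, b2, b3⟩ := mul_le (ψ := χ p * (p : ℂ) ^ (-1 - v)) a1 a2 a3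
  refine ((differentiableOn_tsum_of_summable_norm (sumS.mul_left _)
    (fun j v _ => (((d1 v).pow j).mul_const _).differentiableWithinAt) hU fun j v hv =>
      term_le a1 a2 a3 (hyp χ hp hu hw le_rfl (le_of_lt hv)).2.2.2 _ j).differentiableAt
        (hU.mem_nhds hv)).mul ?_
  unfold Ef
  exact ((((d1 v).const_mul _).const_sub 1).mul ((((d1 v).const_mul _).const_sub 1).pow 2)).div
    (((d1 v).const_mul _).const_sub 1) (Ef_le a4 b1 b2 b3).1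

end arith

end BLA

open BLA in
theorem blS : BLS := by
  obtain ⟨n, hn⟩ := pow_unbounded_of_one_lt (32 * K) (one_lt_two (α := ℝ))
  have hK := K0
  have hT : 1 ≤ Real.exp 2 := Real.one_le_exp (by norm_num)
  set T := Real.exp 2 with hTd
  have q1 : 0 ≤ 320 * K * T ^ 3 + T ^ 3 := by positivity
  refine ⟨320 * K * T ^ 3 + T ^ 3 + 32 * K + 16 * T, n + 5, by linarith,
    fun D χ u w hu hw => ⟨fun v => ⟨by simp [Bf], fun a b h => ?_, fun p a hp ha => ?_⟩,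
      fun v p hv hp => ?_, fun v l hv hl => ⟨?_, ?_⟩, fun v p ρ hp h1 h2 h3 h4 h5 => ?_⟩⟩
  · unfold Bf
    rw [h.primeFactors_mul, prod_union h.disjoint_primeFactors]
    congr 1
    · exact prod_congr rfl fun p hp => by
        rw [Nat.factorization_eq_of_coprime_left h (Nat.mem_primeFactors_iff_mem_primeFactorsList.1 hp)]
    · exact prod_congr rfl fun p hp => by
        rw [Nat.factorization_eq_of_coprime_right h
          (Nat.mem_primeFactors_iff_mem_primeFactorsList.1 hp)]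
  · unfold Bf
    rw [Nat.primeFactors_prime_pow (by omega) hp, prod_singleton, hp.factorization_pow,
      Finsupp.single_eq_same]
  · obtain ⟨a1, a2, a3, a4⟩ := hyp χ hp hu hw le_rfl (v := v) (by linarith)
    refine ⟨by rw [bl_eq χ hp]; exact bl_zero a1 a2 a3 a4, fun a => ?_⟩
    simp only [Af_pp χ u w hp]
    exact sum_norm a1 a2 a3 a4 a
  · unfold Bf
    exact DifferentiableAt.fun_finsetProd fun p hp =>
      bp_diff χ (Nat.prime_of_mem_primeFactors hp) hu hw (by linarith) _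
  · have e : (l : ℝ) = ∏ p ∈ l.primeFactors, (p : ℝ) ^ l.factorization p := by
      exact_mod_cast (Nat.prod_factorization_pow_eq_self (by omega : l ≠ 0)).symm
    rw [e, ← prod_pow, Bf, norm_prod]
    refine prod_le_prod (fun _ _ => norm_nonneg _) fun p hp => ?_
    have hp' := Nat.prime_of_mem_primeFactors hp
    have h2 : (2 : ℝ) ≤ p := by exact_mod_cast hp'.two_le
    have ha : 1 ≤ l.factorization p :=
      hp'.factorization_pos_of_dvd (by omega) (Nat.dvd_of_mem_primeFactors hp)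
    generalize l.factorization p = a at ha
    have b1 : ‖χ p * (p : ℂ) ^ (-v)‖ ≤ 8 * (p : ℝ) := by
      have := n2 χ hp' (s := -v) (e := 1) (by simp; linarith)
      rw [Real.rpow_one] at this
      linarith
    have b2 : (p : ℝ) ^ (1 / 100 : ℝ) ≤ p :=
      (Real.rpow_le_rpow_of_exponent_le (by linarith) (by norm_num)).trans_eq (Real.rpow_one _)
    have b3 : 2 * (8 * (p : ℝ)) ≤ (p : ℝ) ^ 5 := by
      have : (2 : ℝ) ^ 4 ≤ (p : ℝ) ^ 4 := by gcongr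
      nlinarith
    have b4 : (2 : ℝ) ≤ (p : ℝ) ^ a := h2.trans (le_self_pow₀ (by linarith) (by omega))
    calc _ ≤ 32 * K * (2 * (8 * (p : ℝ))) ^ a :=
          bp_le χ hp' hu hw le_rfl (by linarith) b1 (by linarith) a
      _ ≤ ((p : ℝ) ^ a) ^ n * ((p : ℝ) ^ 5) ^ a := by
          gcongr
          exact hn.le.trans (by gcongr)
      _ = _ := by ring
  · have hp0 : (0 : ℝ) < p := by exact_mod_cast hp.pos
    have c1 := abs_le.1 ((abs_re_le_norm u).trans h1)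
    have c2 := abs_le.1 ((abs_re_le_norm v).trans h2)
    have c3 := abs_le.1 ((abs_re_le_norm w).trans h3)
    have hv : -1 / 3 ≤ v.re := by linarith
    have ht : (p : ℝ) ^ ρ ≤ T := by
      rw [Real.rpow_def_of_pos hp0, mul_comm]
      exact Real.exp_le_exp.2 h5
    have ht0 : 0 ≤ (p : ℝ) ^ ρ := by positivity
    refine ⟨?_, fun a => ?_⟩
    · obtain ⟨a1, a2, a3, a4⟩ := hyp χ hp h1 h3 h4 hv
      have e : bp χ u v w p 1 = bl χ u v w p 1 + χ p * (p : ℂ) ^ (-v) := by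
        rw [bp, sum_range_succ, sum_range_one, Nat.sub_self, bl_eq χ hp u v w 0,
          bl_zero a1 a2 a3 a4]
        simp
      have b1 := bl_one a1 a2 a3 a4
      have b2 : ‖χ p * (p : ℂ) ^ (-1 - v)‖ ≤ T / p := by
        refine (n2 χ hp (e := ρ - 1) (by simp; linarith)).trans ?_
        rw [Real.rpow_sub_one hp0.ne']
        gcongr
      have b3 : ‖χ p * (p : ℂ) ^ (-1 - u - 2 * w)‖ ≤ T ^ 3 / p := by
        refine (n2 χ hp (e := ρ * (3 : ℕ) - 1) (by simp; linarith)).trans ?_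
        rw [Real.rpow_sub_one hp0.ne', Real.rpow_mul_natCast hp0.le]
        gcongr
      rw [e, add_sub_add_right_eq_sub, bl_eq χ hp]
      calc _ ≤ 320 * K * (T / p * T ^ 2) + T ^ 3 / p := b1.trans (by gcongr)
        _ = (320 * K * T ^ 3 + T ^ 3) / p := by ring
        _ ≤ _ := div_le_div_of_nonneg_right (by linarith) hp0.le
    · have b1 : ‖χ p * (p : ℂ) ^ (-v)‖ ≤ 8 * T :=
        (n2 χ hp (s := -v) (e := ρ) (by simp; linarith)).trans (by linarith)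
      refine (bp_le χ hp h1 h3 h4 hv b1 (by linarith) a).trans ?_
      rw [pow_succ']
      gcongr <;> linarith

end Pool.Agent.MP_20b2fd_nt.F5
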