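import Pool.Agent.MP_20b2fd_nt.F5.Util
import Pool.Agent.MP_20b2fd_nt.H38.Ik

/-! Completion in two variables. -/

set_option autoImplicit false

namespace Pool.Agent.MP_20b2fd_nt.F5

open Complex Finset
open Pool.Agent.MP_c5bf7b_nt.H38 (Ch)
open Pool.Agent.MP_20b2fd_nt.H38

namespace BXA

theorem ee_add (x y : ℂ) : ee (x + y) = ee x * ee y := by
  rw [ee, mul_add, Complex.exp_add, ee, ee]

theorem ee_eq (m : ℕ) [NeZero m] (k : ℤ) : ee (k / m) = ZMod.stdAddChar (k : ZMod m) := by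
  rw [ZMod.stdAddChar_coe, ee, mul_div_assoc]

theorem orth (m : ℕ) [NeZero m] (k : ℤ) :
    ∑ ν ∈ range m, ee (ν * k / m) = if (m : ℤ) ∣ k then (m : ℂ) else 0 := by
  have h := AddChar.sum_mulShift (k : ZMod m) (ZMod.isPrimitive_stdAddChar m)
  rw [IkA.sum_zmod, ZMod.card] at h
  simp only [← ZMod.intCast_zmod_eq_zero_iff_dvd]
  refine (sum_congr rfl fun ν _ => ?_).trans (h.trans (by split_ifs <;> simp))
  have := ee_eq m (ν * k)
  push_cast at this
  exact this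

theorem four (m : ℕ) [NeZero m] (f : ℕ → ℂ) (x : ℕ) (hf : f (x % m) = f x) :
    m * f x = ∑ ν ∈ range m, (∑ t ∈ range m, f t * ee (-ν * t / m)) * ee (ν * x / m) := by
  have h : ∀ t : ℕ, ∑ ν ∈ range m, f t * ee (-ν * t / m) * ee (ν * x / m) =
      f t * if (m : ℤ) ∣ x - t then (m : ℂ) else 0 := fun t => by
    rw [← orth, mul_sum]
    refine sum_congr rfl fun ν _ => ?_
    rw [mul_assoc, ← ee_add]
    congr 2
    push_cast
    ring
  simp only [sum_mul]
  rw [sum_comm, sum_congr rfl fun t _ => h t, sum_eq_single (x % m) (fun t ht h1 => ?_)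
    fun h1 => absurd (mem_range.2 (Nat.mod_lt _ (NeZero.pos m))) h1, hf,
    if_pos (Nat.mod_modEq x m).dvd, mul_comm]
  rw [if_neg fun h2 => h1 ?_, mul_zero]
  rw [← Nat.mod_eq_of_lt (mem_range.1 ht)]
  exact Nat.modEq_iff_dvd.2 h2

/-- the bound for a geometric sum -/
noncomputable def w (c r : ℕ) : ℝ := if r = 0 then 0 else c / 2 * (1 / r + 1 / (c - r : ℕ))

theorem w_nonneg (c r : ℕ) : 0 ≤ w c r := by
  unfold w
  positivity

theorem geo (c : ℕ) [NeZero c] (j X : ℕ) :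
    ‖∑ x ∈ Icc 1 X, ee (j * x / c) - X * if j % c = 0 then 1 else 0‖ ≤ w c (j % c) := by
  have h1 : ∀ x : ℕ, ee (j * x / c) = ZMod.stdAddChar ((j % c : ℕ) * (x : ℤ) : ZMod c) := fun x => by
    have := ee_eq c (j * x)
    rw [ZMod.natCast_mod]
    push_cast at this ⊢
    exact this
  simp only [h1, w]
  split_ifs with h
  · simp [h]
  · have h2 := Nat.mod_lt j (NeZero.pos c)
    have h3 := IkA.geo (c := c) (Int.natCast_nonneg X) h2
    rw [if_neg h, zero_add, ← Nat.cast_sub h2.le] at h3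
    rw [mul_zero, sub_zero]
    refine le_of_eq_of_le (congrArg norm ?_) h3
    exact sum_nbij' Nat.cast Int.toNat (fun x hx => by simp only [mem_Icc, mem_Ioc] at hx ⊢; omega)
      (fun x hx => by simp only [mem_Icc, mem_Ioc] at hx ⊢; omega) (fun x _ => by simp)
      (fun x hx => by simp only [mem_Ioc] at hx; omega) fun _ _ => rfl

theorem inj {s t : Finset ℕ} {f F : ℕ → ℝ} (g : ℕ → ℕ) (h1 : Set.InjOn g s) (h2 : ∀ x ∈ s, g x ∈ t)
    (h3 : ∀ x ∈ s, f x ≤ F (g x)) (h4 : ∀ y, 0 ≤ F y) : ∑ x ∈ s, f x ≤ ∑ y ∈ t, F y :=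
  (sum_le_sum h3).trans ((sum_image h1).symm.trans_le
    (sum_le_sum_of_subset_of_nonneg (image_subset_iff.2 h2) fun y _ _ => h4 y))

theorem gs {a : ℕ} (ha : a ≠ 0) (c : ℕ) :
    ∑ r ∈ Icc 1 c, (r.gcd a : ℝ) / r ≤ tau a * (1 + Real.log c) := by
  refine (sum_le_sum (g := fun r => ∑ d ∈ a.divisors, if d ∣ r then (d : ℝ) / r else 0)
    fun r _ => ?_).trans ?_
  · refine le_of_eq_of_le (if_pos (Nat.gcd_dvd_left r a)).symm (single_le_sum
      (f := fun d => if d ∣ r then (d : ℝ) / r else 0) (fun d _ => by positivity)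
      (Nat.mem_divisors.2 ⟨Nat.gcd_dvd_right r a, ha⟩))
  rw [sum_comm, tau, ← nsmul_eq_mul]
  refine sum_le_card_nsmul _ _ _ fun d hd => le_trans ?_ (U.sum_inv c)
  have h0 := Nat.pos_of_mem_divisors hd
  rw [← sum_filter]
  refine inj (· / d) (fun x hx y hy e => ?_) (fun x hx => ?_) (fun x hx => le_of_eq ?_)
    fun y => by positivity
  · rw [← Nat.div_mul_cancel (mem_filter.1 hx).2, ← Nat.div_mul_cancel (mem_filter.1 hy).2]
    exact congrArg (· * d) e
  · obtain ⟨h1, h2⟩ := mem_filter.1 hx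
    rw [mem_Icc] at h1 ⊢
    exact ⟨Nat.div_pos (Nat.le_of_dvd h1.1 h2) h0, (Nat.div_le_self _ _).trans h1.2⟩
  · rw [Nat.cast_div (mem_filter.1 hx).2 (by positivity), one_div_div]

theorem ws {a c : ℕ} (ha : a ≠ 0) (h : a ∣ c) :
    ∑ r ∈ range c, r.gcd a * w c r ≤ c * (tau a * (1 + Real.log c)) := by
  have h1 : ∑ r ∈ (range c).filter (· ≠ 0), (r.gcd a : ℝ) / r ≤ _ :=
    (inj id (fun _ _ _ _ e => e) (fun x hx => ?_) (fun _ _ => le_rfl) fun y => by positivity).trans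
      (gs ha c)
  have h2 : ∑ r ∈ (range c).filter (· ≠ 0), (r.gcd a : ℝ) / (c - r : ℕ) ≤ _ :=
    (inj (c - ·) (fun x hx y hy e => ?_) (fun x hx => ?_) (fun x hx => ?_)
      fun y => by positivity).trans (gs ha c)
  · refine le_trans (le_of_eq ?_) ((mul_le_mul_of_nonneg_left (add_le_add h1 h2)
      (show (0 : ℝ) ≤ c / 2 by positivity)).trans_eq (by ring))
    rw [← sum_add_distrib, mul_sum, sum_filter]
    refine sum_congr rfl fun r _ => ?_
    unfold w
    by_cases e : r = 0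
    · simp [e]
    · rw [if_neg e, if_pos e]
      ring
  · simp only [coe_filter, mem_range, Set.mem_setOf_eq] at hx hy e
    omega
  · simp only [mem_filter, mem_range, mem_Icc] at hx ⊢
    omega
  · refine div_le_div_of_nonneg_right (Nat.cast_le.2 (Nat.le_of_dvd
      (Nat.gcd_pos_of_pos_right _ (Nat.pos_of_ne_zero ha)) (Nat.dvd_gcd ?_ (Nat.gcd_dvd_right _ _))))
      (by positivity)
    exact Nat.dvd_sub ((Nat.gcd_dvd_right _ _).trans h) (Nat.gcd_dvd_left _ _)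
  · simp only [mem_filter, mem_range, mem_Icc, id] at hx ⊢
    omega

variable {D : ℕ} [NeZero D] (χ : Ch D) (α : ℕ) [NeZero α]

theorem res {f : ℕ → ℕ → ℝ} {F : ℕ → ℝ} (h : ∀ ν b, f ν b ≤ F ((b * α + ν * D) % (α * D)))
    (hF : ∀ r, 0 ≤ F r) : ∑ ν ∈ range α, ∑ b ∈ range D, f ν b ≤ D * ∑ r ∈ range (α * D), F r := by
  rw [sum_comm, ← nsmul_eq_mul]
  refine (sum_le_card_nsmul _ _ _ fun b _ => ?_).trans_eq (by rw [card_range])
  refine inj (fun ν => (b * α + ν * D) % (α * D)) (fun x hx y hy e => ?_)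
    (fun x _ => mem_range.2 (Nat.mod_lt _ (NeZero.pos _))) (fun x _ => h x b) hF
  exact Nat.ModEq.eq_of_lt_of_lt (Nat.ModEq.mul_right_cancel' (NeZero.ne D)
    (Nat.ModEq.add_left_cancel' _ e)) (mem_range.1 hx) (mem_range.1 hy)

/-- the Fourier coefficients of the character -/
noncomputable def ch (b : ℕ) : ℂ := ∑ t ∈ range D, χ t * ee (-b * t / D)

theorem ch_le (b : ℕ) : ‖ch χ b‖ ≤ D := by
  refine (norm_sum_le_of_le _ (n := fun _ => 1) fun t _ => ?_).trans (by simp)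
  have := ee_eq D (-b * t)
  push_cast at this
  rw [norm_mul, this, IkA.norm_ch, mul_one]
  exact χ.norm_le_one _

theorem tw (ν x : ℕ) : D * (χ x * ee (ν * x / α)) =
    ∑ b ∈ range D, ch χ b * ee ((b * α + ν * D : ℕ) * x / (α * D : ℕ)) := by
  rw [← mul_assoc, four D (fun x => χ x) x (by rw [ZMod.natCast_mod]), sum_mul]
  refine sum_congr rfl fun b _ => ?_
  rw [mul_assoc, ← ee_add]
  congr 2
  have := NeZero.ne (D : ℂ)
  have := NeZero.ne (α : ℂ)
  push_cast
  field_simp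

/-- the mean value -/
noncomputable def mv (ν : ℕ) : ℂ := 1 / (α * D : ℂ) * ∑ x ∈ range (α * D), χ x * ee (ν * x / α)

theorem mv_eq (ν : ℕ) : D * mv χ α ν =
    ∑ b ∈ range D, ch χ b * if (b * α + ν * D) % (α * D) = 0 then 1 else 0 := by
  rw [mv, mul_left_comm, mul_sum, sum_congr rfl fun x _ => tw χ α ν x, sum_comm, mul_sum]
  refine sum_congr rfl fun b _ => ?_
  have h := orth (α * D) (b * α + ν * D : ℕ)
  have := NeZero.ne (D : ℂ)
  have := NeZero.ne (α : ℂ)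
  simp only [Int.cast_natCast, Int.natCast_dvd_natCast, Nat.dvd_iff_mod_eq_zero] at h
  simp only [mul_comm ((b * α + ν * D : ℕ) : ℂ)]
  rw [← mul_sum, h]
  split_ifs
  · push_cast
    field_simp
  · simp

theorem canc {z : ℂ} {g : ℕ → ℂ} {G : ℕ → ℝ} (h : D * z = ∑ b ∈ range D, ch χ b * g b)
    (hg : ∀ b, ‖g b‖ ≤ G b) : ‖z‖ ≤ ∑ b ∈ range D, G b := by
  refine le_of_mul_le_mul_left ?_ (Nat.cast_pos.2 (NeZero.pos D))
  rw [← norm_natCast (α := ℂ), ← norm_mul, h, norm_natCast, mul_sum]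
  exact norm_sum_le_of_le _ fun b _ => (norm_mul _ _).trans_le
    (mul_le_mul (ch_le χ b) (hg b) (norm_nonneg _) (Nat.cast_nonneg _))

theorem sx (X : ℕ) : ∑ ν ∈ range α, ν.gcd α * ‖∑ x ∈ Icc 1 X, (χ x * ee (ν * x / α) - mv χ α ν)‖
    ≤ D * ((α * D : ℕ) * (tau α * (1 + Real.log (α * D : ℕ)))) := by
  refine le_trans (sum_le_sum fun ν _ => ?_) ((res α (D := D)
    (f := fun ν b => ν.gcd α * w (α * D) ((b * α + ν * D) % (α * D))) (fun ν b => ?_)
    fun r => mul_nonneg (Nat.cast_nonneg (r.gcd α)) (w_nonneg _ r)).trans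
      (mul_le_mul_of_nonneg_left (ws (NeZero.ne α) (dvd_mul_right _ _)) (Nat.cast_nonneg _)))
  · rw [← mul_sum]
    refine mul_le_mul_of_nonneg_left (canc χ ?_ fun b => geo _ _ X) (Nat.cast_nonneg _)
    rw [sum_sub_distrib, sum_const, Nat.card_Icc, Nat.add_sub_cancel, nsmul_eq_mul, mul_sub,
      mul_left_comm, mv_eq, mul_sum, mul_sum, sum_congr rfl fun x _ => tw χ α ν x, sum_comm,
      ← sum_sub_distrib]
    exact sum_congr rfl fun b _ => by rw [← mul_sum]; ring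
  · refine mul_le_mul_of_nonneg_right (Nat.cast_le.2 (Nat.le_of_dvd
      (Nat.gcd_pos_of_pos_right _ (NeZero.pos α)) (Nat.dvd_gcd ?_ (Nat.gcd_dvd_right _ _))))
      (w_nonneg _ _)
    exact (Nat.dvd_mod_iff ((Nat.gcd_dvd_right _ _).mul_right _)).2
      (dvd_add ((Nat.gcd_dvd_right _ _).mul_left _) ((Nat.gcd_dvd_left _ _).mul_right _))

theorem sy (Y : ℕ) : ∑ ν ∈ range α, ‖∑ x ∈ Icc 1 Y, χ x * ee (ν * x / α)‖
    ≤ D * (Y + (α * D : ℕ) * (1 + Real.log (α * D : ℕ))) := by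
  refine le_trans (sum_le_sum fun ν _ => ?_) ((res α (D := D)
    (F := fun r => (if r = 0 then (Y : ℝ) else 0) + w (α * D) r) (fun ν b => le_rfl)
    fun r => add_nonneg (by positivity) (w_nonneg _ r)).trans
      (mul_le_mul_of_nonneg_left ?_ (Nat.cast_nonneg _)))
  · refine canc χ (g := fun b => ∑ x ∈ Icc 1 Y, ee ((b * α + ν * D : ℕ) * x / (α * D : ℕ))) ?_
      fun b => (norm_le_insert' _ _).trans (add_le_add (le_of_eq ?_) (geo _ _ Y))
    · rw [mul_sum, sum_congr rfl fun x _ => tw χ α ν x, sum_comm]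
      exact sum_congr rfl fun b _ => by rw [← mul_sum]
    · split_ifs <;> simp
  · rw [sum_add_distrib, sum_ite_eq', if_pos (mem_range.2 (NeZero.pos _))]
    simpa [tau] using ws one_ne_zero (one_dvd (α * D))

variable (lam : ℕ) (H : ℤ)

/-- the congruence -/
def id1 (x y : ℕ) : ℂ := if (α : ℤ) ∣ lam * x * y + H then 1 else 0

theorem id_eq (x y : ℕ) : α * (α * id1 α lam H x y) = ∑ ν ∈ range α, ∑ μ ∈ range α,
    Kc α lam H (-ν) (-μ) * (ee (ν * x / α) * ee (μ * y / α)) := by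
  have hm : ∀ z : ℕ, ((z % α : ℕ) : ℤ) ≡ z [ZMOD α] := fun z =>
    Int.natCast_modEq_iff.2 (Nat.mod_modEq z α)
  have hd : ∀ {u v : ℤ}, u ≡ v [ZMOD α] → ((α : ℤ) ∣ u ↔ (α : ℤ) ∣ v) := fun h => by
    rw [← Int.modEq_zero_iff_dvd, ← Int.modEq_zero_iff_dvd]
    exact ⟨h.symm.trans, h.trans⟩
  rw [four α (fun x => id1 α lam H x y) x
    (if_congr (hd ((((hm x).mul_left _).mul_right _).add_right _)) rfl rfl), mul_sum]
  refine sum_congr rfl fun ν _ => ?_
  rw [← mul_assoc, four α (fun y => ∑ t ∈ range α, id1 α lam H t y * ee (-ν * t / α)) y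
    (sum_congr rfl fun t _ => congrArg (· * _)
      (if_congr (hd (((hm y).mul_left _).add_right _)) rfl rfl)), sum_mul]
  refine sum_congr rfl fun μ _ => ?_
  rw [mul_assoc, mul_comm (ee (μ * y / α)), Kc, sum_comm]
  congr 1
  refine sum_congr rfl fun s _ => ?_
  rw [sum_mul]
  refine sum_congr rfl fun t _ => ?_
  rw [id1, mul_assoc, ← ee_add, ite_mul, one_mul, zero_mul, ← add_div]
  push_cast
  rfl

theorem term (x y : ℕ) : α * (α * (χ y * ((if (α : ℤ) ∣ lam * x * y + H then χ x else 0) -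
    rho0 χ α (lam * y) H))) = ∑ p ∈ range α ×ˢ range α, Kc α lam H (-p.1) (-p.2) *
      ((χ x * ee (p.1 * x / α) - mv χ α p.1) * (χ y * ee (p.2 * y / α))) := by
  have h1 : ∀ x : ℕ, α * (α * if (α : ℤ) ∣ lam * x * y + H then χ x else 0) =
      ∑ p ∈ range α ×ˢ range α, Kc α lam H (-p.1) (-p.2) *
        (χ x * ee (p.1 * x / α) * ee (p.2 * y / α)) := fun x => by
    have := congrArg (χ x * ·) (id_eq α lam H x y)
    simp only [← sum_product', mul_sum] at this
    refine (Eq.trans ?_ this).trans (sum_congr rfl fun p _ => by ring)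
    unfold id1
    split_ifs <;> ring
  have h2 : α * (α * rho0 χ α (lam * y) H) = ∑ p ∈ range α ×ˢ range α,
      Kc α lam H (-p.1) (-p.2) * (mv χ α p.1 * ee (p.2 * y / α)) := by
    rw [rho0, mul_left_comm (α : ℂ) (1 / _), mul_left_comm (α : ℂ) (1 / _), mul_sum, mul_sum]
    simp only [Nat.cast_mul, mul_right_comm (lam : ℤ) y, h1]
    rw [sum_comm, mul_sum]
    refine sum_congr rfl fun p _ => ?_
    rw [← mul_sum, ← sum_mul, mv]
    ring
  rw [mul_left_comm (α : ℂ) (χ y), mul_left_comm (α : ℂ) (χ y), mul_sub, mul_sub, h1, h2,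
    ← sum_sub_distrib, mul_sum]
  exact sum_congr rfl fun p _ => by ring

end BXA

open BXA in
theorem bxOf : BXOf := by
  intro hK
  refine ⟨1, le_rfl, fun D _ χ N α lam X Y h hN h1 h2 h0 => ?_⟩
  have : NeZero α := ⟨by omega⟩
  have a0 : (0 : ℝ) < α := by positivity
  have d1 : (1 : ℝ) ≤ D := Nat.one_le_cast.2 (NeZero.pos D)
  have hb : 0 ≤ bb α := prod_nonneg fun p _ => by positivity
  have ht := U.tau_nonneg α
  have hl : 0 ≤ Real.log (α * D) := by exact_mod_cast Real.log_natCast_nonneg (α * D)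
  refine le_of_mul_le_mul_left (le_of_mul_le_mul_left ?_ a0) a0
  rw [← Complex.norm_natCast α, ← norm_mul, ← norm_mul, Complex.norm_natCast]
  simp only [mul_sum, term]
  rw [sum_congr rfl fun x _ => sum_comm, sum_comm]
  refine (norm_sum_le_of_le _ (n := fun p : ℕ × ℕ => |(h : ℝ)| ^ 4 * bb α *
    ((p.1.gcd α * ‖∑ x ∈ Icc 1 X, (χ x * ee (p.1 * x / α) - mv χ α p.1)‖) *
      ‖∑ x ∈ Icc 1 Y, χ x * ee (p.2 * x / α)‖)) fun p _ => ?_).trans ?_
  · simp only [← mul_sum]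
    rw [← sum_mul, norm_mul, norm_mul, mul_assoc (p.1.gcd α : ℝ), ← mul_assoc (_ * bb α)]
    refine mul_le_mul_of_nonneg_right ((hK N α lam h _ _ hN h1 h2 h0).trans
      (mul_le_mul_of_nonneg_left ?_ (by positivity))) (by positivity)
    rw [Int.neg_gcd, Int.gcd_natCast_natCast]
    exact Real.rpow_le_self_of_one_le
      (Nat.one_le_cast.2 (Nat.gcd_pos_of_pos_right _ h1)) (by norm_num)
  rw [← mul_sum, sum_product]
  dsimp only
  rw [← sum_mul_sum]
  refine (mul_le_mul_of_nonneg_left (mul_le_mul (BXA.sx χ α X) (BXA.sy χ α Y) (by positivity)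
    (by positivity)) (by positivity)).trans ?_
  push_cast
  have e : (Y : ℝ) + α * D * (1 + Real.log (α * D)) ≤
      D * (α * (Y / α + 1 + Real.log (α * D))) := by
    rw [add_assoc, mul_add (α : ℝ), mul_div_cancel₀ _ a0.ne']
    nlinarith [Nat.cast_nonneg (α := ℝ) Y]
  refine (mul_le_mul_of_nonneg_left (mul_le_mul_of_nonneg_left
    (mul_le_mul_of_nonneg_left e (by positivity)) (by positivity)) (by positivity)).trans_eq ?_
  ring

end Pool.Agent.MP_20b2fd_nt.F5
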