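import Pool.Agent.MP_20b2fd_nt.F5.Util

/-! The frequencies that are not zero, for one shift. -/

set_option autoImplicit false

namespace Pool.Agent.MP_20b2fd_nt.F5

open Finset
open Pool.Agent.MP_c5bf7b_nt.H38 (Phi Ch)
open Pool.Agent.MP_20b2fd_nt.H38

namespace CAA

theorem abs_log_le {x n : ℝ} (hn : 0 < n) (h1 : 1 / n ≤ x) (h2 : x ≤ n) :
    |Real.log x| ≤ Real.log n := by
  have x0 : 0 < x := (one_div_pos.2 hn).trans_le h1
  have a := Real.log_le_log (one_div_pos.2 hn) h1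
  rw [one_div, Real.log_inv] at a
  exact abs_le.2 ⟨a, Real.log_le_log x0 h2⟩

theorem wa {W : ℝ → ℝ} {C R Q n T M : ℝ} (hW : WOK C R W) (hC : 1 ≤ C) (R1 : 1 ≤ R) (Rn : R ≤ n)
    (hQ : 0 < Q) (hM : 2 * Q * R ≤ M) (Mn : M ≤ n) (hT : 3 * C * (1 + Real.log n) ≤ T) :
    ∃ a₁ : ℝ → ℝ, (∀ x, 0 < x → HasDerivAt (fun x => W (x / Q) / x) (a₁ x) x) ∧
      (∀ x, 1 ≤ x → |W (x / Q) / x| ≤ T / x ∧ |a₁ x| ≤ T / x ^ 2) ∧
      ∀ x, M ≤ x → W (x / Q) / x = 0 := by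
  obtain ⟨⟨W₁, h⟩, h0⟩ := hW
  have n1 : 1 ≤ n := R1.trans Rn
  have l0 := Real.log_nonneg n1
  refine ⟨fun x => W₁ (x / Q) / Q / x - W (x / Q) / x ^ 2, fun x hx => ?_, fun x hx => ?_,
    fun x hx => ?_⟩
  · have h1 := (h (x / Q) (by positivity)).1.comp x ((hasDerivAt_id x).div_const Q)
    refine (h1.div (hasDerivAt_id x) hx.ne').congr_deriv ?_
    simp only [Function.comp, id]
    field_simp
  · have x0 : 0 < x := by linarith
    obtain ⟨-, h2, h3⟩ := h (x / Q) (by positivity)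
    have hw : |W (x / Q)| ≤ C * (2 + Real.log n) := by
      by_cases hx2 : 2 * R ≤ x / Q
      · rw [h0 _ hx2, abs_zero]; positivity
      refine h2.trans (mul_le_mul_of_nonneg_left ?_ (by linarith))
      have a := abs_log_le (x := x / Q) (n := 2 * n) (by linarith)
        (div_le_div₀ x0.le hx hQ (by nlinarith)) (by linarith)
      rw [Real.log_mul two_ne_zero (by linarith)] at a
      linarith [Real.log_two_lt_d9]
    have hw' : |W₁ (x / Q) / Q / x| ≤ C / x ^ 2 := by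
      rw [abs_div, abs_div, abs_of_pos hQ, abs_of_pos x0]
      refine (div_le_div_of_nonneg_right (div_le_div_of_nonneg_right h3 hQ.le) x0.le).trans_eq ?_
      field_simp
    have cl := mul_nonneg (zero_le_one.trans hC) l0
    constructor
    · rw [abs_div, abs_of_pos x0]
      exact div_le_div_of_nonneg_right (by linarith) x0.le
    · refine (abs_sub _ _).trans ?_
      rw [abs_div (W _), abs_of_pos (pow_pos x0 2)]
      refine (add_le_add hw' (div_le_div_of_nonneg_right hw (by positivity))).trans ?_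
      rw [← add_div]
      exact div_le_div_of_nonneg_right (by linarith) (by positivity)
  · rw [h0 _ ((le_div_iff₀ hQ).2 (by linarith)), zero_div]

theorem point (hs : HSS) {D : ℕ} (χ : Ch D) (A lam x y : ℕ) (H : ℤ) (Hr a b κ : ℝ) (hH : Hr = H)
    (hn : a * (b / y) * κ ≠ 0 → (lam : ℝ) * (x * y) + Hr ≠ 0 ∧
      2 * |(lam : ℝ) * (x * y) + Hr| ≤ ((A : ℝ) + 1) ^ 2) :
    χ y * (b : ℂ) / y * (((a * κ : ℝ) : ℂ) * (χ x * (tau ((lam * y : ℕ) * x + H : ℤ).natAbs : ℝ) -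
      2 * ∑ α ∈ Icc 1 A, rho0 χ α (lam * y) H *
        (om0 ((α : ℝ) ^ 2 / |((lam * y : ℕ) : ℝ) * x + Hr|) : ℝ))) =
    2 * ∑ α ∈ Icc 1 A, ((a * (b / y) * (κ * om0 ((α : ℝ) ^ 2 / |(lam : ℝ) * (x * y) + Hr|)) : ℝ) : ℂ) *
      (χ y * ((if (α : ℤ) ∣ lam * x * y + H then χ x else 0) - rho0 χ α (lam * y) H)) := by
  have e0 : ((lam * y : ℕ) : ℝ) * x + Hr = (lam : ℝ) * (x * y) + Hr := by push_cast; ring
  have e1 : ((lam * y : ℕ) * x + H : ℤ) = lam * x * y + H := by push_cast; ring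
  have e2 : (((lam * x * y + H : ℤ).natAbs : ℕ) : ℝ) = |(lam : ℝ) * (x * y) + Hr| := by
    rw [Nat.cast_natAbs, hH]; push_cast; rw [mul_assoc]
  rw [e0, e1]
  by_cases h0 : a * (b / y) * κ = 0
  · have h1 : (a : ℂ) * (b / y) * κ = 0 := by exact_mod_cast h0
    rw [sum_eq_zero (s := Icc 1 A) (f := fun α => ((a * (b / y) * (κ * om0 ((α : ℝ) ^ 2 /
      |(lam : ℝ) * (x * y) + Hr|)) : ℝ) : ℂ) * _) fun α _ => by
        rw [← mul_assoc _ κ, h0, zero_mul, Complex.ofReal_zero, zero_mul]]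
    push_cast
    generalize (χ x * _ - _ : ℂ) = z
    linear_combination χ y * z * h1
  obtain ⟨h1, h2⟩ := hn h0
  rw [← abs_pos, ← e2] at h1
  rw [← e2] at h2 ⊢
  rw [hs.1 _ A (by exact_mod_cast h1) (by exact_mod_cast h2)]
  push_cast
  simp only [mul_sum, ← sum_sub_distrib]
  refine sum_congr rfl fun α _ => ?_
  simp only [← Int.natCast_dvd]
  split_ifs
  · ring
  · push_cast; ring

theorem wb {b α M T B : ℝ} (b0 : 0 ≤ b) (a1 : 1 ≤ α) (aB : α ≤ B) (MB : M ≤ B) (T1 : 1 ≤ T) :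
    b * (M / α + T) ≤ 2 * T * B ^ (15 / 8 : ℝ) * (b / α ^ (15 / 8 : ℝ)) := by
  have a0 : 0 < α := by linarith
  have B0 : 0 < B := by linarith
  have e : ∀ x : ℝ, 0 < x → x ^ (15 / 8 : ℝ) = x ^ (7 / 8 : ℝ) * x := fun x hx => by
    rw [← Real.rpow_add_one hx.ne']; norm_num
  have h1 : 1 ≤ B ^ (7 / 8 : ℝ) / α ^ (7 / 8 : ℝ) :=
    (one_le_div (by positivity)).2 (Real.rpow_le_rpow a0.le aB (by norm_num))
  have h2 : M / α + T ≤ 2 * T * (B / α) := by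
    have h3 : 1 ≤ B / α := (one_le_div a0).2 aB
    have h4 : M / α ≤ B / α := div_le_div_of_nonneg_right MB a0.le
    nlinarith
  rw [e α a0, e B B0]
  calc b * (M / α + T) ≤ b * (2 * T * (B / α)) := mul_le_mul_of_nonneg_left h2 b0
    _ ≤ b * (2 * T * (B / α)) * (B ^ (7 / 8 : ℝ) / α ^ (7 / 8 : ℝ)) :=
      le_mul_of_one_le_right (by positivity) h1
    _ = _ := by field_simp

theorem scale {n ϑ : ℝ} (n1 : 1 ≤ n) (h0 : 0 < ϑ) (h1 : ϑ ≤ 1 / 10 ^ 4) : ∃ s T : ℝ,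
    T = n ^ ϑ ∧ 1 ≤ s ∧ n = s ^ 2 ∧ n ^ (1 / 2 + ϑ) = s * T ∧ n ^ (1 / 2 + 2 * ϑ) = s * T ^ 2 ∧
    n ^ (4 * ϑ) = T ^ 4 ∧ n ^ (-ϑ) = T⁻¹ ∧ T ^ 4 ≤ s ∧
    T ^ 38 * (2 * s * T ^ 2) ^ (15 / 8 : ℝ) / s ^ 2 ≤ 4 * n ^ (-1 / 25 : ℝ) := by
  have n0 : 0 < n := by linarith
  have p : ∀ j : ℕ, (n ^ ϑ) ^ j = n ^ (j * ϑ) := fun j => by
    rw [← Real.rpow_natCast, ← Real.rpow_mul n0.le, mul_comm]
  have q : (n ^ (1 / 2 : ℝ)) ^ 2 = n := by
    rw [← Real.rpow_natCast, ← Real.rpow_mul n0.le]; norm_num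
  have r : n ^ (1 / 2 + 2 * ϑ) = n ^ (1 / 2 : ℝ) * (n ^ ϑ) ^ 2 := by
    rw [p, Real.rpow_add n0]; norm_num
  refine ⟨n ^ (1 / 2 : ℝ), n ^ ϑ, rfl, Real.one_le_rpow n1 (by norm_num), q.symm,
    Real.rpow_add n0 _ _, r, by rw [p]; norm_num, Real.rpow_neg n0.le _, ?_, ?_⟩
  · rw [p]
    exact Real.rpow_le_rpow_of_exponent_le n1 (by push_cast; linarith)
  · rw [q, mul_assoc, ← r, Real.mul_rpow zero_le_two (by positivity), ← Real.rpow_mul n0.le, p,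
      mul_left_comm, ← Real.rpow_add n0, mul_div_assoc, ← Real.rpow_sub_one n0.ne']
    refine mul_le_mul ?_ (Real.rpow_le_rpow_of_exponent_le n1 (by push_cast; linarith))
      (by positivity) (by norm_num)
    refine (Real.rpow_le_rpow_of_exponent_le one_le_two (z := 2) (by norm_num)).trans_eq ?_
    norm_num

theorem consts {P C Cg L T : ℝ} (P0 : 0 ≤ P) (C1 : 1 ≤ C) (Cg1 : 1 ≤ Cg) (L0 : 0 ≤ L)
    (h : (16 * P + 3 * C + 2 * Cg + 8) * (1 + L) ≤ T) : 8 ≤ T ∧ 3 * C * (1 + L) ≤ T ∧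
    Cg * (1 + 2 * L) ≤ T ∧ 1 + 2 * L ≤ T ∧ 16 * P ≤ T := by
  have a1 := mul_nonneg P0 L0
  have a2 := mul_nonneg (zero_le_one.trans C1) L0
  have a3 := mul_nonneg (zero_le_one.trans Cg1) L0
  refine ⟨?_, ?_, ?_, ?_, ?_⟩ <;> linarith

theorem nums {s T : ℝ} (T8 : 8 ≤ T) (Ts : T ^ 4 ≤ s) : T ≤ s ^ 2 ∧ T ^ 4 ≤ s ^ 2 ∧ s * T ≤ s ^ 2 ∧
    2 * s * T ^ 2 < s ^ 2 ∧ 1 ≤ s * T ∧ 8 * (s * T) ≤ s ^ 2 / T ^ 2 ∧ s * T ≤ 2 * s * T ^ 2 ∧
    T * (4 * (s * T) ^ 2) ≤ (s ^ 2) ^ 2 ∧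
    2 * (T * (s * T * (s * T)) + T ^ 4 * s ^ 2) ≤ (2 * s * T ^ 2) ^ 2 := by
  have T0 : 0 < T := by linarith
  have T1 : 1 ≤ T := by linarith
  have T3 : 8 * T ^ 3 ≤ s := le_trans (by nlinarith [pow_pos T0 3]) Ts
  have T12 : T ≤ T ^ 2 := le_self_pow₀ T1 two_ne_zero
  have T23 : T ^ 2 ≤ T ^ 3 := pow_le_pow_right₀ T1 (by norm_num)
  have T34 : T ^ 3 ≤ T ^ 4 := pow_le_pow_right₀ T1 (by norm_num)
  have s1 : 1 ≤ s := by linarith
  have s0 : 0 < s := by linarith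
  have s12 : s ≤ s ^ 2 := le_self_pow₀ s1 two_ne_zero
  have b1 := mul_le_mul_of_nonneg_left T3 s0.le
  have b2 := mul_le_mul_of_nonneg_left T23 s0.le
  have b3 := mul_le_mul_of_nonneg_left T12 s0.le
  have b4 := mul_pos s0 T0
  have b5 := mul_le_mul_of_nonneg_left (T3.trans s12) (sq_nonneg s)
  have b6 := mul_le_mul_of_nonneg_left T34 (sq_nonneg s)
  have b7 := mul_pos (pow_pos s0 2) (pow_pos T0 3)
  refine ⟨by linarith, by linarith, by linarith, by linarith,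
    one_le_mul_of_one_le_of_one_le s1 T1, ?_, by linarith, by linarith, by linarith⟩
  rw [le_div_iff₀ (by positivity)]
  linarith

end CAA

open CAA in
theorem caOf : CAOf := by
  rintro ⟨b1, -, -, Cb, Cb1, hb⟩ ⟨Cx, Cx1, hx⟩ ⟨Cv, Cv1, hv⟩ ⟨Cg, Cg1, hg⟩ hs ϑ C t0 t1 C1
  obtain ⟨N₁, N3, hN1⟩ := U.ev_log (16 * (Cv * Cx * Cb) + 3 * C + 2 * Cg + 8) 1 t0
  obtain ⟨N₂, -, hN2⟩ := U.ev_tau 1 t0
  refine ⟨max N₁ N₂, fun N D _ χ R Q₁ Q₂ W k lam h hN rg q1 q2 hq1 hq2 l1 hl h0 hh => ?_⟩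
  have hK := hN1 N ((le_max_left _ _).trans hN)
  have htau := hN2 N ((le_max_right _ _).trans hN)
  have n1 : (1 : ℝ) ≤ N := by exact_mod_cast rg.pr.one_le
  obtain ⟨s, T, hT, s1, hn, e1, e2, e4, e5, Ts, fin⟩ := scale n1 t0 t1
  obtain ⟨pr, -, -, hD, R1, Rn, hW, hk⟩ := rg
  have hA : (AN ϑ N : ℝ) ≤ 2 * s * T ^ 2 ∧ 2 * s * T ^ 2 ≤ AN ϑ N + 1 := by
    rw [AN, e2, mul_assoc]
    exact ⟨Nat.floor_le (by rw [← e2]; positivity), (Nat.lt_floor_add_one _).le⟩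
  rw [e1] at hq1 hq2
  rw [e4] at hh
  rw [e5] at hk
  rw [← hT] at hK htau hD hk hl
  rw [pow_one] at hK htau
  have lg0 := Real.log_nonneg n1
  obtain ⟨T8, kC, kG, kL, kP⟩ := consts (by positivity) C1 Cg1 lg0 hK
  obtain ⟨Tn, T4n, Mn, An, M1, Mm, MA, mn, nA⟩ := nums T8 Ts
  rw [← hn] at Tn T4n Mn An mn
  clear hK hN1 hN2 e1 e2 e4 e5 hT t0 t1
  have T0 : 0 < T := by linarith
  have T1 : 1 ≤ T := by linarith
  have s0 : 0 < s := by linarith
  have hh1 : (1 : ℝ) ≤ |(h : ℝ)| := by exact_mod_cast Int.one_le_abs h0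
  have lam1 : (1 : ℝ) ≤ lam := by exact_mod_cast l1
  have D1 : (1 : ℝ) ≤ D := by exact_mod_cast NeZero.one_le
  have aH : |(h : ℝ) * N| = |(h : ℝ)| * s ^ 2 := by rw [abs_mul, Nat.abs_cast, hn]
  have H0 : (h : ℝ) * N ≠ 0 := by rw [← abs_pos, aH]; positivity
  obtain ⟨a₁, da, ba, za⟩ := wa hW C1 R1 Rn q1 hq1 Mn kC
  obtain ⟨b₁, db, bb', zb⟩ := wa hW C1 R1 Rn q2 hq2 Mn kC
  have id : ∑ y ∈ Icc 1 N, wk χ W Q₂ y * sx W Q₁ N k (lam * y) h (fun x =>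
      χ x * (tau ((lam * y : ℕ) * x + h * N : ℤ).natAbs : ℝ) - ra χ ϑ N (lam * y) h x) =
      2 * ∑ α ∈ Icc 1 (AN ϑ N), ∑ x ∈ Icc 1 N, ∑ y ∈ Icc 1 N,
        ((W (x / Q₁) / x * (W (y / Q₂) / y) * (k (h * N / (lam * (x * y))) *
          om0 ((α : ℝ) ^ 2 / |(lam : ℝ) * (x * y) + h * N|)) : ℝ) : ℂ) *
        (χ y * ((if (α : ℤ) ∣ lam * x * y + h * N then χ x else 0) -
          rho0 χ α (lam * y) (h * N))) := by
    rw [sum_comm (s := Icc 1 (AN ϑ N)), mul_sum]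
    simp only [sx, mul_sum (Icc 1 N)]
    rw [sum_comm]
    refine sum_congr rfl fun x hx => ?_
    rw [sum_comm (s := Icc 1 (AN ϑ N)), mul_sum]
    refine sum_congr rfl fun y hy => ?_
    have x1 : (1 : ℝ) ≤ x := by exact_mod_cast (mem_Icc.1 hx).1
    have y1 : (1 : ℝ) ≤ y := by exact_mod_cast (mem_Icc.1 hy).1
    have e : ((lam * y : ℕ) : ℝ) * x = lam * (x * y) := by push_cast; ring
    rw [wk, ra, ← point hs χ _ lam x y (h * N) (h * N) _ _ _ (by push_cast; rfl) fun hne => ?_, e]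
    have xM : (x : ℝ) ≤ s * T := le_of_not_ge fun hh => hne (by rw [za x hh]; ring)
    have yM : (y : ℝ) ≤ s * T := le_of_not_ge fun hh => hne (by rw [zb y hh]; ring)
    have m0 : (0 : ℝ) < lam * (x * y) := by positivity
    refine ⟨fun hz => hne ?_, ?_⟩
    · rw [hk.2.2.2.2 _ (by
        rw [← div_self m0.ne', ← add_div, hz, zero_div, abs_zero]; positivity), mul_zero]
    · have c1 : (lam : ℝ) * (x * y) ≤ T * (s * T * (s * T)) := by gcongr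
      have c2 := abs_add_le ((lam : ℝ) * (x * y)) (h * N)
      rw [abs_of_pos m0, aH] at c2
      have c3 := mul_le_mul_of_nonneg_right hh (sq_nonneg s)
      have c5 := pow_le_pow_left₀ (by positivity) hA.2 2
      linarith
  have key : ∀ α ∈ Icc 1 (AN ϑ N), ‖∑ x ∈ Icc 1 N, ∑ y ∈ Icc 1 N,
        ((W (x / Q₁) / x * (W (y / Q₂) / y) * (k (h * N / (lam * (x * y))) *
          om0 ((α : ℝ) ^ 2 / |(lam : ℝ) * (x * y) + h * N|)) : ℝ) : ℂ) *
        (χ y * ((if (α : ℤ) ∣ lam * x * y + h * N then χ x else 0) -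
          rho0 χ α (lam * y) (h * N)))‖ ≤
      2 * (Cv * Cx) * (T ^ 37 * (2 * s * T ^ 2) ^ (15 / 8 : ℝ) / s ^ 2) *
        (bb α / (α : ℝ) ^ (15 / 8 : ℝ)) := by
    intro α hα
    have α1 : (1 : ℝ) ≤ α := by exact_mod_cast (mem_Icc.1 hα).1
    have αA : (α : ℝ) ≤ 2 * s * T ^ 2 := le_trans (by exact_mod_cast (mem_Icc.1 hα).2) hA.1
    have αN : (α : ℝ) < N := αA.trans_lt An
    obtain ⟨G₁, G₂, F₁, L₁, hG⟩ := hg T T T⁻¹ lam (h * N) ((α : ℝ) ^ 2) k hk (by linarith) H0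
      (by positivity)
    refine (hv _ a₁ _ b₁ (fun m => k (h * N / (lam * m)) * om0 ((α : ℝ) ^ 2 / |lam * m + h * N|))
      G₁ G₂ T (T ^ 6) (s * T) (s ^ 2 / T ^ 2) (Cx * T ^ 22 * (2 * T * (2 * s * T ^ 2) ^ (15 / 8 : ℝ) *
        (bb α / (α : ℝ) ^ (15 / 8 : ℝ)))) N _ M1 Mm Mn
      (fun x hx => ⟨da x hx, db x hx, (hG x _ hx rfl).1, (hG x _ hx rfl).2.1⟩)
      (fun x hx _ => ⟨(ba x hx).1, (ba x hx).2, bb' x hx⟩) (fun x hx => ⟨za x hx, zb x hx⟩)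
      (fun m m1 m2 => ?_) (fun m m0 m1 => ?_) fun X Y hX hY => ?_).trans_eq (by field_simp)
    · have m0 : 0 < m := by linarith
      obtain ⟨-, -, -, -, -, g0, g1, g2, -⟩ := hG m _ m0 rfl
      have lm : 1 ≤ lam * m := one_le_mul_of_one_le_of_one_le lam1 m1
      have lg := abs_log_le (x := |h * N / (lam * m)|) (n := (N : ℝ) ^ 2) (by positivity) (by
        rw [abs_div, aH, abs_of_pos (by linarith : 0 < lam * m)]
        exact div_le_div₀ (by positivity)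
          (one_le_mul_of_one_le_of_one_le hh1 (one_le_pow₀ s1)) (by linarith)
          (le_trans (by gcongr) mn)) (by
        rw [abs_div, aH, abs_of_pos (by linarith : 0 < lam * m), sq (N : ℝ)]
        refine (div_le_self (by positivity) lm).trans ?_
        exact mul_le_mul (by linarith) hn.ge (by positivity) (by positivity))
      rw [Real.log_pow] at lg
      have hΓ : Cg * T * T ^ 2 / T⁻¹ ^ 2 * (1 + abs (Real.log |h * N / (lam * m)|)) ≤ T ^ 6 := by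
        have : Cg * (1 + abs (Real.log |h * N / (lam * m)|)) ≤ T := by
          have := mul_le_mul_of_nonneg_left lg (zero_le_one.trans Cg1)
          push_cast at this
          linarith
        refine le_of_eq_of_le ?_ ((mul_le_mul_of_nonneg_left this (pow_pos T0 5).le).trans_eq
          (by ring))
        field_simp
      exact ⟨g0.trans hΓ, g1.trans (div_le_div_of_nonneg_right hΓ m0.le),
        g2.trans (div_le_div_of_nonneg_right hΓ (by positivity))⟩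
    · obtain ⟨-, -, -, ⟨B, Dk, -, -, hz, -⟩, -⟩ := hk
      have lm : 0 < lam * m := by positivity
      rw [hz _ ?_, zero_mul]
      rw [abs_div, aH, abs_of_pos lm, le_div_iff₀ lm]
      rw [le_div_iff₀ (by positivity)] at m1
      linarith [mul_le_mul_of_nonneg_right hl (mul_pos T0 m0).le,
        le_mul_of_one_le_left (sq_nonneg s) hh1]
    · refine (hx D χ N α lam X Y h pr (mem_Icc.1 hα).1 (by exact_mod_cast αN) h0).trans ?_
      have l0 : 0 ≤ Real.log (α * D) := Real.log_nonneg (one_le_mul_of_one_le_of_one_le α1 D1)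
      have l2 : Real.log (α * D) ≤ 2 * Real.log N := by
        rw [two_mul, ← Real.log_mul (by linarith) (by linarith)]
        exact Real.log_le_log (by positivity)
          (mul_le_mul αN.le (by linarith) (by linarith) (by linarith))
      have l3 : 1 + Real.log (α * D) ≤ T := by linarith
      have b0 : 0 ≤ bb α := zero_le_one.trans (b1 α)
      have t0 := U.tau_nonneg α
      have w := wb (M := Y) b0 α1 αA (hY.trans MA) T1
      calc _ ≤ Cx * T ^ 4 * (T ^ 4) ^ 4 * T * bb α * T * (Y / α + T) := by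
            rw [add_assoc]
            gcongr
            exact htau α αN.le
        _ = Cx * T ^ 22 * (bb α * (Y / α + T)) := by ring
        _ ≤ _ := mul_le_mul_of_nonneg_left w (by positivity)
  rw [id, norm_mul, Complex.norm_two]
  refine (mul_le_mul_of_nonneg_left ((norm_sum_le _ _).trans (sum_le_sum key)) zero_le_two).trans ?_
  rw [← mul_sum]
  have hZ : 0 ≤ T ^ 37 * (2 * s * T ^ 2) ^ (15 / 8 : ℝ) / s ^ 2 := by positivity
  have fin' : T * (T ^ 37 * (2 * s * T ^ 2) ^ (15 / 8 : ℝ) / s ^ 2) ≤ 4 * (N : ℝ) ^ (-1 / 25 : ℝ) :=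
    le_of_eq_of_le (by ring) fin
  generalize T ^ 37 * (2 * s * T ^ 2) ^ (15 / 8 : ℝ) / s ^ 2 = Z at *
  have f1 := mul_le_mul_of_nonneg_left (hb (AN ϑ N) (15 / 8) le_rfl (by norm_num)).1
    (by positivity : 0 ≤ 2 * (Cv * Cx) * Z)
  have f2 : 16 * (Cv * Cx * Cb) * Z ≤ T * Z := mul_le_mul_of_nonneg_right kP hZ
  linarith

end Pool.Agent.MP_20b2fd_nt.F5
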