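import Pool.Agent.MP_20b2fd_nt.F5.Util

/-! The sum over the first variable against the integral. -/

set_option autoImplicit false

namespace Pool.Agent.MP_20b2fd_nt.F5

open MeasureTheory Complex Finset Filter Topology ArithmeticFunction
open Pool.Agent.MP_c5bf7b_nt.H38 (Phi Ch)
open Pool.Agent.MP_20b2fd_nt.H38
open scoped Real

namespace CBA

theorem dsum (n m : ℕ) (hn : 1 ≤ n) (F : ℕ → ℕ → ℂ) (B : ℝ) (hB : 0 ≤ B)
    (hF : ∀ g e, 1 ≤ g → 1 ≤ e → g * e ≤ n → ‖F g e‖ ≤ B) :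
    ‖∑ g ∈ (n.gcd m).divisors, ∑ e ∈ (n / g).divisors, F g e‖ ≤ tau n ^ 2 * B := by
  have h1 : ∀ g ∈ (n.gcd m).divisors, ‖∑ e ∈ (n / g).divisors, F g e‖ ≤ tau n * B := by
    intro g hg
    have hgn : g ∣ n := (Nat.dvd_of_mem_divisors hg).trans (Nat.gcd_dvd_left _ _)
    have hg1 : 1 ≤ g := Nat.pos_of_mem_divisors hg
    have h2 : ∀ e ∈ (n / g).divisors, ‖F g e‖ ≤ B := fun e he =>
      hF g e hg1 (Nat.pos_of_mem_divisors he)
        ((Nat.mul_le_mul_left g (Nat.divisor_le he)).trans (Nat.mul_div_le n g))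
    refine (norm_sum_le _ _).trans ((sum_le_card_nsmul _ _ _ h2).trans ?_)
    rw [nsmul_eq_mul]
    exact mul_le_mul_of_nonneg_right (U.tau_dvd (Nat.div_dvd_of_dvd hgn) (by omega)) hB
  refine (norm_sum_le _ _).trans ((sum_le_card_nsmul _ _ _ h1).trans ?_)
  rw [nsmul_eq_mul, sq, mul_assoc]
  exact mul_le_mul_of_nonneg_right (U.tau_dvd (Nat.gcd_dvd_left _ _) (by omega))
    (mul_nonneg (U.tau_nonneg _) hB)

theorem cf_le {D : ℕ} [NeZero D] (χ : Ch D) (a b : ZMod D) (e : ℕ) (he : 1 ≤ e) :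
    ‖χ a * χ b * (moebius e : ℂ) / (D * e)‖ ≤ 1 := by
  have hD : (1 : ℝ) ≤ D := by exact_mod_cast NeZero.pos D
  have he' : (1 : ℝ) ≤ e := by exact_mod_cast he
  have hm : ‖(moebius e : ℂ)‖ ≤ 1 := by
    rw [Complex.norm_intCast]; exact_mod_cast abs_moebius_le_one
  rw [norm_div, norm_mul, norm_mul, norm_mul, Complex.norm_natCast, Complex.norm_natCast,
    div_le_one (by positivity)]
  calc _ ≤ (1 : ℝ) * 1 * 1 := by
        gcongr
        · exact χ.norm_le_one a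
        · exact χ.norm_le_one b
    _ ≤ _ := by nlinarith

theorem zc_aff {D : ℕ} [NeZero D] (χ : Ch D) (N n : ℕ) (h : ℤ) (hn : 1 ≤ n) (L : ℝ)
    (hL : Real.log (n * D) + 1 ≤ L) :
    ∃ z₁ z₀ : ℂ, ‖z₁‖ ≤ tau n ^ 2 ∧ ‖z₀‖ ≤ tau n ^ 2 * (2 * L) ∧
      ∀ y : ℝ, zc χ N n h y = z₁ * y + z₀ := by
  have hD : (1 : ℝ) ≤ D := by exact_mod_cast NeZero.pos D
  have hn' : (1 : ℝ) ≤ n := by exact_mod_cast hn
  have hl : 0 ≤ Real.log (n * D) := Real.log_nonneg (by nlinarith)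
  refine ⟨∑ g ∈ (n.gcd h.natAbs).divisors, ∑ e ∈ (n / g).divisors,
      χ ((-N * (h / g) : ℤ) : ZMod D) * χ ((n / g : ℕ) : ZMod D) * (moebius e : ℂ) / (D * e),
    ∑ g ∈ (n.gcd h.natAbs).divisors, ∑ e ∈ (n / g).divisors,
      χ ((-N * (h / g) : ℤ) : ZMod D) * χ ((n / g : ℕ) : ZMod D) * (moebius e : ℂ) / (D * e) *
        ((-2 * Real.log (g * D * e) + 2 * Real.eulerMascheroniConstant : ℝ) : ℂ), ?_, ?_, ?_⟩
  · simpa using dsum n h.natAbs hn _ 1 zero_le_one fun g e _ he _ => cf_le χ _ _ e he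
  · refine dsum n h.natAbs hn _ _ (by linarith) fun g e hg he hge => ?_
    rw [norm_mul, Complex.norm_real, Real.norm_eq_abs]
    refine (mul_le_of_le_one_left (abs_nonneg _) (cf_le χ _ _ e he)).trans ?_
    have hg' : (1 : ℝ) ≤ g := by exact_mod_cast hg
    have he' : (1 : ℝ) ≤ e := by exact_mod_cast he
    have hge' : (g : ℝ) * e ≤ n := by exact_mod_cast hge
    have h1 : (1 : ℝ) ≤ g * D * e := one_le_mul_of_one_le_of_one_le (by nlinarith) he'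
    have h2 : Real.log (g * D * e) ≤ Real.log (n * D) :=
      Real.log_le_log (by linarith) (by nlinarith)
    have h3 := Real.log_nonneg h1
    have h4 := Real.one_half_lt_eulerMascheroniConstant
    have h5 := Real.eulerMascheroniConstant_lt_two_thirds
    rw [abs_le]; constructor <;> linarith
  · intro y
    unfold zc
    rw [sum_mul, ← sum_add_distrib]
    refine sum_congr rfl fun g _ => ?_
    rw [sum_mul, ← sum_add_distrib]
    refine sum_congr rfl fun e _ => ?_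
    push_cast
    ring

theorem si_prod {Cs : ℝ}
    (hS : ∀ (f f₁ : ℝ → ℝ) (Γ X₀ M₀ : ℝ) (M : ℕ), 1 ≤ X₀ → 1 ≤ M₀ → M₀ ≤ M → 0 ≤ Γ →
      (∀ x, 0 < x → HasDerivAt f (f₁ x) x) → (∀ x, 0 < x → x ≤ X₀ → f x = 0) →
      (∀ x, M₀ ≤ x → f x = 0) → (∀ x, 1 ≤ x → x ≤ 2 * M₀ → |f₁ x| ≤ Γ / x ^ 2) →
      IntegrableOn f (Set.Ioi 0) ∧ |∑ x ∈ Icc 1 M, f x - ∫ x in Set.Ioi (0 : ℝ), f x| ≤ Cs * Γ / X₀)
    (W W₁ g g₁ : ℝ → ℝ) (C B Q Γ X₀ M₀ : ℝ) (M : ℕ) (hX : 1 ≤ X₀) (hM : 1 ≤ M₀) (hM' : M₀ ≤ M)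
    (hC : 0 ≤ C) (hB : 0 ≤ B) (hΓ : 0 ≤ Γ) (hQ : 0 < Q)
    (hW : ∀ x, 0 < x → HasDerivAt W (W₁ x) x ∧ |W₁ x| ≤ C / x)
    (hWb : ∀ x, 1 ≤ x → |W (x / Q)| ≤ B) (hW0 : ∀ x, M₀ ≤ x → W (x / Q) = 0)
    (hg : ∀ x, 0 < x → HasDerivAt g (g₁ x) x) (hg0 : ∀ x, 0 < x → x ≤ X₀ → g x = 0)
    (hgb : ∀ x, 1 ≤ x → x ≤ 2 * M₀ → |g x| ≤ Γ ∧ |g₁ x| ≤ Γ / x) :
    IntegrableOn (fun x => W (x / Q) / x * g x) (Set.Ioi 0) ∧
      |∑ x ∈ Icc 1 M, W (x / Q) / x * g x - ∫ x in Set.Ioi (0 : ℝ), W (x / Q) / x * g x| ≤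
        Cs * ((C + 2 * B) * Γ) / X₀ := by
  refine hS (fun x => W (x / Q) / x * g x)
    (fun x => (W₁ (x / Q) / Q / x - W (x / Q) / x ^ 2) * g x + W (x / Q) / x * g₁ x)
    _ X₀ M₀ M hX hM hM' (by positivity) (fun x hx => ?_) (fun x hx h => by simp [hg0 x hx h])
    (fun x h => by simp [hW0 x h]) fun x h1 h2 => ?_
  · have h1 : HasDerivAt (fun x => W (x / Q)) (W₁ (x / Q) * (1 / Q)) x :=
      (hW _ (div_pos hx hQ)).1.comp x ((hasDerivAt_id x).div_const Q)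
    have h2 := (h1.fun_div (hasDerivAt_id' x) hx.ne').fun_mul (hg x hx)
    refine h2.congr_deriv ?_
    field_simp
  · have hx : 0 < x := by linarith
    obtain ⟨a1, a2⟩ := hgb x h1 h2
    have a3 := hWb x h1
    have a4 : |W₁ (x / Q) / Q / x| ≤ C / x ^ 2 := by
      rw [abs_div, abs_div, abs_of_pos hQ, abs_of_pos hx]
      calc _ ≤ C / (x / Q) / Q / x := by gcongr; exact (hW _ (div_pos hx hQ)).2
        _ = _ := by field_simp
    have a5 : |W (x / Q) / x ^ 2| ≤ B / x ^ 2 := by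
      rw [abs_div, abs_of_pos (by positivity : 0 < x ^ 2)]; gcongr
    have a6 : |W (x / Q) / x| ≤ B / x := by rw [abs_div, abs_of_pos hx]; gcongr
    calc _ ≤ |W₁ (x / Q) / Q / x - W (x / Q) / x ^ 2| * |g x| + |W (x / Q) / x| * |g₁ x| := by
          rw [← abs_mul, ← abs_mul]; exact abs_add_le _ _
      _ ≤ (C / x ^ 2 + B / x ^ 2) * Γ + B / x * (Γ / x) := by
          gcongr
          exact (abs_sub _ _).trans (add_le_add a4 a5)
      _ = _ := by field_simp; ring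

theorem log_le {x N : ℝ} (hN : 2 ≤ N) (h1 : 1 / (2 * N) ≤ x) (h2 : x ≤ N ^ 2) :
    |Real.log x| ≤ 2 * Real.log N := by
  have hx : 0 < x := lt_of_lt_of_le (by positivity) h1
  have e : 2 * Real.log N = Real.log (N ^ 2) := by rw [Real.log_pow]; norm_num
  rw [abs_le, e, ← Real.log_inv]
  refine ⟨Real.log_le_log (by positivity) (le_trans ?_ h1), Real.log_le_log hx h2⟩
  rw [← one_div]
  exact one_div_le_one_div_of_le (by positivity) (by nlinarith)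

theorem num {P S N : ℝ} (hP : 200 ≤ P) (h : P ^ 3 ≤ S) (e : S * S = N) :
    2 * P ^ 2 < S ∧ 1 ≤ S ∧ P ≤ P ^ 2 ∧ S * P ≤ N ∧ 2 * (S * P ^ 2) < N ∧ P ^ 4 ≤ N ∧
      1 ≤ S * P := by
  have h0 : 0 < P ^ 2 := by positivity
  have h1 : 2 * P ^ 2 < S := by nlinarith
  have h2 : P ≤ P ^ 2 := by nlinarith
  have h3 : 1 ≤ S := by linarith
  refine ⟨h1, h3, h2, by nlinarith, by nlinarith, by nlinarith, by nlinarith⟩

theorem num2 {x Q R N M : ℝ} (hx : 1 ≤ x) (hQ : 0 < Q) (hR : 1 ≤ R) (hRN : R ≤ N) (hN : 2 ≤ N)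
    (h1 : 2 * Q * R ≤ M) (h2 : M ≤ N) (h3 : x / Q < 2 * R) :
    1 / (2 * N) ≤ x / Q ∧ x / Q ≤ N ^ 2 := by
  constructor
  · rw [div_le_div_iff₀ (by positivity) hQ]; nlinarith
  · nlinarith

end CBA

open CBA in
theorem cbOf : CBOf := by
  rintro ⟨Cg, hCg, hG⟩ ⟨Ca, hCa, hA⟩ ⟨Cs, hCs, hS⟩ ϑ C hϑ hϑ' hC
  obtain ⟨N₁, h3, hN₁⟩ := U.ev_log (200 * C * Cg * (Ca + Cs)) 3 hϑ
  obtain ⟨N₂, -, hN₂⟩ := U.ev_tau 1 hϑ
  refine ⟨max N₁ N₂, fun N D _ χ R Q W k n h hN hR hQ hQR hn hn' hh hh' => ?_⟩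
  have hN3 : (3 : ℝ) ≤ N := by exact_mod_cast h3.trans ((le_max_left _ _).trans hN)
  have hN0 : (0 : ℝ) < N := by linarith
  have hK := hN₁ N ((le_max_left _ _).trans hN)
  have hT := hN₂ N ((le_max_right _ _).trans hN) n
  obtain ⟨hpr, hprim, hsq, hD, hR1, hRN, ⟨⟨W₁, hW⟩, hW0⟩, hk⟩ := hR
  have hl : 0 ≤ Real.log N := Real.log_nonneg (by linarith)
  have eS : (N : ℝ) ^ (1 / 2 : ℝ) * (N : ℝ) ^ (1 / 2 : ℝ) = N := by
    rw [← Real.rpow_add hN0]; norm_num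
  have ep : ∀ j : ℕ, (N : ℝ) ^ (j * ϑ) = ((N : ℝ) ^ ϑ) ^ j := fun j => by
    rw [mul_comm, Real.rpow_mul hN0.le, Real.rpow_natCast]
  have e2 := ep 2
  have e3 := ep 3
  have e4 := ep 4
  have e13 := ep 13
  push_cast at e2 e3 e4 e13
  have h3S : ((N : ℝ) ^ ϑ) ^ 3 ≤ (N : ℝ) ^ (1 / 2 : ℝ) := by
    rw [← e3]; exact Real.rpow_le_rpow_of_exponent_le (by linarith) (by linarith)
  have hfin : ((N : ℝ) ^ ϑ) ^ 13 / (N : ℝ) ^ (1 / 2 : ℝ) ≤ (N : ℝ) ^ (-1 / 4 : ℝ) := by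
    rw [← e13, ← Real.rpow_sub hN0]
    exact Real.rpow_le_rpow_of_exponent_le (by linarith) (by linarith)
  have eA : (AN ϑ N : ℝ) ≤ 2 * ((N : ℝ) ^ (1 / 2 : ℝ) * ((N : ℝ) ^ ϑ) ^ 2) ∧
      2 * ((N : ℝ) ^ (1 / 2 : ℝ) * ((N : ℝ) ^ ϑ) ^ 2) ≤ AN ϑ N + 1 := by
    unfold AN
    rw [Real.rpow_add hN0, e2]
    exact ⟨Nat.floor_le (by positivity), (Nat.lt_floor_add_one _).le⟩
  rw [Real.rpow_add hN0] at hQR
  rw [Real.rpow_add hN0, e2] at hn'
  rw [e4] at hh'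
  rw [Real.rpow_neg hN0.le] at hk
  refine le_trans ?_ hfin
  have hS0 : 0 < (N : ℝ) ^ (1 / 2 : ℝ) := by positivity
  generalize (N : ℝ) ^ (1 / 2 : ℝ) = S at *
  generalize (N : ℝ) ^ ϑ = P at *
  obtain ⟨L, hL⟩ : ∃ L, L = 1 + Real.log N := ⟨_, rfl⟩
  rw [← hL] at hK
  have hL1 : 1 ≤ L := by linarith
  have hP : 200 ≤ P := by
    refine le_trans ?_ hK
    calc (200 : ℝ) = 200 * 1 * 1 * 1 * 1 ^ 3 := by norm_num
      _ ≤ _ := by gcongr; linarith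
  have hP0 : 0 < P := by linarith
  obtain ⟨hP2, hS1, hP1, hSP, hSP2, hP4, hM⟩ := num hP h3S eS
  have hn1 : (1 : ℝ) ≤ n := by exact_mod_cast hn
  have hn0 : (0 : ℝ) < n := by linarith
  have hnN : (n : ℝ) ≤ N := by linarith [mul_pos hS0 (pow_pos hP0 2)]
  have hh1 : (1 : ℝ) ≤ |(h : ℝ)| := by exact_mod_cast Int.one_le_abs hh
  have hhN : |(h : ℝ)| ≤ N := hh'.trans hP4
  have hT' : tau n ^ 2 ≤ P ^ 2 := pow_le_pow_left₀ (U.tau_nonneg n) (hT (by simpa using hnN)) 2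
  have hH : (h : ℝ) * N ≠ 0 := mul_ne_zero (by exact_mod_cast hh) hN0.ne'
  obtain ⟨G₁, G₂, F₁, L₁, hF⟩ := hG P P P⁻¹ n (h * N) 1 k hk hn0 hH one_pos
  obtain ⟨-, -, -, ⟨B', -, -, -, hk0, -⟩, hk1⟩ := hk
  have hW0' : ∀ x, S * P ≤ x → W (x / Q) = 0 := fun x hx =>
    hW0 _ (by rw [le_div_iff₀ hQ]; linarith)
  have hWb : ∀ x, 1 ≤ x → |W (x / Q)| ≤ 2 * C * L := by
    intro x hx
    rcases le_or_gt (2 * R) (x / Q) with h1 | h1
    · rw [hW0 _ h1, abs_zero]; positivity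
    obtain ⟨h2, h2'⟩ := num2 hx hQ hR1 hRN (by linarith) hQR hSP h1
    have h4 := log_le (by linarith) h2 h2'
    have h5 := (hW _ (div_pos (lt_of_lt_of_le one_pos hx) hQ)).2.1
    calc _ ≤ C * (2 * L) := h5.trans (by gcongr; linarith)
      _ = _ := by ring
  have habs : ∀ x : ℝ, 0 < x → |(h : ℝ) * N / (n * x)| = |(h : ℝ)| * N / (n * x) := fun x hx => by
    rw [abs_div, abs_mul, abs_of_pos hN0, abs_of_pos (mul_pos hn0 hx)]
  have hg0 : ∀ x : ℝ, 0 < x → x ≤ S / P ^ 3 → k (h * N / (n * x)) = 0 := by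
    intro x hx h1
    refine hk0 _ ?_
    rw [habs x hx, le_div_iff₀ (mul_pos hn0 hx)]
    calc P * (n * x) ≤ P * (S * P ^ 2 * (S / P ^ 3)) := by gcongr
      _ = 1 * N := by rw [← eS]; field_simp
      _ ≤ _ := by gcongr
  have hΓ : ∀ x : ℝ, 1 ≤ x → x ≤ 2 * (S * P) →
      Cg * P * P ^ 2 / P⁻¹ ^ 2 * (1 + abs (Real.log |(h : ℝ) * N / (n * x)|)) ≤
        2 * Cg * P ^ 5 * L ∧ 1 + |Real.log (n * x)| ≤ 4 * L := by
    intro x h1 h2
    have hx : 0 < x := by linarith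
    have hnx : 1 ≤ n * x := one_le_mul_of_one_le_of_one_le hn1 h1
    have hnx' : n * x ≤ N * (2 * N) := by gcongr; linarith
    have h4 : abs (Real.log |(h : ℝ) * N / (n * x)|) ≤ 2 * Real.log N := by
      rw [habs x hx]
      refine log_le (by linarith) ?_ ?_
      · rw [div_le_div_iff₀ (by positivity) (by positivity)]
        calc 1 * (n * x) ≤ 1 * (N * (2 * N)) := by gcongr
          _ ≤ |(h : ℝ)| * (N * (2 * N)) := by gcongr
          _ = _ := by ring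
      · refine (div_le_self (by positivity) hnx).trans ?_
        rw [sq]; gcongr
    constructor
    · calc _ = Cg * P ^ 5 * (1 + abs (Real.log |(h : ℝ) * N / (n * x)|)) := by field_simp
        _ ≤ Cg * P ^ 5 * (2 * L) := by gcongr; linarith
        _ = _ := by ring
    · have h5 : Real.log (n * x) ≤ Real.log ((N : ℝ) ^ 3) :=
        Real.log_le_log (by linarith) (hnx'.trans (by
          calc (N : ℝ) * (2 * N) ≤ N * (N * N) := by gcongr; linarith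
            _ = _ := by ring))
      rw [Real.log_pow] at h5
      rw [abs_of_nonneg (Real.log_nonneg hnx)]
      push_cast at h5
      linarith
  have hX : 1 ≤ S / P ^ 3 := by rw [le_div_iff₀ (by positivity)]; linarith
  have hW' : ∀ x, 0 < x → HasDerivAt W (W₁ x) x ∧ |W₁ x| ≤ C / x := fun x hx =>
    ⟨(hW x hx).1, (hW x hx).2.2⟩
  have hb1 : ∀ x : ℝ, 1 ≤ x → x ≤ 2 * (S * P) →
      |k (h * N / (n * x))| ≤ 2 * Cg * P ^ 5 * L ∧ |F₁ x| ≤ 2 * Cg * P ^ 5 * L / x := by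
    intro x h1 h2
    obtain ⟨-, -, -, -, a1, -, -, -, a2, -⟩ := hF x _ (by linarith) rfl
    have a3 := (hΓ x h1 h2).1
    exact ⟨a1.trans a3, a2.trans (by gcongr)⟩
  obtain ⟨i1, s1⟩ := si_prod hS W W₁ (fun x => k (h * N / (n * x))) F₁ C (2 * C * L) Q
    (2 * Cg * P ^ 5 * L) (S / P ^ 3) (S * P) N hX hM hSP (by linarith) (by positivity)
    (by positivity) hQ hW' hWb hW0' (fun x hx => (hF x _ hx rfl).2.2.1) hg0 hb1
  obtain ⟨i2, s2⟩ := si_prod hS W W₁ (fun x => k (h * N / (n * x)) * Real.log |n * x + h * N|) L₁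
    C (2 * C * L) Q (2 * Cg * P ^ 5 * L * (4 * L)) (S / P ^ 3) (S * P) N hX hM hSP (by linarith)
    (by positivity) (by positivity) hQ hW' hWb hW0' (fun x hx => (hF x _ hx rfl).2.2.2.1)
    (fun x hx h1 => by simp [hg0 x hx h1]) (fun x h1 h2 => by
      obtain ⟨-, -, -, -, -, -, -, -, -, a1, a2⟩ := hF x _ (by linarith) rfl
      obtain ⟨a3, a4⟩ := hΓ x h1 h2
      exact ⟨a1.trans (by gcongr), a2.trans (by gcongr)⟩)
  have hD1 : (1 : ℝ) ≤ D := by exact_mod_cast NeZero.pos D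
  have hDN : (D : ℝ) ≤ N := hD.trans ((le_mul_of_one_le_left hP0.le hS1).trans hSP)
  obtain ⟨z₁, z₀, hz1, hz0, hz⟩ := zc_aff χ N n h hn (2 * L) (by
    have h5 : Real.log (n * D) ≤ Real.log ((N : ℝ) ^ 2) :=
      Real.log_le_log (by positivity) (by rw [sq]; gcongr)
    rw [Real.log_pow] at h5
    push_cast at h5
    linarith)
  have hAN : AN ϑ N < N := by
    have : (AN ϑ N : ℝ) < N := eA.1.trans_lt hSP2
    exact_mod_cast this
  have hpt : ∀ x ∈ Icc 1 N, ‖((W (x / Q) / x * k (h * N / (n * x)) : ℝ) : ℂ) *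
      (ra χ ϑ N n h x - zc χ N n h (Real.log |(n : ℝ) * x + h * N|))‖ ≤
      2 * C * L * (2 * Cg * P ^ 5 * L) * (Ca * P ^ 7 / S) * (1 / x) := by
    intro x hx
    have hx1 : (1 : ℝ) ≤ x := by exact_mod_cast (mem_Icc.mp hx).1
    have hx0 : (0 : ℝ) < x := by linarith
    by_cases c1 : W (x / Q) = 0
    · simp only [c1, zero_div, zero_mul, ofReal_zero, norm_zero]; positivity
    by_cases c2 : k (h * N / (n * x)) = 0
    · simp only [c2, mul_zero, zero_mul, ofReal_zero, norm_zero]; positivity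
    have d1 : (x : ℝ) < S * P := lt_of_not_ge fun c => c1 (hW0' _ c)
    have d2 : |(h : ℝ) * N / (n * x)| < P := lt_of_not_ge fun c => c2 (hk0 _ c)
    have d3 : P⁻¹ < |1 + (h : ℝ) * N / (n * x)| := lt_of_not_ge fun c => c2 (hk1 _ c)
    have hnx : 0 < (n : ℝ) * x := by positivity
    rw [habs x hx0, div_lt_iff₀ hnx] at d2
    have d4 : |(n : ℝ) * x + h * N| = n * x * |1 + (h : ℝ) * N / (n * x)| := by
      rw [← abs_of_pos hnx, ← abs_mul, abs_of_pos hnx]; congr 1; field_simp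
    have d5 : (S / P) ^ 2 ≤ |(n : ℝ) * x + h * N| := by
      rw [d4]
      calc (S / P) ^ 2 = N / P * P⁻¹ := by rw [← eS]; field_simp
        _ ≤ _ := by
          gcongr
          rw [div_le_iff₀ hP0, mul_comm _ P]
          exact (le_mul_of_one_le_left hN0.le hh1).trans d2.le
    have d6 : |(n : ℝ) * x + h * N| ≤ 2 * (S * P ^ 2) ^ 2 := by
      refine (abs_add_le _ _).trans ?_
      rw [abs_of_pos hnx, abs_mul, abs_of_pos hN0]
      have b1 : (n : ℝ) * x ≤ S * P ^ 2 * (S * P ^ 2) := by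
        gcongr
        exact d1.le.trans (by gcongr)
      have b2 : |(h : ℝ)| * N ≤ P ^ 4 * (S * S) := by rw [eS]; gcongr
      calc _ ≤ _ := add_le_add b1 b2
        _ = _ := by ring
    have d7 := hA D χ N n (AN ϑ N) h |(n : ℝ) * x + h * N| hprim hsq hpr hAN hn hh
      (lt_of_lt_of_le (by positivity) d5) (by
        have := pow_le_pow_left₀ (by positivity) eA.2 2
        rw [mul_pow] at this
        linarith)
    have d8 : S / P ≤ √|(n : ℝ) * x + h * N| := Real.le_sqrt_of_sq_le d5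
    have d9 : ‖ra χ ϑ N n h x - zc χ N n h (Real.log |(n : ℝ) * x + h * N|)‖ ≤ Ca * P ^ 7 / S := by
      refine d7.trans ?_
      calc _ ≤ Ca * P ^ 2 * P ^ 4 / (S / P) := by gcongr
        _ = _ := by field_simp
    rw [norm_mul, Complex.norm_real, Real.norm_eq_abs, abs_mul, abs_div, abs_of_pos hx0]
    calc _ ≤ 2 * C * L / x * (2 * Cg * P ^ 5 * L) * (Ca * P ^ 7 / S) := by
          gcongr
          · exact hWb x hx1
          · exact (hb1 x hx1 (by linarith)).1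
      _ = _ := by ring
  have hsum := (norm_sum_le _ _).trans (sum_le_sum hpt)
  rw [← mul_sum] at hsum
  have hsum' := hsum.trans (mul_le_mul_of_nonneg_left ((U.sum_inv N).trans hL.ge) (by positivity))
  have ept : ∀ x : ℝ, ((W (x / Q) / x * k (h * N / (n * x)) : ℝ) : ℂ) *
      zc χ N n h (Real.log |n * x + h * N|) =
      z₁ * ((W (x / Q) / x * (k (h * N / (n * x)) * Real.log |n * x + h * N|) : ℝ) : ℂ) +
        z₀ * ((W (x / Q) / x * k (h * N / (n * x)) : ℝ) : ℂ) := fun x => by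
    rw [hz]; push_cast; ring
  have eI : ∫ x in Set.Ioi (0 : ℝ), ((W (x / Q) / x * k (h * N / (n * x)) : ℝ) : ℂ) *
      zc χ N n h (Real.log |n * x + h * N|) =
      z₁ * ((∫ x in Set.Ioi (0 : ℝ),
        W (x / Q) / x * (k (h * N / (n * x)) * Real.log |n * x + h * N|) : ℝ) : ℂ) +
      z₀ * ((∫ x in Set.Ioi (0 : ℝ), W (x / Q) / x * k (h * N / (n * x)) : ℝ) : ℂ) := by
    simp only [ept]
    rw [integral_add (i2.ofReal.const_mul _) (i1.ofReal.const_mul _), integral_const_mul,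
      integral_const_mul, integral_complex_ofReal, integral_complex_ofReal]
  have eS' : sx W Q N k n h (ra χ ϑ N n h) =
      ∑ x ∈ Icc 1 N, ((W (x / Q) / x * k (h * N / (n * x)) : ℝ) : ℂ) *
        (ra χ ϑ N n h x - zc χ N n h (Real.log |(n : ℝ) * x + h * N|)) +
      (z₁ * ((∑ x ∈ Icc 1 N,
        W (x / Q) / x * (k (h * N / (n * x)) * Real.log |(n : ℝ) * x + h * N|) : ℝ) : ℂ) +
      z₀ * ((∑ x ∈ Icc 1 N, W (x / Q) / x * k (h * N / (n * x)) : ℝ) : ℂ)) := by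
    unfold sx
    rw [ofReal_sum, ofReal_sum, mul_sum, mul_sum, ← sum_add_distrib, ← sum_add_distrib]
    refine sum_congr rfl fun x _ => ?_
    rw [← ept x]; ring
  rw [eI, eS']
  have key : ∀ (a : ℂ) (b c d e : ℝ), ‖a + (z₁ * (b : ℂ) + z₀ * (c : ℂ)) - (z₁ * (d : ℂ) + z₀ * (e : ℂ))‖ ≤
      ‖a‖ + (‖z₁‖ * |b - d| + ‖z₀‖ * |c - e|) := by
    intro a b c d e
    have : a + (z₁ * (b : ℂ) + z₀ * (c : ℂ)) - (z₁ * (d : ℂ) + z₀ * (e : ℂ)) =
        a + (z₁ * ((b - d : ℝ) : ℂ) + z₀ * ((c - e : ℝ) : ℂ)) := by push_cast; ring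
    rw [this]
    refine (norm_add_le _ _).trans (add_le_add le_rfl ((norm_add_le _ _).trans ?_))
    rw [norm_mul, norm_mul, Complex.norm_real, Complex.norm_real, Real.norm_eq_abs,
      Real.norm_eq_abs]
  refine (key _ _ _ _ _).trans ?_
  have hC5 : C + 2 * (2 * C * L) ≤ 5 * C * L := by
    linarith [le_mul_of_one_le_right (zero_le_one.trans hC) hL1]
  calc _ ≤ 2 * C * L * (2 * Cg * P ^ 5 * L) * (Ca * P ^ 7 / S) * L +
        (P ^ 2 * (Cs * (5 * C * L * (2 * Cg * P ^ 5 * L * (4 * L))) / (S / P ^ 3)) +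
        P ^ 2 * (2 * (2 * L)) * (Cs * (5 * C * L * (2 * Cg * P ^ 5 * L)) / (S / P ^ 3))) := by
        gcongr
        · exact hz1.trans hT'
        · exact s2.trans (by gcongr)
        · exact hz0.trans (by gcongr)
        · exact s1.trans (by gcongr)
    _ = (4 * C * Cg * Ca * L ^ 3 * P ^ 12 + 80 * C * Cg * Cs * L ^ 3 * P ^ 10) / S := by
        field_simp; ring
    _ ≤ (200 * C * Cg * Ca * L ^ 3 * P ^ 12 + 200 * C * Cg * Cs * L ^ 3 * P ^ 12) / S := by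
        gcongr <;> linarith
    _ = 200 * C * Cg * (Ca + Cs) * L ^ 3 * P ^ 12 / S := by ring
    _ ≤ P * P ^ 12 / S := by gcongr
    _ = _ := by ring

end Pool.Agent.MP_20b2fd_nt.F5
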