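import Pool.Agent.MP_20b2fd_nt.F5.Util

/-! The sum over the shifts. -/

set_option autoImplicit false

namespace Pool.Agent.MP_20b2fd_nt.F5

open MeasureTheory Finset
open Pool.Agent.MP_c5bf7b_nt.H38 (Phi Ch)
open Pool.Agent.MP_20b2fd_nt.H38

namespace COA

/-- the shifts that matter -/
noncomputable def TT (Y : ℝ) : Finset ℤ := (Icc (-(⌊Y⌋₊ : ℤ)) ⌊Y⌋₊).erase 0

theorem mem_TT {Y : ℝ} (hY : 0 ≤ Y) {h : ℤ} : h ∈ TT Y ↔ h ≠ 0 ∧ |(h : ℝ)| ≤ Y := by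
  rw [TT, mem_erase, mem_Icc, ← abs_le, Int.natCast_floor_eq_floor hY, Int.le_floor, Int.cast_abs]

theorem card_TT {Y : ℝ} (hY : 0 ≤ Y) : ((TT Y).card : ℝ) ≤ 2 * Y := by
  have : (TT Y).card = 2 * ⌊Y⌋₊ := by
    rw [TT, card_erase_of_mem (by simp), Int.card_Icc]
    omega
  rw [this]
  push_cast
  linarith [Nat.floor_le hY]

variable {ϑ C R Q : ℝ} {N D : ℕ} {χ : Ch D} {W k : ℝ → ℝ}

theorem lt_of_ne (H : Rg0 ϑ C N D χ R W k) (hQ : 0 < Q) {x : ℝ} (hx : W (x / Q) ≠ 0) :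
    x < 2 * Q * R := by
  by_contra h
  exact hx (H.hW.2 _ (by rw [le_div_iff₀ hQ]; linarith))

theorem supp (H : Rg0 ϑ C N D χ R W k) (hQ : 0 < Q) (hQ' : 2 * Q * R ≤ (N : ℝ) ^ (1 / 2 + ϑ))
    {n x : ℝ} (hn : 0 < n) (hn' : n ≤ (N : ℝ) ^ (1 / 2 + 2 * ϑ)) (hx : 0 < x) {h : ℤ}
    (hh : h ∉ TT ((N : ℝ) ^ (4 * ϑ))) :
    tau h.natAbs = 0 ∨ W (x / Q) / x * k (h * N / (n * x)) = 0 := by
  have N0 : (0 : ℝ) < N := Nat.cast_pos.2 H.pr.pos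
  rcases eq_or_ne h 0 with rfl | h0
  · exact Or.inl U.tau_zero
  right
  by_cases hW : W (x / Q) = 0
  · simp [hW]
  have h1 : (N : ℝ) ^ (4 * ϑ) ≤ |(h : ℝ)| :=
    (not_le.1 fun e => hh ((mem_TT (by positivity)).2 ⟨h0, e⟩)).le
  obtain ⟨-, -, -, ⟨_, _, -, -, h2, -⟩, -⟩ := H.hk
  rw [h2, mul_zero]
  rw [abs_div, abs_mul, Nat.abs_cast, abs_of_pos (mul_pos hn hx), le_div_iff₀ (mul_pos hn hx)]
  calc _ ≤ (N : ℝ) ^ ϑ * ((N : ℝ) ^ (1 / 2 + 2 * ϑ) * (N : ℝ) ^ (1 / 2 + ϑ)) := by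
        have := (lt_of_ne H hQ hW).le.trans hQ'
        gcongr
    _ = (N : ℝ) ^ (4 * ϑ) * N := by
        rw [← Real.rpow_add N0, ← Real.rpow_add N0, ← Real.rpow_add_one N0.ne']
        congr 1
        ring
    _ ≤ _ := by gcongr

theorem fin (H : Rg0 ϑ C N D χ R W k) (hQ : 0 < Q) (hQ' : 2 * Q * R ≤ (N : ℝ) ^ (1 / 2 + ϑ))
    {n : ℕ} (hn : 1 ≤ n) (hn' : (n : ℝ) ≤ (N : ℝ) ^ (1 / 2 + 2 * ϑ)) :
    ∑ x ∈ Icc 1 N, wk χ W Q x * (Od k N (x * n) : ℝ) - zf χ W Q N k n =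
      ∑ h ∈ TT ((N : ℝ) ^ (4 * ϑ)), (tau h.natAbs : ℝ) *
        ((sx W Q N k n h fun x => χ x * (tau (n * x + h * N : ℤ).natAbs : ℝ) - ra χ ϑ N n h x) +
        (sx W Q N k n h (ra χ ϑ N n h) - ∫ x in Set.Ioi (0 : ℝ),
          ((W (x / Q) / x * k (h * N / (n * x)) : ℝ) : ℂ) *
            zc χ N n h (Real.log |n * x + h * N|))) := by
  have n0 : (0 : ℝ) < n := Nat.cast_pos.2 hn
  rw [zf, tsum_eq_sum (s := TT ((N : ℝ) ^ (4 * ϑ))) fun h hh => by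
    by_cases h0 : tau h.natAbs = 0
    · simp [h0]
    · rw [setIntegral_eq_zero_of_forall_eq_zero fun x hx => by
        rw [(supp H hQ hQ' n0 hn' hx hh).resolve_left h0]; simp, mul_zero]]
  simp only [sx, mul_sub, sum_sub_distrib, sub_add_sub_cancel, mul_sum]
  rw [sum_comm]
  refine congrArg (· - _) (sum_congr rfl fun x hx => ?_)
  have e : W (x / Q) / x * Od k N (x * n) = ∑ h ∈ TT ((N : ℝ) ^ (4 * ϑ)), tau h.natAbs *
      (W (x / Q) / x * k (h * N / (n * x)) * tau (n * x + h * N : ℤ).natAbs) := by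
    rw [Od, ← tsum_mul_left, ← tsum_eq_sum (L := SummationFilter.unconditional ℤ) fun h hh => by
      rcases supp H hQ hQ' n0 hn' (Nat.cast_pos.2 (mem_Icc.1 hx).1) hh with e | e <;> simp [e]]
    refine tsum_congr fun h => ?_
    rw [mul_comm x n]
    push_cast
    ring
  have e' := congrArg (fun t : ℝ => χ x * (t : ℂ)) e
  simp only [Complex.ofReal_sum, mul_sum] at e'
  refine Eq.trans ?_ (e'.trans (sum_congr rfl fun h _ => ?_))
  · rw [wk]; push_cast; ring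
  · push_cast; ring

theorem wk_le (H : Rg0 ϑ C N D χ R W k) (hϑ : ϑ ≤ 1 / 2) (hC : 1 ≤ C) (hQ : 0 < Q)
    (hQ' : 2 * Q * R ≤ (N : ℝ) ^ (1 / 2 + ϑ)) {y : ℕ} (hy : 1 ≤ y) :
    ‖wk χ W Q y‖ ≤ 2 * C * (1 + Real.log N) * (1 / y) := by
  have N1 : (1 : ℝ) ≤ N := Nat.one_le_cast.2 H.pr.pos
  have y1 : (1 : ℝ) ≤ y := Nat.one_le_cast.2 hy
  have hl := Real.log_nonneg N1
  rw [wk, norm_div, norm_mul, Complex.norm_real, Complex.norm_natCast, mul_one_div]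
  refine div_le_div_of_nonneg_right ((mul_le_of_le_one_left (norm_nonneg _)
    (χ.norm_le_one _)).trans ?_) (by positivity)
  by_cases hW : W (y / Q) = 0
  · rw [hW, norm_zero]; positivity
  obtain ⟨W₁, h1⟩ := H.hW.1
  have h2 : (y : ℝ) / Q ≤ 2 * N := by
    rw [div_le_iff₀ hQ]
    nlinarith [lt_of_ne H hQ hW, H.hR']
  have h3 : (N : ℝ)⁻¹ ≤ y / Q := by
    have := hQ'.trans (Real.rpow_le_rpow_of_exponent_le N1 (by linarith : 1 / 2 + ϑ ≤ 1))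
    rw [Real.rpow_one] at this
    rw [le_div_iff₀ hQ, inv_mul_le_iff₀ (by positivity)]
    nlinarith [H.hR]
  have h4 := Real.log_le_log (by positivity) h2
  have h5 := Real.log_le_log (by positivity) h3
  rw [Real.log_mul (by norm_num) (by positivity)] at h4
  rw [Real.log_inv] at h5
  have h6 : |Real.log (y / Q)| ≤ 1 + Real.log N :=
    abs_le.2 ⟨by linarith, by linarith [Real.log_two_lt_d9]⟩
  refine (h1 _ (by positivity)).2.1.trans ?_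
  nlinarith

end COA

open COA in
theorem coOf : COOf := by
  intro hA hB ϑ C h0 h1 hC
  obtain ⟨N1, hA⟩ := hA ϑ C h0 h1 hC
  obtain ⟨N2, hB⟩ := hB ϑ C h0 h1 hC
  obtain ⟨N3, -, h3⟩ := U.ev_log (2 * C) 2 (show (0 : ℝ) < 1 / 10 by norm_num)
  obtain ⟨N4, -, h4⟩ := U.ev_log 4 0 (show (0 : ℝ) < 1 / 200 by norm_num)
  refine ⟨N1 + N2 + N3 + N4, fun N D _ χ R Q₁ Q₂ W k lam hN H q1 q2 q3 q4 l1 l2 => ?_⟩
  have N0 : (0 : ℝ) < N := Nat.cast_pos.2 H.pr.pos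
  have N1 : (1 : ℝ) ≤ N := Nat.one_le_cast.2 H.pr.pos
  have hl := Real.log_nonneg N1
  have hn : ∀ y : ℕ, wk χ W Q₂ y ≠ 0 → ((lam * y : ℕ) : ℝ) ≤ (N : ℝ) ^ (1 / 2 + 2 * ϑ) :=
    fun y hy => by
      have := (lt_of_ne H q2 fun e : W (y / Q₂) = 0 => hy (by simp [wk, e])).le.trans q4
      rw [show 1 / 2 + 2 * ϑ = ϑ + (1 / 2 + ϑ) by ring, Real.rpow_add N0, Nat.cast_mul]
      gcongr
  rw [sum_congr rfl fun y hy => (eq_or_ne (wk χ W Q₂ y) 0).elim (fun e => by simp [e]) fun e =>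
    congrArg (wk χ W Q₂ y * ·) (fin H q1 q3 (Nat.mul_pos l1 (mem_Icc.1 hy).1) (hn y e))]
  simp only [mul_sum, mul_left_comm (wk χ W Q₂ _)]
  rw [sum_comm]
  refine (norm_sum_le _ _).trans ((sum_le_card_nsmul _ _
    ((N : ℝ) ^ (4 * ϑ) * (2 * (N : ℝ) ^ (-1 / 25 : ℝ))) fun h hh => ?_).trans ?_)
  · obtain ⟨a1, a2⟩ := (mem_TT (by positivity)).1 hh
    rw [← mul_sum, norm_mul, Complex.norm_real, Real.norm_of_nonneg (U.tau_nonneg _)]
    refine mul_le_mul ((U.tau_le _).trans (by rwa [Nat.cast_natAbs, Int.cast_abs])) ?_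
      (norm_nonneg _) (by positivity)
    simp only [mul_add (wk χ W Q₂ _), sum_add_distrib]
    rw [two_mul]
    refine (norm_add_le _ _).trans (add_le_add
      (hA N D χ R Q₁ Q₂ W k lam h (by omega) H q1 q2 q3 q4 l1 l2 a1 a2) ?_)
    refine (norm_sum_le _ _).trans ((sum_le_sum (g := fun y : ℕ => (N : ℝ) ^ (-1 / 4 : ℝ) *
      (2 * C * (1 + Real.log N)) * (1 / y)) fun y hy => ?_).trans ?_)
    · by_cases e : wk χ W Q₂ y = 0
      · rw [e, zero_mul, norm_zero]; positivity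
      rw [norm_mul, mul_comm, mul_assoc]
      exact mul_le_mul (hB N D χ R Q₁ W k _ h (by omega) H q1 q3 (Nat.mul_pos l1 (mem_Icc.1 hy).1)
        (hn y e) a1 a2) (wk_le H (by linarith) hC q2 q4 (mem_Icc.1 hy).1) (norm_nonneg _)
        (by positivity)
    · rw [← mul_sum]
      calc _ ≤ (N : ℝ) ^ (-1 / 4 : ℝ) * (2 * C * (1 + Real.log N)) * (1 + Real.log N) := by
            have := U.sum_inv N
            gcongr
        _ ≤ (N : ℝ) ^ (-1 / 4 : ℝ) * (N : ℝ) ^ (1 / 10 : ℝ) := by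
            rw [mul_assoc, mul_assoc, ← sq]
            exact mul_le_mul_of_nonneg_left (h3 N (by omega)) (by positivity)
        _ ≤ _ := by
            rw [← Real.rpow_add N0]
            exact Real.rpow_le_rpow_of_exponent_le N1 (by norm_num)
  · have a1 := h4 N (by omega)
    have a2 := card_TT (Y := (N : ℝ) ^ (4 * ϑ)) (by positivity)
    rw [pow_zero, mul_one] at a1
    rw [nsmul_eq_mul]
    calc _ ≤ 2 * (N : ℝ) ^ (4 * ϑ) * ((N : ℝ) ^ (4 * ϑ) * (2 * (N : ℝ) ^ (-1 / 25 : ℝ))) := by gcongr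
      _ = 4 * ((N : ℝ) ^ (4 * ϑ) * ((N : ℝ) ^ (4 * ϑ) * (N : ℝ) ^ (-1 / 25 : ℝ))) := by ring
      _ ≤ (N : ℝ) ^ (1 / 200 : ℝ) *
          ((N : ℝ) ^ (4 * ϑ) * ((N : ℝ) ^ (4 * ϑ) * (N : ℝ) ^ (-1 / 25 : ℝ))) := by gcongr
      _ ≤ _ := by
          rw [← Real.rpow_add N0, ← Real.rpow_add N0, ← Real.rpow_add N0]
          exact Real.rpow_le_rpow_of_exponent_le N1 (by linarith)

end Pool.Agent.MP_20b2fd_nt.F5
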