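import Pool.Agent.MP_20b2fd_nt.F5.Util

/-! The part of the off-diagonal terms that is cut away. -/

set_option autoImplicit false

namespace Pool.Agent.MP_20b2fd_nt.F5

open Finset
open Pool.Agent.MP_20b2fd_nt.H38

namespace CUA

theorem cut_le (η : ℝ) (K : ℝ → ℝ) (t : ℝ) : |K t - kc1 η K t| ≤ |K t| := by
  have h : 0 ≤ chi0 η t ∧ chi0 η t ≤ 1 := by
    unfold chi0
    split_ifs
    · exact ⟨le_rfl, zero_le_one⟩
    · exact ⟨Real.smoothTransition.nonneg _, Real.smoothTransition.le_one _⟩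
  rw [kc1, ← mul_one_sub, abs_mul, abs_of_nonneg (sub_nonneg.2 h.2)]
  exact mul_le_of_le_one_right (abs_nonneg _) (by linarith [h.1])

theorem cut_zero {η : ℝ} (h0 : 0 < η) (h1 : η < 1) (K : ℝ → ℝ) {t : ℝ} (h : η ≤ |1 + t|) :
    K t - kc1 η K t = 0 := by
  have ht : t ≠ -1 := by
    rintro rfl
    simp at h
    linarith
  have : Real.log |1 + t| / Real.log η ≤ 1 :=
    (div_le_one_of_neg (Real.log_neg h0 h1)).2 (Real.log_le_log h0 h)
  rw [kc1, chi0, if_neg ht, Real.smoothTransition.one_of_one_le (by linarith), mul_one, sub_self]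

theorem cnt {η a : ℝ} (h0 : 0 < η) (h1 : η ≤ 1 / 10) (ha : 1 ≤ η * a) (M : ℕ) :
    ∑ m ∈ Icc 1 M, (if |(m : ℝ) - a| < η * m then (1 : ℝ) / m else 0) ≤ 8 * η := by
  have a0 : 0 < a := by
    by_contra h
    nlinarith [not_lt.1 h]
  rw [← sum_filter]
  have hb : ∀ m ∈ (Icc 1 M).filter fun m : ℕ => |(m : ℝ) - a| < η * m,
      a * (1 - η) ≤ m ∧ (m : ℝ) ≤ a * (1 + 2 * η) := fun m hm => by
    have h := abs_lt.1 (mem_filter.1 hm).2
    have m0 : (0 : ℝ) ≤ m := m.cast_nonneg
    have m1 : (m : ℝ) ≤ 2 * a := by nlinarith [h.2]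
    constructor
    · by_contra hc
      have := not_le.1 hc
      nlinarith [h.1]
    · nlinarith [h.2]
  have hc : (((Icc 1 M).filter fun m : ℕ => |(m : ℝ) - a| < η * m).card : ℝ) ≤ 3 * η * a + 1 := by
    have : ((Icc 1 M).filter fun m : ℕ => |(m : ℝ) - a| < η * m) ⊆
        Icc ⌈a * (1 - η)⌉₊ ⌊a * (1 + 2 * η)⌋₊ := fun m hm =>
      mem_Icc.2 ⟨Nat.ceil_le.2 (hb m hm).1, Nat.le_floor (hb m hm).2⟩
    refine (Nat.cast_le.2 (card_le_card this)).trans ?_
    rw [Nat.card_Icc]
    have e1 := Nat.le_ceil (a * (1 - η))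
    have e2 := Nat.floor_le (a := a * (1 + 2 * η)) (by positivity)
    rcases le_total ⌈a * (1 - η)⌉₊ (⌊a * (1 + 2 * η)⌋₊ + 1) with h | h
    · rw [Nat.cast_sub h]
      push_cast
      linarith
    · rw [Nat.sub_eq_zero_of_le h, Nat.cast_zero]
      positivity
  calc _ ≤ (((Icc 1 M).filter fun m : ℕ => |(m : ℝ) - a| < η * m).card : ℝ) * (2 / a) := by
        rw [← nsmul_eq_mul]
        refine sum_le_card_nsmul _ _ _ fun m hm => ?_
        have := (hb m hm).1
        rw [div_le_div_iff₀ (by nlinarith) a0]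
        nlinarith
    _ ≤ 4 * η * a * (2 / a) := by
        gcongr
        linarith
    _ = 8 * η := by field_simp; norm_num

end CUA

open CUA in
theorem cuOf : CUOf := by
  intro _ δ C d0 d1 hC
  obtain ⟨N1, -, h1⟩ := U.ev_tau 2 d0
  obtain ⟨N2, h3, h2⟩ := U.ev_log (32 * C) 1 d0
  refine ⟨max N1 N2, fun N K hN hK => ?_⟩
  have t1 := h1 N (le_of_max_le_left hN)
  have t2 := h2 N (le_of_max_le_right hN)
  have n3 : (3 : ℝ) ≤ N := by exact_mod_cast h3.trans (le_of_max_le_right hN)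
  have n1 : (1 : ℝ) ≤ N := by linarith
  have n0 : (0 : ℝ) < N := by linarith
  have l0 := Real.log_nonneg n1
  rw [pow_one] at t2
  set η := (N : ℝ) ^ (-40 * δ) with hη
  set L := (N : ℝ) ^ δ with hL
  have L1 : 32 ≤ L := by nlinarith
  have e0 : 0 < η := by positivity
  have pw : ∀ k : ℕ, (N : ℝ) ^ (k * δ) = L ^ k := fun k => by
    rw [hL, mul_comm, Real.rpow_mul n0.le, Real.rpow_natCast]
  have eL : η * L ^ 40 = 1 := by
    rw [← pw, hη, ← Real.rpow_add n0]
    norm_num
  have e1 : η ≤ 1 / 10 := by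
    have : L ≤ L ^ 40 := le_self_pow₀ (by linarith) (by norm_num)
    nlinarith
  have e2 : 1 ≤ η * N := by
    rw [hη, ← Real.rpow_add_one n0.ne']
    exact Real.one_le_rpow n1 (by linarith)
  have L6 : L ^ 6 ≤ N := by
    rw [← pw]
    exact (Real.rpow_le_rpow_of_exponent_le n1 (by push_cast; linarith)).trans_eq (Real.rpow_one _)
  have hM : ∀ m ∈ Icc 1 ⌊(N : ℝ) ^ (1 + 6 * δ)⌋₊, (1 : ℝ) ≤ m ∧ (m : ℝ) ≤ N * L ^ 6 := fun m hm => by
    obtain ⟨a, b⟩ := mem_Icc.1 hm
    refine ⟨by exact_mod_cast a, ((Nat.cast_le.2 b).trans (Nat.floor_le (by positivity))).trans_eq ?_⟩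
    rw [Real.rpow_add n0, Real.rpow_one, ← pw]
    norm_num
  set H := ⌊2 * L ^ 6⌋₊ with hH
  set E := L * L * (C * (2 * (1 + Real.log N))) with hE
  have E0 : 0 ≤ E := by positivity
  have key : ∀ m ∈ Icc 1 ⌊(N : ℝ) ^ (1 + 6 * δ)⌋₊, |Od (fun t => K t - kc1 η K t) N m| / m ≤
      ∑ h ∈ Icc (-H : ℤ) (-1), E * if |(m : ℝ) - -h * N| < η * m then (1 : ℝ) / m else 0 := by
    intro m hm
    obtain ⟨m1, m2⟩ := hM m hm
    have m0 : (0 : ℝ) < m := by linarith
    have et : ∀ h : ℤ, |1 + (h : ℝ) * N / m| = |(m : ℝ) - -h * N| / m := fun h => by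
      rw [← abs_of_pos m0, ← abs_div, abs_of_pos m0]
      congr 1
      field_simp
      ring
    have z : ∀ h : ℤ, ¬ |(m : ℝ) - -h * N| < η * m → K (h * N / m) - kc1 η K (h * N / m) = 0 :=
      fun h hh => cut_zero e0 (by linarith) K (by rw [et, le_div_iff₀ m0]; exact not_lt.1 hh)
    have rg : ∀ h : ℤ, |(m : ℝ) - -h * N| < η * m → (h : ℝ) < 0 ∧ -(h : ℝ) ≤ 2 * L ^ 6 := by
      intro h hh
      rw [abs_lt] at hh
      constructor
      · by_contra hc
        nlinarith [not_lt.1 hc, hh.2, mul_nonneg (not_lt.1 hc) n0.le]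
      · refine le_of_mul_le_mul_right ?_ n0
        nlinarith [hh.1]
    rw [Od, tsum_eq_sum (s := Icc (-H : ℤ) (-1)), div_le_iff₀ m0, sum_mul]
    · refine (abs_sum_le_sum_abs _ _).trans (sum_le_sum fun h _ => ?_)
      split_ifs with hh
      · rw [mul_assoc E, one_div_mul_cancel m0.ne', mul_one]
        by_cases h0 : (m : ℤ) + h * N = 0
        · rw [h0, Int.natAbs_zero, U.tau_zero]
          simpa using E0
        obtain ⟨r1, r2⟩ := rg h hh
        have a1 : (1 : ℝ) ≤ |(m : ℝ) - -h * N| := by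
          have : (1 : ℤ) ≤ |(m : ℤ) + h * N| := Int.one_le_abs h0
          rw [neg_mul, sub_neg_eq_add]
          exact_mod_cast this
        have a2 : |1 + (h : ℝ) * N / m| < η := by rwa [et, div_lt_iff₀ m0]
        have a3 : 1 / (N : ℝ) ^ 2 ≤ |1 + (h : ℝ) * N / m| := by
          rw [et]
          exact div_le_div₀ (abs_nonneg _) a1 m0 (by nlinarith)
        have a4 : 1 / (N : ℝ) ^ 2 ≤ 1 / 9 := one_div_le_one_div_of_le (by norm_num) (by nlinarith)
        have a5 : 9 / 10 ≤ |(h : ℝ) * N / m| := by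
          rw [abs_lt] at a2
          exact le_abs.2 (Or.inr (by linarith [a2.2]))
        have a6 : 1 / (N : ℝ) ^ 2 ≤ mn (h * N / m) :=
          le_min (by linarith) (le_min (by linarith) a3)
        have a7 : |Real.log (mn (h * N / m))| ≤ 2 * Real.log N := by
          have p : (0 : ℝ) < 1 / (N : ℝ) ^ 2 := by positivity
          have := Real.log_le_log p a6
          rw [one_div, Real.log_inv, Real.log_pow] at this
          rw [abs_of_nonpos (Real.log_nonpos (p.le.trans a6) (min_le_left _ _))]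
          push_cast at this
          linarith
        have a8 := (cut_le η K _).trans (hK (h * N / m) (by
          intro e; rw [e, abs_zero] at a5; linarith) (by
          intro e
          rw [e, add_neg_cancel, abs_zero] at a3
          exact absurd a3 (not_le.2 (by positivity))))
        have b1 : tau h.natAbs ≤ L := t1 _ (by
          rw [Nat.cast_natAbs, Int.cast_abs, abs_of_neg r1]; nlinarith)
        have b2 : tau (m + h * N : ℤ).natAbs ≤ L := t1 _ (by
          rw [Nat.cast_natAbs, Int.cast_abs]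
          push_cast
          rw [neg_mul, sub_neg_eq_add] at hh
          nlinarith)
        rw [abs_mul, abs_of_nonneg (mul_nonneg (U.tau_nonneg _) (U.tau_nonneg _))]
        refine mul_le_mul (mul_le_mul b1 b2 (U.tau_nonneg _) (by linarith)) (a8.trans ?_)
          (abs_nonneg _) (by positivity)
        gcongr
        linarith
      · simp [z h hh]
    · intro h hh
      by_cases hc : |(m : ℝ) - -h * N| < η * m
      · obtain ⟨r1, r2⟩ := rg h hc
        have s1 : h < 0 := by exact_mod_cast r1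
        have s2 : (-h).toNat ≤ H := Nat.le_floor (by
          have : (((-h).toNat : ℤ) : ℝ) = ((-h : ℤ) : ℝ) := by rw [Int.toNat_of_nonneg (by omega)]
          push_cast at this
          linarith)
        exact absurd (mem_Icc.2 ⟨by omega, by omega⟩) hh
      · simp [z h hc]
  refine (sum_le_sum key).trans ?_
  rw [sum_comm]
  have k2 : ∀ h ∈ Icc (-H : ℤ) (-1), ∑ m ∈ Icc 1 ⌊(N : ℝ) ^ (1 + 6 * δ)⌋₊,
      (E * if |(m : ℝ) - -h * N| < η * m then (1 : ℝ) / m else 0) ≤ E * (8 * η) := fun h hh => by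
    rw [← mul_sum]
    have : (h : ℝ) ≤ -1 := by exact_mod_cast (mem_Icc.1 hh).2
    exact mul_le_mul_of_nonneg_left (cnt e0 e1 (by nlinarith [mul_pos e0 n0]) _) E0
  refine (sum_le_card_nsmul _ _ _ k2).trans ?_
  have c1 : ((Icc (-H : ℤ) (-1)).card : ℝ) ≤ 2 * L ^ 6 := by
    rw [Int.card_Icc, show (-1 + 1 - -H : ℤ) = H by ring, Int.toNat_natCast]
    exact Nat.floor_le (by positivity)
  have c2 : (N : ℝ) ^ (-25 * δ) = η * L ^ 15 := by
    rw [← pw, hη, ← Real.rpow_add n0]
    congr 1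
    push_cast
    ring
  rw [nsmul_eq_mul, c2]
  calc _ ≤ 2 * L ^ 6 * (E * (8 * η)) := by gcongr
    _ = η * (L ^ 8 * (32 * C * (1 + Real.log N))) := by rw [hE]; ring
    _ ≤ η * (L ^ 8 * L ^ 7) := by
        gcongr
        exact t2.trans (le_self_pow₀ (by linarith) (by norm_num))
    _ = η * L ^ 15 := by ring

end Pool.Agent.MP_20b2fd_nt.F5
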