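import Pool.Agent.MP_20b2fd_nt.F5.Util

/-! The diagonal terms of the twisted third moment. -/

set_option autoImplicit false

namespace Pool.Agent.MP_20b2fd_nt.F5

open MeasureTheory Complex Finset Filter Topology ArithmeticFunction
open DirichletCharacter (LFunction)
open Pool.Agent.MP_c5bf7b_nt.H38 (Phi Ch)
open Pool.Agent.MP_20b2fd_nt.H38
open scoped Real

namespace DGA

theorem ln_le (F : ℂ → ℂ) (σ K : ℝ) (h : ∀ t : ℝ, ‖F (σ + t * I)‖ ≤ K / (1 + t ^ 2)) :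
    ‖ln σ F‖ ≤ K / 2 := by
  have h1 : ‖∫ t : ℝ, F (σ + t * I)‖ ≤ ∫ t : ℝ, K * (1 + t ^ 2)⁻¹ :=
    norm_integral_le_of_norm_le (integrable_inv_one_add_sq.const_mul K)
      (Eventually.of_forall fun t => by rw [← div_eq_mul_inv]; exact h t)
  rw [integral_const_mul, integral_univ_inv_one_add_sq] at h1
  have h2 : ‖(1 / (2 * π) : ℂ)‖ = 1 / (2 * π) := by
    simp [abs_of_pos Real.pi_pos]
  unfold ln
  rw [norm_mul, h2]
  have hp := Real.pi_pos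
  calc 1 / (2 * π) * ‖∫ t : ℝ, F (σ + t * I)‖ ≤ 1 / (2 * π) * (K * π) :=
        mul_le_mul_of_nonneg_left h1 (by positivity)
    _ = K / 2 := by field_simp

theorem l0_le {C : ℝ} (hC : ∀ n : ℕ, tau n ≤ C * (n : ℝ) ^ (1 / 2 : ℝ)) (La : ℝ) (m : ℕ) :
    ‖l0 La m‖ ≤ (|La| + 2 * C) * m := by
  unfold l0
  rw [Complex.norm_real, Real.norm_eq_abs, abs_mul, abs_of_nonneg (U.tau_nonneg m)]
  have hm : (0 : ℝ) ≤ m := Nat.cast_nonneg m
  have hl : 0 ≤ Real.log m := Real.log_natCast_nonneg m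
  have h1 : |La - Real.log m| ≤ |La| + Real.log m := by
    refine (abs_sub _ _).trans ?_
    rw [abs_of_nonneg hl]
  have h2 : Real.log m ≤ 2 * (m : ℝ) ^ (1 / 2 : ℝ) := by
    have := Real.log_le_rpow_div hm (show (0 : ℝ) < 1 / 2 by norm_num)
    linarith
  have h3 : (m : ℝ) ^ (1 / 2 : ℝ) * (m : ℝ) ^ (1 / 2 : ℝ) = m := by
    rw [← Real.sqrt_eq_rpow, Real.mul_self_sqrt hm]
  have h4 : tau m * Real.log m ≤ 2 * C * m := by
    calc tau m * Real.log m ≤ (C * (m : ℝ) ^ (1 / 2 : ℝ)) * (2 * (m : ℝ) ^ (1 / 2 : ℝ)) :=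
          mul_le_mul (hC m) h2 hl ((U.tau_nonneg m).trans (hC m))
      _ = 2 * C * ((m : ℝ) ^ (1 / 2 : ℝ) * (m : ℝ) ^ (1 / 2 : ℝ)) := by ring
      _ = _ := by rw [h3]
  have h5 : tau m * |La| ≤ m * |La| := mul_le_mul_of_nonneg_right (U.tau_le m) (abs_nonneg _)
  calc tau m * |La - Real.log m| ≤ tau m * (|La| + Real.log m) :=
        mul_le_mul_of_nonneg_left h1 (U.tau_nonneg m)
    _ ≤ _ := by nlinarith

theorem Bh_le (l : ℕ → ℂ) {A : ℝ} (hA : 0 ≤ A) (hl : ∀ m : ℕ, ‖l m‖ ≤ A * m) (k : ℕ) {n : ℕ}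
    (hn : 1 ≤ n) : ‖Bh l k n‖ ≤ A * (n : ℝ) ^ 3 * k := by
  unfold Bh
  have hg : 0 < k.gcd n := Nat.gcd_pos_of_pos_right k hn
  have hgn : k.gcd n ≤ n := Nat.gcd_le_right k hn
  have h1 : ∀ d ∈ (k.gcd n).divisors, ‖(d : ℂ) * l (k * n / d ^ 2)‖ ≤ n * (A * (k * n)) := by
    intro d hd
    rw [norm_mul, Complex.norm_natCast]
    have hd1 : d ≤ n := (Nat.divisor_le hd).trans hgn
    have hd2 : ((k * n / d ^ 2 : ℕ) : ℝ) ≤ k * n := by
      exact_mod_cast Nat.div_le_self (k * n) (d ^ 2)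
    exact mul_le_mul (by exact_mod_cast hd1)
      ((hl _).trans (mul_le_mul_of_nonneg_left hd2 hA)) (norm_nonneg _) (Nat.cast_nonneg n)
  refine (norm_sum_le _ _).trans ((sum_le_card_nsmul _ _ _ h1).trans ?_)
  rw [nsmul_eq_mul]
  have h2 : (((k.gcd n).divisors.card : ℕ) : ℝ) ≤ n := by
    exact_mod_cast (Nat.card_divisors_le_self _).trans hgn
  calc (((k.gcd n).divisors.card : ℕ) : ℝ) * (n * (A * (k * n))) ≤ n * (n * (A * (k * n))) :=
        mul_le_mul_of_nonneg_right h2 (by positivity)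
    _ = _ := by ring

/-- the size of the Dirichlet series -/
theorem Hf_le {D : ℕ} [NeZero D] (χ : Ch D) (La B S y : ℝ) (n : ℕ) (z : ℂ)
    (h1 : ‖LFunction χ (1 + z)‖ ≤ B) (h2 : ‖deriv (LFunction χ) (1 + z)‖ ≤ B)
    (h3 : ‖Af χ z 0 n‖ ≤ S) (h4 : ‖A1 χ z n‖ ≤ S * y) :
    ‖Hf χ La n z‖ ≤ B ^ 2 * S * (|La| + y + 2) := by
  have hB : 0 ≤ B := (norm_nonneg _).trans h1
  have hS : 0 ≤ S := (norm_nonneg _).trans h3
  unfold Hf
  have e1 : ‖(La : ℂ) * Af χ z 0 n - A1 χ z n‖ ≤ |La| * S + S * y := by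
    refine (norm_sub_le _ _).trans (add_le_add ?_ h4)
    rw [norm_mul, Complex.norm_real, Real.norm_eq_abs]
    exact mul_le_mul_of_nonneg_left h3 (abs_nonneg _)
  have e2 : ‖LFunction χ (1 + z) ^ 2 * ((La : ℂ) * Af χ z 0 n - A1 χ z n)‖ ≤
      B ^ 2 * (|La| * S + S * y) := by
    rw [norm_mul, norm_pow]
    exact mul_le_mul (pow_le_pow_left₀ (norm_nonneg _) h1 2) e1 (norm_nonneg _) (by positivity)
  have e3 : ‖2 * LFunction χ (1 + z) * deriv (LFunction χ) (1 + z) * Af χ z 0 n‖ ≤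
      2 * B * B * S := by
    rw [norm_mul, norm_mul, norm_mul, Complex.norm_ofNat]
    gcongr
  refine (norm_add_le _ _).trans ((add_le_add e2 e3).trans (le_of_eq ?_))
  ring

theorem prod_le {Cv K Q : ℝ} (hQ : 0 < Q) (hK : 0 ≤ K) (z H : ℂ)
    (h1 : ‖gm z‖ ≤ Cv / (1 + |z.im|) ^ 10) (h2 : ‖H‖ ≤ K * (1 + |z.im|) ^ 4) :
    ‖gm z * (Q : ℂ) ^ z * H‖ ≤ Q ^ z.re * (Cv * K) / (1 + z.im ^ 2) := by
  have hx : 0 < 1 + |z.im| := by positivity
  have hx1 : 1 ≤ 1 + |z.im| := by linarith [abs_nonneg z.im]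
  have hCv : 0 ≤ Cv := by
    have := (norm_nonneg _).trans h1
    rwa [le_div_iff₀ (by positivity), zero_mul] at this
  have hq : 0 < Q ^ z.re := Real.rpow_pos_of_pos hQ _
  have h3 : 1 + z.im ^ 2 ≤ (1 + |z.im|) ^ 6 := by
    have : 1 + z.im ^ 2 ≤ (1 + |z.im|) ^ 2 := by
      rw [← sq_abs z.im]; nlinarith [abs_nonneg z.im]
    exact this.trans (pow_le_pow_right₀ hx1 (by norm_num))
  rw [norm_mul, norm_mul, Complex.norm_cpow_eq_rpow_re_of_pos hQ]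
  calc ‖gm z‖ * Q ^ z.re * ‖H‖ ≤
        Cv / (1 + |z.im|) ^ 10 * Q ^ z.re * (K * (1 + |z.im|) ^ 4) := by gcongr
    _ = Q ^ z.re * (Cv * K) / (1 + |z.im|) ^ 6 := by field_simp
    _ ≤ _ := div_le_div_of_nonneg_left (by positivity) (by positivity) h3

theorem LN_bd {N : ℕ} (hN : 40 ≤ N) : |LN N| ≤ Real.log N := by
  have h1 : (40 : ℝ) ≤ N := by exact_mod_cast hN
  have hp := Real.pi_pos
  have h2 : 4 * π ^ 2 ≤ 40 := by nlinarith [Real.pi_lt_d2]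
  have h3 : 1 ≤ 4 * π ^ 2 := by nlinarith [Real.pi_gt_three]
  unfold LN
  rw [abs_of_nonneg (Real.log_nonneg (by rw [le_div_iff₀ (by positivity)]; linarith))]
  exact Real.log_le_log (by positivity) (div_le_self (by linarith) h3)

end DGA

open DGA in
theorem dgOf : DGOf := by
  rintro ⟨Cv, hCv, hgd, -, hgb, -⟩ hSH ⟨Cm, hCm, hME⟩ ⟨Cl, hCl, hLB⟩ ⟨Ca, -, hA0⟩ hA1 δ hδ hδ'
  obtain ⟨Ct, hCt, htau⟩ := U.tau_eps (show (0 : ℝ) < 1 / 2 by norm_num)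
  obtain ⟨N₁, -, hN₁⟩ := U.ev_log 2 0 (show (0 : ℝ) < 3 / 10 by norm_num)
  obtain ⟨N₂, -, hN₂⟩ := U.ev_exp (12 * Cm * Ct) 5 hδ
  obtain ⟨N₃, -, hN₃⟩ := U.ev_tau 1 (show 0 < δ / 4 by positivity)
  obtain ⟨N₄, -, hN₄⟩ := U.ev_log (24 * Cv * Cl ^ 2) 1 (show 0 < δ / 4 by positivity)
  refine ⟨max 40 (max (max N₁ N₂) (max N₃ N₄)), fun N D _ χ j n hN hR hn hnN => ?_⟩
  have h40 : 40 ≤ N := (le_max_left _ _).trans hN
  have hN' := (le_max_right _ _).trans hN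
  have e1 := hN₁ N ((le_max_left _ _).trans ((le_max_left _ _).trans hN'))
  have e2 := hN₂ N ((le_max_right _ _).trans ((le_max_left _ _).trans hN'))
  have e3 := hN₃ N ((le_max_left _ _).trans ((le_max_right _ _).trans hN')) n
    (by rw [pow_one]; exact_mod_cast hnN)
  have e4 := hN₄ N ((le_max_right _ _).trans ((le_max_right _ _).trans hN'))
  rw [pow_zero, mul_one] at e1
  rw [pow_one] at e4
  have hN1 : (1 : ℝ) ≤ N := by exact_mod_cast (show 1 ≤ N by omega)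
  have hN0 : (0 : ℝ) < N := by linarith
  have hD1 : (1 : ℝ) ≤ D := by exact_mod_cast Nat.pos_of_ne_zero (NeZero.ne D)
  have hs1 : 1 ≤ √(N : ℝ) := Real.one_le_sqrt.mpr hN1
  have hn1 : (1 : ℝ) ≤ n := by exact_mod_cast hn
  have hnN' : (n : ℝ) ≤ N := by exact_mod_cast hnN
  have hR1 : 1 ≤ (N : ℝ) ^ δ := Real.one_le_rpow hN1 hδ.le
  have hQs : √(N : ℝ) ≤ Qc D N := by unfold Qc; nlinarith
  have hQ1 : 1 ≤ Qc D N := hs1.trans hQs
  have hQ0 : 0 < Qc D N := by linarith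
  have hQR : 2 * Qc D N * (N : ℝ) ^ δ ≤ N := by
    have a1 : (N : ℝ) ^ δ ≤ (N : ℝ) ^ (1 / 10 : ℝ) := Real.rpow_le_rpow_of_exponent_le hN1 hδ'
    have a2 : (D : ℝ) ≤ (N : ℝ) ^ (1 / 10 : ℝ) := hR.hD.trans a1
    have a3 : (N : ℝ) ^ (3 / 10 : ℝ) * ((N : ℝ) ^ (1 / 10 : ℝ) * (N : ℝ) ^ (1 / 2 : ℝ)) *
        (N : ℝ) ^ (1 / 10 : ℝ) = N := by
      rw [← Real.rpow_add hN0, ← Real.rpow_add hN0, ← Real.rpow_add hN0]
      norm_num
    unfold Qc
    rw [Real.sqrt_eq_rpow]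
    refine le_trans ?_ a3.le
    gcongr
  have hQN : Qc D N ≤ N := by nlinarith
  have hLa := LN_bd h40
  have hlN : 0 ≤ Real.log N := Real.log_nonneg hN1
  have hln : 0 ≤ Real.log n := Real.log_nonneg hn1
  have hlnN : Real.log n ≤ Real.log N := Real.log_le_log (by linarith) hnN'
  obtain ⟨-, -, -, hAb, -, -, hAd⟩ := hA0 D χ n hn
  have hLb := ((hLB D).1 χ hR.ne).2
  have ht0 := U.tau_nonneg n
  -- the function on the strip
  set K : ℝ := (Cl * D) ^ 2 * (√n * tau n ^ 3) * (|LN N| + 2 * Real.log n + 2) with hK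
  have hK0 : 0 ≤ K := by positivity
  have hΦ : ∀ z : ℂ, -1 / 2 ≤ z.re → z.re ≤ 2 →
      ‖gm z * (Qc D N : ℂ) ^ z * Hf χ (LN N) n z‖ ≤
        Qc D N ^ z.re * (Cv * K) / (1 + z.im ^ 2) := by
    intro z h1 h2
    refine prod_le hQ0 hK0 z _ (hgb z h1 h2) ?_
    obtain ⟨b1, b2⟩ := hLb (1 + z) (by simp; linarith) (by simp; linarith)
    have him : (1 + z).im = z.im := by simp
    rw [him] at b1 b2
    refine (Hf_le χ (LN N) _ _ _ n z b1 b2 (hAb z h1).1 (hAb z h1).2).trans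
      (le_of_eq ?_)
    rw [hK]; ring
  have hj1 : (j.factorial : ℂ) = 1 := by rcases hR.hj with h | h <;> simp [h]
  constructor
  · have hc : ∀ k : ℕ, 1 ≤ k → ‖χ k * Bh (l0 (LN N)) k n‖ ≤ 3 * Ct * (N : ℝ) ^ 4 * k := by
      intro k _
      have a1 := Bh_le (l0 (LN N)) (by positivity) (l0_le htau (LN N)) k hn
      have a2 : |LN N| + 2 * Ct ≤ 3 * Ct * N := by
        have := Real.log_le_sub_one_of_pos hN0
        nlinarith
      rw [norm_mul]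
      calc ‖χ k‖ * ‖Bh (l0 (LN N)) k n‖ ≤ 1 * ((|LN N| + 2 * Ct) * (n : ℝ) ^ 3 * k) :=
            mul_le_mul (χ.norm_le_one _) a1 (norm_nonneg _) zero_le_one
        _ ≤ 1 * ((3 * Ct * N) * (N : ℝ) ^ 3 * k) := by gcongr
        _ = _ := by ring
    have hm := hME j N (Qc D N) ((N : ℝ) ^ δ) _ _ (Hf χ (LN N) n) hR.hj hQ1 hR1 hQR hc
      fun u hu => hA1 D χ (LN N) n u hn (by rw [hu]; norm_num)
    have hs := (hSH (fun z => gm z * (Qc D N : ℂ) ^ z * Hf χ (LN N) n z) (-1 / 2) 2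
      (Qc D N ^ (2 : ℝ) * (Cv * K)) (by norm_num) (by norm_num) fun z h1 h2 => ⟨?_, ?_⟩).1 j
    · have f1 : PN χ j δ N (l0 (LN N)) n = ∑ k ∈ Icc 1 N, χ k * Bh (l0 (LN N)) k n *
          (Wc j ((N : ℝ) ^ δ) (k / Qc D N) : ℝ) / k := by
        unfold PN PT wk
        exact sum_congr rfl fun k _ => by ring
      have f2 : (fun u => gm u / u ^ (j + 1) * (Qc D N : ℂ) ^ u * Hf χ (LN N) n u) =
          fun z => gm z * (Qc D N : ℂ) ^ z * Hf χ (LN N) n z / z ^ (j + 1) := by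
        funext u; ring
      have f3 : FD χ j N n = fun z => gm z * (Qc D N : ℂ) ^ z * Hf χ (LN N) n z / z ^ (j + 1) :=
        rfl
      rw [hj1, div_one] at hs
      rw [f2, ← f1] at hm
      unfold Rn
      rw [f3, ← hs]
      have f4 : ∀ a b c : ℂ, π * a - π * b - π * (c - b) = π * (a - c) := fun a b c => by ring
      rw [f4, norm_mul, Complex.norm_real, Real.norm_of_nonneg Real.pi_pos.le]
      refine le_trans ?_ e2
      calc π * _ ≤ 4 * (Cm * (3 * Ct * (N : ℝ) ^ 4) * Qc D N * Real.exp (-(N : ℝ) ^ δ)) :=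
            mul_le_mul Real.pi_le_four hm (norm_nonneg _) (by norm_num)
        _ ≤ 4 * (Cm * (3 * Ct * (N : ℝ) ^ 4) * N * Real.exp (-(N : ℝ) ^ δ)) := by gcongr
        _ = _ := by ring
    · refine ((hgd z (by linarith)).mul ?_).mul (((hAd hR.ne) (LN N)).1 z)
      exact differentiableAt_id.const_cpow (Or.inl (by exact_mod_cast hQ0.ne'))
    · refine (hΦ z h1 h2).trans ?_
      have : Qc D N ^ z.re ≤ Qc D N ^ (2 : ℝ) := Real.rpow_le_rpow_of_exponent_le hQ1 h2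
      gcongr
  · have hq : Qc D N ^ (-1 / 2 : ℝ) ≤ (N : ℝ) ^ (-1 / 4 : ℝ) := by
      refine (Real.rpow_le_rpow_of_nonpos (by linarith) hQs (by norm_num)).trans (le_of_eq ?_)
      rw [Real.sqrt_eq_rpow, ← Real.rpow_mul hN0.le]
      norm_num
    have hb := ln_le (FD χ j N n) (-1 / 2) (4 * ((N : ℝ) ^ (-1 / 4 : ℝ) * (Cv * K))) fun t => by
      have hre : (((-1 / 2 : ℝ) : ℂ) + t * I).re = -1 / 2 := by simp
      have him : (((-1 / 2 : ℝ) : ℂ) + t * I).im = t := by simp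
      have a1 := hΦ _ hre.ge (by rw [hre]; norm_num)
      rw [hre, him] at a1
      have a2 : 1 / 2 ≤ ‖((-1 / 2 : ℝ) : ℂ) + t * I‖ := by
        refine le_trans ?_ (Complex.abs_re_le_norm _)
        rw [hre]; norm_num [abs_of_pos]
      have a3 : 1 / 4 ≤ ‖((-1 / 2 : ℝ) : ℂ) + t * I‖ ^ (j + 1) := by
        refine le_trans ?_ (pow_le_pow_left₀ (by norm_num) a2 (j + 1))
        rcases hR.hj with h | h <;> rw [h] <;> norm_num
      unfold FD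
      rw [norm_div, norm_pow]
      calc _ ≤ (Qc D N ^ (-1 / 2 : ℝ) * (Cv * K) / (1 + t ^ 2)) / (1 / 4) :=
            div_le_div₀ (by positivity) a1 (by norm_num) a3
        _ ≤ ((N : ℝ) ^ (-1 / 4 : ℝ) * (Cv * K) / (1 + t ^ 2)) / (1 / 4) := by gcongr
        _ = _ := by ring
    have a4 : |LN N| + 2 * Real.log n + 2 ≤ 3 * (1 + Real.log N) := by linarith
    have a5 : (N : ℝ) ^ (3 * δ - 1 / 4) = (N : ℝ) ^ (-1 / 4 : ℝ) * ((N : ℝ) ^ δ) ^ 2 *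
        ((N : ℝ) ^ (δ / 4)) ^ 3 * (N : ℝ) ^ (δ / 4) := by
      rw [← Real.rpow_natCast, ← Real.rpow_natCast, ← Real.rpow_mul hN0.le,
        ← Real.rpow_mul hN0.le, ← Real.rpow_add hN0, ← Real.rpow_add hN0, ← Real.rpow_add hN0]
      congr 1
      push_cast
      ring
    have hD := hR.hD
    rw [norm_mul, Complex.norm_real, Real.norm_of_nonneg Real.pi_pos.le, a5]
    calc π * ‖ln (-1 / 2) (FD χ j N n)‖ ≤ 4 * (4 * ((N : ℝ) ^ (-1 / 4 : ℝ) * (Cv * K)) / 2) :=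
          mul_le_mul Real.pi_le_four hb (norm_nonneg _) (by norm_num)
      _ = (N : ℝ) ^ (-1 / 4 : ℝ) * (D : ℝ) ^ 2 * tau n ^ 3 *
          (8 * Cv * Cl ^ 2 * (|LN N| + 2 * Real.log n + 2)) * √n := by rw [hK]; ring
      _ ≤ (N : ℝ) ^ (-1 / 4 : ℝ) * ((N : ℝ) ^ δ) ^ 2 * ((N : ℝ) ^ (δ / 4)) ^ 3 *
          (8 * Cv * Cl ^ 2 * (3 * (1 + Real.log N))) * √n := by gcongr
      _ ≤ _ := by
          have : 8 * Cv * Cl ^ 2 * (3 * (1 + Real.log N)) ≤ (N : ℝ) ^ (δ / 4) := by linarith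
          gcongr

end Pool.Agent.MP_20b2fd_nt.F5
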