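import Pool.Agent.MP_20b2fd_nt.F5.Util

/-! The first moment of the perturbation. -/

set_option autoImplicit false

namespace Pool.Agent.MP_20b2fd_nt.F5

open MeasureTheory Complex Finset Filter Topology
open DirichletCharacter (LFunction)
open Pool.Agent.MP_c5bf7b_nt.H38 (Phi Ch)
open Pool.Agent.MP_20b2fd_nt.H38
open scoped Real

namespace EYA

theorem hasSum_L {D : ℕ} [NeZero D] (χ : Ch D) {s : ℂ} (hs : 1 < s.re) :
    HasSum (fun k : ℕ => χ k * (k : ℂ) ^ (-s)) (LFunction χ s) := by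
  have h := (DirichletCharacter.LSeriesSummable_of_one_lt_re χ hs).hasSum
  rw [DirichletCharacter.LFunction_eq_LSeries χ hs]
  have hs0 : -s ≠ 0 := by
    intro h0
    have : s = 0 := neg_eq_zero.mp h0
    rw [this, zero_re] at hs
    linarith
  have e : (fun k : ℕ => χ k * (k : ℂ) ^ (-s)) = LSeries.term (fun n : ℕ => χ n) s := by
    funext k
    rcases Nat.eq_zero_or_pos k with rfl | hk
    · rw [LSeries.term_zero, Nat.cast_zero (R := ℂ), zero_cpow hs0, mul_zero]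
    · rw [LSeries.term_of_ne_zero hk.ne', cpow_neg, div_eq_mul_inv]
  rw [e]
  exact h

theorem hasSum_d {D : ℕ} [NeZero D] (χ : Ch D) {u : ℂ} (hu : 0 < u.re) {d : ℕ} (hd : 0 < d) :
    HasSum (fun k : ℕ => if d ∣ k then χ k * (d : ℂ) * (k : ℂ) ^ (-(1 + u)) else 0)
      (LFunction χ (1 + u) * (χ d * (d : ℂ) ^ (-u))) := by
  have h := (hasSum_L χ (s := 1 + u) (by rw [add_re, one_re]; linarith)).mul_right
    (χ d * (d : ℂ) ^ (-u))
  have hi : Function.Injective fun k : ℕ => d * k := fun a b hab => Nat.eq_of_mul_eq_mul_left hd hab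
  rw [← hi.hasSum_iff]
  · have e : ((fun k : ℕ => if d ∣ k then χ k * (d : ℂ) * (k : ℂ) ^ (-(1 + u)) else 0) ∘
        fun k : ℕ => d * k) = fun k : ℕ => χ k * (k : ℂ) ^ (-(1 + u)) * (χ d * (d : ℂ) ^ (-u)) := by
      funext k
      have hd0 : (d : ℂ) ≠ 0 := by exact_mod_cast hd.ne'
      have e1 : (d : ℂ) ^ (-u) = d * (d : ℂ) ^ (-(1 + u)) := by
        rw [show -u = 1 + -(1 + u) by ring, cpow_add _ _ hd0, cpow_one]
      simp only [Function.comp, dvd_mul_right, if_true]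
      rw [Nat.cast_mul (α := ZMod D), map_mul, Nat.cast_mul (α := ℂ), natCast_mul_natCast_cpow, e1]
      ring
    rw [e]
    exact h
  · intro k hk
    rw [if_neg]
    rintro ⟨c, rfl⟩
    exact hk ⟨c, rfl⟩

theorem hasSum_F {D : ℕ} [NeZero D] (χ : Ch D) {u : ℂ} (hu : 0 < u.re) {l : ℕ} (hl : 1 ≤ l) :
    HasSum (fun k : ℕ => χ k * Bh (fun _ => (1 : ℂ)) k l * (k : ℂ) ^ (-(1 + u)))
      (LFunction χ (1 + u) * ∑ d ∈ l.divisors, χ d * (d : ℂ) ^ (-u)) := by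
  have h := hasSum_sum (s := l.divisors) fun d hd => hasSum_d χ hu (Nat.pos_of_mem_divisors hd)
  rw [mul_sum]
  have e : (fun k : ℕ => χ k * Bh (fun _ => (1 : ℂ)) k l * (k : ℂ) ^ (-(1 + u))) =
      fun k : ℕ => ∑ d ∈ l.divisors,
        if d ∣ k then χ k * (d : ℂ) * (k : ℂ) ^ (-(1 + u)) else 0 := by
    funext k
    rw [U.Bh_eq _ k hl, mul_sum, sum_mul]
    refine sum_congr rfl fun d _ => ?_
    split_ifs
    · rw [mul_one]
    · rw [mul_zero, zero_mul]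
  rw [e]
  exact h

theorem norm_c {D : ℕ} (χ : Ch D) {l k : ℕ} (hl : 1 ≤ l) (hk : 1 ≤ k) :
    ‖χ k * Bh (fun _ => (1 : ℂ)) k l‖ ≤ (l : ℝ) * k := by
  rw [norm_mul, U.Bh_eq _ k hl]
  have h1 : ‖χ k‖ ≤ 1 := χ.norm_le_one _
  have h2 : ‖∑ d ∈ l.divisors, if d ∣ k then (d : ℂ) * 1 else 0‖ ≤ (l : ℝ) * k := by
    refine (norm_sum_le _ _).trans ?_
    refine (sum_le_card_nsmul _ _ (k : ℝ) fun d _ => ?_).trans ?_
    · split_ifs with h
      · rw [mul_one, norm_natCast]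
        exact_mod_cast Nat.le_of_dvd hk h
      · rw [norm_zero]; positivity
    · rw [nsmul_eq_mul]
      exact mul_le_mul_of_nonneg_right (U.tau_le l) (by positivity)
  calc _ ≤ 1 * ((l : ℝ) * k) := mul_le_mul h1 h2 (norm_nonneg _) zero_le_one
    _ = _ := one_mul _

theorem norm_S {D : ℕ} (χ : Ch D) {l : ℕ} (hl : 1 ≤ l) {z : ℂ} (hz : -1 / 2 ≤ z.re) :
    ‖∑ d ∈ l.divisors, χ d * (d : ℂ) ^ (-z)‖ ≤ (l : ℝ) * l := by
  refine (norm_sum_le _ _).trans ?_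
  refine (sum_le_card_nsmul _ _ (l : ℝ) fun d hd => ?_).trans ?_
  · have hd0 := Nat.pos_of_mem_divisors hd
    have h1 : (1 : ℝ) ≤ d := by exact_mod_cast hd0
    have h2 : (d : ℝ) ≤ l := by exact_mod_cast Nat.divisor_le hd
    rw [norm_mul, norm_natCast_cpow_of_pos hd0, neg_re]
    have h3 : (d : ℝ) ^ (-z.re) ≤ d := by
      simpa using Real.rpow_le_rpow_of_exponent_le h1 (show -z.re ≤ 1 by linarith)
    calc _ ≤ 1 * (d : ℝ) := mul_le_mul (χ.norm_le_one _) h3 (by positivity) zero_le_one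
      _ ≤ _ := by linarith
  · rw [nsmul_eq_mul]
    exact mul_le_mul_of_nonneg_right (U.tau_le l) (by positivity)

theorem diff_S {D : ℕ} (χ : Ch D) (l : ℕ) :
    Differentiable ℂ fun z : ℂ => ∑ d ∈ l.divisors, χ d * (d : ℂ) ^ (-z) := by
  refine Differentiable.fun_sum fun d hd => ?_
  have hd0 : (d : ℂ) ≠ 0 := by exact_mod_cast (Nat.pos_of_mem_divisors hd).ne'
  exact (differentiable_id.neg.const_cpow (Or.inl hd0)).const_mul _

theorem decay (t : ℝ) : (1 + |t|) ^ 2 / (1 + |t|) ^ 10 ≤ 1 / (1 + t ^ 2) := by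
  have h0 := abs_nonneg t
  have h1 : 1 + t ^ 2 ≤ (1 + |t|) ^ 2 := by nlinarith [sq_abs t]
  have h2 : (1 + |t|) ^ 2 ≤ (1 + |t|) ^ 8 := pow_le_pow_right₀ (by linarith) (by norm_num)
  rw [div_le_div_iff₀ (by positivity) (by positivity), one_mul]
  calc (1 + |t|) ^ 2 * (1 + t ^ 2) ≤ (1 + |t|) ^ 2 * (1 + |t|) ^ 8 :=
        mul_le_mul_of_nonneg_left (h1.trans h2) (by positivity)
    _ = _ := by ring

theorem norm_ln {σ K : ℝ} {G : ℂ → ℂ} (h : ∀ t : ℝ, ‖G (σ + t * I)‖ ≤ K * (1 + t ^ 2)⁻¹) :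
    ‖ln σ G‖ ≤ K / 2 := by
  have h1 := norm_integral_le_of_norm_le (integrable_inv_one_add_sq.const_mul K)
    (Eventually.of_forall h)
  rw [integral_const_mul, integral_univ_inv_one_add_sq] at h1
  have hp := Real.pi_pos
  have e : ‖(1 / (2 * π) : ℂ)‖ = 1 / (2 * π) := by
    rw [norm_div, norm_one, norm_mul, norm_real, Real.norm_of_nonneg hp.le]
    norm_num
  unfold ln
  rw [norm_mul, e]
  calc _ ≤ 1 / (2 * π) * (K * π) := mul_le_mul_of_nonneg_left h1 (by positivity)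
    _ = K / 2 := by field_simp

end EYA

open EYA in
theorem eyOf : EYOf := by
  rintro ⟨C₁, hC₁, hgd, -, hgb, -⟩ hSH ⟨C₂, hC₂, hME⟩ ⟨C₃, hC₃, hLB⟩ δ hδ hδ'
  obtain ⟨N₁, h31, hN₁⟩ := U.ev_exp (2 * C₂) 2 hδ
  obtain ⟨N₂, -, hN₂⟩ := U.ev_log (4 * (C₁ * C₃)) 0 (show (0 : ℝ) < 1 / 10 by norm_num)
  refine ⟨max N₁ N₂, fun N D _ χ j l hN hR hl hlN => ?_⟩
  have hA := hN₁ N ((le_max_left _ _).trans hN)
  have hB := hN₂ N ((le_max_right _ _).trans hN)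
  rw [pow_zero, mul_one] at hB
  have h1N : (1 : ℝ) ≤ N := by
    exact_mod_cast (show 1 ≤ N by have := (le_max_left _ _).trans hN; omega)
  have h0N : (0 : ℝ) < N := by linarith
  have h1D : (1 : ℝ) ≤ D := by exact_mod_cast Nat.pos_of_ne_zero (NeZero.ne D)
  have hCC : 1 ≤ C₁ * C₃ := one_le_mul_of_one_le_of_one_le hC₁ hC₃
  have hsq : √(N : ℝ) = (N : ℝ) ^ (1 / 2 : ℝ) := Real.sqrt_eq_rpow _
  have hs1 : 1 ≤ √(N : ℝ) := Real.one_le_sqrt.mpr h1N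
  have hQs : √(N : ℝ) ≤ Qc D N := le_mul_of_one_le_left (by linarith) h1D
  have hQ1 : 1 ≤ Qc D N := hs1.trans hQs
  have hQ0 : 0 < Qc D N := by linarith
  have hR1 : 1 ≤ (N : ℝ) ^ δ := Real.one_le_rpow h1N hδ.le
  have hQR : 2 * Qc D N * (N : ℝ) ^ δ ≤ N := by
    have a1 : Qc D N ≤ (N : ℝ) ^ δ * (N : ℝ) ^ (1 / 2 : ℝ) := by
      rw [← hsq]; exact mul_le_mul_of_nonneg_right hR.hD (by linarith)
    have a2 : (2 : ℝ) ≤ (N : ℝ) ^ (1 / 10 : ℝ) := by linarith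
    calc 2 * Qc D N * (N : ℝ) ^ δ
        ≤ (N : ℝ) ^ (1 / 10 : ℝ) * ((N : ℝ) ^ δ * (N : ℝ) ^ (1 / 2 : ℝ)) * (N : ℝ) ^ δ :=
          mul_le_mul_of_nonneg_right (mul_le_mul a2 a1 hQ0.le (by positivity)) (by positivity)
      _ = (N : ℝ) ^ (1 / 10 + (δ + 1 / 2) + δ : ℝ) := by
          rw [Real.rpow_add h0N, Real.rpow_add h0N, Real.rpow_add h0N]
      _ ≤ (N : ℝ) ^ (1 : ℝ) := Real.rpow_le_rpow_of_exponent_le h1N (by linarith)
      _ = N := Real.rpow_one _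
  have hQN : Qc D N ≤ N := by nlinarith
  have hlN' : (l : ℝ) ≤ N := by
    refine hlN.trans ?_
    simpa using Real.rpow_le_rpow_of_exponent_le h1N (show δ ≤ 1 by linarith)
  obtain ⟨hLd, hLb⟩ := (hLB D).1 χ hR.ne
  have hme := hME j N (Qc D N) ((N : ℝ) ^ δ) l (fun k => χ k * Bh (fun _ => (1 : ℂ)) k l)
    (fun u => LFunction χ (1 + u) * ∑ d ∈ l.divisors, χ d * (d : ℂ) ^ (-u)) hR.hj hQ1 hR1 hQR
    (fun k hk => norm_c χ hl hk) (fun u hu => hasSum_F χ (by rw [hu]; norm_num) hl)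
  set Φ : ℂ → ℂ := fun u => gm u * (Qc D N : ℂ) ^ u *
    (LFunction χ (1 + u) * ∑ d ∈ l.divisors, χ d * (d : ℂ) ^ (-u)) with hΦ
  have hQc : (Qc D N : ℂ) ≠ 0 := by exact_mod_cast hQ0.ne'
  have hb : ∀ z : ℂ, -1 / 2 ≤ z.re → z.re ≤ 2 →
      ‖Φ z‖ ≤ C₁ * C₃ * D * ((l : ℝ) * l) * Qc D N ^ z.re / (1 + z.im ^ 2) := by
    intro z h1 h2
    have a1 := hgb z h1 h2
    have a2 := (hLb (1 + z) (by rw [add_re, one_re]; linarith)
      (by rw [add_re, one_re]; linarith)).1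
    rw [add_im, one_im, zero_add] at a2
    have a3 := norm_S χ hl h1
    have a4 := decay z.im
    simp only [hΦ]
    rw [norm_mul, norm_mul, norm_mul, norm_cpow_eq_rpow_re_of_pos hQ0]
    calc _ ≤ C₁ / (1 + |z.im|) ^ 10 * Qc D N ^ z.re *
          (C₃ * D * (1 + |z.im|) ^ 2 * ((l : ℝ) * l)) := by
          refine mul_le_mul (mul_le_mul_of_nonneg_right a1 (by positivity))
            (mul_le_mul a2 a3 (norm_nonneg _) (by positivity)) (by positivity) (by positivity)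
      _ = C₁ * C₃ * D * ((l : ℝ) * l) * Qc D N ^ z.re *
          ((1 + |z.im|) ^ 2 / (1 + |z.im|) ^ 10) := by ring
      _ ≤ C₁ * C₃ * D * ((l : ℝ) * l) * Qc D N ^ z.re * (1 / (1 + z.im ^ 2)) :=
          mul_le_mul_of_nonneg_left a4 (by positivity)
      _ = _ := by ring
  have hsh := (hSH Φ (-1 / 2) 2 (C₁ * C₃ * D * ((l : ℝ) * l) * Qc D N ^ (2 : ℝ)) (by norm_num)
    (by norm_num) (fun z h1 h2 => ⟨?_, (hb z h1 h2).trans ?_⟩)).1 j
  rotate_left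
  · exact ((hgd z (by linarith)).mul (differentiableAt_id.const_cpow (Or.inl hQc))).mul
      (((hLd.comp (differentiable_id.const_add 1)) z).mul (diff_S χ l z))
  · exact div_le_div_of_nonneg_right (mul_le_mul_of_nonneg_left
      (Real.rpow_le_rpow_of_exponent_le hQ1 h2) (by positivity)) (by positivity)
  have hj1 : ((j.factorial : ℕ) : ℂ) = 1 := by rcases hR.hj with h | h <;> simp [h]
  rw [hj1, div_one] at hsh
  have hlow : ‖ln (-1 / 2) fun z => Φ z / z ^ (j + 1)‖ ≤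
      4 * (C₁ * C₃ * D * ((l : ℝ) * l) * Qc D N ^ (-1 / 2 : ℝ)) / 2 := by
    refine norm_ln fun t => ?_
    have e1 : (((-1 / 2 : ℝ) : ℂ) + t * I).re = -1 / 2 := by simp
    have e2 : (((-1 / 2 : ℝ) : ℂ) + t * I).im = t := by simp
    have a1 := hb _ e1.ge (by rw [e1]; norm_num)
    rw [e1, e2] at a1
    have a2 : 1 / 2 ≤ ‖((-1 / 2 : ℝ) : ℂ) + t * I‖ := by
      have := abs_re_le_norm (((-1 / 2 : ℝ) : ℂ) + t * I)
      rw [e1, abs_of_neg (by norm_num)] at this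
      linarith
    have a3 : 1 / 4 ≤ ‖((-1 / 2 : ℝ) : ℂ) + t * I‖ ^ (j + 1) := by
      rcases hR.hj with h | h <;> rw [h] <;> nlinarith
    rw [norm_div, norm_pow, div_le_iff₀ (by linarith)]
    refine a1.trans ?_
    rw [div_eq_mul_inv]
    have a4 : 0 ≤ C₁ * C₃ * D * ((l : ℝ) * l) * Qc D N ^ (-1 / 2 : ℝ) * (1 + t ^ 2)⁻¹ := by
      positivity
    nlinarith
  have e1 : PN χ j δ N (fun _ => 1) l = ∑ k ∈ Icc 1 N, χ k * Bh (fun _ => (1 : ℂ)) k l *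
      (Wc j ((N : ℝ) ^ δ) (k / Qc D N) : ℝ) / k := by
    unfold PN PT wk
    exact sum_congr rfl fun k _ => by ring
  have e2 : (fun u : ℂ => gm u / u ^ (j + 1) * (Qc D N : ℂ) ^ u *
      (LFunction χ (1 + u) * ∑ d ∈ l.divisors, χ d * (d : ℂ) ^ (-u))) =
      fun z => Φ z / z ^ (j + 1) := by
    funext z
    simp only [hΦ]
    ring
  rw [← e1, e2] at hme
  have e3 : R1 χ j (Qc D N) l = iteratedDeriv j Φ 0 := rfl
  have b1 : C₂ * l * Qc D N * Real.exp (-(N : ℝ) ^ δ) ≤ (N : ℝ) ^ (-1 / 10 : ℝ) / 2 := by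
    have a1 : 1 / (N : ℝ) ≤ (N : ℝ) ^ (-1 / 10 : ℝ) := by
      rw [one_div, ← Real.rpow_neg_one]
      exact Real.rpow_le_rpow_of_exponent_le h1N (by norm_num)
    have a2 : C₂ * l * Qc D N ≤ C₂ * (N : ℝ) ^ 2 := by
      rw [mul_assoc, sq]
      exact mul_le_mul_of_nonneg_left (mul_le_mul hlN' hQN hQ0.le h0N.le) (by linarith)
    have a3 := mul_le_mul_of_nonneg_right a2 (Real.exp_pos (-(N : ℝ) ^ δ)).le
    linarith
  have b2 : 4 * (C₁ * C₃ * D * ((l : ℝ) * l) * Qc D N ^ (-1 / 2 : ℝ)) ≤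
      (N : ℝ) ^ (-1 / 10 : ℝ) := by
    have a1 : Qc D N ^ (-1 / 2 : ℝ) ≤ (N : ℝ) ^ (-1 / 4 : ℝ) := by
      refine (Real.rpow_le_rpow_of_nonpos (by linarith) hQs (by norm_num)).trans ?_
      rw [hsq, ← Real.rpow_mul h0N.le]
      norm_num
    have a2 : (l : ℝ) * l ≤ (N : ℝ) ^ δ * (N : ℝ) ^ δ :=
      mul_le_mul hlN hlN (by positivity) (by positivity)
    calc _ = 4 * (C₁ * C₃) * D * ((l : ℝ) * l) * Qc D N ^ (-1 / 2 : ℝ) := by ring
      _ ≤ (N : ℝ) ^ (1 / 10 : ℝ) * (N : ℝ) ^ δ * ((N : ℝ) ^ δ * (N : ℝ) ^ δ) *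
          (N : ℝ) ^ (-1 / 4 : ℝ) :=
          mul_le_mul (mul_le_mul (mul_le_mul hB hR.hD (by positivity) (by positivity)) a2
            (by positivity) (by positivity)) a1 (by positivity) (by positivity)
      _ = (N : ℝ) ^ (1 / 10 + δ + (δ + δ) + -1 / 4 : ℝ) := by
          rw [Real.rpow_add h0N, Real.rpow_add h0N, Real.rpow_add h0N, Real.rpow_add h0N]
      _ ≤ _ := Real.rpow_le_rpow_of_exponent_le h1N (by linarith)
  rw [e3, ← hsh]
  have e4 : PN χ j δ N (fun _ => 1) l -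
      ((ln 2 fun z => Φ z / z ^ (j + 1)) - ln (-1 / 2) fun z => Φ z / z ^ (j + 1)) =
      (PN χ j δ N (fun _ => 1) l - ln 2 fun z => Φ z / z ^ (j + 1)) +
        ln (-1 / 2) fun z => Φ z / z ^ (j + 1) := by ring
  rw [e4]
  refine (norm_add_le _ _).trans ?_
  linarith

end Pool.Agent.MP_20b2fd_nt.F5
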