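import Pool.Agent.MP_20b2fd_nt.F5.Spec

set_option autoImplicit false

namespace Pool.Agent.MP_20b2fd_nt.F5

open Complex Filter Topology DirichletCharacter
open Pool.Agent.MP_c5bf7b_nt.H38 (Ch)
open scoped Real

namespace FEA

theorem sq_eq {D : ℕ} [NeZero D] {χ : Ch D} (hp : χ.IsPrimitive) (h2 : χ ^ 2 = 1) (h1 : χ ≠ 1)
    {u : ℂ} (h0 : 0 < u.re) (h : u.re < 1) :
    LFunction χ u ^ 2 = (D : ℂ) ^ (1 - 2 * u) * Ys (χ (-1)).re u * LFunction χ (1 - u) ^ 2 := by
  have hD : (D : ℂ) ≠ 0 := Nat.cast_ne_zero.2 (NeZero.ne D)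
  have hi : χ⁻¹ = χ := inv_eq_of_mul_eq_one_left (by rw [← sq, h2])
  have fe := fun s => hi ▸ hp.completedLFunction_one_sub s
  have hr : rootNumber χ ^ 2 = 1 := by
    have a0 : completedLFunction χ 2 ≠ 0 := fun e =>
      LFunction_ne_zero_of_one_le_re χ (Or.inl h1) (s := 2) (by simp)
        (by rw [LFunction_eq_completed_div_gammaFactor χ 2 (Or.inl two_ne_zero), e, zero_div])
    have a1 := fe (1 - 2)
    have a2 : (D : ℂ) ^ (1 - 2 - 1 / 2 : ℂ) * (D : ℂ) ^ (2 - 1 / 2 : ℂ) = 1 := by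
      rw [← cpow_add _ _ hD]; norm_num
    rw [sub_sub_cancel, fe 2] at a1
    refine mul_right_cancel₀ a0 ?_
    linear_combination -a1 - rootNumber χ ^ 2 * completedLFunction χ 2 * a2
  have hs : ∀ n : ℕ, 1 - u ≠ -n := fun n e => by
    have := congrArg re e
    simp at this
    linarith [n.cast_nonneg (α := ℝ)]
  have a1 := fe (1 - u)
  have a2 : ((D : ℂ) ^ (1 - u - 1 / 2)) ^ 2 = (D : ℂ) ^ (1 - 2 * u) := by
    rw [sq, ← cpow_add _ _ hD]; congr 1; ring
  have a3 : ((2 * π : ℂ) ^ (-(1 - u))) ^ 2 = (2 * π : ℂ) ^ (2 * u - 2) := by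
    rw [sq, ← cpow_add _ _ (by simp)]; congr 1; ring
  have a4 : cos (π * (1 - u) / 2) ^ 2 = (1 - cos (π * u)) / 2 := by
    rw [cos_sq, show 2 * (π * (1 - u) / 2) = π - π * u by ring, cos_pi_sub]; ring
  rw [sub_sub_cancel] at a1
  rw [LFunction_eq_completed_div_gammaFactor χ u (Or.inl fun e => by simp [e] at h0),
    LFunction_eq_completed_div_gammaFactor χ (1 - u) (Or.inl (by simpa using hs 0)), a1, Ys, ← a2,
    ← a3, div_eq_mul_inv, div_eq_mul_inv (completedLFunction _ _)]
  rcases χ.even_or_odd with e | e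
  · have := inv_Gammaℝ_one_sub hs
    rw [sub_sub_cancel] at this
    rw [e.gammaFactor_def, e.gammaFactor_def, this, show χ (-1) = 1 from e, Gammaℂ_def]
    simp only [mul_pow, hr, a4, one_re, ofReal_one]
    ring
  · have := inv_Gammaℝ_two_sub hs
    rw [show 2 - (1 - u) = u + 1 by ring] at this
    rw [e.gammaFactor_def, e.gammaFactor_def, this, show χ (-1) = -1 from e, Gammaℂ_def]
    simp only [mul_pow, hr, sin_sq, a4, neg_re, one_re, ofReal_neg, ofReal_one]
    ring

end FEA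

theorem feS : FES := by
  intro D _ χ hp h2 h1
  refine ⟨?_, ?_, fun u h0 h => ⟨FEA.sq_eq hp h2 h1 h0 h, ?_⟩⟩
  · rcases χ.even_or_odd with e | e
    · exact Or.inl (by rw [show χ (-1) = 1 from e, one_re])
    · exact Or.inr (by rw [show χ (-1) = -1 from e]; simp)
  · rcases χ.even_or_odd with e | e
    · rw [show χ (-1) = 1 from e]; simp
    · rw [show χ (-1) = -1 from e]; simp
  have hD : (D : ℂ) ≠ 0 := Nat.cast_ne_zero.2 (NeZero.ne D)
  have hL := differentiable_LFunction h1
  have hY : DifferentiableAt ℂ (Ys (χ (-1)).re) u := by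
    have a1 : DifferentiableAt ℂ (fun u => Gamma (1 - u)) u :=
      (differentiableAt_Gamma _ fun n e => by
        have := congrArg re e
        simp at this
        linarith [n.cast_nonneg (α := ℝ)]).comp u (by fun_prop)
    have a2 : DifferentiableAt ℂ (fun u : ℂ => (2 * π : ℂ) ^ (2 * u - 2)) u :=
      DifferentiableAt.const_cpow (by fun_prop) (Or.inl (by simp))
    unfold Ys
    fun_prop
  have a1 := (hL u).hasDerivAt.pow 2
  have a2 := ((((hasDerivAt_id u).const_mul 2).const_sub 1).const_cpow (Or.inl hD)).mul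
    hY.hasDerivAt |>.mul (((hL (1 - u)).hasDerivAt.comp u ((hasDerivAt_id u).const_sub 1)).pow 2)
  have a3 := (a2.congr_of_eventuallyEq (f₁ := LFunction χ ^ 2) (by
    filter_upwards [(isOpen_lt continuous_const continuous_re).mem_nhds h0,
      (isOpen_lt continuous_re continuous_const).mem_nhds h] with v v0 v1
    exact FEA.sq_eq hp h2 h1 v0 v1)).unique a1
  simp only [Pi.mul_apply, Pi.pow_apply, Function.comp, id, ← natCast_log] at a3
  linear_combination -a3

end Pool.Agent.MP_20b2fd_nt.F5
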