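import Pool.Agent.MP_20b2fd_nt.F5.Util

set_option autoImplicit false

namespace Pool.Agent.MP_20b2fd_nt.F5

open Finset
open Pool.Agent.MP_20b2fd_nt.H38
open scoped Real

namespace FFA

theorem term {K : ℝ → ℝ} {C : ℝ} {N m : ℕ} (hC : 1 ≤ C) (hN : 6 ≤ N) (hm : 1 ≤ m)
    (hm' : m ≤ N ^ 3) (hT : ∀ n : ℕ, (n : ℝ) ≤ (N : ℝ) ^ 5 → tau n ≤ N)
    (hK : ∀ t : ℝ, t ≠ 0 → t ≠ -1 → |K t| ≤ C * (1 + |Real.log (mn t)|)) {h : ℤ}
    (hh : |(h : ℝ)| ≤ 5 * (N : ℝ) ^ 3) :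
    |tau h.natAbs * tau (m + h * N : ℤ).natAbs * K (h * N / m)| ≤ 4 * C * (N : ℝ) ^ 3 := by
  have n6 : (6 : ℝ) ≤ N := by exact_mod_cast hN
  have m1 : (1 : ℝ) ≤ m := by exact_mod_cast hm
  have m3 : (m : ℝ) ≤ (N : ℝ) ^ 3 := by exact_mod_cast hm'
  by_cases h0 : h = 0
  · simp only [h0, Int.natAbs_zero, U.tau_zero, zero_mul, abs_zero]; positivity
  by_cases h1 : (m + h * N : ℤ) = 0
  · simp only [h1, Int.natAbs_zero, U.tau_zero, mul_zero, zero_mul, abs_zero]; positivity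
  have a0 : (1 : ℝ) ≤ |(h : ℝ)| := by exact_mod_cast Int.one_le_abs h0
  have a1 : (1 : ℝ) ≤ |(m : ℝ) + h * N| := by exact_mod_cast Int.one_le_abs h1
  have e1 : 1 + (h : ℝ) * N / m = (m + h * N) / m := by field_simp
  have b0 : 1 / (m : ℝ) ≤ |(h : ℝ) * N / m| := by
    rw [abs_div, abs_mul, Nat.abs_cast, Nat.abs_cast]
    exact div_le_div_of_nonneg_right (by nlinarith) (by positivity)
  have b1 : 1 / (m : ℝ) ≤ |1 + (h : ℝ) * N / m| := by
    rw [e1, abs_div, Nat.abs_cast]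
    exact div_le_div_of_nonneg_right a1 (by positivity)
  have mp : (0 : ℝ) < 1 / m := by positivity
  have t0 : (h : ℝ) * N / m ≠ 0 := fun e => by rw [e, abs_zero] at b0; linarith
  have t1 : (h : ℝ) * N / m ≠ -1 := fun e => by rw [e] at b1; norm_num at b1; linarith
  have c1 : 1 / (m : ℝ) ≤ mn (h * N / m) :=
    le_min (by rw [div_le_one (by linarith)]; exact m1) (le_min b0 b1)
  have c2 : mn (h * N / m) ≤ 1 := min_le_left _ _
  have c3 : |Real.log (mn (h * N / m))| ≤ 3 * (N - 1) := by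
    rw [abs_of_nonpos (Real.log_nonpos (by linarith) c2)]
    have l1 := Real.log_le_log mp c1
    rw [one_div, Real.log_inv] at l1
    have l2 := Real.log_le_log (by linarith) m3
    rw [Real.log_pow] at l2
    have l3 := Real.log_le_sub_one_of_pos (show (0 : ℝ) < N by linarith)
    push_cast at l2
    linarith
  have k1 : |K (h * N / m)| ≤ C * (4 * N) :=
    (hK _ t0 t1).trans (mul_le_mul_of_nonneg_left (by linarith) (by linarith))
  have p3 : (0 : ℝ) < (N : ℝ) ^ 3 := by positivity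
  have u1 : tau h.natAbs ≤ N := hT _ (by
    rw [Nat.cast_natAbs, Int.cast_abs]
    calc |(h : ℝ)| ≤ 5 * (N : ℝ) ^ 3 := hh
      _ ≤ (N : ℝ) ^ 2 * (N : ℝ) ^ 3 := mul_le_mul_of_nonneg_right (by nlinarith) p3.le
      _ = _ := by ring)
  have u2 : tau (m + h * N : ℤ).natAbs ≤ N := hT _ (by
    rw [Nat.cast_natAbs, Int.cast_abs]
    push_cast
    calc |(m : ℝ) + h * N| ≤ m + |(h : ℝ)| * N := by
          refine (abs_add_le _ _).trans ?_
          rw [abs_mul, Nat.abs_cast, Nat.abs_cast]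
      _ ≤ (N : ℝ) ^ 3 + 5 * (N : ℝ) ^ 3 * N := by gcongr
      _ = (1 + 5 * N) * (N : ℝ) ^ 3 := by ring
      _ ≤ (N : ℝ) ^ 2 * (N : ℝ) ^ 3 := mul_le_mul_of_nonneg_right (by nlinarith) p3.le
      _ = _ := by ring)
  rw [abs_mul, abs_mul, abs_of_nonneg (U.tau_nonneg _), abs_of_nonneg (U.tau_nonneg _)]
  calc _ ≤ (N : ℝ) * N * (C * (4 * N)) :=
        mul_le_mul (mul_le_mul u1 u2 (U.tau_nonneg _) (by linarith)) k1 (abs_nonneg _)
          (by positivity)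
    _ = _ := by ring

theorem od {K : ℝ → ℝ} {C : ℝ} {N m : ℕ} (hC : 1 ≤ C) (hN : 6 ≤ N) (hm : 1 ≤ m)
    (hm' : m ≤ N ^ 3) (hT : ∀ n : ℕ, (n : ℝ) ≤ (N : ℝ) ^ 5 → tau n ≤ N)
    (hK : ∀ t : ℝ, t ≠ 0 → t ≠ -1 → |K t| ≤ C * (1 + |Real.log (mn t)|))
    (hz : ∀ t : ℝ, 5 * N ≤ |t| → K t = 0) : |Od K N m| ≤ 44 * C * (N : ℝ) ^ 6 := by
  have n6 : (6 : ℝ) ≤ N := by exact_mod_cast hN
  have m1 : (1 : ℝ) ≤ m := by exact_mod_cast hm
  have m3 : (m : ℝ) ≤ (N : ℝ) ^ 3 := by exact_mod_cast hm'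
  unfold Od
  rw [tsum_eq_sum (s := Icc (-(5 * (N : ℤ) ^ 3)) (5 * (N : ℤ) ^ 3))]
  · refine (abs_sum_le_sum_abs _ _).trans ?_
    refine (sum_le_card_nsmul _ _ (4 * C * (N : ℝ) ^ 3) fun h hh => ?_).trans ?_
    · refine term hC hN hm hm' hT hK ?_
      have := abs_le.mpr (mem_Icc.mp hh)
      exact_mod_cast this
    · rw [Int.card_Icc, nsmul_eq_mul]
      have e : (5 * (N : ℤ) ^ 3 + 1 - -(5 * (N : ℤ) ^ 3)).toNat = 10 * N ^ 3 + 1 := by
        have : (5 * (N : ℤ) ^ 3 + 1 - -(5 * (N : ℤ) ^ 3)) = ((10 * N ^ 3 + 1 : ℕ) : ℤ) := by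
          push_cast; ring
        rw [this, Int.toNat_natCast]
      rw [e]
      push_cast
      have p3 : (1 : ℝ) ≤ (N : ℝ) ^ 3 := by linarith
      calc _ ≤ 11 * (N : ℝ) ^ 3 * (4 * C * (N : ℝ) ^ 3) :=
            mul_le_mul_of_nonneg_right (by linarith) (by positivity)
        _ = _ := by ring
  · intro h hh
    have h1 : 5 * (N : ℤ) ^ 3 < |h| := by
      by_contra h2
      exact hh (mem_Icc.mpr (abs_le.mp (not_lt.mp h2)))
    have h2 : 5 * (N : ℝ) ^ 3 < |(h : ℝ)| := by exact_mod_cast h1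
    rw [hz, mul_zero]
    rw [abs_div, abs_mul, Nat.abs_cast, Nat.abs_cast, le_div_iff₀ (by linarith)]
    nlinarith

theorem ell_bd (hX : XgS) (hK : KMS) (C' : ℝ) (hC' : 1 ≤ C') :
    ∃ N₀ : ℕ, 3 ≤ N₀ ∧ ∀ (N : ℕ) (V c₀ : ℝ), N₀ ≤ N → 1 ≤ V → V ^ 2 ≤ N →
      |c₀ + 2 * π * Real.log (2 * π)| ≤ C' → ∀ m : ℕ, 1 ≤ m → m ≤ N ^ 3 →
      |ell V c₀ N m| ≤ (N : ℝ) ^ 10 := by
  obtain ⟨C, hC, H⟩ := hK
  obtain ⟨N₁, h1, hN1⟩ := U.ev_tau 5 one_pos
  obtain ⟨N₂, h2, hN2⟩ := U.ev_log (88 * C + C' + 100) 0 one_pos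
  refine ⟨max 6 (max N₁ N₂), by omega, fun N V c₀ hN hV hV' hc m hm hm' => ?_⟩
  have n6 : (6 : ℝ) ≤ N := by exact_mod_cast (show 6 ≤ N by omega)
  have m1 : (1 : ℝ) ≤ m := by exact_mod_cast hm
  have m3 : (m : ℝ) ≤ (N : ℝ) ^ 3 := by exact_mod_cast hm'
  have b := hN2 N (by omega)
  rw [pow_zero, mul_one, Real.rpow_one] at b
  have o := od (K := Kf V) hC (by omega) hm hm'
    (fun n hn => by simpa using hN1 N (by omega) n hn) (H V hV).2.1
    (fun t ht => (hX V hV).2.2.1 t (by linarith))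
  have pi4 := Real.pi_le_four
  have pi0 := Real.pi_pos
  have a6 : |a1 V| ≤ 6 := by
    have h3 := abs_le.mp (H V hV).1
    have h4 : 2 / V ≤ 2 := div_le_self (by norm_num) hV
    rw [abs_le]; constructor <;> linarith
  have c1 : |c₀| ≤ C' + 64 := by
    have l0 : 0 ≤ Real.log (2 * π) := Real.log_nonneg (by linarith [Real.pi_gt_three])
    have l1 := Real.log_le_sub_one_of_pos (show 0 < 2 * π by linarith)
    have l2 : 2 * π * Real.log (2 * π) ≤ 8 * 8 := mul_le_mul (by linarith) (by linarith) l0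
      (by norm_num)
    have l3 : 0 ≤ 2 * π * Real.log (2 * π) := by positivity
    have := abs_le.mp hc
    rw [abs_le]; constructor <;> linarith
  have t3 : tau m ≤ (N : ℝ) ^ 3 := (U.tau_le m).trans m3
  have t0 := U.tau_nonneg m
  have lg : |Real.log (N / m)| ≤ 3 * N := by
    rw [Real.log_div (by linarith) (by linarith)]
    have l2 := Real.log_le_log (by linarith) m3
    rw [Real.log_pow] at l2
    have l3 := Real.log_le_sub_one_of_pos (show (0 : ℝ) < N by linarith)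
    have l4 := Real.log_nonneg m1
    have l5 := Real.log_nonneg (show (1 : ℝ) ≤ N by linarith)
    push_cast at l2
    rw [abs_le]; constructor <;> linarith
  have p : ∀ a b : ℕ, a ≤ b → (N : ℝ) ^ a ≤ (N : ℝ) ^ b :=
    fun a b h => pow_le_pow_right₀ (by linarith) h
  have x1 : |a1 V * tau m * Real.log (N / m)| ≤ 18 * (N : ℝ) ^ 6 := by
    rw [abs_mul, abs_mul, abs_of_nonneg t0]
    calc _ ≤ 6 * (N : ℝ) ^ 3 * (3 * N) := by gcongr
      _ = 18 * (N : ℝ) ^ 4 := by ring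
      _ ≤ _ := by linarith [p 4 6 (by norm_num)]
  have x2 : |c₀ * tau m| ≤ (C' + 64) * (N : ℝ) ^ 6 := by
    rw [abs_mul, abs_of_nonneg t0]
    exact mul_le_mul c1 (t3.trans (p 3 6 (by norm_num))) t0 (by linarith)
  unfold ell
  calc _ ≤ |a1 V * tau m * Real.log (N / m)| + |c₀ * tau m| + |2 * Od (Kf V) N m| :=
        abs_add_three _ _ _
    _ ≤ (88 * C + C' + 100) * (N : ℝ) ^ 6 := by
        rw [abs_mul 2, abs_two]
        have : (0 : ℝ) ≤ (N : ℝ) ^ 6 := by positivity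
        linarith
    _ ≤ N * (N : ℝ) ^ 6 := mul_le_mul_of_nonneg_right b (by positivity)
    _ = (N : ℝ) ^ 7 := by ring
    _ ≤ _ := p 7 10 (by norm_num)

theorem two {N : ℕ} {θ a b c : ℝ} (hN : (1 : ℝ) ≤ N) (h2 : 2 ≤ (N : ℝ) ^ θ) (ha : a + θ ≤ c)
    (hb : b + θ ≤ c) : (N : ℝ) ^ a + (N : ℝ) ^ b ≤ (N : ℝ) ^ c := by
  have h1 : (N : ℝ) ^ a ≤ (N : ℝ) ^ (c - θ) := Real.rpow_le_rpow_of_exponent_le hN (by linarith)
  have h3 : (N : ℝ) ^ b ≤ (N : ℝ) ^ (c - θ) := Real.rpow_le_rpow_of_exponent_le hN (by linarith)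
  have h4 : (N : ℝ) ^ c = (N : ℝ) ^ θ * (N : ℝ) ^ (c - θ) := by
    rw [← Real.rpow_add (by linarith)]; congr 1; ring
  have h5 : (0 : ℝ) ≤ (N : ℝ) ^ (c - θ) := by positivity
  nlinarith

end FFA

theorem ffOf : FFOf := by
  rintro hX hK hE hF ⟨C, δ₀, hC, h0, hY⟩ hT
  refine ⟨C, min (δ₀ / 2) (1 / 2000), hC, by positivity, fun θ C' hθ hθ' hC' => ?_⟩
  have d1 : θ ≤ δ₀ / 2 := hθ'.trans (min_le_left _ _)
  have d2 : θ ≤ 1 / 2000 := hθ'.trans (min_le_right _ _)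
  obtain ⟨N₁, h1, H1⟩ := FFA.ell_bd hX hK C' hC'
  obtain ⟨N₂, H2⟩ := hE (2 * θ) (by linarith) (by linarith)
  obtain ⟨N₃, H3⟩ := hF (2 * θ) C' (by linarith) (by linarith) hC'
  obtain ⟨N₄, H4⟩ := hY (2 * θ) C' (by linarith) (by linarith) hC'
  obtain ⟨N₅, H5⟩ := hT θ hθ (by linarith)
  obtain ⟨N₆, h6, H6⟩ := U.ev_log 2 0 hθ
  refine ⟨N₁ + N₂ + N₃ + N₄ + N₅ + N₆, fun N D _ χ c₀ hN hp hQ hc => ?_⟩
  have n1 : (1 : ℝ) ≤ N := by exact_mod_cast (show 1 ≤ N by omega)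
  have n0 : (0 : ℝ) < N := by linarith
  have b2 := H6 N (by omega)
  rw [pow_zero, mul_one] at b2
  obtain ⟨hR, hW⟩ := H5 N D χ (by omega) hp hQ
  have eU : (N : ℝ) ^ (100 * (2 * θ)) = (N : ℝ) ^ (200 * θ) := by congr 1; ring
  have ec : ((N : ℝ) ^ (200 * θ)) ^ (-1 / 5 : ℝ) = (N : ℝ) ^ (-20 * (2 * θ)) := by
    rw [← Real.rpow_mul n0.le]; congr 1; ring
  rw [ec] at hc
  have le1 : ∀ a : ℝ, a ≤ 1 → (N : ℝ) ^ a ≤ N := fun a ha => by
    simpa using Real.rpow_le_rpow_of_exponent_le n1 ha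
  have toN : ∀ (l : ℕ) (a : ℝ), a ≤ 1 → (l : ℝ) ≤ (N : ℝ) ^ a → l ≤ N := fun l a ha hl => by
    exact_mod_cast hl.trans (le1 a ha)
  have inv : 1 / (N : ℝ) = (N : ℝ) ^ (-1 : ℝ) := by rw [Real.rpow_neg_one, one_div]
  have hb := H1 N ((N : ℝ) ^ (200 * θ)) c₀ (by omega) (Real.one_le_rpow n1 (by linarith))
    (by rw [← Real.rpow_natCast, ← Real.rpow_mul n0.le]; exact le1 _ (by push_cast; linarith))
    (hc.trans (mul_le_of_le_one_right (by linarith)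
      (Real.rpow_le_one_of_one_le_of_nonpos n1 (by linarith))))
  have hl := hW _ hb
  refine ⟨fun l l1 l2 => ?_, fun n l1 l2 => ?_, fun ι J ν l L₁ B hM => ?_⟩
  · have e1 := (hW (fun _ => 1) (fun m _ _ => by rw [abs_one]; exact one_le_pow₀ n1) l l1
      (toN l _ (by linarith) l2)).1
    have e2 := H2 N D χ _ l (by omega) hR l1 l2
    simp only [Complex.ofReal_one] at e1
    refine (norm_sub_le_norm_sub_add_norm_sub _ _ _).trans ((add_le_add e1 e2).trans ?_)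
    rw [inv]; exact FFA.two n1 b2 (by linarith) (by linarith)
  · have e1 := (hl n l1 (toN n _ (by linarith) l2)).1
    have e2 := H3 N D χ _ n c₀ (by omega) hR hc l1 (by rwa [show 300 * (2 * θ) = 600 * θ by ring])
    rw [eU] at e2
    refine (norm_sub_le_norm_sub_add_norm_sub _ _ _).trans ((add_le_add e1 e2).trans ?_)
    rw [inv]; exact FFA.two n1 b2 (by linarith) (by linarith)
  · have e2 := H4 N D χ _ c₀ ι J (fun i => (ν i : ℂ)) l L₁ B (by omega) hR hc hM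
    rw [eU] at e2
    set a := fun i => TY χ θ N (TY χ θ N (ell ((N : ℝ) ^ (200 * θ)) c₀ N)) (l i)
    set b := fun i => PN χ (jj χ N) (2 * θ) N
      (PN χ (jj χ N) (2 * θ) N (elc ((N : ℝ) ^ (200 * θ)) c₀ N)) (l i)
    have e1 : ‖∑ i ∈ J, (ν i : ℂ) * ((a i : ℝ) - b i)‖ ≤ (N : ℝ) ^ (6 * θ - 1) := by
      calc _ ≤ ∑ i ∈ J, ‖(ν i : ℂ)‖ * (1 / N) := by
            refine norm_sum_le_of_le _ fun i hi => ?_
            rw [norm_mul]
            exact mul_le_mul_of_nonneg_left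
              (hl (l i) (hM.hl i hi).1 (toN _ _ (by linarith) (hM.hl i hi).2)).2 (norm_nonneg _)
        _ ≤ (N : ℝ) ^ (3 * (2 * θ)) * (1 / N) := by
            rw [← sum_mul]; exact mul_le_mul_of_nonneg_right hM.hν (by positivity)
        _ = _ := by rw [inv, ← Real.rpow_add n0]; congr 1; ring
    have e6 : ((∑ i ∈ J, ν i * a i : ℝ) : ℂ) =
        ∑ i ∈ J, (ν i : ℂ) * ((a i : ℝ) - b i) + ∑ i ∈ J, (ν i : ℂ) * b i := by
      push_cast
      rw [← sum_add_distrib]; exact sum_congr rfl fun i _ => by ring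
    have e7 : (N : ℝ) ^ (6 * θ - 1) + (N : ℝ) ^ (-8 * (2 * θ)) ≤ (N : ℝ) ^ (-15 * θ) :=
      FFA.two n1 b2 (by linarith) (by linarith)
    calc |∑ i ∈ J, ν i * a i| = ‖((∑ i ∈ J, ν i * a i : ℝ) : ℂ)‖ := by
          rw [Complex.norm_real, Real.norm_eq_abs]
      _ ≤ ‖∑ i ∈ J, (ν i : ℂ) * ((a i : ℝ) - b i)‖ + ‖∑ i ∈ J, (ν i : ℂ) * b i‖ := by
          rw [e6]; exact norm_add_le _ _
      _ ≤ _ := by linarith

end Pool.Agent.MP_20b2fd_nt.F5
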