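import Pool.Agent.MP_20b2fd_nt.F5.Util

/-! The mixed moment. -/

set_option autoImplicit false

namespace Pool.Agent.MP_20b2fd_nt.F5

open MeasureTheory Complex Finset Filter Topology ArithmeticFunction
open Pool.Agent.MP_c5bf7b_nt.H38 (Phi Ch)
open Pool.Agent.MP_20b2fd_nt.H38
open scoped Real

namespace FXA

theorem PT_lin {D : ℕ} (χ : Ch D) (W : ℝ → ℝ) (Q : ℝ) (N : ℕ) (f g : ℕ → ℂ) (c : ℂ) (n : ℕ) :
    PT χ W Q N (fun m => f m - c * g m) n = PT χ W Q N f n - c * PT χ W Q N g n := by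
  unfold PT Bh
  rw [mul_sum, ← sum_sub_distrib]
  refine sum_congr rfl fun k _ => ?_
  rw [mul_left_comm, ← mul_sub, mul_sum _ _ c, ← sum_sub_distrib]
  congr 1
  exact sum_congr rfl fun d _ => by ring

theorem od_zero {K : ℝ → ℝ} {T : ℝ} (hK : ∀ t : ℝ, T ≤ |t| → K t = 0) {N m : ℕ} (hm : 1 ≤ m)
    (h : T * m ≤ N) : Od K N m = 0 := by
  unfold Od
  have hm' : (0 : ℝ) < m := by exact_mod_cast hm
  have e : ∀ h' : ℤ, tau h'.natAbs * tau (m + h' * N : ℤ).natAbs * K (h' * N / m) = 0 := by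
    intro h'
    by_cases h0 : h' = 0
    · rw [h0, Int.natAbs_zero, U.tau_zero, zero_mul, zero_mul]
    · rw [hK, mul_zero]
      have h1 : (1 : ℝ) ≤ |(h' : ℝ)| := by exact_mod_cast Int.one_le_abs h0
      rw [abs_div, abs_mul, Nat.abs_cast, Nat.abs_cast, le_div_iff₀ hm']
      have : (0 : ℝ) ≤ N := Nat.cast_nonneg N
      nlinarith
  simp only [e, tsum_zero]

theorem err_eq {U c₀ : ℝ} {N m : ℕ} (hN : 1 ≤ N) (hm : 1 ≤ m) (h : Od (Kf U) N m = 0) :
    elc U c₀ N m - π * F5.l0 (LN N) m =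
      ((tau m * ((a1 U - π) * Real.log (N / m) + (c₀ + 2 * π * Real.log (2 * π))) : ℝ) : ℂ) := by
  have hN' : (0 : ℝ) < N := by exact_mod_cast hN
  have hm' : (0 : ℝ) < m := by exact_mod_cast hm
  have hp := Real.pi_pos
  have e1 : LN N = Real.log N - 2 * Real.log (2 * π) := by
    unfold LN
    rw [Real.log_div hN'.ne' (by positivity), show 4 * π ^ 2 = (2 * π) ^ 2 by ring, Real.log_pow]
    norm_num
  unfold elc F5.l0 ell
  rw [h, e1, Real.log_div hN'.ne' hm'.ne', ← ofReal_mul, ← ofReal_sub]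
  congr 1
  ring

theorem err_le {U c₀ ε t : ℝ} {N m : ℕ} (hm : 1 ≤ m) (hmN : m ≤ N) (h : Od (Kf U) N m = 0)
    (ha : |a1 U - π| ≤ ε) {C : ℝ} (hc : |c₀ + 2 * π * Real.log (2 * π)| ≤ C * ε)
    (ht : tau m ≤ t) :
    ‖elc U c₀ N m - π * F5.l0 (LN N) m‖ ≤ t * ((Real.log N + C) * ε) := by
  have hm' : (1 : ℝ) ≤ m := by exact_mod_cast hm
  have hN' : (m : ℝ) ≤ N := by exact_mod_cast hmN
  rw [err_eq (hm.trans hmN) hm h, norm_real, Real.norm_eq_abs, abs_mul,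
    abs_of_nonneg (F5.U.tau_nonneg m)]
  have l0 : 0 ≤ Real.log (N / m) := Real.log_nonneg ((one_le_div (by linarith)).mpr hN')
  have l1 : Real.log (N / m) ≤ Real.log N :=
    Real.log_le_log (div_pos (by linarith) (by linarith)) (div_le_self (by linarith) hm')
  refine mul_le_mul ht ((abs_add_le _ _).trans ?_) (abs_nonneg _) ((F5.U.tau_nonneg m).trans ht)
  rw [abs_mul, abs_of_nonneg l0]
  have := mul_le_mul ha l1 l0 ((abs_nonneg _).trans ha)
  linarith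

end FXA

open FXA in
theorem fxOf : FXOf := by
  intro hX hK hD hP δ C hδ hδ' hC
  obtain ⟨_, _, hK⟩ := hK
  obtain ⟨N₁, hD⟩ := hD δ hδ (by linarith)
  obtain ⟨N₂, hP⟩ := hP δ hδ (by linarith)
  obtain ⟨N₃, h3, hL⟩ := U.ev_log C 1 (half_pos hδ)
  obtain ⟨N₄, -, hT⟩ := U.ev_tau 1 (half_pos hδ)
  obtain ⟨N₅, -, h10⟩ := U.ev_log 10 0 hδ
  refine ⟨max (max N₁ N₂) (max N₃ (max N₄ N₅)), fun N D _ χ j n c₀ hN hR hc hn hn' => ?_⟩
  simp only [max_le_iff] at hN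
  obtain ⟨⟨n1, n2⟩, n3, n4, n5⟩ := hN
  have hN1 : (1 : ℝ) ≤ N := by exact_mod_cast (show 1 ≤ N by omega)
  have hN0 : (0 : ℝ) < N := by linarith
  have mono : ∀ {a b : ℝ}, a ≤ b → (N : ℝ) ^ a ≤ (N : ℝ) ^ b := fun h =>
    Real.rpow_le_rpow_of_exponent_le hN1 h
  have add : ∀ a b : ℝ, (N : ℝ) ^ a * (N : ℝ) ^ b = (N : ℝ) ^ (a + b) := fun a b =>
    (Real.rpow_add hN0 a b).symm
  have pos : ∀ a : ℝ, 0 < (N : ℝ) ^ a := fun a => Real.rpow_pos_of_pos hN0 a
  have t10 : (10 : ℝ) ≤ (N : ℝ) ^ δ := by simpa using h10 N n5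
  have hl := Real.log_nonneg hN1
  have hnN : n ≤ N := by
    have : (n : ℝ) ≤ N := hn'.trans ((mono (by linarith)).trans_eq (Real.rpow_one _))
    exact_mod_cast this
  have hU : (1 : ℝ) ≤ (N : ℝ) ^ (100 * δ) := Real.one_le_rpow hN1 (by positivity)
  obtain ⟨d1, d2⟩ := hD N D χ j n n1 hR hn hnN
  have ha : |a1 ((N : ℝ) ^ (100 * δ)) - π| ≤ (N : ℝ) ^ (-20 * δ) := by
    refine (hK _ hU).1.trans ?_
    rw [div_le_iff₀ (pos _), add]
    exact le_trans (by linarith) (mono (a := δ) (by linarith))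
  have hE := (hP N D χ j (fun m => elc ((N : ℝ) ^ (100 * δ)) c₀ N m - π * F5.l0 (LN N) m) n2
    hR).1 n ((N : ℝ) ^ (-19 * δ)) hn hnN fun m hm hm' => by
      have m1 : (m : ℝ) ≤ 2 * (N : ℝ) ^ (1 - 298 * δ) := by
        refine hm'.trans ?_
        rw [mul_assoc]
        refine mul_le_mul_of_nonneg_left ?_ (by norm_num)
        refine (mul_le_mul_of_nonneg_left hn' (pos _).le).trans ?_
        rw [add]
        exact mono (by linarith)
      have m2 : (1 + 4 * ((N : ℝ) ^ (100 * δ)) ^ 2) * m ≤ N := by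
        have u1 : 1 + 4 * ((N : ℝ) ^ (100 * δ)) ^ 2 ≤ 5 * (N : ℝ) ^ (200 * δ) := by
          have : (1 : ℝ) ≤ (N : ℝ) ^ (200 * δ) := Real.one_le_rpow hN1 (by positivity)
          rw [sq, add, show 100 * δ + 100 * δ = 200 * δ by ring]
          linarith
        calc _ ≤ 5 * (N : ℝ) ^ (200 * δ) * (2 * (N : ℝ) ^ (1 - 298 * δ)) :=
              mul_le_mul u1 m1 (Nat.cast_nonneg _) (by have := pos (200 * δ); positivity)
          _ = 10 * ((N : ℝ) ^ (200 * δ) * (N : ℝ) ^ (1 - 298 * δ)) := by ring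
          _ ≤ (N : ℝ) ^ δ * ((N : ℝ) ^ (200 * δ) * (N : ℝ) ^ (1 - 298 * δ)) :=
              mul_le_mul_of_nonneg_right t10 (mul_pos (pos _) (pos _)).le
          _ ≤ N := by
              rw [add, add]
              exact (mono (by linarith)).trans_eq (Real.rpow_one _)
      have m3 : (m : ℝ) ≤ N := by
        have : (0 : ℝ) ≤ m := Nat.cast_nonneg m
        nlinarith [sq_nonneg ((N : ℝ) ^ (100 * δ))]
      refine (err_le hm (by exact_mod_cast m3) (od_zero (hX _ hU).2.2.1 hm m2) ha hc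
        (hT N n4 m (by rwa [pow_one]))).trans ?_
      have l1 : Real.log N + C ≤ (N : ℝ) ^ (δ / 2) := by
        have := hL N n3
        rw [pow_one] at this
        nlinarith
      refine (mul_le_mul_of_nonneg_left (mul_le_mul_of_nonneg_right l1 (pos _).le)
        (pos _).le).trans ?_
      rw [add, add]
      exact mono (by linarith)
  unfold PN at hE
  rw [PT_lin, add] at hE
  have b1 : 1 / (N : ℝ) ≤ (N : ℝ) ^ (-18 * δ) := by
    rw [one_div, ← Real.rpow_neg_one]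
    exact mono (by linarith)
  have b2 : (N : ℝ) ^ (3 * δ - 1 / 4) * √n ≤ (N : ℝ) ^ (-18 * δ) := by
    have s1 : √n ≤ (N : ℝ) ^ (1 / 4 - 150 * δ) := by
      rw [Real.sqrt_le_left (pos _).le, sq, add]
      exact hn'.trans (mono (by linarith))
    refine (mul_le_mul_of_nonneg_left s1 (pos _).le).trans ?_
    rw [add]
    exact mono (by linarith)
  have b3 : (N : ℝ) ^ (-19 * δ + δ) ≤ (N : ℝ) ^ (-18 * δ) := mono (by linarith)
  have b4 : 3 * (N : ℝ) ^ (-18 * δ) ≤ (N : ℝ) ^ (-15 * δ) := by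
    refine (mul_le_mul_of_nonneg_right (show (3 : ℝ) ≤ (N : ℝ) ^ δ by linarith)
      (pos _).le).trans ?_
    rw [add]
    exact mono (by linarith)
  have e : PN χ j δ N (elc ((N : ℝ) ^ (100 * δ)) c₀ N) n - Rn χ j (LN N) (Qc D N) n =
      (PN χ j δ N (elc ((N : ℝ) ^ (100 * δ)) c₀ N) n - π * PN χ j δ N (F5.l0 (LN N)) n) +
      (π * PN χ j δ N (F5.l0 (LN N)) n - π * ln (-1 / 2) (FD χ j N n) -
        Rn χ j (LN N) (Qc D N) n) + π * ln (-1 / 2) (FD χ j N n) := by ring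
  rw [e]
  refine (norm_add₃_le.trans (add_le_add_three hE d1 d2)).trans ?_
  linarith

end Pool.Agent.MP_20b2fd_nt.F5
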