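import Pool.Agent.MP_20b2fd_nt.F5.Util

/-! The second moment of the perturbation: reduction to the main term. -/

set_option autoImplicit false

namespace Pool.Agent.MP_20b2fd_nt.F5

open MeasureTheory Complex Finset Filter Topology
open Pool.Agent.MP_c5bf7b_nt.H38 (Phi Ch)
open Pool.Agent.MP_20b2fd_nt.H38
open scoped Real

namespace FY1A

section

variable {D : ℕ} (χ : Ch D) (W : ℝ → ℝ) (Q : ℝ) (N : ℕ)

theorem PT_congr {f g : ℕ → ℂ} {n : ℕ} (hn : 1 ≤ n) (h : ∀ m, 1 ≤ m → f m = g m) :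
    PT χ W Q N f n = PT χ W Q N g n := by
  refine sum_congr rfl fun k hk => congrArg _ (sum_congr rfl fun d hd => congrArg _ (h _ ?_))
  have h1 := Nat.dvd_of_mem_divisors hd
  refine Nat.div_pos (Nat.le_of_dvd (Nat.mul_pos (mem_Icc.1 hk).1 hn) ?_)
    (pow_pos (Nat.pos_of_mem_divisors hd) 2)
  rw [sq]
  exact mul_dvd_mul (h1.trans (Nat.gcd_dvd_left _ _)) (h1.trans (Nat.gcd_dvd_right _ _))

theorem PT_four (a b c d : ℂ) (f g h i : ℕ → ℂ) (n : ℕ) :
    PT χ W Q N (fun m => a * f m + b * g m + c * h m + d * i m) n =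
      a * PT χ W Q N f n + b * PT χ W Q N g n + c * PT χ W Q N h n + d * PT χ W Q N i n := by
  simp only [PT, Bh, mul_sum, ← sum_add_distrib]
  exact sum_congr rfl fun _ _ => sum_congr rfl fun _ _ => by ring

theorem PT_sub (f g : ℕ → ℂ) (n : ℕ) :
    PT χ W Q N f n - PT χ W Q N g n = PT χ W Q N (fun m => f m - g m) n := by
  simp only [PT, Bh, mul_sum, ← sum_sub_distrib]
  exact sum_congr rfl fun _ _ => sum_congr rfl fun _ _ => by ring

end

theorem od_sum {K : ℝ → ℝ} {B : ℝ} {N m : ℕ} (hK : ∀ t, B ≤ |t| → K t = 0) (hN : 1 ≤ N)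
    (hm : 1 ≤ m) :
    Summable fun h : ℤ => tau h.natAbs * tau (m + h * N : ℤ).natAbs * K (h * N / m) := by
  refine summable_of_ne_finset_zero (s := Icc (-⌈B * m⌉) ⌈B * m⌉) fun h hh => ?_
  rw [mem_Icc, ← abs_le, not_le] at hh
  have h1 : B * m ≤ |(h : ℝ)| := (Int.le_ceil _).trans (by exact_mod_cast hh.le)
  have h2 : (1 : ℝ) ≤ N := by exact_mod_cast hN
  have h3 : (0 : ℝ) < m := by exact_mod_cast hm
  rw [hK _ (by
    rw [abs_div, abs_mul, Nat.abs_cast, Nat.abs_cast, le_div_iff₀ h3]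
    nlinarith [abs_nonneg (h : ℝ)]), mul_zero]

theorem od_split {K k : ℝ → ℝ} {B : ℝ} {N m : ℕ} (hK : ∀ t, B ≤ |t| → K t = 0)
    (hk : ∀ t, B ≤ |t| → k t = 0) (hN : 1 ≤ N) (hm : 1 ≤ m) :
    Od K N m = Od (fun t => K t - k t) N m + Od k N m := by
  unfold Od
  rw [← (od_sum (B := B) (K := fun t => K t - k t) (fun t h => by simp [hK t h, hk t h])
    hN hm).tsum_add (od_sum hk hN hm)]
  exact tsum_congr fun h => by ring

theorem cut_mono {R R' B E E' : ℝ} {k : ℝ → ℝ} (h : CutOK R B E k) (h1 : R ≤ R') (h2 : E ≤ E') :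
    CutOK R' B E' k := by
  obtain ⟨D, a, b, c, d, e, f⟩ := h
  exact ⟨D, a, b, fun t ht => c t (h1.trans ht), d, e, fun t ht =>
    ⟨(f t ht).1.trans (mul_le_mul_of_nonneg_right h2 (by positivity)), fun j j1 j2 =>
      ((f t ht).2 j j1 j2).trans (div_le_div_of_nonneg_right h2 (by positivity))⟩⟩

theorem err_eq (U c₀ : ℝ) {N m : ℕ} (hN : 1 ≤ N) (hm : 1 ≤ m) :
    ell U c₀ N m = π * (tau m * (LN N - Real.log m)) + tau m * ((a1 U - π) *
      (Real.log N - Real.log m) + (c₀ + 2 * π * Real.log (2 * π))) + 2 * Od (Kf U) N m := by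
  have h2 : (N : ℝ) ≠ 0 := by positivity
  have h3 : (m : ℝ) ≠ 0 := by positivity
  rw [ell, LN, Real.log_div h2 h3, Real.log_div h2 (by positivity),
    show 4 * π ^ 2 = (2 * π) ^ 2 by ring, Real.log_pow]
  push_cast
  ring

end FY1A

open FY1A in
theorem fy1Of : FY1Of := by
  rintro ⟨Cv, v1, -, -, -, hV⟩ ⟨Ck, A, k1, hK⟩ ⟨Cm, m1, hM⟩ ⟨Cl, l1, hL⟩ hOZ hZB hZD hDG hPB hCU
  have A0 : (0 : ℝ) ≤ A := Nat.cast_nonneg A
  refine ⟨1 / 10 ^ 4 / (200 * A + 800), by positivity, fun δ C d0 d1 c1 => ?_⟩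
  rw [le_div_iff₀ (by positivity)] at d1
  have dA : 0 ≤ δ * A := by positivity
  obtain ⟨N1, h1⟩ := hOZ (1 / 10 ^ 4) Cv (by norm_num) le_rfl v1
  obtain ⟨N2, h2⟩ := hZB δ d0 (by linarith)
  obtain ⟨N3, h3⟩ := hZD δ d0 (by linarith)
  obtain ⟨N4, h4⟩ := hDG δ d0 (by linarith)
  obtain ⟨N5, h5⟩ := hPB δ d0 (by linarith)
  obtain ⟨N6, h6⟩ := hCU δ Cl d0 (by linarith) l1
  obtain ⟨N7, n3, h7⟩ := U.ev_log 10 0 d0
  obtain ⟨N8, -, h8⟩ := U.ev_tau 2 (half_pos d0)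
  obtain ⟨N9, -, h9⟩ := U.ev_log (2 + C) 1 (half_pos d0)
  obtain ⟨N0, -, h0⟩ := U.ev_log (Cm * Ck) 0 (show (0 : ℝ) < 1 / 10 ^ 4 / 2 by norm_num)
  refine ⟨N1 + N2 + N3 + N4 + N5 + N6 + N7 + N8 + N9 + N0,
    fun N D _ χ j l c₀ hN hR hc hl1 hl2 => ?_⟩
  replace h1 := fun R Q W k => h1 N D χ R Q W k l (by omega)
  replace h2 := fun n k => h2 N D χ j n k (by omega) hR
  replace h3 := fun n => h3 N D χ j n (by omega) hR
  replace h4 := fun n => h4 N D χ j n (by omega) hR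
  replace h5 := fun f => h5 N D χ j f (by omega) hR
  replace h6 := fun K => h6 N K (by omega)
  replace h7 := h7 N (by omega)
  replace h8 := h8 N (by omega)
  replace h9 := h9 N (by omega)
  replace h0 := h0 N (by omega)
  rw [pow_zero, mul_one] at h7 h0
  rw [pow_one] at h9
  have n1 : 1 ≤ N := by omega
  clear hN n3
  have hx : (1 : ℝ) ≤ N := by exact_mod_cast n1
  have x0 : (0 : ℝ) < N := by linarith
  have pos : ∀ a : ℝ, 0 < (N : ℝ) ^ a := Real.rpow_pos_of_pos x0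
  have mono : ∀ {a b : ℝ}, a ≤ b → (N : ℝ) ^ a ≤ (N : ℝ) ^ b :=
    Real.rpow_le_rpow_of_exponent_le hx
  have mul : ∀ {a b c : ℝ}, a + b ≤ c → (N : ℝ) ^ a * (N : ℝ) ^ b ≤ (N : ℝ) ^ c := fun h =>
    (Real.rpow_add x0 _ _).ge.trans (mono h)
  have ten : ∀ {a b : ℝ}, δ + a ≤ b → 10 * (N : ℝ) ^ a ≤ (N : ℝ) ^ b := fun h =>
    (mul_le_mul_of_nonneg_right h7 (pos _).le).trans (mul h)
  have le1 : ∀ {a : ℝ}, a ≤ 1 → (N : ℝ) ^ a ≤ N := fun h => (mono h).trans_eq (Real.rpow_one _)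
  have inv : 1 / (N : ℝ) = (N : ℝ) ^ (-1 : ℝ) := by rw [Real.rpow_neg_one, one_div]
  have u1 : 1 ≤ (N : ℝ) ^ (100 * δ) := Real.one_le_rpow hx (by linarith)
  have r1 : 1 ≤ (N : ℝ) ^ δ := by linarith
  have b1 : 1 ≤ Ck * ((N : ℝ) ^ (100 * δ)) ^ A := one_le_mul_of_one_le_of_one_le k1 (one_le_pow₀ u1)
  obtain ⟨cut, -, cz⟩ := hM _ ((N : ℝ) ^ (-40 * δ)) _ b1 (hK _ u1) (pos _) (by
    have := ten (a := -40 * δ) (b := 0) (by linarith)
    rw [Real.rpow_zero] at this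
    linarith)
  have eE : Cm * (Ck * ((N : ℝ) ^ (100 * δ)) ^ A) / ((N : ℝ) ^ (-40 * δ)) ^ 9 ≤
      (N : ℝ) ^ (1 / 10 ^ 4 : ℝ) := by
    rw [← Real.rpow_natCast, ← Real.rpow_natCast, ← Real.rpow_mul x0.le, ← Real.rpow_mul x0.le,
      ← mul_assoc, mul_div_assoc, ← Real.rpow_sub x0]
    exact (mul_le_mul_of_nonneg_right h0 (pos _).le).trans (mul (by push_cast; linarith))
  have eB : Ck * ((N : ℝ) ^ (100 * δ)) ^ A ≤ (N : ℝ) ^ (1 / 10 ^ 4 : ℝ) := by
    rw [← Real.rpow_natCast, ← Real.rpow_mul x0.le]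
    exact (mul_le_mul_of_nonneg_right (le_trans (by nlinarith) h0) (pos _).le).trans
      (mul (by linarith))
  have kz : ∀ {a : ℝ}, a ≤ -80 * δ → ∀ t, |1 + t| ≤ (N : ℝ) ^ a → kN δ N t = 0 := fun h t ht =>
    (cz t).1 (ht.trans ((mono (by linarith)).trans_eq ((Real.rpow_add x0 _ _).trans (sq _).symm)))
  have ko : KOK N N (1 / N) (kN δ N) := ⟨hx, by positivity, (div_le_one x0).2 hx,
    ⟨_, cut_mono cut (eB.trans (le1 (by norm_num))) (eE.trans (le1 (by norm_num)))⟩,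
    inv ▸ kz (by linarith)⟩
  have lN : l ≤ N := by exact_mod_cast hl2.trans (le1 (by linarith))
  have rg : ∀ m : ℕ, (m : ℝ) ≤ 2 * (N : ℝ) ^ (1 / 2 + 2 * δ) * l →
      (m : ℝ) ≤ 2 * (N : ℝ) ^ (1 / 2 + 3 * δ) ∧ m ≤ N := fun m hm => by
    have a := (mul_le_mul_of_nonneg_left hl2 (pos (1 / 2 + 2 * δ)).le).trans
      (mul (c := 1 / 2 + 3 * δ) (by linarith))
    have b := (ten (a := 1 / 2 + 3 * δ) (b := 1) (by linarith)).trans_eq (Real.rpow_one _)
    have c := pos (1 / 2 + 3 * δ)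
    exact ⟨by linarith, by exact_mod_cast (show (m : ℝ) ≤ N by linarith)⟩
  obtain ⟨la, lK, -⟩ := hL _ u1
  set err : ℕ → ℂ := fun m => ((tau m * ((a1 ((N : ℝ) ^ (100 * δ)) - π) *
    (Real.log N - Real.log m) + (c₀ + 2 * π * Real.log (2 * π))) : ℝ) : ℂ) with herr
  have t1 : ‖PN χ j δ N (PN χ j δ N err) l‖ ≤ (N : ℝ) ^ (-19 * δ) * (N : ℝ) ^ δ * (N : ℝ) ^ δ := by
    refine (h5 _).1 l _ hl1 lN fun n a1 a2 => (h5 _).1 n _ a1 (rg n a2).2 fun m b1 b2 => ?_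
    have c1 : (n : ℝ) ≤ N := by exact_mod_cast (rg n a2).2
    have c2 : (m : ℝ) ≤ (N : ℝ) ^ 2 := by
      have := (ten (a := 1 / 2 + 2 * δ) (b := 1) (by linarith)).trans_eq (Real.rpow_one _)
      have := pos (1 / 2 + 2 * δ)
      nlinarith
    have c3 : (1 : ℝ) ≤ m := by exact_mod_cast b1
    have c4 := Real.log_nonneg hx
    have c5 : |Real.log N - Real.log m| ≤ Real.log N := by
      have := Real.log_le_log (by linarith) c2
      rw [Real.log_pow] at this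
      push_cast at this
      exact abs_le.2 ⟨by linarith, by linarith [Real.log_nonneg c3]⟩
    have c6 : 2 / (N : ℝ) ^ (100 * δ) ≤ 2 * (N : ℝ) ^ (-20 * δ) := by
      rw [div_eq_mul_inv, ← Real.rpow_neg x0.le]
      linarith [mono (a := -(100 * δ)) (b := -20 * δ) (by linarith)]
    have c7 := mul_le_mul (la.trans c6) c5 (abs_nonneg _) (by have := pos (-20 * δ); positivity)
    rw [← abs_mul] at c7
    have c8 := (abs_add_le _ _).trans (add_le_add c7 hc)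
    have c9 := mul_le_mul_of_nonneg_right h9 (pos (-20 * δ)).le
    rw [herr, norm_real, Real.norm_eq_abs, abs_mul, abs_of_nonneg (U.tau_nonneg m)]
    refine (mul_le_mul (h8 m c2) (c8.trans (le_trans ?_ (c9.trans (mul le_rfl)))) (abs_nonneg _)
      (pos _).le).trans (mul (by linarith))
    linarith [mul_nonneg (mul_nonneg (show 0 ≤ C by linarith) c4) (pos (-20 * δ)).le,
      pos (-20 * δ)]
  have t2 := ((h5 fun m => (Od (fun t => Kf ((N : ℝ) ^ (100 * δ)) t - kN δ N t) N m : ℝ)).2 l hl1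
    hl2).trans (mul_le_mul_of_nonneg_left (by
      simpa only [norm_real, Real.norm_eq_abs, kN] using h6 _ lK) (pos _).le)
  have d1' : (1 : ℝ) ≤ D := by exact_mod_cast NeZero.one_le
  have t3 := h1 ((N : ℝ) ^ δ) (Qc D N) (Wc j ((N : ℝ) ^ δ)) (kN δ N) ⟨hR.pr, hR.prim, hR.sq,
    hR.hD.trans (mono (by linarith)), r1, le1 (by linarith), ((hV j hR.hj).2.2 _ r1).1,
    Real.one_le_rpow hx (by norm_num), pos _, Real.rpow_le_one_of_one_le_of_nonpos hx (by norm_num),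
    ⟨_, cut_mono cut eB eE⟩, kz (by linarith)⟩ (by unfold Qc; positivity) (by
      have a := (mul_le_mul_of_nonneg_right hR.hD (pos (1 / 2)).le).trans (mul le_rfl)
      have b := (mul_le_mul_of_nonneg_right a (pos δ).le).trans (mul le_rfl)
      have c := ten (a := δ + 1 / 2 + δ) (b := 1 / 2 + 1 / 10 ^ 4) (by linarith)
      rw [Qc, Real.sqrt_eq_rpow]
      linarith [pos (δ + 1 / 2 + δ)]) hl1 (hl2.trans (mono (by linarith)))
  have t4 := (h5 fun n => π * PN χ j δ N (l0 (LN N)) n +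
      2 * ZT χ (Wc j ((N : ℝ) ^ δ)) (Qc D N) N (kN δ N) n - Rn χ j (LN N) (Qc D N) n).1 l
    (2 * (N : ℝ) ^ (-15 * δ)) hl1 lN fun n a1 a2 => by
      have b1 := (h4 n a1 (rg n a2).2).1
      have b2 := h2 n _ ko a1 (rg n a2).2
      have b3 := h3 n ko a1 (rg n a2).1
      have b4 := ten (a := -1) (b := -15 * δ) (by linarith)
      have b5 := (norm_add_le _ _).trans (add_le_add ((norm_add_le _ _).trans
        (add_le_add ((norm_add_le _ _).trans (add_le_add b1 b2)) b2)) b3)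
      rw [inv] at b5
      refine le_of_eq_of_le (congrArg _ (by ring)) (b5.trans ?_)
      linarith [pos (-1)]
  obtain ⟨_, -, -, K0, -⟩ := hK _ u1
  obtain ⟨_, -, -, k0, -⟩ := cut
  have e : PN χ j δ N (PN χ j δ N (elc ((N : ℝ) ^ (100 * δ)) c₀ N)) l -
      PN χ j δ N (Rn χ j (LN N) (Qc D N)) l = _ :=
    ((PT_sub ..).trans (PT_congr _ _ _ _ hl1 fun n hn => ?_)).trans (PT_four χ _ _ N 1 2 2 1
      (PN χ j δ N err)
      (PN χ j δ N fun m => (Od (fun t => Kf ((N : ℝ) ^ (100 * δ)) t - kN δ N t) N m : ℝ))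
      (fun n => PN χ j δ N (fun m => (Od (kN δ N) N m : ℝ)) n -
        ZT χ (Wc j ((N : ℝ) ^ δ)) (Qc D N) N (kN δ N) n)
      (fun n => π * PN χ j δ N (l0 (LN N)) n +
        2 * ZT χ (Wc j ((N : ℝ) ^ δ)) (Qc D N) N (kN δ N) n - Rn χ j (LN N) (Qc D N) n) l)
  · rw [e]
    refine (norm_add_le _ _).trans ((add_le_add_left ((norm_add_le _ _).trans
      (add_le_add_left (norm_add_le _ _) _)) _).trans ?_)
    simp only [norm_mul, one_mul, Complex.norm_ofNat]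
    have s1 := (mul_le_mul_of_nonneg_right (mul (a := -19 * δ) (b := δ) le_rfl) (pos δ).le).trans
      (mul (c := -14 * δ) (by linarith))
    have s2 := mul (a := 3 * δ) (b := -25 * δ) (c := -14 * δ) (by linarith)
    have s3 := mono (a := -1 / 40) (b := -14 * δ) (by linarith)
    have s4 := mul (a := -15 * δ) (b := δ) (c := -14 * δ) (by linarith)
    have s5 := ten (a := -14 * δ) (b := -12 * δ) (by linarith)
    unfold PN at t1 t2 t4 ⊢
    linarith [pos (-14 * δ)]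
  · have e' : PN χ j δ N (elc ((N : ℝ) ^ (100 * δ)) c₀ N) n = _ :=
      (PT_congr _ _ _ _ hn fun m hm => ?_).trans (PT_four χ _ _ N π 1 2 2 (l0 (LN N)) err
        (fun m => (Od (fun t => Kf ((N : ℝ) ^ (100 * δ)) t - kN δ N t) N m : ℝ))
        (fun m => (Od (kN δ N) N m : ℝ)) n)
    · rw [e']
      unfold PN
      ring
    · rw [elc, err_eq _ _ n1 hm, od_split K0 k0 n1 hm, herr, l0]
      unfold kN
      push_cast
      ring

end Pool.Agent.MP_20b2fd_nt.F5
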