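import Pool.Agent.MP_20b2fd_nt.F5.Util

/-! The main term of the second moment of the perturbation. -/

set_option autoImplicit false

namespace Pool.Agent.MP_20b2fd_nt.F5

open Complex Finset
open DirichletCharacter (LFunction)
open Pool.Agent.MP_c5bf7b_nt.H38 (Ch)
open Pool.Agent.MP_20b2fd_nt.H38
open scoped Real

namespace FY2A

theorem cau {f : ℂ → ℂ} {T M : ℝ} (hT : 0 < T) (hd : ∀ z, ‖z‖ ≤ 1 / T → DifferentiableAt ℂ f z)
    (hM : ∀ z, ‖z‖ ≤ 1 / T → ‖f z‖ ≤ M) : ‖deriv f 0‖ ≤ M * T := by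
  simpa using norm_deriv_le_of_forall_mem_sphere_norm_le (c := 0) (one_div_pos.2 hT)
    (DifferentiableOn.diffContOnCl_ball
      (fun z hz => (hd z (mem_closedBall_zero_iff.1 hz)).differentiableWithinAt) subset_rfl)
    fun z hz => hM z (mem_sphere_zero_iff_norm.1 hz).le

theorem ex3 {a : ℂ} (h : ‖a‖ ≤ 1) : ‖exp a‖ ≤ 3 :=
  (norm_exp_le_exp_norm a).trans ((Real.exp_le_exp.2 h).trans
    (Real.exp_one_lt_d9.le.trans (by norm_num)))

theorem rep {D : ℕ} (χ : Ch D) (W : ℝ → ℝ) (Q : ℝ) (N : ℕ) {ι : Type} (J : Finset ι) (ν : ι → ℂ)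
    (l : ι → ℕ) (hl : ∀ i ∈ J, 1 ≤ l i) : ∃ (κ : Type) (T : Finset κ) (b : κ → ℂ) (m : κ → ℕ),
      (∀ x ∈ T, 1 ≤ m x) ∧ ∀ f, ∑ i ∈ J, ν i * PT χ W Q N f (l i) = ∑ x ∈ T, b x * f (m x) := by
  refine ⟨(_ : ι) × (_ : ℕ) × ℕ, J.sigma fun i => (Icc 1 N).sigma fun k => (k.gcd (l i)).divisors,
    fun x => ν x.1 * (wk χ W Q x.2.1 * x.2.2), fun x => x.2.1 * l x.1 / x.2.2 ^ 2, fun x hx => ?_,
    fun f => by simp only [PT, Bh, sum_sigma, mul_sum, mul_assoc]⟩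
  simp only [mem_sigma, mem_Icc, Nat.mem_divisors, Nat.dvd_gcd_iff] at hx
  obtain ⟨h1, ⟨h2, -⟩, ⟨h3, h4⟩, -⟩ := hx
  exact Nat.div_pos (sq x.2.2 ▸ Nat.mul_le_mul (Nat.le_of_dvd h2 h3) (Nat.le_of_dvd (hl _ h1) h4))
    (pow_pos (Nat.pos_of_dvd_of_pos h3 h2) 2)

variable {L h : ℂ → ℂ} {S : ℂ → ℂ → ℂ} {T La L₁ X e : ℝ} (dL : Differentiable ℂ L)
  (dS : ∀ u, Differentiable ℂ (S u))
  (hh : ∀ u, HasDerivAt (fun w => exp (La * w) * L (1 + u + w) ^ 2 * S u w) (h u) 0) (hT : 4 ≤ T)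
  (ha : |La| ≤ T) (h1 : ∀ z : ℂ, ‖z‖ ≤ 4 / T → ‖L (1 + z)‖ ≤ L₁ / T)
  (h2 : ∀ z : ℂ, ‖z‖ ≤ 1 / 2 → ‖L (1 + z)‖ ≤ X) (e0 : 0 ≤ e)
include dL dS hh hT ha h1 h2 e0

theorem one {g : ℂ → ℂ} {G P : ℝ} (P0 : 0 ≤ P) (dh : Differentiable ℂ h)
    (hg : ∀ u, ‖u‖ ≤ 1 / T → DifferentiableAt ℂ g u ∧ ‖g u‖ ≤ G)
    (hS : ∀ u w, ‖u‖ ≤ 1 / T → ‖w‖ ≤ 1 / T → ‖S u w‖ ≤ P + e) :
    ‖deriv (fun u => g u * h u) 0‖ ≤ 3 * G * (P * L₁ ^ 2 + X ^ 2 * T ^ 2 * e) := by
  have T0 : 0 < T := by linarith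
  refine (cau (M := G * (3 * ((L₁ / T) ^ 2 * P + X ^ 2 * e) * T)) T0
    (fun u k => (hg u k).1.fun_mul (dh u)) fun u k => ?_).trans_eq (by field_simp)
  rw [norm_mul, ← (hh u).deriv]
  refine mul_le_mul (hg u k).2 (cau T0 (fun w _ => by have := dS u; fun_prop) fun w k' => ?_)
    (norm_nonneg _) ((norm_nonneg _).trans (hg u k).2)
  have a : ‖u + w‖ ≤ 2 / T := (norm_add_le_of_le k k').trans_eq (by ring)
  have b := pow_le_pow_left₀ (norm_nonneg _) (h1 _ (a.trans (by gcongr; norm_num))) 2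
  have c := pow_le_pow_left₀ (norm_nonneg _)
    (h2 _ (a.trans (by rw [div_le_iff₀ T0]; linarith))) 2
  rw [mul_assoc, norm_mul, norm_mul, norm_pow, add_assoc]
  refine mul_le_mul (ex3 ?_) ((mul_le_mul_of_nonneg_left (hS u w k k') (sq_nonneg _)).trans ?_)
    (by positivity) (by norm_num)
  · rw [norm_mul, norm_real]
    exact (mul_le_mul ha k' (norm_nonneg _) T0.le).trans_eq (by field_simp)
  · nlinarith [mul_le_mul_of_nonneg_right b P0, mul_le_mul_of_nonneg_right c e0]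

theorem zero {P : ℝ} (P0 : 0 ≤ P) (h3 : ‖deriv L 1‖ ≤ X)
    (hS : ∀ w, ‖w‖ ≤ 1 / T → ‖S 0 w‖ ≤ P * L₁ ^ 2 / T + e) (hS0 : ‖S 0 0‖ ≤ P * L₁ * ‖L 1‖ + e) :
    ‖h 0‖ ≤ 4 * (P * L₁ ^ 2 * ‖L 1‖ ^ 2) + X ^ 2 * (2 * T + 2) * e := by
  have T0 : 0 < T := by linarith
  have a : HasDerivAt (fun w => L (1 + 0 + w)) (deriv L 1) 0 :=
    HasDerivAt.comp_const_add (1 + 0 : ℂ) 0 (by rw [add_zero, add_zero]; exact (dL 1).hasDerivAt)
  have b := (hh 0).unique ((((hasDerivAt_id (0 : ℂ)).const_mul (La : ℂ)).cexp.mul (a.pow 2)).mul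
    (dS 0 0).hasDerivAt)
  have c : ‖deriv L 1‖ ≤ L₁ := by
    rw [← a.deriv]
    refine (cau T0 (fun w _ => by fun_prop) fun w k => ?_).trans_eq (div_mul_cancel₀ L₁ T0.ne')
    simpa using h1 w (k.trans (by gcongr; norm_num))
  have d := cau T0 (fun w _ => dS 0 w) hS
  have f := mul_le_mul ha (hS 0 (by simp [T0.le])) (norm_nonneg _) T0.le
  have x := h2 0 (by simp)
  rw [add_zero] at x
  have t : (P * L₁ ^ 2 / T + e) * T = P * L₁ ^ 2 + e * T := by field_simp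
  rw [mul_comm T, t] at f
  rw [t] at d
  have k : h 0 = L 1 ^ 2 * (La * S 0 0) + 2 * L 1 * (deriv L 1 * S 0 0) +
      L 1 ^ 2 * deriv (S 0) 0 := by
    rw [b]
    simp
    ring
  rw [k]
  refine (norm_add₃_le).trans ?_
  simp only [norm_mul, norm_pow, norm_real, Real.norm_eq_abs, Complex.norm_ofNat]
  have l0 := norm_nonneg (L 1)
  have l1 := norm_nonneg (deriv L 1)
  have x2 := pow_le_pow_left₀ l0 x 2
  have g1 := mul_le_mul_of_nonneg_left f (sq_nonneg ‖L 1‖)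
  have g2 := mul_le_mul_of_nonneg_left d (sq_nonneg ‖L 1‖)
  have g3 := mul_le_mul_of_nonneg_left hS0 (mul_nonneg l0 l1)
  have g4 := mul_le_mul_of_nonneg_left c
    (mul_nonneg (mul_nonneg P0 (l1.trans c)) (sq_nonneg ‖L 1‖))
  have g5 := mul_le_mul_of_nonneg_right (mul_le_mul x h3 l1 (l0.trans x)) e0
  have g6 := mul_le_mul_of_nonneg_right x2 (mul_nonneg e0 T0.le)
  linarith

end FY2A

open FY2A in
theorem fy2Of : FY2Of := by
  rintro ⟨Cv, v1, v2, v3, v4, -⟩ ⟨Cl, l1, hl⟩ ⟨Ca, -, hA⟩ ⟨Ck, δ₀, k1, k0, hK⟩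
  refine ⟨36 * Cv * Ck, min δ₀ (1 / 100), by nlinarith, by positivity, fun δ d0 d1 => ?_⟩
  obtain ⟨N₁, hK⟩ := hK δ d0 (d1.trans (min_le_left _ _))
  obtain ⟨N₂, -, hE⟩ := U.ev_log (36 * Cv * (4 * Cl) ^ 2) 2 (ε := 3 / 100) (by norm_num)
  refine ⟨max 100 (max N₁ N₂), fun N D _ χ j ι J ν l L₁ B hN R M => ?_⟩
  simp only [max_le_iff] at hN
  obtain ⟨s1, s2⟩ := hK N D χ j ι J ν l L₁ B hN.2.1 R M
  have d2 := d1.trans (min_le_right _ _)
  have n0 : (100 : ℝ) ≤ N := by exact_mod_cast hN.1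
  have n1 : (1 : ℝ) ≤ N := by linarith
  have D1 : (1 : ℝ) ≤ D := by exact_mod_cast NeZero.pos D
  have T4 : 4 ≤ Real.log N := by
    rw [Real.le_log_iff_exp_le (by linarith), show (4 : ℝ) = (4 : ℕ) * 1 by norm_num,
      Real.exp_nat_mul]
    exact (pow_le_pow_left₀ (Real.exp_pos 1).le Real.exp_one_lt_d9.le 4).trans (by linarith)
  have T0 : 0 < Real.log N := by linarith
  have ha : |LN N| ≤ Real.log N := by
    have p1 : 1 ≤ 4 * π ^ 2 := by nlinarith [Real.two_le_pi]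
    have p2 : 4 * π ^ 2 ≤ N := by nlinarith [Real.pi_le_four, Real.pi_pos]
    rw [LN, abs_of_nonneg (Real.log_nonneg ((one_le_div (by linarith)).2 p2))]
    exact Real.log_le_log (by positivity) (div_le_self (by linarith) p1)
  obtain ⟨dL, bL⟩ := (hl D).1 χ R.ne
  have bX : ∀ z : ℂ, ‖z‖ ≤ 1 / 2 → ‖LFunction χ (1 + z)‖ ≤ 4 * Cl * D ∧
      ‖deriv (LFunction χ) (1 + z)‖ ≤ 4 * Cl * D := fun z k => by
    obtain ⟨a, b⟩ := abs_le.1 ((abs_re_le_norm z).trans k)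
    obtain ⟨c, d⟩ := bL (1 + z) (by simp; linarith) (by simp; linarith)
    have f : Cl * D * (1 + |(1 + z).im|) ^ 2 ≤ 4 * Cl * D := by
      have := (abs_im_le_norm z).trans k
      have : (1 + |z.im|) ^ 2 ≤ 4 := by nlinarith [abs_nonneg z.im]
      simp only [add_im, one_im, zero_add]
      nlinarith [mul_nonneg (zero_le_one.trans l1) (zero_le_one.trans D1)]
    exact ⟨c.trans f, d.trans f⟩
  have B0 : 0 ≤ B := (norm_nonneg _).trans (M.hB 0 0 0 (by simp; positivity) (by simp; positivity)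
    (by simp; positivity))
  have P0 : 0 ≤ Ck * (D.totient / D) * B := by positivity
  have e0 : 0 ≤ (N : ℝ) ^ (-1 / 10 : ℝ) := by positivity
  have er : 36 * Cv * ((4 * Cl * D) ^ 2 * (1 + Real.log N) ^ 2 * (N : ℝ) ^ (-1 / 10 : ℝ)) ≤
      (N : ℝ) ^ (-1 / 20 : ℝ) := by
    have a : (D : ℝ) ^ 2 ≤ (N : ℝ) ^ (1 / 50 : ℝ) := by
      refine (pow_le_pow_left₀ (by linarith) (R.hD.trans
        (Real.rpow_le_rpow_of_exponent_le n1 d2)) 2).trans_eq ?_
      rw [sq, ← Real.rpow_add (by linarith)]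
      norm_num
    have b := mul_le_mul_of_nonneg_right (mul_le_mul (hE N hN.2.2) a (by positivity)
      (by positivity)) e0
    rw [← Real.rpow_add (by linarith), ← Real.rpow_add (by linarith)] at b
    exact le_trans (le_of_eq (by ring)) (b.trans_eq (by norm_num))
  obtain ⟨κ, T, b, m, m1, hr⟩ := rep χ (Wc j ((N : ℝ) ^ δ)) (Qc D N) N J ν l fun i k => (M.hl i k).1
  simp only [PN, hr] at s1 s2 ⊢
  have dS : ∀ u, Differentiable ℂ fun w => ∑ x ∈ T, b x * Af χ u w (m x) := fun u =>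
    Differentiable.fun_sum fun x k => ((hA D χ _ (m1 x k)).2.1 u).const_mul _
  have hH := fun x k => (hA D χ _ (m1 x k)).2.2.2.2.2.2 R.ne (LN N)
  have hh : ∀ u, HasDerivAt (fun w => exp (LN N * w) * LFunction χ (1 + u + w) ^ 2 *
      ∑ x ∈ T, b x * Af χ u w (m x)) (∑ x ∈ T, b x * Hf χ (LN N) (m x) u) 0 := fun u => by
    simpa only [mul_sum, mul_left_comm _ (b _)] using
      HasDerivAt.fun_sum fun x k => ((hH x k).2 u).const_mul (b x)
  have X0 : 0 ≤ (4 * Cl * D) ^ 2 * (N : ℝ) ^ (-1 / 10 : ℝ) := by positivity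
  have pi4 := Real.pi_le_four
  generalize (N : ℝ) ^ (-1 / 10 : ℝ) = e at *
  rcases R.hj with rfl | rfl
  · have z := zero dL dS hh T4 ha M.hL (fun z k => (bX z k).1) e0 P0 (by simpa using (bX 0 (by simp)).2)
      (fun w k => (s1 0 w (by simp [T0.le]) k).trans_eq (by field_simp; ring)) (s2 rfl)
    simp only [Rn, iteratedDeriv_zero, v3, cpow_zero, one_mul, mul_left_comm (b _), ← mul_sum,
      norm_mul, norm_real, Real.norm_of_nonneg Real.pi_pos.le, if_true]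
    refine (mul_le_mul pi4 z (norm_nonneg _) (by norm_num)).trans (le_trans ?_ (add_le_add_right er _))
    have := mul_nonneg (mul_nonneg P0 (sq_nonneg L₁)) (sq_nonneg ‖LFunction χ 1‖)
    have := mul_nonneg X0 (by nlinarith : 0 ≤ 36 * Cv * (1 + Real.log N) ^ 2 - 8 * (1 + Real.log N))
    nlinarith
  · have Q0 : 1 ≤ Qc D N := one_le_mul_of_one_le_of_one_le D1 (Real.one_le_sqrt.2 n1)
    have Q1 : Qc D N ≤ N := by
      have := R.hD.trans (Real.rpow_le_rpow_of_exponent_le n1 (by linarith : δ ≤ 1 / 2))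
      rw [← Real.sqrt_eq_rpow] at this
      exact (mul_le_mul_of_nonneg_right this (Real.sqrt_nonneg _)).trans_eq
        (Real.mul_self_sqrt (by linarith))
    have q0 : (Qc D N : ℂ) ≠ 0 := ofReal_ne_zero.2 (by linarith)
    have hg : ∀ u : ℂ, ‖u‖ ≤ 1 / Real.log N →
        DifferentiableAt ℂ (fun u => gm u * (Qc D N : ℂ) ^ u) u ∧
          ‖gm u * (Qc D N : ℂ) ^ u‖ ≤ Cv * 3 := fun u k => by
      obtain ⟨a, a'⟩ := abs_le.1 ((abs_re_le_norm u).trans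
        (k.trans (one_div_le_one_div_of_le (by norm_num) T4)))
      refine ⟨(v2 u (by linarith)).mul (differentiableAt_id.const_cpow (Or.inl q0)), ?_⟩
      rw [norm_mul, cpow_def_of_ne_zero q0, ← ofReal_log (by linarith)]
      refine mul_le_mul ((v4 u (by linarith) (by linarith)).trans (div_le_self (by linarith)
        (one_le_pow₀ (by simp)))) (ex3 ?_) (norm_nonneg _) (by linarith)
      rw [norm_mul, norm_real, Real.norm_of_nonneg (Real.log_nonneg Q0)]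
      exact (mul_le_mul (Real.log_le_log (by linarith) Q1) k (norm_nonneg _) T0.le).trans_eq
        (by field_simp)
    have z := one dL dS hh T4 ha M.hL (fun z k => (bX z k).1) e0 (mul_nonneg P0 (sq_nonneg L₁))
      (Differentiable.fun_sum fun x k => (hH x k).1.const_mul _) hg
      fun u w k k' => (s1 u w k k').trans_eq (by field_simp; ring)
    have y := (HasDerivAt.fun_sum fun x k => ((hg 0 (by simp [T0.le])).1.mul
      ((hH x k).1 0)).hasDerivAt.const_mul (b x)).deriv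
    simp only [Pi.mul_def, mul_left_comm (b _), ← mul_sum] at y
    simp only [Rn, iteratedDeriv_one, mul_left_comm (b _), ← mul_sum, ← y,
      norm_mul, norm_real, Real.norm_of_nonneg Real.pi_pos.le, one_ne_zero, if_false]
    refine (mul_le_mul pi4 z (norm_nonneg _) (by norm_num)).trans (le_trans ?_ (add_le_add_right er _))
    have := mul_nonneg (mul_nonneg X0 (zero_le_one.trans v1)) (by linarith : 0 ≤ 1 + 2 * Real.log N)
    nlinarith

end Pool.Agent.MP_20b2fd_nt.F5
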