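import Pool.Agent.MP_20b2fd_nt.F5.Spec
import Pool.Agent.MP_20b2fd_nt.H38.Mel11

/-! The kernel as a function of the product of the variables. -/

set_option autoImplicit false

namespace Pool.Agent.MP_20b2fd_nt.F5

open Filter Topology
open Pool.Agent.MP_20b2fd_nt.H38

namespace GKA

variable (D s : ℕ → ℝ → ℝ) (t g r : ℝ → ℝ) (c : ℝ)

noncomputable def F1 (m : ℝ) : ℝ := D 1 (t m) * (-t m / m)

noncomputable def G1 (m : ℝ) : ℝ :=
  F1 D t m * s 0 (c + g m) + D 0 (t m) * (s 1 (c + g m) * r m)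

noncomputable def G2 (m : ℝ) : ℝ :=
  ((D 2 (t m) * t m ^ 2 + 2 * (D 1 (t m) * t m)) * s 0 (c + g m) -
    2 * (D 1 (t m) * t m * (r m * m)) * s 1 (c + g m) +
    D 0 (t m) * (r m * m) ^ 2 * (s 2 (c + g m) - s 1 (c + g m))) / m ^ 2

noncomputable def L1 (m : ℝ) : ℝ := F1 D t m * g m + D 0 (t m) * r m

variable {D s t g r c}

theorem ders {m : ℝ} (hm : m ≠ 0) (ht : HasDerivAt t (-t m / m) m) (hg : HasDerivAt g (r m) m)
    (hr : HasDerivAt r (-r m ^ 2) m) (hD : ∀ j, HasDerivAt (D j) (D (j + 1) (t m)) (t m))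
    (hs : ∀ x, Mel1A.At s x) :
    HasDerivAt (fun m => D 0 (t m) * s 0 (c + g m)) (G1 D s t g r c m) m ∧
      HasDerivAt (G1 D s t g r c) (G2 D s t g r c m) m ∧
      HasDerivAt (fun m => D 0 (t m) * g m) (L1 D t g r m) m := by
  have a := fun j => (hD j).comp m ht
  have b := fun j => (hs (c + g m) j).comp m (hg.const_add c)
  refine ⟨(a 0).mul (b 0), ?_, (a 0).mul hg⟩
  have e := (((a 1).mul (ht.neg.div (hasDerivAt_id m) hm)).mul (b 0)).add
    ((a 0).mul ((b 1).mul hr))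
  refine HasDerivAt.congr_deriv e ?_
  simp only [G2, Function.comp, Pi.mul_apply, Pi.div_apply, Pi.neg_apply, id, zero_add,
    Nat.reduceAdd]
  field_simp
  ring

theorem van (hD : ∀ j x, x ≠ 0 → HasDerivAt (D j) (D (j + 1) x) x) {U : Set ℝ} (hU : IsOpen U)
    (h : ∀ x ∈ U, D 0 x = 0) (j : ℕ) : ∀ x ∈ U, x ≠ 0 → D j x = 0 := by
  induction j with
  | zero => exact fun x hx _ => h x hx
  | succ j ih =>
    intro x hx h0
    refine (hD j x h0).unique ((hasDerivAt_const x (0 : ℝ)).congr_of_eventuallyEq ?_)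
    filter_upwards [hU.mem_nhds hx, eventually_ne_nhds h0] with y a b using ih y a b

theorem mul_bd {a b A B : ℝ} (h : |a| ≤ A) (h' : |b| ≤ B) : |a * b| ≤ A * B := by
  rw [abs_mul]
  exact mul_le_mul h h' (abs_nonneg _) ((abs_nonneg _).trans h)

theorem log_bd {x η Q : ℝ} (hη : 0 < η) (h : η ≤ x) (h1 : x ≤ Q) (h2 : 1 / η ≤ Q) :
    |Real.log x| ≤ Q := by
  have hx : 0 < x := hη.trans_le h
  have a := Real.log_le_sub_one_of_pos hx
  have b := Real.one_sub_inv_le_log_of_pos hx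
  have d : x⁻¹ ≤ 1 / η := by
    rw [one_div]
    exact inv_anti₀ hη h
  exact abs_le.2 ⟨by linarith, by linarith⟩

theorem bds {m e Q S Λ : ℝ} (hm : 0 < m) (hQ : 1 ≤ Q) (hS : 1 ≤ S) (hΛ : 0 ≤ Λ)
    (sb : ∀ i ≤ 4, ∀ x, |s i x| ≤ S) (a0 : |D 0 (t m)| ≤ e) (a1 : |D 1 (t m) * t m| ≤ e * Q)
    (a2 : |D 2 (t m) * t m ^ 2| ≤ e * Q ^ 2)
    (h : (D 0 (t m) = 0 ∧ D 1 (t m) = 0) ∨ (|r m * m| ≤ Q ∧ |g m| ≤ Λ + 2 * Q))
    (h' : (D 0 (t m) = 0 ∧ D 1 (t m) = 0) ∨ |r m * m| ≤ Q) :
    |D 0 (t m)| ≤ 7 * S * (e * Q ^ 2) ∧ |D 0 (t m) * s 0 (c + g m)| ≤ 7 * S * (e * Q ^ 2) ∧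
      |G1 D s t g r c m| ≤ 7 * S * (e * Q ^ 2) / m ∧
      |G2 D s t g r c m| ≤ 7 * S * (e * Q ^ 2) / m ^ 2 ∧ |F1 D t m| ≤ 7 * S * (e * Q ^ 2) / m ∧
      |D 0 (t m) * g m| ≤ 7 * S * (e * Q ^ 2) * (1 + Λ) ∧
      |L1 D t g r m| ≤ 7 * S * (e * Q ^ 2) * (1 + Λ) / m := by
  have he : 0 ≤ e := (abs_nonneg _).trans a0
  have q1 : e ≤ e * Q := le_mul_of_one_le_right he hQ
  have q2 : e * Q ≤ e * Q ^ 2 := mul_le_mul_of_nonneg_left (le_self_pow₀ hQ two_ne_zero) he
  have b1 : |D 0 (t m) * (r m * m)| ≤ e * Q ^ 2 := by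
    rcases h' with k | k
    · simpa [k.1] using he.trans (q1.trans q2)
    · exact (mul_bd a0 k).trans q2
  have b2 : |D 0 (t m) * (r m * m) ^ 2| ≤ e * Q ^ 2 := by
    rcases h' with k | k
    · simpa [k.1] using he.trans (q1.trans q2)
    · exact mul_bd a0 (by rw [abs_pow]; exact pow_le_pow_left₀ (abs_nonneg _) k 2)
  have b3 : |D 1 (t m) * t m * (r m * m)| ≤ e * Q ^ 2 := by
    rcases h' with k | k
    · simpa [k.2] using he.trans (q1.trans q2)
    · exact (mul_bd a1 k).trans (le_of_eq (by ring))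
  have q3 : e * Q * (Λ + 2 * Q) ≤ 2 * (e * Q ^ 2) * (1 + Λ) := by
    have := mul_le_mul_of_nonneg_right q2 hΛ
    have := mul_nonneg (he.trans (q1.trans q2)) hΛ
    nlinarith
  have b4 : |D 0 (t m) * g m| ≤ 2 * (e * Q ^ 2) * (1 + Λ) := by
    rcases h with k | k
    · rw [k.1, zero_mul, abs_zero]
      positivity
    · exact (mul_bd (a0.trans q1) k.2).trans q3
  have b5 : |D 1 (t m) * t m * g m| ≤ 2 * (e * Q ^ 2) * (1 + Λ) := by
    rcases h with k | k
    · rw [k.2, zero_mul, zero_mul, abs_zero]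
      positivity
    · exact (mul_bd a1 k.2).trans q3
  replace a0 := a0.trans (q1.trans q2)
  replace a1 := a1.trans q2
  generalize e * Q ^ 2 = P at *
  have hP : 0 ≤ P := (abs_nonneg _).trans a0
  have p1 : P ≤ P * S := le_mul_of_one_le_right hP hS
  have p2 : P * (1 + Λ) ≤ P * (1 + Λ) * S := le_mul_of_one_le_right (by positivity) hS
  have p3 : 0 ≤ P * Λ := mul_nonneg hP hΛ
  have s0 := sb 0 (by norm_num) (c + g m)
  have s1 := sb 1 (by norm_num) (c + g m)
  have s2 := sb 2 (by norm_num) (c + g m)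
  have dv : ∀ {x y b n : ℝ}, 0 < n → x = y / n → |y| ≤ b → |x| ≤ b / n := fun hn e k => by
    rw [e, abs_div, abs_of_pos hn]
    exact div_le_div_of_nonneg_right k hn.le
  refine ⟨by linarith, (mul_bd a0 s0).trans (by linarith), dv
    (y := -(D 1 (t m) * t m * s 0 (c + g m)) + D 0 (t m) * (r m * m) * s 1 (c + g m)) hm ?_ ?_,
    dv (pow_pos hm 2) rfl ?_, dv (y := -(D 1 (t m) * t m)) hm ?_ ?_, b4.trans (by linarith),
    dv (y := -(D 1 (t m) * t m * g m) + D 0 (t m) * (r m * m)) hm ?_ ?_⟩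
  · unfold G1 F1
    field_simp
  · have u := abs_le.1 (mul_bd a1 s0)
    have v := abs_le.1 (mul_bd b1 s1)
    exact abs_le.2 ⟨by linarith, by linarith⟩
  · have u := abs_le.1 (mul_bd a1 s0)
    have v := abs_le.1 (mul_bd a2 s0)
    have w := abs_le.1 (mul_bd b3 s1)
    have x := abs_le.1 (mul_bd b2 s1)
    have y := abs_le.1 (mul_bd b2 s2)
    exact abs_le.2 ⟨by linarith, by linarith⟩
  · unfold F1
    field_simp
  · rw [abs_neg]
    linarith
  · unfold L1 F1
    field_simp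
  · have u := abs_le.1 b5
    have v := abs_le.1 b1
    exact abs_le.2 ⟨by linarith, by linarith⟩

end GKA

open GKA in
theorem gk : GKS := by
  obtain ⟨s, S, hS, s0, sd, -, sb⟩ := Mel1A.st
  refine ⟨7 * S, by linarith, ?_⟩
  rintro R E η lam H α k ⟨hR, hη, hη1, ⟨B, D, rfl, hD, hz, -, -, hb⟩, hk⟩ hl hH hα
  have hE : 0 ≤ E := by simpa using (abs_nonneg _).trans (hb 1 one_ne_zero).1
  have v1 := van hD (U := {x | R < |x|}) (isOpen_lt continuous_const continuous_abs)
    fun x hx => hz x (le_of_lt hx)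
  have v2 := van hD (U := {x | |1 + x| < η}) (isOpen_lt (by fun_prop) continuous_const)
    fun x hx => hk x (le_of_lt hx)
  have hj : ∀ j, 1 ≤ j → j ≤ 4 → ∀ x, x ≠ 0 → |D j x * x ^ j| ≤ E * R ^ j := fun j a b x hx => by
    rcases lt_or_ge R |x| with c | c
    · rw [v1 j x c hx, zero_mul, abs_zero]
      positivity
    · have p : 0 < min 1 |x| := lt_min one_pos (abs_pos.2 hx)
      have q : |x| ≤ min 1 |x| * R := by
        rcases le_total 1 |x| with d | d
        · rwa [min_eq_left d, one_mul]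
        · rw [min_eq_right d]
          exact le_mul_of_one_le_right (abs_nonneg _) hR
      refine (mul_bd ((hb x hx).2 j a b) (B := (min 1 |x| * R) ^ j) ?_).trans (le_of_eq ?_)
      · rw [abs_pow]
        exact pow_le_pow_left₀ (abs_nonneg _) q j
      · rw [mul_pow]
        field_simp
  have hQ1 : R ≤ R / η := by
    rw [le_div_iff₀ hη]
    nlinarith
  have hQ2 : 1 / η ≤ R / η := div_le_div_of_nonneg_right hR hη.le
  obtain ⟨t, ht⟩ : ∃ t : ℝ → ℝ, ∀ m, t m = H / (lam * m) := ⟨_, fun _ => rfl⟩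
  obtain ⟨g, hg⟩ : ∃ g : ℝ → ℝ, ∀ m, g m = Real.log (lam * m + H) := ⟨_, fun _ => rfl⟩
  obtain ⟨r, hr⟩ : ∃ r : ℝ → ℝ, ∀ m, r m = lam / (lam * m + H) := ⟨_, fun _ => rfl⟩
  have t0 : ∀ m, 0 < m → t m ≠ 0 := fun m hm => by
    rw [ht]
    positivity
  have t1 : ∀ m, 0 < m → lam * m + H = lam * m * (1 + t m) := fun m hm => by
    rw [ht]
    field_simp
  have om : ∀ m, 0 < m → D 0 (t m) * om0 (α / |lam * m + H|) =
      D 0 (t m) * s 0 (1 / 2 - Real.log α + g m) := fun m hm => by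
    by_cases c : 1 + t m = 0
    · rw [hk _ (by rw [c, abs_zero]; exact hη.le), zero_mul, zero_mul]
    · have : |lam * m + H| ≠ 0 := by
        rw [t1 m hm]
        positivity
      rw [om0, s0, Real.log_div hα.ne' this, Real.log_abs, hg]
      congr 2
      ring
  refine ⟨G1 D s t g r (1 / 2 - Real.log α), G2 D s t g r (1 / 2 - Real.log α), F1 D t,
    L1 D t g r, fun m Γ hm hΓ => ?_⟩
  simp only [← ht, Real.log_abs (lam * _ + H), ← hg] at hΓ ⊢
  have dt : HasDerivAt t (-t m / m) m := by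
    rw [funext ht]
    refine HasDerivAt.congr_deriv ((hasDerivAt_const m H).div ((hasDerivAt_id m).const_mul lam)
      (by positivity : lam * m ≠ 0)) ?_
    simp only [id]
    field_simp
    ring
  have hℓ : 1 ≤ 1 + abs (Real.log |t m|) := le_add_of_nonneg_right (abs_nonneg _)
  have hA : η ≤ |1 + t m| → |r m * m| ≤ R / η := fun c => by
    have d : 1 + t m ≠ 0 := abs_pos.1 (hη.trans_le c)
    have e : r m * m = 1 / (1 + t m) := by
      rw [hr, t1 m hm]
      field_simp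
    rw [e, abs_div, abs_one]
    exact (one_div_le_one_div_of_le hη c).trans hQ2
  have main := bds (D := D) (s := s) (t := t) (g := g) (r := r) (c := 1 / 2 - Real.log α)
    (e := E * (1 + abs (Real.log |t m|))) (Q := R / η) (Λ := |Real.log (lam * m)|) hm
    (hR.trans hQ1) hS (abs_nonneg _) sb (hb _ (t0 m hm)).1
    (by
      have := hj 1 le_rfl (by norm_num) _ (t0 m hm)
      rw [pow_one, pow_one] at this
      exact this.trans (mul_le_mul (le_mul_of_one_le_right hE hℓ) hQ1 (by linarith)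
        (by positivity)))
    ((hj 2 (by norm_num) (by norm_num) _ (t0 m hm)).trans (mul_le_mul (le_mul_of_one_le_right hE hℓ)
      (pow_le_pow_left₀ (by linarith) hQ1 2) (by positivity) (by positivity)))
    (by
      rcases lt_or_ge |1 + t m| η with c | c
      · exact .inl ⟨v2 0 _ c (t0 m hm), v2 1 _ c (t0 m hm)⟩
      rcases lt_or_ge R |t m| with d | d
      · exact .inl ⟨v1 0 _ d (t0 m hm), v1 1 _ d (t0 m hm)⟩
      refine .inr ⟨hA c, ?_⟩
      rw [hg, t1 m hm, Real.log_mul (by positivity) (abs_pos.1 (hη.trans_le c)),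
        ← Real.log_abs (1 + t m)]
      refine (abs_add_le _ _).trans (add_le_add le_rfl (log_bd hη c ?_ ?_))
      · have := abs_add_le 1 (t m)
        rw [abs_one] at this
        linarith
      · linarith)
    (by
      rcases lt_or_ge |1 + t m| η with c | c
      · exact .inl ⟨v2 0 _ c (t0 m hm), v2 1 _ c (t0 m hm)⟩
      · exact .inr (hA c))
  have eΓ : 7 * S * (E * (1 + abs (Real.log |t m|)) * (R / η) ^ 2) = Γ := by
    rw [hΓ]
    field_simp
  rw [eΓ] at main
  have ev : (fun m => D 0 (t m) * om0 (α / |lam * m + H|)) =ᶠ[𝓝 m]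
      fun m => D 0 (t m) * s 0 (1 / 2 - Real.log α + g m) :=
    (eventually_gt_nhds hm).mono om
  have key : HasDerivAt (fun m => D 0 (t m) * s 0 (1 / 2 - Real.log α + g m))
      (G1 D s t g r (1 / 2 - Real.log α) m) m ∧
      HasDerivAt (G1 D s t g r (1 / 2 - Real.log α)) (G2 D s t g r (1 / 2 - Real.log α) m) m ∧
      HasDerivAt (fun m => D 0 (t m) * g m) (L1 D t g r m) m := by
    rcases lt_or_ge |1 + t m| η with c | c
    · have z : ∀ᶠ y in 𝓝 m, ∀ j, D j (t y) = 0 := by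
        filter_upwards [eventually_gt_nhds hm, dt.continuousAt.eventually
          ((isOpen_lt (f := fun x : ℝ => |1 + x|) (by fun_prop) continuous_const).mem_nhds c)]
          with y a b j using v2 j _ b (t0 y a)
      have z0 := z.self_of_nhds
      have w : ∀ {f : ℝ → ℝ} {d : ℝ}, (∀ y, (∀ j, D j (t y) = 0) → f y = 0) → d = 0 →
          HasDerivAt f d m := fun a b =>
        b ▸ (hasDerivAt_const m (0 : ℝ)).congr_of_eventuallyEq (z.mono a)
      exact ⟨w (fun y a => by simp [a]) (by simp [G1, F1, z0]),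
        w (fun y a => by simp [G1, F1, a]) (by simp [G2, z0]),
        w (fun y a => by simp [a]) (by simp [L1, F1, z0])⟩
    · have d : lam * m + H ≠ 0 := by
        have := abs_pos.1 (hη.trans_le c)
        rw [t1 m hm]
        positivity
      have e : HasDerivAt (fun m => lam * m + H) lam m := by
        simpa using ((hasDerivAt_id m).const_mul lam).add_const H
      refine ders hm.ne' dt ?_ ?_ (fun j => hD j _ (t0 m hm)) sd
      · rw [funext hg, hr]
        exact e.log d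
      · rw [funext hr]
        refine HasDerivAt.congr_deriv ((hasDerivAt_const m lam).div e d) ?_
        field_simp
        ring
  rw [om m hm]
  exact ⟨key.1.congr_of_eventuallyEq ev, key.2.1, (hD 0 _ (t0 m hm)).comp m dt, key.2.2, main⟩

end Pool.Agent.MP_20b2fd_nt.F5
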