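import Pool.Agent.MP_20b2fd_nt.F5.Util

/-! The smooth hyperbola identity and a smoothed harmonic sum. -/

set_option autoImplicit false

namespace Pool.Agent.MP_20b2fd_nt.F5

open Finset
open Pool.Agent.MP_20b2fd_nt.H38

namespace HSA

theorem s_symm (y : ℝ) : Real.smoothTransition y + Real.smoothTransition (1 - y) = 1 := by
  have h := (Real.smoothTransition.pos_denom y).ne'
  unfold Real.smoothTransition
  rw [sub_sub_cancel, add_comm (expNegInvGlue (1 - y)), ← add_div, div_self h]

theorem om_inv (x : ℝ) : om0 x + om0 x⁻¹ = 1 := by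
  unfold om0
  rw [Real.log_inv, show 1 / 2 - -Real.log x = 1 - (1 / 2 - Real.log x) by ring, s_symm]

theorem om_zero {x : ℝ} (h : 2 ≤ x) : om0 x = 0 := by
  have h1 := Real.log_le_log (by norm_num) h
  exact Real.smoothTransition.zero_of_nonpos (by linarith [Real.log_two_gt_d9])

theorem first (n A : ℕ) (hn : 1 ≤ n) (hA : 2 * n ≤ (A + 1) ^ 2) :
    tau n = 2 * ∑ α ∈ Icc 1 A, if α ∣ n then om0 ((α : ℝ) ^ 2 / n) else 0 := by
  have n0 : (0 : ℝ) < n := by exact_mod_cast hn
  have e : ∑ α ∈ (Icc 1 A).filter (· ∣ n), om0 ((α : ℝ) ^ 2 / n)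
      = ∑ α ∈ n.divisors, om0 ((α : ℝ) ^ 2 / n) := by
    refine sum_subset (fun d hd => Nat.mem_divisors.2 ⟨(mem_filter.1 hd).2, by omega⟩)
      fun d hd hd' => om_zero ?_
    have h1 := Nat.pos_of_mem_divisors hd
    have h2 : A + 1 ≤ d := by
      by_contra h
      exact hd' (mem_filter.2 ⟨mem_Icc.2 ⟨h1, by omega⟩, Nat.dvd_of_mem_divisors hd⟩)
    rw [le_div_iff₀ n0]
    exact_mod_cast hA.trans (Nat.pow_le_pow_left h2 2)
  rw [← sum_filter, e, two_mul]
  nth_rewrite 2 [← Nat.sum_div_divisors n fun α => om0 ((α : ℝ) ^ 2 / n)]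
  rw [← sum_add_distrib, tau, card_eq_sum_ones, Nat.cast_sum]
  refine sum_congr rfl fun d hd => ?_
  have d0 : (d : ℝ) ≠ 0 := by exact_mod_cast (Nat.pos_of_mem_divisors hd).ne'
  rw [Nat.cast_div (Nat.dvd_of_mem_divisors hd) d0, Nat.cast_one, ← om_inv ((d : ℝ) ^ 2 / n)]
  congr 2
  field_simp

/-- the weight in the logarithmic variable -/
noncomputable def g (t : ℝ) : ℝ := Real.smoothTransition (1 / 2 - 2 * t)

/-- its primitive -/
noncomputable def G (t : ℝ) : ℝ := ∫ x in (0 : ℝ)..t, g x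

theorem g_cont : Continuous g := Real.smoothTransition.continuous.comp (by fun_prop)

theorem g_anti : Antitone g := fun _ _ h => Real.smoothTransition.monotone (by linarith)

theorem g_nonneg (t : ℝ) : 0 ≤ g t := Real.smoothTransition.nonneg _

theorem g_le (t : ℝ) : g t ≤ 1 := Real.smoothTransition.le_one _

theorem g_zero {t : ℝ} (h : 1 / 4 ≤ t) : g t = 0 :=
  Real.smoothTransition.zero_of_nonpos (by linarith)

theorem g_one {t : ℝ} (h : t ≤ -1 / 4) : g t = 1 :=
  Real.smoothTransition.one_of_one_le (by linarith)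

theorem g_symm (t : ℝ) : g t + g (-t) = 1 := by
  unfold g
  rw [show 1 / 2 - 2 * -t = 1 - (1 / 2 - 2 * t) by ring, s_symm]

theorem G_bd {a b : ℝ} (h : a ≤ b) : g b * (b - a) ≤ G b - G a ∧ G b - G a ≤ g a * (b - a) := by
  unfold G
  rw [intervalIntegral.integral_interval_sub_left (g_cont.intervalIntegrable _ _)
    (g_cont.intervalIntegrable _ _)]
  have h1 := intervalIntegral.integral_mono_on h (intervalIntegrable_const (c := g b))
    (g_cont.intervalIntegrable (μ := MeasureTheory.volume) a b) fun x hx => g_anti hx.2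
  have h2 := intervalIntegral.integral_mono_on h
    (g_cont.intervalIntegrable (μ := MeasureTheory.volume) a b)
    (intervalIntegrable_const (c := g a)) fun x hx => g_anti hx.1
  simp only [intervalIntegral.integral_const, smul_eq_mul] at h1 h2
  exact ⟨by linarith, by linarith⟩

theorem G_neg (T : ℝ) : G T - G (-T) = T := by
  have h1 : ∫ x in (0 : ℝ)..T, g (-x) = -G (-T) := by
    rw [intervalIntegral.integral_comp_neg, neg_zero, G, intervalIntegral.integral_symm]
  have h2 : ∫ x in (0 : ℝ)..T, (g x + g (-x)) = T := by simp [g_symm]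
  have h3 : Continuous fun x => g (-x) := g_cont.comp continuous_neg
  rw [intervalIntegral.integral_add (g_cont.intervalIntegrable _ _) (h3.intervalIntegrable _ _),
    h1] at h2
  exact h2

theorem G_const {a b : ℝ} (ha : 1 / 4 ≤ a) (hb : 1 / 4 ≤ b) : G a = G b := by
  wlog h : a ≤ b generalizing a b
  · exact (this hb ha (not_le.1 h).le).symm
  have := G_bd h
  rw [g_zero ha, g_zero hb] at this
  linarith [this.1, this.2]

/-- the sum minus the integral -/
noncomputable def S (L : ℝ) (n : ℕ) : ℝ :=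
  ∑ β ∈ Icc 1 n, g (Real.log β - L) / β - (G (Real.log (n + 1) - L) - G (-L))

theorem S_step (L : ℝ) (n : ℕ) : S L n ≤ S L (n + 1) ∧
    S L (n + 1) + g (Real.log ((n + 1 : ℕ) + 1) - L) / ((n + 1 : ℕ) + 1)
      ≤ S L n + g (Real.log (n + 1) - L) / (n + 1) := by
  unfold S
  rw [sum_Icc_succ_top (by omega)]
  push_cast
  set m : ℝ := n + 1 with hm
  have m0 : 0 < m := by positivity
  have h1 : Real.log (m + 1) - Real.log m ≤ 1 / m := by
    rw [← Real.log_div (by positivity) m0.ne']
    refine (Real.log_le_sub_one_of_pos (by positivity)).trans (le_of_eq ?_)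
    field_simp
    ring
  have h2 : 1 / (m + 1) ≤ Real.log (m + 1) - Real.log m := by
    have := Real.log_le_sub_one_of_pos (show 0 < m / (m + 1) by positivity)
    rw [Real.log_div m0.ne' (by positivity)] at this
    have e : m / (m + 1) - 1 = -(1 / (m + 1)) := by field_simp; ring
    linarith
  have h3 : Real.log m - L ≤ Real.log (m + 1) - L := by
    have : 0 < 1 / (m + 1) := by positivity
    linarith
  obtain ⟨h4, h5⟩ := G_bd h3
  rw [sub_sub_sub_cancel_right] at h4 h5
  have h6 := mul_le_mul_of_nonneg_left h1 (g_nonneg (Real.log m - L))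
  have h7 := mul_le_mul_of_nonneg_left h2 (g_nonneg (Real.log (m + 1) - L))
  rw [mul_one_div] at h6 h7
  exact ⟨by linarith, by linarith⟩

theorem S_start (L : ℝ) (B : ℕ) (h : Real.log (B + 1) - L ≤ -1 / 4) :
    S L B = Real.eulerMascheroniSeq B := by
  have b0 : (0 : ℝ) ≤ B := Nat.cast_nonneg _
  have l0 : 0 ≤ Real.log (B + 1) := Real.log_nonneg (by linarith)
  obtain ⟨h1, h2⟩ := G_bd (show -L ≤ Real.log (B + 1) - L by linarith)
  rw [g_one h] at h1
  rw [g_one (by linarith)] at h2
  have e : ∑ β ∈ Icc 1 B, g (Real.log β - L) / β = harmonic B := by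
    rw [harmonic_eq_sum_Icc, Rat.cast_sum]
    refine sum_congr rfl fun β hβ => ?_
    obtain ⟨h3, h4⟩ := mem_Icc.1 hβ
    have h5 : (β : ℝ) ≤ B := by exact_mod_cast h4
    have h6 := Real.log_le_log (by exact_mod_cast h3) (h5.trans (le_add_of_nonneg_right zero_le_one))
    rw [g_one (by linarith)]
    simp
  unfold S Real.eulerMascheroniSeq
  rw [e]
  linarith

theorem S_bd (L : ℝ) (B A : ℕ) (hB : 1 ≤ B) (hA : B ≤ A) (h : Real.log (B + 1) - L ≤ -1 / 4) :
    |S L A - Real.eulerMascheroniConstant| ≤ 1 / B := by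
  have b1 : (1 : ℝ) ≤ B := by exact_mod_cast hB
  have h1 := monotone_nat_of_le_succ (fun n => (S_step L n).1) hA
  have h2 := antitone_nat_of_succ_le (f := fun n : ℕ => S L n + g (Real.log (n + 1) - L) / (n + 1))
    (fun n => (S_step L n).2) hA
  simp only [S_start L B h, g_one h] at h1 h2
  have h3 : 0 ≤ g (Real.log (A + 1) - L) / (A + 1) := div_nonneg (g_nonneg _) (by positivity)
  have h4 := Real.eulerMascheroniSeq_lt_eulerMascheroniConstant B
  have h5 := Real.eulerMascheroniConstant_lt_eulerMascheroniSeq' B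
  have h6 : Real.log (B + 1) - Real.log B ≤ 1 / B := by
    rw [← Real.log_div (by positivity) (by positivity)]
    refine (Real.log_le_sub_one_of_pos (by positivity)).trans (le_of_eq ?_)
    field_simp
    ring
  have h7 : 1 / ((B : ℝ) + 1) ≤ 1 / B := one_div_le_one_div_of_le (by linarith) (by linarith)
  rw [Real.eulerMascheroniSeq', if_neg (by omega)] at h5
  unfold Real.eulerMascheroniSeq at h1 h2 h4
  rw [abs_le]
  constructor <;> linarith

theorem large (u : ℝ) (A : ℕ) (hu : 8 ≤ u) (hA : 2 * u ^ 2 ≤ ((A : ℝ) + 1) ^ 2) :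
    |∑ β ∈ Icc 1 A, om0 ((β : ℝ) ^ 2 / u ^ 2) / β -
      (Real.log u + Real.eulerMascheroniConstant)| ≤ 4 / u := by
  have u0 : 0 < u := by linarith
  have a0 : (0 : ℝ) ≤ A := Nat.cast_nonneg _
  have l2 := Real.log_two_gt_d9
  obtain ⟨B, hB⟩ : ∃ B : ℕ, ⌊u / 2⌋₊ = B + 1 :=
    Nat.exists_eq_succ_of_ne_zero (Nat.floor_pos.2 (by linarith)).ne'
  have h1 := Nat.floor_le (show 0 ≤ u / 2 by linarith)
  have h2 := Nat.lt_floor_add_one (u / 2)
  rw [hB] at h1 h2
  push_cast at h1 h2
  have h3 : 1 ≤ B := by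
    have : (1 : ℝ) ≤ B := by linarith
    exact_mod_cast this
  have h4 : B ≤ A := by
    have : (B : ℝ) ≤ A := by nlinarith
    exact_mod_cast this
  have h5 : Real.log (B + 1) - Real.log u ≤ -1 / 4 := by
    have := Real.log_le_log (by positivity) h1
    rw [Real.log_div u0.ne' two_ne_zero] at this
    linarith
  have h6 : 1 / 4 ≤ Real.log u := by
    have := Real.log_le_log two_pos (show 2 ≤ u by linarith)
    linarith
  have h7 : 1 / 4 ≤ Real.log (A + 1) - Real.log u := by
    have := Real.log_le_log (by positivity) hA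
    rw [Real.log_mul two_ne_zero (by positivity), Real.log_pow, Real.log_pow] at this
    push_cast at this
    linarith
  have h8 := S_bd (Real.log u) B A h3 h4 h5
  have e : ∑ β ∈ Icc 1 A, om0 ((β : ℝ) ^ 2 / u ^ 2) / β
      = ∑ β ∈ Icc 1 A, g (Real.log β - Real.log u) / β := by
    refine sum_congr rfl fun β hβ => ?_
    have : (0 : ℝ) < β := by exact_mod_cast (mem_Icc.1 hβ).1
    unfold om0 g
    rw [Real.log_div (by positivity) (by positivity), Real.log_pow, Real.log_pow]
    congr 2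
    push_cast
    ring
  unfold S at h8
  rw [G_const h7 h6, G_neg, sub_sub] at h8
  rw [e]
  refine h8.trans ?_
  rw [div_le_div_iff₀ (by linarith) u0]
  linarith

theorem small (u : ℝ) (A : ℕ) (u0 : 0 < u) (hu : u ≤ 8) :
    |∑ β ∈ Icc 1 A, om0 ((β : ℝ) ^ 2 / u ^ 2) / β -
      (Real.log u + Real.eulerMascheroniConstant)| ≤ 200 / u := by
  have h0 : 0 ≤ ∑ β ∈ Icc 1 A, om0 ((β : ℝ) ^ 2 / u ^ 2) / β :=
    sum_nonneg fun β _ => div_nonneg (Real.smoothTransition.nonneg _) (Nat.cast_nonneg _)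
  have h1 : ∑ β ∈ Icc 1 A, om0 ((β : ℝ) ^ 2 / u ^ 2) / β ≤ 12 := by
    rw [← sum_subset (filter_subset (· < 12) (Icc 1 A)) fun β hβ h => ?_]
    · refine (sum_le_card_nsmul _ _ 1 fun β hβ => ?_).trans ?_
      · have : (1 : ℝ) ≤ β := by exact_mod_cast (mem_Icc.1 (mem_filter.1 hβ).1).1
        rw [div_le_one (by linarith)]
        exact (Real.smoothTransition.le_one _).trans this
      · have : ((Icc 1 A).filter (· < 12)).card ≤ (range 12).card :=
          card_le_card fun β hβ => mem_range.2 (mem_filter.1 hβ).2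
        rw [card_range] at this
        rw [nsmul_one]
        exact_mod_cast this
    · have h2 : 12 ≤ β := not_lt.1 fun z => h (mem_filter.2 ⟨hβ, z⟩)
      have h3 : (12 : ℝ) ≤ β := by exact_mod_cast h2
      rw [om_zero, zero_div]
      rw [le_div_iff₀ (by positivity)]
      nlinarith
  have h2 := Real.log_le_sub_one_of_pos u0
  have h3 := Real.log_le_sub_one_of_pos (inv_pos.2 u0)
  rw [Real.log_inv] at h3
  have h4 := Real.one_half_lt_eulerMascheroniConstant
  have h5 := Real.eulerMascheroniConstant_lt_two_thirds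
  have h6 : 1 / 8 ≤ u⁻¹ := by rw [← one_div]; exact one_div_le_one_div_of_le u0 hu
  rw [div_eq_mul_inv 200, abs_le]
  constructor <;> linarith

end HSA

open HSA

theorem hs : HSS := by
  refine ⟨first, 400, by norm_num, fun Y A hY hA => ?_⟩
  obtain ⟨u, u0, rfl⟩ : ∃ u : ℝ, 0 < u ∧ Y = u ^ 2 :=
    ⟨√Y, Real.sqrt_pos.2 hY, (Real.sq_sqrt hY.le).symm⟩
  have h : |∑ β ∈ Icc 1 A, om0 ((β : ℝ) ^ 2 / u ^ 2) / β -
      (Real.log u + Real.eulerMascheroniConstant)| ≤ 200 / u := by
    rcases le_total u 8 with h | h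
    · exact small u A u0 h
    · exact (large u A h hA).trans (div_le_div_of_nonneg_right (by norm_num) u0.le)
  rw [Real.sqrt_sq u0.le, Real.log_pow, Nat.cast_ofNat, ← mul_add, ← mul_sub, abs_mul, abs_two,
    show (400 : ℝ) / u = 2 * (200 / u) by ring]
  linarith

end Pool.Agent.MP_20b2fd_nt.F5
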