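import Pool.Agent.MP_20b2fd_nt.F5.Util
import Pool.Agent.MP_20b2fd_nt.H38.Kl
import Pool.Agent.MP_20b2fd_nt.H38.Ik
import Pool.Agent.MP_20b2fd_nt.H38.Bb

/-! The complete sums along a hyperbola. -/

set_option autoImplicit false

namespace Pool.Agent.MP_20b2fd_nt.F5

open Complex Finset
open Pool.Agent.MP_20b2fd_nt.H38
open scoped Real

namespace KCA

/-- the sum along a hyperbola in a finite ring -/
noncomputable def K2 {R : Type} [CommRing R] [Fintype R] [DecidableEq R] (ψ : AddChar R ℂ)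
    (l H ν μ : R) : ℂ :=
  ∑ z : R × R, if l * z.1 * z.2 + H = 0 then ψ (ν * z.1 + μ * z.2) else 0

theorem K2_mul {R S T : Type} [CommRing R] [CommRing S] [CommRing T] [Fintype R] [Fintype S]
    [Fintype T] [DecidableEq R] [DecidableEq S] [DecidableEq T] (e : R ≃+* S × T)
    (ψ : AddChar R ℂ) (l H ν μ : R) :
    K2 ψ l H ν μ = K2 (KlA.c1 e ψ) (e l).1 (e H).1 (e ν).1 (e μ).1 *
      K2 (KlA.c2 e ψ) (e l).2 (e H).2 (e ν).2 (e μ).2 := by
  unfold K2
  rw [sum_mul_sum, ← Fintype.sum_prod_type']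
  refine Fintype.sum_equiv ((e.toEquiv.prodCongr e.toEquiv).trans
    (Equiv.prodProdProdComm S T S T)) _ _ fun z => ?_
  have h : l * z.1 * z.2 + H = 0 ↔ (e l).1 * (e z.1).1 * (e z.2).1 + (e H).1 = 0 ∧
      (e l).2 * (e z.1).2 * (e z.2).2 + (e H).2 = 0 := by
    rw [← e.map_eq_zero_iff, map_add, map_mul, map_mul, Prod.ext_iff]
    rfl
  rw [ite_zero_mul_ite_zero, KlA.c12 e, map_add, map_mul, map_mul]
  exact if_congr h rfl rfl

theorem cnt (c : ℕ) [NeZero c] (a : ZMod c) (H : ℤ) :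
    #{x : ZMod c | a * x + H = 0} ≤ H.gcd c := by
  rcases eq_empty_or_nonempty ({x : ZMod c | a * x + H = 0} : Finset (ZMod c)) with h | ⟨x0, h0⟩
  · simp [h]
  refine le_trans (card_le_card_of_injOn (· - x0) (fun x hx => ?_) fun x _ y _ h => by simpa using h)
    (IsAddCyclic.card_nsmul_eq_zero_le (α := ZMod c)
      (Int.gcd_pos_of_ne_zero_right H (Int.natCast_ne_zero.2 (NeZero.ne c))))
  simp only [coe_filter, mem_filter, mem_univ, true_and, Set.mem_ofPred_eq] at hx h0 ⊢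
  have := congrArg (Int.cast : ℤ → ZMod c) (Int.gcd_eq_gcd_ab H c)
  push_cast at this
  rw [nsmul_eq_mul, this, ZMod.natCast_self]
  linear_combination (H.gcdA c : ZMod c) * (x * h0 - x0 * hx)

theorem K2_le (c : ℕ) [NeZero c] (ψ : AddChar (ZMod c) ℂ) (l ν μ : ZMod c) (H : ℤ) :
    ‖K2 ψ l H ν μ‖ ≤ c * H.gcd c := by
  unfold K2
  rw [Fintype.sum_prod_type]
  refine (norm_sum_le_of_le _ (n := fun _ => (H.gcd c : ℝ)) fun x _ => ?_).trans (by simp)
  rw [← sum_filter]
  refine (norm_sum_le _ _).trans ?_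
  simp only [AddChar.norm_apply, sum_const, nsmul_eq_mul, mul_one, Nat.cast_le]
  exact cnt c (l * x) H

theorem K2_fld {F : Type} [Field F] [Fintype F] [DecidableEq F] (ψ : AddChar F ℂ) (l H ν μ : F)
    (hl : l ≠ 0) (hH : H ≠ 0) : K2 ψ l H ν μ = KlA.K ψ ν (-(μ * H / l)) := by
  unfold K2 KlA.K
  rw [← sum_filter]
  symm
  refine sum_bij (fun u _ => (((u⁻¹ : Fˣ) : F), -(H / l) * u)) (fun u _ => ?_)
    (fun u _ v _ h => ?_) (fun z hz => ?_) fun u _ => ?_
  · simp only [mem_filter, mem_univ, true_and, Units.val_inv_eq_inv_val]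
    have := u.ne_zero
    field_simp
    ring
  · exact inv_injective (Units.ext (Prod.ext_iff.1 h).1)
  · have h := (mem_filter.1 hz).2
    have h1 : z.1 ≠ 0 := fun k => hH (by simpa [k] using h)
    refine ⟨(Units.mk0 _ h1)⁻¹, mem_univ _, Prod.ext (by simp) ?_⟩
    simp only [Units.val_inv_eq_inv_val, Units.val_mk0]
    field_simp
    linear_combination -h
  · congr 1
    ring

theorem bound (c : ℕ) : ∀ [NeZero c] (ψ : AddChar (ZMod c) ℂ), ψ.IsPrimitive → ∀ (H ν : ℤ)
    (l μ : ZMod c), ‖K2 ψ l H ν μ‖ ≤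
      (H.gcd c : ℝ) ^ 4 * bb c * (ν.gcd c : ℝ) ^ (1 / 4 : ℝ) := by
  have g0 : ∀ (c : ℕ) [NeZero c] (A : ℤ), (1 : ℝ) ≤ A.gcd c := fun c _ A => by
    exact_mod_cast Int.gcd_pos_of_ne_zero_right A (Int.natCast_ne_zero.2 (NeZero.ne c))
  have g1 : ∀ (c : ℕ) [NeZero c] (A : ℤ), 1 ≤ (A.gcd c : ℝ) ^ (1 / 4 : ℝ) := fun c _ A =>
    Real.one_le_rpow (g0 c A) (by norm_num)
  induction c using Nat.recOnPosPrimePosCoprime with
  | prime_pow p n hp hn =>
    intro _ ψ hψ H ν l μ
    have b1 := BbA.one_le (p ^ n)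
    by_cases h : n = 1
    · subst h
      revert ψ l μ b1
      generalize hq : p ^ 1 = q at *
      rw [pow_one] at hq
      subst hq
      intro ψ hψ l μ b1
      have := Fact.mk hp
      have k1 := g1 p ν
      have k0 := g0 p H
      by_cases hH : (H : ZMod p) = 0
      · refine (K2_le p ψ _ _ _ _).trans ?_
        rw [Int.gcd_eq_natAbs_right ((ZMod.intCast_zmod_eq_zero_iff_dvd H p).1 hH),
          Int.natAbs_natCast] at k0 ⊢
        rw [mul_assoc, ← sq]
        exact (pow_le_pow_right₀ k0 (by norm_num)).trans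
          (le_mul_of_one_le_right (by positivity) (one_le_mul_of_one_le_of_one_le b1 k1))
      · by_cases hl : l = 0
        · simp only [K2, hl, zero_mul, zero_add, hH, if_false, sum_const_zero, norm_zero]
          positivity
        · rw [K2_fld ψ l H ν μ hl hH, mul_assoc]
          exact (KlA.bound p ψ hψ ν _).trans
            (le_mul_of_one_le_left (by positivity) (one_le_pow₀ k0))
    · refine (K2_le _ ψ _ _ _ _).trans ?_
      have k0 := g0 (p ^ n) H
      rw [BbA.pow hp, if_neg h, Nat.cast_pow p n, mul_comm]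
      exact (mul_le_mul_of_nonneg_right (le_self_pow₀ k0 (by norm_num)) (by positivity)).trans
        (le_mul_of_one_le_right (by positivity) (g1 _ ν))
  | zero => exact fun [h : NeZero 0] => absurd rfl h.ne
  | one =>
    intro _ ψ _ H ν l μ
    simpa [bb] using K2_le 1 ψ l ν μ H
  | coprime m n hm hn h im in' =>
    intro _ ψ hψ H ν l μ
    have : NeZero m := ⟨by omega⟩
    have : NeZero n := ⟨by omega⟩
    have g : ∀ A : ℤ, A.gcd (m * n : ℕ) = A.gcd m * A.gcd n := fun A => h.gcd_mul A.natAbs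
    rw [K2_mul (ZMod.chineseRemainder h), norm_mul, map_intCast, map_intCast, Prod.fst_intCast,
      Prod.snd_intCast, Prod.fst_intCast, Prod.snd_intCast, BbA.mul h, g, g, Nat.cast_mul,
      Nat.cast_mul, Real.mul_rpow (Nat.cast_nonneg _) (Nat.cast_nonneg _), mul_pow,
      mul_mul_mul_comm (_ ^ 4), mul_mul_mul_comm]
    have k := im _ (KlA.c1_prim (ZMod.chineseRemainder h) ψ hψ) H ν
      (ZMod.chineseRemainder h l).1 (ZMod.chineseRemainder h μ).1
    exact mul_le_mul k (in' _ (KlA.c2_prim _ ψ hψ) H ν _ _) (norm_nonneg _)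
      ((norm_nonneg _).trans k)

theorem Kc_eq (α lam : ℕ) [NeZero α] (H ν μ : ℤ) :
    Kc α lam H ν μ = K2 (ZMod.stdAddChar (N := α)) lam H ν μ := by
  rw [K2, Fintype.sum_prod_type, IkA.sum_zmod]
  refine sum_congr rfl fun x _ => ?_
  rw [IkA.sum_zmod]
  refine sum_congr rfl fun y _ => ?_
  have e : ((ν : ZMod α) * x + μ * y) = ((ν * x + μ * y : ℤ) : ZMod α) := by push_cast; ring
  refine if_congr ?_ ?_ rfl
  · rw [← ZMod.intCast_zmod_eq_zero_iff_dvd]
    push_cast
    rfl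
  · rw [e, ZMod.stdAddChar_coe, ee, mul_div_assoc]
    push_cast
    rfl

end KCA

open KCA in
theorem kcOf : KCOf := by
  intro _ N α lam h ν μ hN h1 hα h0
  have : NeZero α := ⟨by omega⟩
  rw [Kc_eq]
  refine (bound α _ (ZMod.isPrimitive_stdAddChar α) (h * N) ν _ _).trans ?_
  have b0 := BbA.nn α
  have c : N.Coprime α := Nat.coprime_of_lt_prime (by omega) hα hN
  have g : (h * N).gcd α ≤ h.natAbs := by
    rw [Int.gcd, Int.natAbs_mul, Int.natAbs_natCast, Int.natAbs_natCast,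
      c.gcd_mul_right_cancel]
    exact Nat.gcd_le_left _ (Int.natAbs_pos.2 h0)
  have g' : ((h * N).gcd α : ℝ) ≤ |(h : ℝ)| := by
    rw [← Int.cast_abs, ← Int.natCast_natAbs, Int.cast_natCast]
    exact_mod_cast g
  gcongr

end Pool.Agent.MP_20b2fd_nt.F5
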