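import Pool.Agent.MP_20b2fd_nt.F5.Util

/-! The mollified action on the shifted coefficients. -/

set_option autoImplicit false

namespace Pool.Agent.MP_20b2fd_nt.F5

open MeasureTheory Complex Finset
open DirichletCharacter (LFunction)
open Pool.Agent.MP_c5bf7b_nt.H38 (Phi Ch)
open Pool.Agent.MP_20b2fd_nt.H38
open scoped Real

namespace KVA

theorem ln_le {σ M : ℝ} {F : ℂ → ℂ} (h : ∀ t : ℝ, ‖F (σ + t * I)‖ ≤ M / (1 + t ^ 2)) :
    ‖ln σ F‖ ≤ M / 2 := by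
  have h1 := norm_integral_le_of_norm_le (integrable_inv_one_add_sq.const_mul M)
    (Filter.Eventually.of_forall h)
  rw [integral_const_mul, integral_univ_inv_one_add_sq] at h1
  have h2 : ‖(1 / (2 * π) : ℂ)‖ = 1 / (2 * π) := by simp [abs_of_pos Real.pi_pos]
  rw [ln, norm_mul, h2]
  refine (mul_le_mul_of_nonneg_left h1 (by positivity)).trans (le_of_eq ?_)
  field_simp

theorem cauchy {f : ℂ → ℂ} {r M : ℝ} (hr : 0 < r)
    (h : ∀ z, ‖z‖ ≤ r → DifferentiableAt ℂ f z ∧ ‖f z‖ ≤ M) : ‖deriv f 0‖ ≤ M / r := by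
  refine norm_deriv_le_of_forall_mem_sphere_norm_le hr (DifferentiableOn.diffContOnCl
    fun z hz => (h z ?_).1.differentiableWithinAt) fun z hz => (h z (by simpa using hz.le)).2
  simpa [closure_ball _ hr.ne'] using hz

theorem bh_le {f : ℕ → ℂ} {C : ℝ} (hC : 0 ≤ C) (h : ∀ n : ℕ, 1 ≤ n → ‖f n‖ ≤ C * n) {k l : ℕ}
    (hk : 1 ≤ k) (hl : 1 ≤ l) : ‖Bh f k l‖ ≤ C * l ^ 2 * k := by
  have h1 : ∀ d ∈ (k.gcd l).divisors, ‖(d : ℂ) * f (k * l / d ^ 2)‖ ≤ C * (k * l) := fun d hd => by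
    have h2 := Nat.dvd_of_mem_divisors hd
    have h3 : d ^ 2 ∣ k * l := by
      rw [sq]; exact mul_dvd_mul (h2.trans (Nat.gcd_dvd_left _ _)) (h2.trans (Nat.gcd_dvd_right _ _))
    have h4 := Nat.pos_of_mem_divisors hd
    have h5 : d * (k * l / d ^ 2) ≤ k * l :=
      (Nat.mul_le_mul_right _ (Nat.le_self_pow two_ne_zero d)).trans (Nat.mul_div_le _ _)
    have h6 : (d : ℝ) * (k * l / d ^ 2 : ℕ) ≤ k * l := by exact_mod_cast h5
    have h7 := h _ (Nat.div_pos (Nat.le_of_dvd (by positivity) h3) (by positivity))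
    rw [norm_mul, norm_natCast]
    calc _ ≤ d * (C * (k * l / d ^ 2 : ℕ)) := by gcongr
      _ = C * (d * (k * l / d ^ 2 : ℕ)) := by ring
      _ ≤ _ := by gcongr
  have h2 : ((k.gcd l).divisors.card : ℝ) ≤ l := by
    exact_mod_cast (Nat.card_divisors_le_self _).trans (Nat.gcd_le_right _ hl)
  refine ((norm_sum_le _ _).trans (sum_le_card_nsmul _ _ _ h1)).trans ?_
  rw [nsmul_eq_mul]
  calc _ ≤ l * (C * (k * l)) := by gcongr
    _ = _ := by ring

theorem strip {a g q p i S : ℂ} {Cv Cl D E Q y y₁ y₂ : ℝ} (hv : 0 ≤ Cv) (hl : 0 ≤ Cl) (hD : 0 ≤ D)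
    (h₁ : |y₁ - y| ≤ 1) (h₂ : |y₂ - y| ≤ 1) (ha : ‖a‖ ≤ Cl * D * (1 + |y₁|) ^ 2)
    (hg : ‖g‖ ≤ Cv / (1 + |y|) ^ 10) (hq : ‖q‖ ≤ Q) (hp : ‖p‖ ≤ Cl * D * (1 + |y₂|) ^ 2)
    (hi : ‖i‖ ≤ Cl) (hS : ‖S‖ ≤ E) :
    ‖a ^ 2 * (g * q * (p * i * S))‖ ≤ 64 * Cv * Cl ^ 4 * D ^ 3 * E * Q / (1 + y ^ 2) := by
  have hQ := (norm_nonneg _).trans hq
  have hE := (norm_nonneg _).trans hS
  have h0 := abs_nonneg y
  have e1 : 1 + |y₁| ≤ 2 * (1 + |y|) := by linarith [abs_sub_abs_le_abs_sub y₁ y]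
  have e2 : 1 + |y₂| ≤ 2 * (1 + |y|) := by linarith [abs_sub_abs_le_abs_sub y₂ y]
  have e3 : 1 + y ^ 2 ≤ (1 + |y|) ^ 4 := by rw [← sq_abs]; nlinarith [pow_nonneg h0 3, pow_nonneg h0 4]
  simp only [norm_mul, norm_pow]
  calc _ ≤ (Cl * D * (2 * (1 + |y|)) ^ 2) ^ 2 * (Cv / (1 + |y|) ^ 10 * Q *
        (Cl * D * (2 * (1 + |y|)) ^ 2 * Cl * E)) := by
        gcongr
        · exact ha.trans (by gcongr)
        · exact hp.trans (by gcongr)
    _ = 64 * Cv * Cl ^ 4 * D ^ 3 * E * Q / (1 + |y|) ^ 4 := by field_simp; ring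
    _ ≤ _ := by gcongr

/-- the factor without the square -/
noncomputable def HF {D : ℕ} [NeZero D] (χ : Ch D) {ι : Type} (J : Finset ι) (ν : ι → ℂ)
    (l : ι → ℕ) (Q : ℝ) (u w z : ℂ) : ℂ :=
  gm z * (Q : ℂ) ^ z * (Phi (1 : Ch D) (1 + u + z) * (LFunction (1 : Ch D) (2 + u + z + 2 * w))⁻¹ *
    ∑ i ∈ J, ν i * Bf χ u z w (l i))

theorem sizes {δ : ℝ} (hδ : 0 < δ) (hδ' : δ ≤ 1 / 10) : ∃ N₀ : ℕ, ∀ N D : ℕ, N₀ ≤ N → D ≠ 0 →
    (D : ℝ) ≤ (N : ℝ) ^ δ → 100 ≤ Real.log N ∧ 1 ≤ (N : ℝ) ^ δ ∧ (N : ℝ) ^ δ ≤ N ∧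
      (N : ℝ) ^ (3 * δ) ≤ N ∧ 1 ≤ Qc D N ∧ 2 * Qc D N * (N : ℝ) ^ δ ≤ N ∧
      Qc D N ^ (-1 / 4 : ℝ) ≤ (N : ℝ) ^ (-1 / 8 : ℝ) ∧ 1 / (N : ℝ) ≤ (N : ℝ) ^ (-1 / 10 : ℝ) / 2 := by
  obtain ⟨N₁, h3, h⟩ := U.ev_log 2 0 (show (0 : ℝ) < 3 / 10 by norm_num)
  refine ⟨max N₁ ⌈Real.exp 100⌉₊, fun N D hN hD hD' => ?_⟩
  have h1 := h N (le_of_max_le_left hN)
  have hN1 : (1 : ℝ) ≤ N := by exact_mod_cast (show 1 ≤ N by omega)
  have hN0 : (0 : ℝ) < N := by linarith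
  have hD1 : (1 : ℝ) ≤ D := by exact_mod_cast Nat.pos_of_ne_zero hD
  have hs : (N : ℝ) ^ (1 / 2 : ℝ) ≤ Qc D N := by
    rw [Qc, Real.sqrt_eq_rpow]; exact le_mul_of_one_le_left (by positivity) hD1
  have hle : ∀ {x : ℝ}, x ≤ 1 → (N : ℝ) ^ x ≤ N := fun hx => by
    simpa using Real.rpow_le_rpow_of_exponent_le hN1 hx
  rw [pow_zero, mul_one] at h1
  refine ⟨(Real.le_log_iff_exp_le hN0).2 (Nat.ceil_le.1 (le_of_max_le_right hN)),
    Real.one_le_rpow hN1 hδ.le, hle (by linarith), hle (by linarith),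
    (Real.one_le_rpow hN1 (by norm_num)).trans hs, ?_, ?_, ?_⟩
  · calc _ ≤ (N : ℝ) ^ (3 / 10 : ℝ) * ((N : ℝ) ^ δ * (N : ℝ) ^ (1 / 2 : ℝ)) * (N : ℝ) ^ δ := by
          rw [Qc, Real.sqrt_eq_rpow]; gcongr
      _ = (N : ℝ) ^ (3 / 10 + (δ + 1 / 2) + δ) := by simp only [Real.rpow_add hN0]
      _ ≤ _ := hle (by linarith)
  · refine (Real.rpow_le_rpow_of_nonpos (by positivity) hs (by norm_num)).trans (le_of_eq ?_)
    rw [← Real.rpow_mul hN0.le]; norm_num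
  · rw [div_le_div_iff₀ hN0 two_pos, one_mul]
    calc _ ≤ _ := h1
      _ ≤ (N : ℝ) ^ (-1 / 10 + 1 : ℝ) := Real.rpow_le_rpow_of_exponent_le hN1 (by norm_num)
      _ = _ := Real.rpow_add_one hN0.ne' _

end KVA

open KVA in
theorem kvOf : KVOf := by
  rintro ⟨Cv, hv, dg, -, bg, -⟩ hSH ⟨Cm, hm, hME⟩ ⟨Cl, hl, hLB⟩ ⟨Ca, ha, hA⟩ ⟨Cb, A, -, hB⟩ h2
  refine ⟨18 * Cv * Cl ^ 2, 1 / (100 * (6 + A)), by nlinarith, by positivity, fun δ hδ hδ' => ?_⟩
  have hA0 : (0 : ℝ) ≤ A := Nat.cast_nonneg _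
  rw [le_div_iff₀ (by positivity)] at hδ'
  obtain ⟨N₁, hs⟩ := sizes hδ (by nlinarith)
  obtain ⟨N₂, -, he⟩ := U.ev_exp (Cm * Ca) 4 hδ
  obtain ⟨N₃, h3, hc⟩ := U.ev_log (5120 * Cv * Cl ^ 4) 0 (show (0 : ℝ) < 3 / 200 by norm_num)
  refine ⟨N₁ + N₂ + N₃, fun N D _ χ j ι J ν l L₁ B hN hR hM => ?_⟩
  obtain ⟨hLg, hR1, hRN, h3N, hQ1, hQN, hQ4, hN10⟩ := hs N D (by omega) (NeZero.ne D) hR.hD
  replace he := he N (by omega)
  replace hc := hc N (by omega)
  rw [pow_zero, mul_one] at hc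
  obtain ⟨hL, dP, eP, bP, hI, sP⟩ := hLB D
  obtain ⟨dL, bL⟩ := hL χ hR.ne
  have hN1 : (1 : ℝ) ≤ N := by exact_mod_cast (show 1 ≤ N by omega)
  have hN0 : (0 : ℝ) < N := by linarith
  have hD1 : (1 : ℝ) ≤ D := by exact_mod_cast Nat.pos_of_ne_zero (NeZero.ne D)
  set Q := Qc D N
  set Lg := Real.log N with hLgd
  have hQ0 : 0 < Q := by linarith
  have hQN' : Q ≤ N := by nlinarith
  have hL0 : 0 < Lg := by linarith
  set r := 1 / Lg with hr
  have hr0 : 0 < r := by positivity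
  have hr1 : r ≤ 1 / 100 := one_div_le_one_div_of_le (by norm_num) hLg
  have e2 : 2 / Lg = 2 * r := by rw [hr]; ring
  have e4 : 4 / Lg = 4 * r := by rw [hr]; ring
  set K := 64 * Cv * Cl ^ 4 * D ^ 3 * ((N : ℝ) ^ (3 * δ) * ((N : ℝ) ^ δ) ^ A) with hK
  set MH := 9 * Cv * Cl ^ 2 * (D.totient / D) * B with hMH
  have hB0 : 0 ≤ B := (norm_nonneg _).trans (hM.hB 0 0 0 (by simp; positivity)
    (by simp; positivity) (by simp; positivity))
  have hLz : ∀ w z : ℂ, ‖w‖ ≤ r → ‖z‖ ≤ 2 * r → ‖LFunction χ (1 + z + w)‖ ≤ L₁ * r :=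
    fun w z hw hz => by
      rw [add_assoc, hr, mul_one_div]
      exact hM.hL _ (by rw [e4]; linarith [norm_add_le z w])
  have main : ∀ u w : ℂ, ‖u‖ ≤ r → ‖w‖ ≤ r →
      (∀ z : ℂ, -1 / 4 ≤ z.re → z.re ≤ 2 → DifferentiableAt ℂ (HF χ J ν l Q u w) z ∧
        ‖LFunction χ (1 + z + w) ^ 2 * HF χ J ν l Q u w z‖ ≤ K * Q ^ 2 / (1 + z.im ^ 2)) ∧
      (∀ z : ℂ, ‖z‖ ≤ 2 * r → ‖HF χ J ν l Q u w z‖ ≤ MH) ∧
      ‖∑ i ∈ J, ν i * PN χ j δ N (Af χ u w) (l i) -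
        (ln 2 (fun z => LFunction χ (1 + z + w) ^ 2 * HF χ J ν l Q u w z / (z ^ (j + 1) * (z + u))) -
        ln (-1 / 4) fun z => LFunction χ (1 + z + w) ^ 2 * HF χ J ν l Q u w z /
          (z ^ (j + 1) * (z + u)))‖ ≤ (N : ℝ) ^ (-1 / 10 : ℝ) := by
    intro u w hu hw
    have hu' := hu.trans hr1
    have hw' := hw.trans hr1
    obtain ⟨u1, u2⟩ := abs_le.1 ((abs_re_le_norm u).trans hu')
    obtain ⟨w1, w2⟩ := abs_le.1 ((abs_re_le_norm w).trans hw')
    have hI' := fun (z : ℂ) (h : -1 / 4 ≤ z.re) => hI (2 + u + z + 2 * w) (by simp; linarith)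
    have hBf := (hB D χ u w hu' hw').2.2.1
    have st : ∀ z : ℂ, -1 / 4 ≤ z.re → z.re ≤ 2 →
        ‖LFunction χ (1 + z + w) ^ 2 * HF χ J ν l Q u w z‖ ≤ K * Q ^ z.re / (1 + z.im ^ 2) := by
      intro z h1 h2
      refine strip (by linarith) (by linarith) (by linarith) ?_ ?_
        (bL _ (by simp; linarith) (by simp; linarith)).1 (bg z (by linarith) h2)
        (norm_cpow_eq_rpow_re_of_pos hQ0 z).le (bP _ (by simp; linarith) (by simp; linarith))
        (hI' z h1).2.2 ((norm_sum_le _ _).trans ?_)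
      · simpa using (abs_im_le_norm w).trans (by linarith)
      · simpa using (abs_im_le_norm u).trans (by linarith)
      · refine le_trans ?_ (mul_le_mul_of_nonneg_right hM.hν (by positivity))
        rw [sum_mul]
        refine sum_le_sum fun i hi => ?_
        rw [norm_mul]
        gcongr
        exact (hBf z _ h1 (hM.hl i hi).1).2.trans (by gcongr; exact (hM.hl i hi).2)
    refine ⟨fun z h1 h2 => ⟨?_, (st z h1 h2).trans ?_⟩, fun z hz => ?_, ?_⟩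
    · refine ((dg z (by linarith)).mul (differentiableAt_id.const_cpow (.inl ?_))).mul
        ((((dP _).comp z (by fun_prop)).mul (((hI' z h1).1.comp z (by fun_prop)).inv
          (hI' z h1).2.1)).mul (DifferentiableAt.fun_sum fun i hi =>
            (hBf z _ h1 (hM.hl i hi).1).1.const_mul _))
      exact_mod_cast hQ0.ne'
    · gcongr
      exact_mod_cast Real.rpow_le_rpow_of_exponent_le hQ1 h2
    · obtain ⟨z1, z2⟩ := abs_le.1 ((abs_re_le_norm z).trans hz)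
      have a1 : ‖gm z‖ ≤ Cv := (bg z (by linarith) (by linarith)).trans
        (div_le_self (by linarith) (one_le_pow₀ (by linarith [abs_nonneg z.im])))
      have a2 : ‖(Q : ℂ) ^ z‖ ≤ 9 := by
        rw [norm_cpow_eq_rpow_re_of_pos hQ0]
        calc _ ≤ (N : ℝ) ^ (2 * r) := (Real.rpow_le_rpow_of_exponent_le hQ1 z2).trans (by gcongr)
          _ = Real.exp 1 ^ 2 := by
            rw [Real.rpow_def_of_pos hN0, ← hLgd, ← Real.exp_nat_mul, hr]
            congr 1; field_simp; norm_num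
          _ ≤ 3 ^ 2 := by gcongr; linarith [Real.exp_one_lt_d9]
          _ = 9 := by norm_num
      have a3 : ‖u + z‖ ≤ 3 * r := by linarith [norm_add_le u z]
      have a4 := sP (u + z) (by linarith) (by
        calc _ ≤ 3 * r * Lg := by
              gcongr
              exact Real.log_le_log (by linarith) (hR.hD.trans hRN)
          _ = 3 := by rw [hr]; field_simp)
      have a5 := (hI' z (by linarith)).2.2
      have a6 := hM.hB u z w (by rw [e2]; linarith) (by rw [e2]; linarith) (by rw [e2]; linarith)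
      rw [← add_assoc] at a4
      simp only [HF, norm_mul]
      calc _ ≤ Cv * 9 * (Cl * (D.totient / D) * Cl * B) := by gcongr
        _ = _ := by rw [hMH]; ring
    have m1 := hME j N Q ((N : ℝ) ^ δ) (Ca * N ^ 3)
      (fun k => ∑ i ∈ J, ν i * (χ k * Bh (Af χ u w) k (l i)))
      (fun v => ∑ i ∈ J, ν i * (LFunction (1 : Ch D) (1 + u + v) * LFunction χ (1 + v + w) ^ 2 /
        LFunction (1 : Ch D) (2 + u + v + 2 * w) * Bf χ u v w (l i))) hR.hj hQ1 hR1 hQN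
      (fun k hk => (norm_sum_le _ _).trans (by
        calc _ ≤ ∑ i ∈ J, ‖ν i‖ * (1 * (Ca * N ^ 2 * k)) := by
              refine sum_le_sum fun i hi => ?_
              rw [norm_mul, norm_mul]
              gcongr
              · exact χ.norm_le_one _
              · refine (bh_le (by linarith) (fun n hn => (hA D χ n hn).2.2.2.2.2.1 u w hu' hw') hk
                  (hM.hl i hi).1).trans ?_
                gcongr
                exact_mod_cast (hM.hl i hi).2.trans hRN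
          _ ≤ N * (1 * (Ca * N ^ 2 * k)) := by
              rw [← sum_mul]; gcongr; exact hM.hν.trans h3N
          _ = _ := by ring))
      (fun v hv => by
        simp only [sum_mul, mul_assoc (ν _)]
        exact hasSum_sum fun i hi =>
          (h2 D χ u v w (l i) hR.sq hu' hw' hv (hM.hl i hi).1).mul_left _)
    have m2 : ∑ i ∈ J, ν i * PN χ j δ N (Af χ u w) (l i) = ∑ k ∈ Icc 1 N,
        (∑ i ∈ J, ν i * (χ k * Bh (Af χ u w) k (l i))) * (Wc j ((N : ℝ) ^ δ) (k / Q) : ℝ) / k := by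
      simp only [PN, PT, wk, mul_sum, sum_mul, sum_div]
      rw [sum_comm]
      exact sum_congr rfl fun k _ => sum_congr rfl fun i _ => by ring
    have m3 : (ln 2 fun v => gm v / v ^ (j + 1) * (Q : ℂ) ^ v * ∑ i ∈ J, ν i *
        (LFunction (1 : Ch D) (1 + u + v) * LFunction χ (1 + v + w) ^ 2 /
          LFunction (1 : Ch D) (2 + u + v + 2 * w) * Bf χ u v w (l i))) =
        ln 2 fun z => LFunction χ (1 + z + w) ^ 2 * HF χ J ν l Q u w z / (z ^ (j + 1) * (z + u)) := by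
      unfold ln
      congr 2
      funext t
      generalize hv : ((2 : ℝ) : ℂ) + t * I = v
      have hv' : v.re = 2 := by simp [← hv]
      beta_reduce
      rw [eP (1 + u + v) fun h => by have := congrArg re h; simp [hv'] at this; linarith,
        show 1 + u + v - 1 = v + u by ring]
      simp only [HF, mul_sum, sum_div]
      exact sum_congr rfl fun i _ => by simp only [div_eq_mul_inv, mul_inv]; ring
    have m4 := ln_le (σ := -1 / 4) (M := 80 * (K * Q ^ (-1 / 4 : ℝ))) (F := fun z =>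
      LFunction χ (1 + z + w) ^ 2 * HF χ J ν l Q u w z / (z ^ (j + 1) * (z + u))) fun t => by
      generalize hz : ((-1 / 4 : ℝ) : ℂ) + t * I = z
      have z1 : z.re = -1 / 4 := by rw [← hz]; simp only [add_re, ofReal_re, mul_I_re]; simp
      have z2 : z.im = t := by rw [← hz]; simp only [add_im, ofReal_im, mul_I_im]; simp
      have b1 := st z z1.ge (by linarith)
      have b2 : 1 / 4 ≤ ‖z‖ := by
        have := abs_re_le_norm z
        rwa [z1, abs_of_neg (by norm_num), ← neg_div, neg_neg] at this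
      have b3 : 1 / 5 ≤ ‖z + u‖ := by
        linarith [norm_sub_norm_le z (-u), norm_neg u, congrArg norm (sub_neg_eq_add z u)]
      have b4 : 1 / 16 ≤ ‖z‖ ^ (j + 1) := by rcases hR.hj with rfl | rfl <;> nlinarith
      rw [z1, z2] at b1
      rw [norm_div, norm_mul (z ^ _), norm_pow]
      calc _ ≤ K * Q ^ (-1 / 4 : ℝ) / (1 + t ^ 2) / (1 / 16 * (1 / 5)) := by gcongr
        _ = _ := by ring
    have m5 : 80 * (K * Q ^ (-1 / 4 : ℝ)) ≤ (N : ℝ) ^ (-1 / 10 : ℝ) := by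
      calc _ = 5120 * Cv * Cl ^ 4 * (D ^ 3 * ((N : ℝ) ^ (3 * δ) * ((N : ℝ) ^ δ) ^ A) *
            Q ^ (-1 / 4 : ℝ)) := by rw [hK]; ring
        _ ≤ (N : ℝ) ^ (3 / 200 : ℝ) * (((N : ℝ) ^ δ) ^ 3 * ((N : ℝ) ^ (3 * δ) *
            ((N : ℝ) ^ δ) ^ A) * (N : ℝ) ^ (-1 / 8 : ℝ)) := by gcongr; exact hR.hD
        _ = (N : ℝ) ^ (3 / 200 + (δ * (3 : ℕ) + (3 * δ + δ * A) + -1 / 8)) := by
            simp only [Real.rpow_add hN0, Real.rpow_mul_natCast hN0.le]
        _ ≤ _ := Real.rpow_le_rpow_of_exponent_le hN1 (by push_cast; nlinarith)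
    have m6 : Cm * (Ca * N ^ 3) * Q * Real.exp (-(N : ℝ) ^ δ) ≤ 1 / N := by
      refine le_trans ?_ he
      gcongr ?_ * _
      calc _ ≤ Cm * (Ca * N ^ 3) * N := by gcongr
        _ = _ := by ring
    rw [← m2, m3] at m1
    rw [← sub_add]
    refine (norm_add_le _ _).trans ?_
    linarith
  have hSH' := fun u w hu hw => hSH (fun z => LFunction χ (1 + z + w) ^ 2 * HF χ J ν l Q u w z)
    (-1 / 4) 2 (K * Q ^ 2) (by norm_num) two_pos fun z h1 h2 =>
      ⟨(((dL _).comp z (by fun_prop)).pow 2).mul ((main u w hu hw).1 z h1 h2).1,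
        ((main u w hu hw).1 z h1 h2).2⟩
  have hL1 : 0 ≤ L₁ := by
    have := (norm_nonneg _).trans (hLz 0 0 (by simp [hr0.le]) (by simp [hr0.le]))
    exact nonneg_of_mul_nonneg_left this hr0
  have hMH0 : 0 ≤ MH := by positivity
  refine ⟨fun u w hu hw => ?_, fun hj => ?_⟩
  · obtain ⟨-, b1, b2⟩ := main u w hu hw
    have b3 := (hSH' u w hu hw).2 j u r ((L₁ * r) ^ 2 * MH) hr0 hu (by linarith) (by linarith)
      fun z hz => by
        rw [norm_mul, norm_pow]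
        gcongr
        exacts [hLz w z hw hz, b1 z hz]
    refine (norm_le_norm_sub_add _ _).trans ((add_le_add b2 b3).trans (le_of_eq ?_))
    rw [hMH, hr, one_div_pow, add_comm]; congr 1; field_simp; ring
  · subst hj
    have h0 : ‖(0 : ℂ)‖ ≤ r := by simp [hr0.le]
    obtain ⟨b0, b1, b2⟩ := main 0 0 h0 h0
    have b3 := (hSH' 0 0 h0 h0).1 1
    have dL' : ∀ z, DifferentiableAt ℂ (fun z => LFunction χ (1 + z + 0)) z := fun z =>
      (dL _).comp z (by fun_prop)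
    have dH : ∀ z : ℂ, ‖z‖ ≤ r → DifferentiableAt ℂ (HF χ J ν l Q 0 0) z := fun z hz => by
      obtain ⟨z1, z2⟩ := abs_le.1 ((abs_re_le_norm z).trans hz)
      exact (b0 z (by linarith) (by linarith)).1
    have c1 := cauchy hr0 fun z hz => ⟨dL' z, hLz 0 z h0 (by linarith)⟩
    have c2 := cauchy (f := fun z => LFunction χ (1 + z + 0) * HF χ J ν l Q 0 0 z)
      (M := L₁ * r * MH) hr0 fun z hz => ⟨(dL' z).mul (dH z hz), by
        rw [norm_mul]
        gcongr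
        exacts [hLz 0 z h0 (by linarith), b1 z (by linarith)]⟩
    have c3 := b1 0 (by linarith)
    rw [mul_div_cancel_right₀ _ hr0.ne'] at c1
    rw [mul_right_comm, mul_div_cancel_right₀ _ hr0.ne'] at c2
    simp only [iteratedDeriv_one, sq, mul_assoc] at b3
    rw [deriv_fun_mul (dL' 0) ((dL' 0).fun_mul (dH 0 h0))] at b3
    have e : ∀ z : ℂ, z ^ (0 + 1) * (z + 0) = z ^ (1 + 1) := fun z => by ring
    simp only [e, sq, mul_assoc] at b2
    rw [b3] at b2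
    refine (norm_le_norm_sub_add _ _).trans ((add_le_add b2 le_rfl).trans ?_)
    rw [add_comm, Nat.factorial_one, Nat.cast_one, div_one]
    gcongr
    refine (norm_add_le _ _).trans ?_
    simp only [norm_mul, add_zero] at c1 c2 ⊢
    calc _ ≤ L₁ * (‖LFunction χ 1‖ * MH) + ‖LFunction χ 1‖ * (L₁ * MH) := by gcongr
      _ = _ := by rw [hMH]; ring

end Pool.Agent.MP_20b2fd_nt.F5
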