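import Pool.Agent.MP_20b2fd_nt.F5.Spec

/-! Sizes of the functions attached to characters. -/

set_option autoImplicit false

namespace Pool.Agent.MP_20b2fd_nt.F5

open Complex Finset ArithmeticFunction
open DirichletCharacter (LFunction)
open Pool.Agent.MP_c5bf7b_nt.H38 (Phi Ch)
open Pool.Agent.MP_20b2fd_nt.H38

namespace LBA

theorem phi_ne {D : ℕ} [NeZero D] {χ : Ch D} (h : χ ≠ 1) : Phi χ = LFunction χ := if_neg h

theorem phi_one (D : ℕ) [NeZero D] :
    Phi (1 : Ch D) = DirichletCharacter.LFunctionTrivChar₁ D := if_pos rfl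

theorem phi_mul (D : ℕ) [NeZero D] (s : ℂ) :
    Phi (1 : Ch D) s = (∏ p ∈ D.primeFactors, (1 - (p : ℂ) ^ (-s))) * Phi (1 : Ch 1) s := by
  rw [phi_one, phi_one]
  by_cases h : s = 1
  · subst h
    simp only [Function.update_self, Nat.primeFactors_one, prod_empty, mul_one, cpow_neg_one]
  · simp only [Function.update_of_ne h, DirichletCharacter.LFunctionTrivChar_eq_mul_riemannZeta h,
      Nat.primeFactors_one, prod_empty]
    ring

theorem strip {F : ℂ → ℂ} {B : ℝ} (hB : 0 ≤ B)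
    (h : ∀ s : ℂ, 0 < s.re → ‖F s‖ ≤ B * (1 + ‖s‖) ^ 2 * (1 + 1 / s.re)) {s : ℂ}
    (h1 : 1 / 8 ≤ s.re) (h2 : s.re ≤ 5) : ‖F s‖ ≤ 324 * B * (1 + |s.im|) ^ 2 := by
  have h0 : 0 < s.re := by linarith
  have h3 : 1 / s.re ≤ 8 := by
    rw [div_le_iff₀ h0]
    linarith
  have h4 : 1 + ‖s‖ ≤ 6 * (1 + |s.im|) := by
    have := norm_le_abs_re_add_abs_im s
    rw [abs_of_pos h0] at this
    linarith [abs_nonneg s.im]
  calc ‖F s‖ ≤ B * (1 + ‖s‖) ^ 2 * (1 + 1 / s.re) := h s h0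
    _ ≤ B * (6 * (1 + |s.im|)) ^ 2 * 9 := by gcongr; linarith
    _ = _ := by ring

theorem der {F : ℂ → ℂ} {B : ℝ} (hB : 0 ≤ B) (hF : Differentiable ℂ F)
    (h : ∀ s : ℂ, 1 / 8 ≤ s.re → s.re ≤ 5 → ‖F s‖ ≤ B * (1 + |s.im|) ^ 2) {s : ℂ}
    (h1 : 1 / 4 ≤ s.re) (h2 : s.re ≤ 4) : ‖deriv F s‖ ≤ 32 * B * (1 + |s.im|) ^ 2 := by
  have h3 := norm_deriv_le_of_forall_mem_sphere_norm_le (c := s) (R := 1 / 8)
    (C := 4 * B * (1 + |s.im|) ^ 2) (by norm_num) hF.diffContOnCl fun w hw => by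
      rw [mem_sphere_iff_norm] at hw
      have a1 := abs_re_le_norm (w - s)
      have a2 := abs_im_le_norm (w - s)
      rw [hw, sub_re, abs_le] at a1
      rw [hw, sub_im] at a2
      have a3 : 1 + |w.im| ≤ 2 * (1 + |s.im|) := by
        have := abs_sub_abs_le_abs_sub w.im s.im
        linarith [abs_nonneg s.im]
      calc ‖F w‖ ≤ B * (1 + |w.im|) ^ 2 := h w (by linarith) (by linarith)
        _ ≤ B * (2 * (1 + |s.im|)) ^ 2 := by gcongr
        _ = _ := by ring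
  linarith

theorem inv_le {D : ℕ} [NeZero D] (χ : Ch D) {s : ℂ} (hs : 3 / 2 ≤ s.re) :
    LFunction χ s ≠ 0 ∧ ‖(LFunction χ s)⁻¹‖ ≤ ∑' n : ℕ, 1 / (n : ℝ) ^ (3 / 2 : ℝ) := by
  have h1 : 1 < s.re := by linarith
  have h2 := DirichletCharacter.LSeries.mul_mu_eq_one χ h1
  rw [← DirichletCharacter.LFunction_eq_LSeries χ h1] at h2
  refine ⟨left_ne_zero_of_mul_eq_one h2, ?_⟩
  rw [inv_eq_of_mul_eq_one_right h2]
  refine tsum_of_norm_bounded (Real.summable_one_div_nat_rpow.2 (by norm_num)).hasSum fun n => ?_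
  rw [LSeries.norm_term_eq]
  split_ifs with h
  · positivity
  · have h3 : (1 : ℝ) ≤ n := by exact_mod_cast Nat.one_le_iff_ne_zero.2 h
    refine div_le_div₀ zero_le_one ?_ (by positivity) (Real.rpow_le_rpow_of_exponent_le h3 hs)
    rw [Pi.mul_apply, norm_mul]
    refine mul_le_one₀ (χ.norm_le_one _) (norm_nonneg _) ?_
    rw [norm_intCast]
    exact_mod_cast abs_moebius_le_one

theorem fac {p : ℕ} (hp : p.Prime) {z : ℂ} (hz : ‖z‖ * Real.log p ≤ 3) :
    ‖1 - (p : ℂ) ^ (-(1 + z))‖ ≤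
      (1 - (p : ℝ)⁻¹) * Real.exp (Real.exp 3 * (‖z‖ * Real.log p)) := by
  have h2 : (2 : ℝ) ≤ p := by exact_mod_cast hp.two_le
  have h0 : (p : ℂ) ≠ 0 := by exact_mod_cast hp.ne_zero
  have hl : 0 ≤ Real.log p := Real.log_nonneg (by linarith)
  have h3 : ‖-z * Real.log p‖ = ‖z‖ * Real.log p := by
    rw [norm_mul, norm_neg, norm_real, Real.norm_of_nonneg hl]
  have h4 : ‖exp (-z * Real.log p) - 1‖ ≤ Real.exp 3 * (‖z‖ * Real.log p) := by
    have := norm_exp_sub_sum_le_norm_mul_exp (-z * Real.log p) 1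
    rw [h3, pow_one, sum_range_one, pow_zero, Nat.factorial_zero, Nat.cast_one, div_one] at this
    refine this.trans ?_
    rw [mul_comm]
    gcongr
  have h5 : 1 - (p : ℂ) ^ (-(1 + z)) =
      ((1 - (p : ℝ)⁻¹ : ℝ) : ℂ) - ((p : ℝ)⁻¹ : ℝ) * (exp (-z * Real.log p) - 1) := by
    rw [neg_add, cpow_add _ _ h0, cpow_neg_one, cpow_def_of_ne_zero h0, ← natCast_log,
      mul_comm _ (-z)]
    push_cast
    ring
  have h6 : (p : ℝ)⁻¹ ≤ 1 / 2 := by
    rw [one_div]
    exact inv_anti₀ two_pos h2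
  have h7 : (0 : ℝ) ≤ (p : ℝ)⁻¹ := by positivity
  rw [h5]
  refine (norm_sub_le _ _).trans ?_
  rw [norm_mul, norm_real, norm_real, Real.norm_of_nonneg (by linarith), Real.norm_of_nonneg h7]
  have h8 := Real.add_one_le_exp (Real.exp 3 * (‖z‖ * Real.log p))
  have h9 : 0 ≤ Real.exp 3 * (‖z‖ * Real.log p) := by positivity
  generalize Real.exp 3 * (‖z‖ * Real.log p) = t at *
  generalize (p : ℝ)⁻¹ = r at *
  calc 1 - r + r * ‖exp (-z * Real.log p) - 1‖ ≤ 1 - r + (1 - r) * t := by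
        gcongr <;> linarith
    _ = (1 - r) * (t + 1) := by ring
    _ ≤ _ := by gcongr; linarith

theorem prod_le (D : ℕ) [NeZero D] {z : ℂ} (hz : ‖z‖ * Real.log D ≤ 3) :
    ‖∏ p ∈ D.primeFactors, (1 - (p : ℂ) ^ (-(1 + z)))‖ ≤
      Real.exp (Real.exp 3 * 3) * (D.totient / D) := by
  have hD : (0 : ℝ) < D := by exact_mod_cast NeZero.pos D
  have h1 : (D.totient / D : ℝ) = ∏ p ∈ D.primeFactors, (1 - (p : ℝ)⁻¹) := by
    have := congrArg (Rat.cast : ℚ → ℝ) (Nat.totient_eq_mul_prod_factors D)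
    push_cast at this
    rw [this, mul_div_cancel_left₀ _ hD.ne']
  have h2 : ∑ p ∈ D.primeFactors, Real.log p ≤ Real.log D := by
    rw [← Real.log_prod fun p hp => by exact_mod_cast (Nat.prime_of_mem_primeFactors hp).ne_zero,
      ← Nat.cast_prod]
    refine Real.log_le_log ?_ ?_
    · exact_mod_cast prod_pos fun p hp => (Nat.prime_of_mem_primeFactors hp).pos
    · exact_mod_cast Nat.le_of_dvd (NeZero.pos D) (Nat.prod_primeFactors_dvd D)
  rw [norm_prod]
  refine (prod_le_prod (fun _ _ => norm_nonneg _) fun p hp =>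
    fac (Nat.prime_of_mem_primeFactors hp) (le_trans ?_ hz)).trans ?_
  · have := (Nat.prime_of_mem_primeFactors hp).pos
    gcongr
    exact Nat.le_of_mem_primeFactors hp
  · rw [prod_mul_distrib, ← h1, ← Real.exp_sum, ← mul_sum, ← mul_sum, mul_comm]
    gcongr
    exact le_trans (by gcongr) hz

end LBA

open LBA in
theorem lbOf : LBOf := by
  rintro ⟨C, hC, H⟩
  have hS : 0 ≤ ∑' n : ℕ, 1 / (n : ℝ) ^ (3 / 2 : ℝ) := tsum_nonneg fun n => by positivity
  have hE : 1 ≤ Real.exp (Real.exp 3 * 3) := Real.one_le_exp (by positivity)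
  have hI := fun (D : ℕ) [NeZero D] (s : ℂ) => inv_le (1 : Ch D) (s := s)
  have hP := fun (D : ℕ) [NeZero D] (z : ℂ) => prod_le D (z := z)
  generalize ∑' n : ℕ, 1 / (n : ℝ) ^ (3 / 2 : ℝ) = S at *
  generalize Real.exp (Real.exp 3 * 3) = E at *
  have hB : ∀ (D : ℕ) [NeZero D] (χ : Ch D) (s : ℂ), 1 / 8 ≤ s.re → s.re ≤ 5 →
      ‖Phi χ s‖ ≤ 324 * (C * D) * (1 + |s.im|) ^ 2 := fun D _ χ s h1 h2 =>
    strip (by positivity) (fun s hs => ((H D χ).2.2.2.2.2.2 s hs).1) h1 h2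
  have hCE : C ≤ C * E := le_mul_of_one_le_right (by linarith) hE
  refine ⟨10368 * (C * E) + S, by linarith, fun D _ => ?_⟩
  have hK : ∀ t : ℝ, 0 ≤ t → ∀ a : ℝ, a ≤ 10368 → a * (C * D) * t ≤ (10368 * (C * E) + S) * D * t :=
    fun t ht a ha => by
      rw [← mul_assoc]
      gcongr
      nlinarith
  refine ⟨fun χ h => ⟨DirichletCharacter.differentiable_LFunction h, fun s h1 h2 => ⟨?_, ?_⟩⟩,
    (H D 1).1, fun s hs => ?_, fun s h1 h2 => ?_, fun s hs => ⟨?_, (hI D s hs).1, ?_⟩,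
    fun z h1 h2 => ?_⟩
  · rw [← phi_ne h]
    exact (hB D χ s (by linarith) (by linarith)).trans (hK _ (by positivity) _ (by norm_num))
  · rw [← phi_ne h]
    refine (der (by positivity) (H D χ).1 (hB D χ) h1 h2).trans ?_
    rw [← mul_assoc]
    exact hK _ (by positivity) _ (by norm_num)
  · rw [(H D 1).2.2.2.2.2.1 s hs, if_pos rfl, mul_div_cancel_left₀ _ (sub_ne_zero.2 hs)]
  · exact (hB D 1 s (by linarith) (by linarith)).trans (hK _ (by positivity) _ (by norm_num))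
  · refine DirichletCharacter.differentiableAt_LFunction _ _ (.inl ?_)
    rintro rfl
    norm_num at hs
  · linarith [(hI D s hs).2]
  · have a1 := (abs_re_le_norm z).trans h1
    have a2 := (abs_im_le_norm z).trans h1
    rw [abs_le] at a1
    have a3 := hB 1 1 (1 + z) (by simp only [add_re, one_re]; linarith)
      (by simp only [add_re, one_re]; linarith)
    rw [add_im, one_im, zero_add, Nat.cast_one, mul_one] at a3
    have a4 : (0 : ℝ) ≤ D.totient / D := by positivity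
    rw [phi_mul, norm_mul]
    calc _ ≤ E * (D.totient / D) * (324 * C * (1 + 1 / 2) ^ 2) :=
          mul_le_mul (hP D z h2) (a3.trans (by gcongr)) (norm_nonneg _) (by positivity)
      _ = 729 * (C * E) * (D.totient / D) := by ring
      _ ≤ _ := by gcongr; linarith

end Pool.Agent.MP_20b2fd_nt.F5
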