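import Pool.Agent.MP_20b2fd_nt.F5.Spec

/-! A weighted sum as a line integral. -/

set_option autoImplicit false

namespace Pool.Agent.MP_20b2fd_nt.F5

open MeasureTheory Complex Finset
open Pool.Agent.MP_20b2fd_nt.H38
open scoped Real

namespace MEA

theorem ne0 (t : ℝ) : -(1 + ((2 : ℝ) + t * I)) ≠ 0 := fun e => by
  have := congrArg re e
  norm_num at this

theorem swap {g : ℝ → ℂ} {B C₀ : ℝ} {c : ℕ → ℂ} {F : ℂ → ℂ} (hg : Continuous g)
    (hB : ∀ t, ‖g t‖ ≤ B * (1 + t ^ 2)⁻¹) (hc : ∀ k : ℕ, 1 ≤ k → ‖c k‖ ≤ C₀ * k)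
    (hF : ∀ u : ℂ, u.re = 2 → HasSum (fun k : ℕ => c k * (k : ℂ) ^ (-(1 + u))) (F u)) :
    HasSum (fun k : ℕ => ∫ t : ℝ, g t * (c k * (k : ℂ) ^ (-(1 + ((2 : ℝ) + t * I)))))
      (∫ t : ℝ, g t * F ((2 : ℝ) + t * I)) := by
  have h0 : ∀ t : ℝ, (-(1 + ((2 : ℝ) + t * I))).re = -3 := fun t => by norm_num
  have h2 : ∀ (k : ℕ) (t : ℝ), ‖g t * (c k * (k : ℂ) ^ (-(1 + ((2 : ℝ) + t * I))))‖ ≤
      C₀ / (k : ℝ) ^ 2 * (B * (1 + t ^ 2)⁻¹) := fun k t => by
    rcases k.eq_zero_or_pos with rfl | hk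
    · simp only [Nat.cast_zero, zero_cpow (ne0 t)]
      simp
    have : (0 : ℝ) < k := by exact_mod_cast hk
    rw [norm_mul, norm_mul, norm_natCast_cpow_of_pos hk, h0, mul_comm]
    refine mul_le_mul ((mul_le_mul_of_nonneg_right (hc k hk) (by positivity)).trans_eq ?_) (hB t)
      (norm_nonneg _) (div_nonneg (nonneg_of_mul_nonneg_left ((norm_nonneg _).trans (hc k hk))
        this) (by positivity))
    rw [Real.rpow_neg this.le, show (3 : ℝ) = (3 : ℕ) by norm_num, Real.rpow_natCast]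
    field_simp
  have h3 := fun k : ℕ => (integrable_inv_one_add_sq.const_mul B).const_mul (C₀ / (k : ℝ) ^ 2)
  have h4 : ∀ k : ℕ, Integrable fun t : ℝ =>
      g t * (c k * (k : ℂ) ^ (-(1 + ((2 : ℝ) + t * I)))) := fun k => (h3 k).mono'
    (hg.mul (continuous_const.mul (Continuous.const_cpow (by fun_prop)
      (.inr ne0)))).aestronglyMeasurable (.of_forall (h2 k))
  have h5 := hasSum_integral_of_summable_integral_norm h4 (.of_nonneg_of_le
    (fun _ => integral_nonneg fun _ => norm_nonneg _)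
    (fun k => (integral_mono (h4 k).norm (h3 k) (h2 k)).trans_eq (integral_const_mul _ _))
    (((Real.summable_nat_pow_inv.2 one_lt_two).mul_left C₀).mul_right _))
  rwa [funext fun t : ℝ => ((hF ((2 : ℝ) + t * I) (by simp)).mul_left (g t)).tsum_eq] at h5

end MEA

open MEA in
theorem meOf : MEOf := fun ⟨C, _, hd, _, hb, hV⟩ => ⟨2, one_le_two,
  fun j N Q R C₀ c F hj hQ hR hN hc hF => by
  obtain ⟨-, h1, h2⟩ := hV j hj
  obtain ⟨⟨-, h3⟩, h4⟩ := h2 R hR
  have Q0 : 0 < Q := by linarith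
  have Q1 : (Q : ℂ) ≠ 0 := by exact_mod_cast Q0.ne'
  have C0 : 0 ≤ C₀ := by simpa using (norm_nonneg _).trans (hc 1 le_rfl)
  have u1 : ∀ t : ℝ, 1 ≤ ‖((2 : ℝ) + t * I) ^ (j + 1)‖ := fun t => by
    rw [norm_pow]
    exact one_le_pow₀ (le_trans (by simp) (re_le_norm _))
  have h5 := (swap (g := fun t : ℝ => gm ((2 : ℝ) + t * I) / ((2 : ℝ) + t * I) ^ (j + 1) *
    (Q : ℂ) ^ ((2 : ℝ) + t * I)) (B := C * Q ^ (2 : ℝ)) (.mul (.div (continuous_iff_continuousAt.2
      fun t => (hd _ (by norm_num)).continuousAt.comp (f := fun t : ℝ => (2 : ℝ) + t * I)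
        (by fun_prop)) (by fun_prop) fun t => norm_pos_iff.1 (one_pos.trans_le (u1 t)))
      (Continuous.const_cpow (by fun_prop) (.inl Q1))) (fun t => by
    have a := hb ((2 : ℝ) + t * I) (by norm_num) (by simp)
    have b : 1 + t ^ 2 ≤ (1 + |t|) ^ 10 := le_trans (by nlinarith [abs_nonneg t, sq_abs t])
      (pow_le_pow_right₀ (by simp) (by norm_num : 2 ≤ 10))
    rw [norm_mul, norm_div, norm_cpow_eq_rpow_re_of_pos Q0, mul_right_comm]
    simp only [add_im, ofReal_im, mul_im, ofReal_re, I_im, I_re, add_re, mul_re, mul_one, mul_zero,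
      zero_add, add_zero, sub_zero] at a ⊢
    refine mul_le_mul_of_nonneg_right ((div_le_self (norm_nonneg _) (u1 t)).trans (a.trans ?_))
      (by positivity)
    rw [← div_eq_mul_inv]
    gcongr) hc hF).mul_left (1 / (2 * π) : ℂ)
  have h6 : HasSum (fun k : ℕ => c k * (Wc j R (k / Q) : ℝ) / k)
      (∑ k ∈ Icc 1 N, c k * (Wc j R (k / Q) : ℝ) / k) :=
    hasSum_sum_of_ne_finset_zero fun k hk => by
      rcases k.eq_zero_or_pos with rfl | h
      · simp
      have : (N : ℝ) ≤ k := by exact_mod_cast le_of_not_ge fun e => hk (mem_Icc.2 ⟨h, e⟩)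
      rw [h3 _ ((le_div_iff₀ Q0).2 (by linarith)), ofReal_zero, mul_zero, zero_div]
  have r0 := Real.exp_pos (-(1 / Q))
  have r1 : Real.exp (-(1 / Q)) * (Q + 1) ≤ Q := by
    rw [Real.exp_neg, inv_mul_le_iff₀ (Real.exp_pos _)]
    exact le_trans (le_of_eq (by field_simp; ring))
      (mul_le_mul_of_nonneg_right (Real.add_one_le_exp _) Q0.le)
  have r2 : Real.exp (-(1 / Q)) < 1 := by nlinarith
  refine ((h6.sub h5).norm_le_of_bounded ((hasSum_geometric_of_lt_one r0.le r2).mul_left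
    (C₀ * Real.exp (-R))) fun k => ?_).trans ?_
  · rcases k.eq_zero_or_pos with rfl | hk
    · simp only [Nat.cast_zero, zero_cpow (ne0 _), mul_zero, integral_zero, div_zero, sub_zero,
        norm_zero]
      positivity
    have k0 : (0 : ℝ) < k := by exact_mod_cast hk
    have k1 : (k : ℂ) ≠ 0 := by exact_mod_cast hk.ne'
    have x0 := div_pos k0 Q0
    obtain ⟨-, a1, a2⟩ := h1 _ x0
    have e : ∀ u : ℂ, gm u / u ^ (j + 1) * (Q : ℂ) ^ u * (c k * (k : ℂ) ^ (-(1 + u))) =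
        c k / k * (gm u / u ^ (j + 1) * ((k / Q : ℝ) : ℂ) ^ (-u)) := fun u => by
      have a := mul_cpow_ofReal_nonneg x0.le Q0.le (-u)
      rw [← ofReal_mul, div_mul_cancel₀ _ Q0.ne', ofReal_natCast] at a
      have b : (Q : ℂ) ^ u ≠ 0 := cpow_ne_zero_iff.2 (.inl Q1)
      rw [neg_add, cpow_add _ _ k1, cpow_neg_one, a, cpow_neg (Q : ℂ)]
      field_simp
    simp only [e, integral_const_mul]
    rw [mul_left_comm, ← ln.eq_1 2 fun u => gm u / u ^ (j + 1) * ((k / Q : ℝ) : ℂ) ^ (-u), ← a2,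
      mul_div_right_comm, ← mul_sub, norm_mul, ← ofReal_sub, norm_real, Real.norm_eq_abs,
      abs_sub_comm, mul_assoc, norm_div, norm_natCast]
    refine mul_le_mul ((div_le_iff₀ k0).2 (hc k hk)) ((h4 _ x0).trans ?_) (abs_nonneg _) C0
    split_ifs with h
    · rw [← Real.exp_nat_mul, ← Real.exp_add, mul_neg, mul_one_div]
      exact (a1 (hR.trans h)).trans (Real.exp_le_exp.2 (by nlinarith [Real.pi_gt_three]))
    · positivity
  · have : (1 - Real.exp (-(1 / Q)))⁻¹ ≤ 2 * Q := by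
      rw [inv_le_iff_one_le_mul₀ (by linarith)]
      nlinarith
    linarith [mul_le_mul_of_nonneg_left this (mul_nonneg C0 (Real.exp_pos (-R)).le)]⟩

end Pool.Agent.MP_20b2fd_nt.F5
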