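import Pool.Agent.MP_20b2fd_nt.F5.Util

/-! Trivial bounds for the action of the twisted polynomial. -/

set_option autoImplicit false

namespace Pool.Agent.MP_20b2fd_nt.F5

open Finset
open Pool.Agent.MP_c5bf7b_nt.H38 (Ch)
open Pool.Agent.MP_20b2fd_nt.H38

namespace PBA

theorem fib (F : ℕ → ℕ → ℝ) (Y : ℕ) :
    ∑ n ∈ Icc 1 Y, ∑ d ∈ n.divisors, F d (n / d) =
      ∑ x ∈ (Icc 1 Y ×ˢ Icc 1 Y).filter (fun x => x.1 * x.2 ≤ Y), F x.1 x.2 := by
  rw [← sum_fiberwise_of_maps_to (t := Icc 1 Y) (g := fun x : ℕ × ℕ => x.1 * x.2)]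
  · refine sum_congr rfl fun n hn => ?_
    rw [← Nat.sum_divisorsAntidiagonal F]
    refine sum_congr ?_ fun _ _ => rfl
    ext ⟨a, b⟩
    simp only [Nat.mem_divisorsAntidiagonal, mem_filter, mem_product, mem_Icc] at hn ⊢
    constructor
    · rintro ⟨rfl, h⟩
      have ha : 0 < a := Nat.pos_of_ne_zero (left_ne_zero_of_mul h)
      have hb : 0 < b := Nat.pos_of_ne_zero (right_ne_zero_of_mul h)
      exact ⟨⟨⟨⟨ha, (Nat.le_mul_of_pos_right a hb).trans hn.2⟩, hb,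
        (Nat.le_mul_of_pos_left b ha).trans hn.2⟩, hn.2⟩, rfl⟩
    · rintro ⟨-, h⟩
      exact ⟨h, by omega⟩
  · rintro ⟨a, b⟩ h
    simp only [mem_filter, mem_product, mem_Icc] at h ⊢
    exact ⟨Nat.mul_pos h.1.1.1 h.1.2.1, h.2⟩

theorem swap {h : ℕ → ℝ} (h0 : ∀ n, 0 ≤ h n) (Y : ℕ) :
    ∑ n ∈ Icc 1 Y, (∑ e ∈ n.divisors, h e) / n ≤ (1 + Real.log Y) * ∑ e ∈ Icc 1 Y, h e / e := by
  have e : ∑ n ∈ Icc 1 Y, (∑ e ∈ n.divisors, h e) / n =
      ∑ n ∈ Icc 1 Y, ∑ d ∈ n.divisors, (fun a b : ℕ => h a / a * (1 / b)) d (n / d) := by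
    refine sum_congr rfl fun n _ => ?_
    rw [sum_div]
    refine sum_congr rfl fun d hd => ?_
    obtain ⟨⟨c, rfl⟩, h1⟩ := Nat.mem_divisors.mp hd
    have hd0 : 0 < d := Nat.pos_of_ne_zero (left_ne_zero_of_mul h1)
    simp only [Nat.mul_div_cancel_left c hd0, Nat.cast_mul, mul_one_div, div_div]
  rw [e.trans (fib (fun a b : ℕ => h a / a * (1 / b)) Y)]
  refine (sum_le_sum_of_subset_of_nonneg (filter_subset _ _) fun x _ _ => ?_).trans ?_
  · have := h0 x.1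
    positivity
  · rw [sum_product' (f := fun a b : ℕ => h a / a * (1 / b)), ← sum_mul_sum, mul_comm]
    exact mul_le_mul_of_nonneg_right (U.sum_inv Y)
      (sum_nonneg fun e _ => div_nonneg (h0 e) (Nat.cast_nonneg _))

theorem prod_le {G : ℕ → ℝ} (h0 : ∀ n, 0 ≤ G n) {A B Y : ℕ} (h : A * B ≤ Y) :
    ∑ e ∈ Icc 1 A, ∑ b ∈ Icc 1 B, G (b * e) ≤ ∑ m ∈ Icc 1 Y, tau m * G m := by
  have e : ∑ m ∈ Icc 1 Y, tau m * G m =
      ∑ n ∈ Icc 1 Y, ∑ d ∈ n.divisors, (fun a b : ℕ => G (b * a)) d (n / d) := by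
    refine sum_congr rfl fun n _ => ?_
    rw [tau, ← nsmul_eq_mul, ← sum_const]
    exact sum_congr rfl fun d hd => by
      simp only [Nat.div_mul_cancel (Nat.dvd_of_mem_divisors hd)]
  rw [e.trans (fib (fun a b : ℕ => G (b * a)) Y), ← sum_product' (f := fun a b : ℕ => G (b * a))]
  refine sum_le_sum_of_subset_of_nonneg ?_ fun x _ _ => h0 _
  rintro ⟨a, b⟩ z
  simp only [mem_filter, mem_product, mem_Icc] at z ⊢
  have h1 : a * b ≤ Y := (Nat.mul_le_mul z.1.2 z.2.2).trans h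
  exact ⟨⟨⟨z.1.1, (Nat.le_mul_of_pos_right a z.2.1).trans h1⟩, z.2.1,
    (Nat.le_mul_of_pos_left b z.1.1).trans h1⟩, h1⟩

theorem mult_le {H : ℕ → ℝ} (h0 : ∀ n, 0 ≤ H n) {K e Y : ℕ} (he : 1 ≤ e) (h : K * e ≤ Y) :
    ∑ a ∈ Icc 1 K, H (a * e) ≤ ∑ n ∈ Icc 1 Y, H n := by
  rw [← sum_image (f := H) (g := fun a => a * e) fun a _ b _ z => Nat.eq_of_mul_eq_mul_right he z]
  refine sum_le_sum_of_subset_of_nonneg (fun n hn => ?_) fun x _ _ => h0 _
  obtain ⟨a, ha, rfl⟩ := mem_image.mp hn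
  rw [mem_Icc] at ha ⊢
  exact ⟨Nat.mul_pos ha.1 he, (Nat.mul_le_mul_right e ha.2).trans h⟩

theorem dvd_le {φ : ℕ → ℝ} (h0 : ∀ n, 0 ≤ φ n) (K : ℕ) {d : ℕ} (hd : 1 ≤ d) :
    ∑ k ∈ Icc 1 K, (if d ∣ k then φ k else 0) ≤ ∑ a ∈ Icc 1 K, φ (d * a) := by
  rw [← sum_filter,
    ← sum_image (f := φ) (g := fun a => d * a) fun a _ b _ z => Nat.eq_of_mul_eq_mul_left hd z]
  refine sum_le_sum_of_subset_of_nonneg (fun k hk => ?_) fun x _ _ => h0 _
  obtain ⟨h1, a, rfl⟩ := mem_filter.mp hk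
  rw [mem_Icc] at h1
  exact mem_image.mpr ⟨a, mem_Icc.mpr ⟨Nat.pos_of_ne_zero (by rintro rfl; omega),
    (Nat.le_mul_of_pos_left a hd).trans h1.2⟩, rfl⟩

/-- the majorant of one step -/
noncomputable def S (K : ℕ) (g : ℕ → ℝ) (n : ℕ) : ℝ :=
  ∑ e ∈ n.divisors, ∑ a ∈ Icc 1 K, g (a * e) / a

theorem step {w f : ℕ → ℂ} {N K n : ℕ} {B : ℝ} (hB : 0 ≤ B) (hK : K ≤ N)
    (hw : ∀ k, 1 ≤ k → k ≤ N → ‖w k‖ ≤ B / k) (hw' : ∀ k, K < k → w k = 0) (hn : 1 ≤ n) :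
    ‖∑ k ∈ Icc 1 N, w k * Bh f k n‖ ≤ B * S K (fun m => ‖f m‖) n := by
  rw [← sum_subset (Icc_subset_Icc_right hK) fun k h1 h2 => by
    rw [hw' k (by simp only [mem_Icc] at h1 h2; omega), zero_mul]]
  have h1 : ∀ k ∈ Icc 1 K, ‖w k * Bh f k n‖ ≤
      ∑ d ∈ n.divisors, if d ∣ k then B / k * (d * ‖f (k * n / d ^ 2)‖) else 0 := fun k hk => by
    rw [mem_Icc] at hk
    rw [U.Bh_eq f k hn, mul_sum]
    refine (norm_sum_le _ _).trans (sum_le_sum fun d _ => ?_)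
    split_ifs
    · rw [norm_mul, norm_mul, Complex.norm_natCast]
      exact mul_le_mul_of_nonneg_right (hw k hk.1 (hk.2.trans hK)) (by positivity)
    · simp
  refine (norm_sum_le _ _).trans ((sum_le_sum h1).trans ?_)
  rw [sum_comm, S, ← Nat.sum_div_divisors n fun e => ∑ a ∈ Icc 1 K, ‖f (a * e)‖ / a, mul_sum]
  refine sum_le_sum fun d hd => ?_
  obtain ⟨⟨c, rfl⟩, h2⟩ := Nat.mem_divisors.mp hd
  have hd0 : 0 < d := Nat.pos_of_ne_zero (left_ne_zero_of_mul h2)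
  refine (dvd_le (φ := fun k => B / k * (d * ‖f (k * (d * c) / d ^ 2)‖))
    (fun k => by positivity) K hd0).trans (le_of_eq ?_)
  rw [mul_sum, Nat.mul_div_cancel_left c hd0]
  refine sum_congr rfl fun a _ => ?_
  have e : d * a * (d * c) / d ^ 2 = a * c := by
    rw [show d * a * (d * c) = d ^ 2 * (a * c) by ring, Nat.mul_div_cancel_left _ (by positivity)]
  have : (d : ℝ) ≠ 0 := by positivity
  rw [e, Nat.cast_mul]
  field_simp

theorem S_one {g : ℕ → ℝ} {K n : ℕ} {ε : ℝ} (hε : 0 ≤ ε)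
    (h : ∀ m, 1 ≤ m → m ≤ K * n → g m ≤ ε) : S K g n ≤ tau n * ((1 + Real.log K) * ε) := by
  rw [S, tau, ← nsmul_eq_mul]
  refine sum_le_card_nsmul _ _ _ fun e he => ?_
  refine le_trans ?_ (mul_le_mul_of_nonneg_right (U.sum_inv K) hε)
  rw [sum_mul]
  refine sum_le_sum fun a ha => ?_
  rw [mem_Icc] at ha
  rw [one_div_mul_eq_div]
  exact div_le_div_of_nonneg_right (h _ (Nat.mul_pos ha.1 (Nat.pos_of_mem_divisors he))
    (Nat.mul_le_mul ha.2 (Nat.divisor_le he))) (Nat.cast_nonneg _)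

theorem S_mono {g g' : ℕ → ℝ} {B : ℝ} (h : ∀ m, 1 ≤ m → g m ≤ B * g' m) (K n : ℕ) :
    S K g n ≤ B * S K g' n := by
  rw [S, S, mul_sum]
  refine sum_le_sum fun e he => ?_
  rw [mul_sum]
  refine sum_le_sum fun a ha => ?_
  rw [← mul_div_assoc]
  exact div_le_div_of_nonneg_right
    (h _ (Nat.mul_pos (mem_Icc.mp ha).1 (Nat.pos_of_mem_divisors he))) (Nat.cast_nonneg _)

theorem S_two {g : ℕ → ℝ} (h0 : ∀ n, 0 ≤ g n) {K l M : ℕ} {T : ℝ} (hM : K * l * K ≤ M)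
    (hT : ∀ m, 1 ≤ m → m ≤ M → tau m ≤ T) : S K (S K g) l ≤
      tau l * (l * ((1 + Real.log (K * l : ℕ)) * (T * ∑ m ∈ Icc 1 M, g m / m))) := by
  have hL : 0 ≤ 1 + Real.log (K * l : ℕ) := by linarith [Real.log_natCast_nonneg (K * l)]
  have h1 : ∀ e, 0 ≤ ∑ a ∈ Icc 1 K, g (a * e) / a := fun e =>
    sum_nonneg fun a _ => div_nonneg (h0 _) (Nat.cast_nonneg _)
  have h2 : ∀ n : ℕ, 0 ≤ S K g n / n := fun n =>
    div_nonneg (sum_nonneg fun e _ => h1 e) (Nat.cast_nonneg _)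
  have h3 : ∑ n ∈ Icc 1 (K * l), S K g n / n ≤
      (1 + Real.log (K * l : ℕ)) * (T * ∑ m ∈ Icc 1 M, g m / m) := by
    refine (swap h1 _).trans (mul_le_mul_of_nonneg_left ?_ hL)
    have e : ∑ e ∈ Icc 1 (K * l), (∑ a ∈ Icc 1 K, g (a * e) / a) / e =
        ∑ e ∈ Icc 1 (K * l), ∑ a ∈ Icc 1 K, (fun m : ℕ => g m / m) (a * e) := by
      refine sum_congr rfl fun e _ => ?_
      rw [sum_div]
      exact sum_congr rfl fun a _ => by simp only [Nat.cast_mul, div_div]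
    rw [e]
    refine (prod_le (G := fun m : ℕ => g m / m)
      (fun m => div_nonneg (h0 _) (Nat.cast_nonneg _)) hM).trans ?_
    rw [mul_sum]
    exact sum_le_sum fun m hm => mul_le_mul_of_nonneg_right
      (hT m (mem_Icc.mp hm).1 (mem_Icc.mp hm).2) (div_nonneg (h0 _) (Nat.cast_nonneg _))
  rw [S, tau, ← nsmul_eq_mul]
  refine sum_le_card_nsmul _ _ _ fun e he => ?_
  have he0 := Nat.pos_of_mem_divisors he
  have he1 := Nat.divisor_le he
  have e1 : ∑ a ∈ Icc 1 K, S K g (a * e) / a =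
      e * ∑ a ∈ Icc 1 K, (fun n : ℕ => S K g n / n) (a * e) := by
    rw [mul_sum]
    refine sum_congr rfl fun a _ => ?_
    have : (e : ℝ) ≠ 0 := by positivity
    simp only [Nat.cast_mul]
    field_simp
  rw [e1]
  exact mul_le_mul (by exact_mod_cast he1)
    ((mult_le h2 he0 (Nat.mul_le_mul_left K he1)).trans h3) (sum_nonneg fun a _ => h2 _)
    (Nat.cast_nonneg _)

theorem weight {C δ : ℝ} {N D : ℕ} [NeZero D] (χ : Ch D) {W : ℝ → ℝ} (hC : 0 ≤ C) (hδ : δ ≤ 1 / 10)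
    (hN : 1 ≤ N) (hD : (D : ℝ) ≤ (N : ℝ) ^ δ) (hW : WOK C ((N : ℝ) ^ δ) W) :
    (∀ k, 1 ≤ k → k ≤ N → ‖wk χ W (Qc D N) k‖ ≤ C * (1 + Real.log N) / k) ∧
      ∀ k : ℕ, 2 * (N : ℝ) ^ (1 / 2 + 2 * δ) ≤ k → wk χ W (Qc D N) k = 0 := by
  have h1 : (1 : ℝ) ≤ N := by exact_mod_cast hN
  have h0 : (0 : ℝ) < N := by linarith
  have hD1 : (1 : ℝ) ≤ D := by exact_mod_cast NeZero.one_le
  have hQ1 : 1 ≤ Qc D N := one_le_mul_of_one_le_of_one_le hD1 (Real.one_le_sqrt.mpr h1)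
  have hQ : Qc D N ≤ (N : ℝ) ^ (1 / 2 + δ) := by
    rw [Qc, Real.sqrt_eq_rpow, add_comm, Real.rpow_add h0]
    exact mul_le_mul_of_nonneg_right hD (by positivity)
  have hQN : Qc D N ≤ N := hQ.trans (by
    simpa using Real.rpow_le_rpow_of_exponent_le h1 (show 1 / 2 + δ ≤ 1 by linarith))
  refine ⟨fun k hk hkN => ?_, fun k hk => ?_⟩
  · have k1 : (1 : ℝ) ≤ k := by exact_mod_cast hk
    have k2 : (k : ℝ) ≤ N := by exact_mod_cast hkN
    obtain ⟨W₁, h⟩ := hW.1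
    have h2 := (h (k / Qc D N) (by positivity)).2.1
    have h3 : |Real.log (k / Qc D N)| ≤ Real.log N := by
      rw [Real.log_div (by positivity) (by positivity), abs_le]
      have := Real.log_le_log (by linarith) k2
      have := Real.log_le_log (by linarith) hQN
      have := Real.log_nonneg k1
      have := Real.log_nonneg hQ1
      constructor <;> linarith
    rw [wk, norm_div, norm_mul, Complex.norm_natCast, Complex.norm_real, Real.norm_eq_abs]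
    refine div_le_div_of_nonneg_right ?_ (by positivity)
    calc _ ≤ 1 * |W (k / Qc D N)| := mul_le_mul_of_nonneg_right (χ.norm_le_one _) (abs_nonneg _)
      _ ≤ _ := by rw [one_mul]; exact h2.trans (mul_le_mul_of_nonneg_left (by linarith) hC)
  · rw [wk, hW.2 _ ?_]
    · simp
    · rw [le_div_iff₀ (by linarith)]
      refine le_trans ?_ hk
      rw [mul_assoc, show 1 / 2 + 2 * δ = δ + (1 / 2 + δ) by ring, Real.rpow_add h0]
      gcongr

end PBA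

open PBA

theorem pbOf : PBOf := by
  rintro ⟨C, hC, -, -, -, hV⟩ δ h0 hδ
  obtain ⟨N₁, h3, hN₁⟩ := U.ev_log (2 * C ^ 2) 3 (half_pos h0)
  obtain ⟨N₂, -, hN₂⟩ := U.ev_tau 2 (half_pos h0)
  obtain ⟨N₃, -, hN₃⟩ := U.ev_log 4 0 h0
  refine ⟨max N₁ (max N₂ N₃), fun N D _ χ j f hN R => ?_⟩
  have a1 := hN₁ N (by omega)
  have a2 := hN₂ N (by omega)
  have a3 := hN₃ N (by omega)
  rw [pow_zero, mul_one] at a3
  have hN1 : 1 ≤ N := by omega
  have n1 : (1 : ℝ) ≤ N := by exact_mod_cast hN1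
  have n0 : (0 : ℝ) < N := by linarith
  have hl := Real.log_nonneg n1
  obtain ⟨w1, w2⟩ := weight χ (by linarith : 0 ≤ C) hδ hN1 R.hD
    ((hV j R.hj).2.2 _ (by linarith)).1
  obtain ⟨K, hKN, hK, w3⟩ : ∃ K : ℕ, K ≤ N ∧ (K : ℝ) ≤ 2 * (N : ℝ) ^ (1 / 2 + 2 * δ) ∧
      ∀ k, k ≤ N → K < k → wk χ (Wc j ((N : ℝ) ^ δ)) (Qc D N) k = 0 :=
    ⟨min N ⌊2 * (N : ℝ) ^ (1 / 2 + 2 * δ)⌋₊, min_le_left _ _,
      le_trans (by exact_mod_cast min_le_right _ _) (Nat.floor_le (by positivity)),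
      fun k h1 h2 => w2 k (Nat.lt_of_floor_lt (by omega)).le⟩
  have hB : 0 ≤ C * (1 + Real.log N) := by positivity
  have st : ∀ (f : ℕ → ℂ) (n : ℕ), 1 ≤ n →
      ‖PN χ j δ N f n‖ ≤ C * (1 + Real.log N) * S K (fun m => ‖f m‖) n := fun f n hn => by
    have := step (w := fun k => if k ≤ N then wk χ (Wc j ((N : ℝ) ^ δ)) (Qc D N) k else 0) (f := f)
      hB hKN (fun k h1 h2 => by rw [if_pos h2]; exact w1 k h1 h2)
      (fun k h1 => by split_ifs with h2; exacts [w3 k h2 h1, rfl]) hn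
    rwa [sum_congr rfl fun k hk => by rw [if_pos (mem_Icc.mp hk).2]] at this
  have lg : ∀ (m : ℕ) (c : ℕ), (m : ℝ) ≤ (N : ℝ) ^ c → Real.log m ≤ c * Real.log N := fun m c h => by
    rcases Nat.eq_zero_or_pos m with rfl | hm
    · rw [Nat.cast_zero, Real.log_zero]; positivity
    · rw [← Real.log_pow]; exact Real.log_le_log (by exact_mod_cast hm) h
  have hh : (N : ℝ) ^ (δ / 2) * (N : ℝ) ^ (δ / 2) = (N : ℝ) ^ δ := by
    rw [← Real.rpow_add n0, add_halves]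
  have kN : (K : ℝ) ≤ N := by exact_mod_cast hKN
  refine ⟨fun n ε hn hnN hf => ?_, fun l hl1 hlN => ?_⟩
  · have n1' : (1 : ℝ) ≤ n := by exact_mod_cast hn
    have nN : (n : ℝ) ≤ N := by exact_mod_cast hnN
    have hε : 0 ≤ ε := (norm_nonneg _).trans (hf 1 le_rfl (by
      have := Real.one_le_rpow n1 (show 0 ≤ 1 / 2 + 2 * δ by linarith)
      push_cast; nlinarith))
    have b1 := S_one (g := fun m => ‖f m‖) (K := K) (n := n) hε fun m h1 h2 => hf m h1 (by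
      have : (m : ℝ) ≤ K * n := by exact_mod_cast h2
      exact this.trans (mul_le_mul_of_nonneg_right hK (by positivity)))
    have b2 := a2 n (by nlinarith)
    have b3 := lg K 1 (by simpa using kN)
    have b4 : C * (1 + Real.log N) * (1 + Real.log K) ≤ (N : ℝ) ^ (δ / 2) := by
      refine le_trans ?_ a1
      calc _ ≤ C * (1 + Real.log N) * (1 + Real.log N) :=
            mul_le_mul_of_nonneg_left (by push_cast at b3; linarith) hB
        _ = C * 1 * (1 + Real.log N) ^ 2 := by ring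
        _ ≤ 2 * C ^ 2 * (1 + Real.log N) * (1 + Real.log N) ^ 2 := by
            gcongr <;> nlinarith
        _ = _ := by ring
    have b5 := Real.log_natCast_nonneg K
    calc _ ≤ _ := (st f n hn).trans (mul_le_mul_of_nonneg_left b1 hB)
      _ = ε * (tau n * (C * (1 + Real.log N) * (1 + Real.log K))) := by ring
      _ ≤ _ := by
          rw [← hh]
          exact mul_le_mul_of_nonneg_left
            (mul_le_mul b2 b4 (by positivity) (by positivity)) hε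
  · have lN : (l : ℝ) ≤ N := hlN.trans (by
      simpa using Real.rpow_le_rpow_of_exponent_le n1 (show δ ≤ 1 by linarith))
    have hM : K * l * K ≤ ⌊(N : ℝ) ^ (1 + 6 * δ)⌋₊ := Nat.le_floor (by
      push_cast
      calc (K : ℝ) * l * K ≤ 2 * (N : ℝ) ^ (1 / 2 + 2 * δ) * (N : ℝ) ^ δ *
            (2 * (N : ℝ) ^ (1 / 2 + 2 * δ)) := by gcongr
        _ = 4 * ((N : ℝ) ^ (1 / 2 + 2 * δ) * (N : ℝ) ^ δ * (N : ℝ) ^ (1 / 2 + 2 * δ)) := by ring
        _ ≤ (N : ℝ) ^ δ * ((N : ℝ) ^ (1 / 2 + 2 * δ) * (N : ℝ) ^ δ *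
            (N : ℝ) ^ (1 / 2 + 2 * δ)) := by gcongr
        _ = _ := by
            rw [← Real.rpow_add n0, ← Real.rpow_add n0, ← Real.rpow_add n0]
            exact congrArg _ (by ring))
    have b1 := S_two (g := fun m => ‖f m‖) (fun _ => norm_nonneg _) hM fun m _ h2 => a2 m (by
      refine le_trans (by exact_mod_cast h2) ((Nat.floor_le (by positivity)).trans ?_)
      simpa using Real.rpow_le_rpow_of_exponent_le n1 (show 1 + 6 * δ ≤ 2 by linarith))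
    have b2 := a2 l (by nlinarith)
    have b3 := lg (K * l) 2 (by push_cast; rw [sq]; gcongr)
    have b5 := Real.log_natCast_nonneg (K * l)
    have b4 : (C * (1 + Real.log N)) ^ 2 * (1 + Real.log (K * l : ℕ)) ≤ (N : ℝ) ^ δ := by
      calc _ ≤ (C * (1 + Real.log N)) ^ 2 * (2 * (1 + Real.log N)) :=
            mul_le_mul_of_nonneg_left (by push_cast at b3 ⊢; linarith) (by positivity)
        _ = 2 * C ^ 2 * (1 + Real.log N) ^ 3 := by ring
        _ ≤ _ := a1.trans (Real.rpow_le_rpow_of_exponent_le n1 (by linarith))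
    have b6 : 0 ≤ ∑ m ∈ Icc 1 ⌊(N : ℝ) ^ (1 + 6 * δ)⌋₊, ‖f m‖ / m :=
      sum_nonneg fun _ _ => by positivity
    have b7 := U.tau_nonneg l
    calc _ ≤ _ := (st _ l hl1).trans (mul_le_mul_of_nonneg_left
          ((S_mono (st f) K l).trans (mul_le_mul_of_nonneg_left b1 hB)) hB)
      _ = tau l * (N : ℝ) ^ (δ / 2) * l * ((C * (1 + Real.log N)) ^ 2 *
          (1 + Real.log (K * l : ℕ))) * ∑ m ∈ Icc 1 ⌊(N : ℝ) ^ (1 + 6 * δ)⌋₊, ‖f m‖ / m := by ring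
      _ ≤ (N : ℝ) ^ (δ / 2) * (N : ℝ) ^ (δ / 2) * (N : ℝ) ^ δ * (N : ℝ) ^ δ *
          ∑ m ∈ Icc 1 ⌊(N : ℝ) ^ (1 + 6 * δ)⌋₊, ‖f m‖ / m := by gcongr
      _ = _ := by
          rw [hh, ← Real.rpow_add n0, ← Real.rpow_add n0, show δ + δ + δ = 3 * δ by ring]

end Pool.Agent.MP_20b2fd_nt.F5
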