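import Pool.Agent.MP_20b2fd_nt.F5.Spec

/-! The mean value of a primitive quadratic character over a residue class. -/

set_option autoImplicit false

namespace Pool.Agent.MP_20b2fd_nt.F5

open Finset
open Pool.Agent.MP_c5bf7b_nt.H38 (Ch)

namespace RHA

theorem blocks (f : ℕ → ℂ) (a M : ℕ) :
    ∑ x ∈ range (a * M), f x = ∑ s ∈ range M, ∑ r ∈ range a, f (a * s + r) := by
  induction M with
  | zero => simp
  | succ M ih => rw [Nat.mul_succ, sum_range_add, ih, sum_range_succ]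

theorem toZ {D : ℕ} [NeZero D] (f : ZMod D → ℂ) :
    ∑ s ∈ range D, f (s : ZMod D) = ∑ s : ZMod D, f s := by
  refine sum_nbij' (fun s => (s : ZMod D)) (fun s => s.val) (fun _ _ => mem_univ _)
    (fun s _ => mem_range.2 (ZMod.val_lt s)) (fun s hs => ?_) (fun s _ => ?_) (fun _ _ => rfl)
  · exact ZMod.val_cast_of_lt (mem_range.1 hs)
  · exact ZMod.natCast_zmod_val s

theorem shift {D : ℕ} [NeZero D] (χ : Ch D) (hp : χ.IsPrimitive) (a : ℕ) (ha : ¬ D ∣ a)
    (c : ZMod D) : ∑ s : ZMod D, χ (a * s + c) = 0 := by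
  have hd : a.gcd D ∣ D := Nat.gcd_dvd_right a D
  have hn : ¬ χ.FactorsThrough (a.gcd D) := fun h => by
    have h1 := DirichletCharacter.conductor_dvd_of_mem_conductorSet χ h
    rw [hp] at h1
    exact ha (h1.trans (Nat.gcd_dvd_left a D))
  rw [DirichletCharacter.factorsThrough_iff_ker_unitsMap hd] at hn
  obtain ⟨t, ht, ht1⟩ := SetLike.not_le_iff_exists.1 hn
  have ht2 : χ t ≠ 1 := fun h => ht1 (by
    rw [MonoidHom.mem_ker]
    ext
    simpa using h)
  have ht3 : ((t : ZMod D).val : ZMod (a.gcd D)) = 1 := by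
    have := congrArg (fun u : (ZMod (a.gcd D))ˣ => (u : ZMod (a.gcd D))) (MonoidHom.mem_ker.1 ht)
    simpa [ZMod.unitsMap_def, ZMod.natCast_val] using this
  have ht4 : ((a.gcd D : ℕ) : ℤ) ∣ ((t : ZMod D).val : ℤ) - 1 := by
    rw [← ZMod.intCast_zmod_eq_zero_iff_dvd]
    push_cast
    rw [ht3, sub_self]
  obtain ⟨k, hk⟩ := ht4
  have hb := Nat.gcd_eq_gcd_ab a D
  have ht5 : (t : ZMod D) = 1 + a * ((Nat.gcdA a D * k : ℤ) : ZMod D) := by
    have h1 : ((t : ZMod D).val : ℤ) = 1 + (a * Nat.gcdA a D + D * Nat.gcdB a D) * k := by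
      rw [← hb, ← hk]; ring
    have h2 := congrArg (fun z : ℤ => (z : ZMod D)) h1
    simp only [Int.cast_natCast, ZMod.natCast_zmod_val, Int.cast_add, Int.cast_one, Int.cast_mul,
      ZMod.natCast_self, zero_mul, add_zero] at h2
    rw [h2]; push_cast; ring
  set r : ZMod D := ((Nat.gcdA a D * k : ℤ) : ZMod D)
  have key : χ t * ∑ s : ZMod D, χ (a * s + c) = ∑ s : ZMod D, χ (a * s + c) := by
    rw [mul_sum]
    refine Fintype.sum_equiv ((Units.mulLeft t).trans (Equiv.addRight (r * c))) _ _ fun s => ?_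
    rw [← map_mul]
    congr 1
    simp only [Equiv.trans_apply, Units.mulLeft_apply, Equiv.coe_addRight]
    linear_combination c * ht5
  have : (χ t - 1) * ∑ s : ZMod D, χ (a * s + c) = 0 := by linear_combination key
  exact (mul_eq_zero.1 this).resolve_left (sub_ne_zero.2 ht2)

theorem sol (a n : ℕ) (H : ℤ) (ha : 1 ≤ a) (hc : n.Coprime a) :
    ∃ x < a, (a : ℤ) ∣ n * x + H ∧ ∀ r < a, (a : ℤ) ∣ n * r + H → r = x := by
  have hb := Nat.gcd_eq_gcd_ab n a
  rw [hc] at hb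
  have ha0 : (0 : ℤ) < a := by exact_mod_cast ha
  obtain ⟨x, hx⟩ := Int.eq_ofNat_of_zero_le (Int.emod_nonneg (-H * Nat.gcdA n a) ha0.ne')
  have h1 := Int.emod_lt_of_pos (-H * Nat.gcdA n a) ha0
  have h2 := Int.emod_add_mul_ediv (-H * Nat.gcdA n a) a
  rw [hx] at h1 h2
  have h3 : (a : ℤ) ∣ n * x + H :=
    ⟨H * Nat.gcdB n a - n * (-H * Nat.gcdA n a / a), by
      push_cast at hb
      linear_combination n * h2 + H * hb⟩
  refine ⟨x, by exact_mod_cast h1, h3, fun r hr h => ?_⟩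
  have h4 : (a : ℤ) ∣ n * (r - x) := by
    have := dvd_sub h h3
    rwa [show (n : ℤ) * r + H - (n * x + H) = n * (r - x) by ring] at this
  have h5 : (a : ℤ) ∣ (r : ℤ) - x :=
    (Nat.isCoprime_iff_coprime.2 hc.symm).dvd_of_dvd_mul_left h4
  have h6 := Int.eq_zero_of_abs_lt_dvd h5 (by
    have : (r : ℤ) < a := by exact_mod_cast hr
    rw [abs_lt]; constructor <;> omega)
  omega

theorem core {D : ℕ} [NeZero D] (χ : Ch D) (g a n x : ℕ) (H : ℤ) (hx : x < a)
    (h1 : (a : ℤ) ∣ n * x + H) (h2 : ∀ r < a, (a : ℤ) ∣ n * r + H → r = x) :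
    (∑ y ∈ range (g * a * D), if (a : ℤ) ∣ n * y + H then χ y else 0) =
      g * ∑ s : ZMod D, χ (a * s + x) := by
  rw [show g * a * D = a * (D * g) by ring, blocks]
  have h3 : ∀ s : ℕ, (∑ r ∈ range a, if (a : ℤ) ∣ n * ((a * s + r : ℕ) : ℤ) + H then
      χ ((a * s + r : ℕ) : ZMod D) else 0) = χ (a * (s : ZMod D) + x) := fun s => by
    have e : ∀ r : ℕ, (a : ℤ) ∣ n * ((a * s + r : ℕ) : ℤ) + H ↔ (a : ℤ) ∣ n * r + H := fun r => by
      rw [show (n : ℤ) * ((a * s + r : ℕ) : ℤ) + H = a * (n * s) + (n * r + H) by push_cast; ring]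
      exact dvd_add_right (dvd_mul_right _ _)
    rw [sum_eq_single x]
    · rw [if_pos ((e x).2 h1)]; push_cast; rfl
    · intro r hr hne
      exact if_neg fun h => hne (h2 r (mem_range.1 hr) ((e r).1 h))
    · intro h; exact absurd (mem_range.2 hx) h
  simp only [h3]
  rw [blocks]
  have h4 : ∀ u : ℕ, ∑ r ∈ range D, χ (a * ((D * u + r : ℕ) : ZMod D) + x) =
      ∑ s : ZMod D, χ (a * s + x) := fun u => by
    rw [← toZ fun s : ZMod D => χ ((a : ZMod D) * s + x)]
    refine sum_congr rfl fun r _ => ?_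
    simp
  simp only [h4, sum_const, card_range, nsmul_eq_mul]

end RHA

open RHA in
theorem rh : RHS := by
  intro D _ χ α n H hp hsq hα hn
  have hg0 : 0 < n.gcd α := Nat.gcd_pos_of_pos_left _ hn
  obtain ⟨n₁, a, hc, hn1, ha1⟩ := Nat.exists_coprime n α
  generalize n.gcd α = g at hg0 hn1 ha1 ⊢
  have ha : 1 ≤ a := Nat.pos_of_ne_zero fun h => by subst h; omega
  have e1 : α / g = a := by rw [ha1]; exact Nat.mul_div_cancel _ hg0
  have e2 : n / g = n₁ := by rw [hn1]; exact Nat.mul_div_cancel _ hg0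
  have hg : (g : ℤ) ≠ 0 := by exact_mod_cast hg0.ne'
  rw [e1, e2, rho0]
  by_cases hH : (g : ℤ) ∣ H
  · obtain ⟨H₁, rfl⟩ := hH
    rw [Int.mul_ediv_cancel_left _ hg]
    obtain ⟨x, hx, h1, h2⟩ := sol a n₁ H₁ ha hc
    have e3 : ∀ y : ℕ, (α : ℤ) ∣ n * y + g * H₁ ↔ (a : ℤ) ∣ n₁ * y + H₁ := fun y => by
      rw [ha1, hn1, show ((n₁ * g : ℕ) : ℤ) * y + g * H₁ = (n₁ * y + H₁) * g by push_cast; ring]
      push_cast
      exact mul_dvd_mul_iff_right hg
    simp only [e3]
    have e4 := core χ g a n₁ x H₁ hx h1 h2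
    rw [show g * a * D = α * D by rw [ha1]; ring] at e4
    rw [e4]
    by_cases hD : D ∣ a
    · rw [if_pos ⟨dvd_mul_right _ _, hD⟩]
      have e5 : (a : ZMod D) = 0 := (ZMod.natCast_eq_zero_iff _ _).2 hD
      have e6 : ((-H₁ : ℤ) : ZMod D) = n₁ * x := by
        have := (ZMod.intCast_zmod_eq_zero_iff_dvd (n₁ * x + H₁) D).2
          ((Int.natCast_dvd_natCast.2 hD).trans h1)
        push_cast at this ⊢
        linear_combination -this
      have e7 : χ (n₁ : ZMod D) ^ 2 = 1 := by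
        have hu : IsUnit (n₁ : ZMod D) :=
          (ZMod.isUnit_iff_coprime _ _).2 (Nat.Coprime.coprime_dvd_right hD hc)
        rw [← MulChar.pow_apply' χ two_ne_zero, hsq, MulChar.one_apply hu]
      have hD0 : (D : ℂ) ≠ 0 := by exact_mod_cast NeZero.ne D
      have hg1 : (g : ℂ) ≠ 0 := by exact_mod_cast hg0.ne'
      have ha0 : (a : ℂ) ≠ 0 := by exact_mod_cast (by omega : a ≠ 0)
      simp only [e5, zero_mul, zero_add, sum_const, card_univ, ZMod.card, nsmul_eq_mul, e6, map_mul]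
      rw [ha1]
      push_cast
      field_simp
      linear_combination (-χ (x : ZMod D)) * e7
    · rw [if_neg fun h => hD h.2, shift χ hp a hD]
      simp
  · rw [if_neg fun h => hH h.1, sum_eq_zero, mul_zero]
    intro y _
    refine if_neg fun h => hH ?_
    have h1 : (g : ℤ) ∣ α := by rw [ha1]; push_cast; exact dvd_mul_left _ _
    have h2 : (g : ℤ) ∣ n * y := by
      rw [hn1]; push_cast; exact (dvd_mul_left _ _).mul_right _
    exact (dvd_add_right h2).1 (h1.trans h)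

end Pool.Agent.MP_20b2fd_nt.F5
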