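import Pool.Agent.MP_20b2fd_nt.F5.Spec
import Pool.Agent.MP_74e98a_nt.H98.Ker

/-! Moving the line of integration across the origin. -/

set_option autoImplicit false

namespace Pool.Agent.MP_20b2fd_nt.F5

open MeasureTheory Complex Filter Topology Asymptotics
open scoped Real

namespace SHA

/-- far away in the strip -/
def fl (a b : ℝ) : Filter ℂ :=
  comap (fun z : ℂ => |z.im|) atTop ⊓ 𝓟 {z : ℂ | a ≤ z.re ∧ z.re ≤ b}

noncomputable def g (z : ℂ) : ℝ := |z.im|⁻¹

noncomputable def J (σ : ℝ) (F : ℂ → ℂ) : ℂ := ∫ t : ℝ, F (σ + t * I)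

noncomputable def fq (j : ℕ) (u z : ℂ) : ℂ := (z ^ (j + 1) * (z + u))⁻¹

structure K (a b : ℝ) (F : ℂ → ℂ) (h : ℂ → ℝ) : Prop where
  d : ∀ z : ℂ, a ≤ z.re → z.re ≤ b → DifferentiableAt ℂ F z
  o : F =O[fl a b] h

variable {a b : ℝ}

theorem ev (T : ℝ) : ∀ᶠ z in fl a b, T ≤ |z.im| :=
  (tendsto_comap.eventually (eventually_ge_atTop T)).filter_mono inf_le_left

theorem inv_o (u : ℂ) : (fun z => (z + u)⁻¹) =O[fl a b] g := by
  refine .of_bound 2 ((ev (2 * |u.im| + 1)).mono fun z hz => ?_)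
  have h1 := abs_im_le_norm (z + u)
  have h2 := abs_sub (z + u).im u.im
  have h3 := abs_nonneg u.im
  rw [add_im, add_sub_cancel_right, ← add_im] at h2
  rw [g, norm_inv, norm_inv, Real.norm_eq_abs, abs_abs, ← div_eq_mul_inv,
    inv_eq_one_div, div_le_div_iff₀ (by linarith) (by linarith)]
  linarith

theorem g_o : g =O[fl a b] fun _ => (1 : ℝ) := by
  refine .of_bound 1 ((ev 1).mono fun z hz => ?_)
  simpa [g] using inv_le_one_of_one_le₀ hz

theorem pw_o (j : ℕ) : (fun z : ℂ => (z ^ (j + 1))⁻¹) =O[fl a b] g := by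
  have h := inv_o (a := a) (b := b) 0
  simpa [pow_succ, mul_comm] using ((h.trans g_o).pow j).mul h

theorem fq_o (j : ℕ) (u : ℂ) : fq j u =O[fl a b] fun z => g z * g z := by
  exact ((pw_o j).mul (inv_o u)).congr_left fun z => (mul_inv _ _).symm

theorem K.ln {F : ℂ → ℂ} {h : ℂ → ℝ} (k : K a b F h) {σ : ℝ} (h1 : a ≤ σ) (h2 : σ ≤ b) :
    K σ σ F h :=
  ⟨fun z u v => k.d z (h1.trans u) (v.trans h2), k.o.mono (inf_le_inf_left _ (principal_mono.2
    fun _ hz => ⟨h1.trans hz.1, hz.2.trans h2⟩))⟩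

theorem K.sh {F : ℂ → ℂ} (k : K a b F fun z => g z * g z) (hab : a ≤ b) :
    (Integrable fun t : ℝ => F (a + t * I)) ∧ J a F = J b F := by
  obtain ⟨C, C0, hC⟩ := k.o.exists_nonneg
  have h1 := (hC.bound.and (ev 1))
  rw [fl, eventually_inf_principal, eventually_comap, eventually_atTop] at h1
  obtain ⟨T, hT⟩ := h1
  obtain ⟨D, hD⟩ := ((isCompact_Icc (a := a) (b := b)).reProdIm
    (isCompact_Icc (a := -T) (b := T))).exists_bound_of_continuousOn (f := F)
    fun z hz => (k.d z hz.1.1 hz.1.2).continuousAt.continuousWithinAt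
  have := Pool.Agent.MP_74e98a_nt.H98.shift0 (C := 2 * C + |D| * (1 + T ^ 2)) hab k.d
    fun σ t u v => by
      have p : 0 < 1 + t ^ 2 := by positivity
      have D0 := abs_nonneg D
      rw [← div_eq_mul_inv, le_div_iff₀ p]
      rcases le_total T |t| with c | c
      · obtain ⟨e1, e2⟩ := hT |t| c (σ + t * I) (by simp) (by simpa using ⟨u, v⟩)
        simp only [g, add_im, ofReal_im, mul_im, ofReal_re, I_im, mul_one, I_re, mul_zero,
          add_zero, zero_add, ← mul_inv, abs_mul_abs_self, norm_inv, Real.norm_eq_abs] at e1 e2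
        have t1 : 1 ≤ t * t := by nlinarith [abs_mul_abs_self t]
        rw [abs_of_pos (by linarith), ← div_eq_mul_inv, le_div_iff₀ (by linarith)] at e1
        have := norm_nonneg (F (σ + t * I))
        have : 0 ≤ |D| * (1 + T ^ 2) := by positivity
        nlinarith
      · have e1 := (hD (σ + t * I) ⟨by simpa using ⟨u, v⟩, by simpa using abs_le.1 c⟩).trans
          (le_abs_self D)
        have e2 : t ^ 2 ≤ T ^ 2 := sq_le_sq.2 (c.trans (le_abs_self T))
        have : ‖F (σ + t * I)‖ * (1 + t ^ 2) ≤ |D| * (1 + T ^ 2) := by gcongr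
        linarith
  exact ⟨this.1 a le_rfl hab, this.2⟩

theorem i1 {s : ℝ} (hs : 0 < s) : (Integrable fun t : ℝ => (s ^ 2 + t ^ 2)⁻¹) ∧
    ∫ t : ℝ, (s ^ 2 + t ^ 2)⁻¹ = π / s := by
  have e : (fun t : ℝ => (s ^ 2 + t ^ 2)⁻¹) = fun t => (s ^ 2)⁻¹ * (1 + (t / s) ^ 2)⁻¹ := by
    ext t; field_simp
  rw [e]
  refine ⟨(integrable_inv_one_add_sq.comp_div hs.ne').const_mul _, ?_⟩
  rw [integral_const_mul, Measure.integral_comp_div (fun t : ℝ => (1 + t ^ 2)⁻¹),
    integral_univ_inv_one_add_sq, abs_of_pos hs, smul_eq_mul]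
  field_simp

theorem fq_d (j : ℕ) {u z : ℂ} (h1 : z.re ≠ 0) (h2 : z.re + u.re ≠ 0) :
    DifferentiableAt ℂ (fq j u) z :=
  DifferentiableAt.fun_inv (𝕜 := ℂ) (h := fun z : ℂ => z ^ (j + 1) * (z + u)) (by fun_prop)
    (mul_ne_zero (pow_ne_zero _ fun h => h1 (by simp [h])) fun h => h2 (by
      simpa using congrArg re h))

theorem zr (j : ℕ) {u : ℂ} {σ : ℝ} (h1 : 0 < σ) (h2 : 0 < σ + u.re) : J σ (fq j u) = 0 := by
  have t : Tendsto (fun s : ℝ => 2 * (π / s)) atTop (𝓝 0) := by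
    simpa using (tendsto_id.const_div_atTop π).const_mul 2
  refine norm_le_zero_iff.1 (ge_of_tendsto t ?_)
  filter_upwards [eventually_ge_atTop σ, eventually_ge_atTop (2 * ‖u‖ + 1)] with s s1 s2
  have u0 := norm_nonneg u
  have s0 : 0 < s := by linarith
  rw [(K.sh ⟨fun z a _ => fq_d j (by linarith) (by linarith), fq_o j u⟩ s1).2, ← (i1 s0).2,
    ← integral_const_mul]
  refine norm_integral_le_of_norm_le ((i1 s0).1.const_mul 2) (ae_of_all _ fun t => ?_)
  have e1 : s ^ 2 + t ^ 2 = ‖(s : ℂ) + t * I‖ ^ 2 := by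
    rw [Complex.sq_norm, normSq_add_mul_I]
  have e2 : s ≤ ‖(s : ℂ) + t * I‖ := by simpa using re_le_norm ((s : ℂ) + t * I)
  rw [e1, fq]
  generalize (s : ℂ) + t * I = z at *
  have e3 := norm_sub_le (z + u) u
  rw [add_sub_cancel_right] at e3
  have e4 : ‖z‖ ≤ ‖z‖ ^ (j + 1) := le_self_pow₀ (by linarith) (by omega)
  have e5 : ‖z‖ * (‖z‖ / 2) ≤ ‖z‖ ^ (j + 1) * ‖z + u‖ := by
    gcongr; linarith
  have z0 : 0 < ‖z‖ := by linarith
  rw [norm_inv, norm_mul, norm_pow]
  refine (inv_anti₀ (by positivity) e5).trans (le_of_eq ?_)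
  field_simp

theorem zl (j : ℕ) {u : ℂ} {σ : ℝ} (h1 : σ < 0) (h2 : σ + u.re < 0) : J σ (fq j u) = 0 := by
  have := zr j (u := -u) (σ := -σ) (by linarith) (by rw [neg_re]; linarith)
  rw [J, ← integral_neg_eq_self] at this
  rw [J, ← mul_zero ((-1 : ℂ) ^ j), ← this, ← integral_const_mul]
  refine integral_congr_ae (ae_of_all _ fun t => ?_)
  have e : ((-σ : ℝ) : ℂ) + (-t : ℝ) * I = -(σ + t * I) := by push_cast; ring
  simp only [e, fq]
  generalize (σ : ℂ) + t * I = z
  rw [neg_pow z, ← neg_add, pow_succ (-1 : ℂ)]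
  rcases neg_one_pow_eq_or ℂ j with h | h <;> simp [h, -neg_add_rev]

theorem K.ds {Φ : ℂ → ℂ} (k : K a b Φ g) {u : ℂ} (h1 : a < -u.re) (h2 : -u.re < b) :
    K a b (dslope Φ (-u)) g := by
  refine ⟨fun z z1 z2 => ?_, ?_⟩
  · by_cases h : z = -u
    · have n : {z : ℂ | a < z.re ∧ z.re < b} ∈ 𝓝 (-u) :=
        ((isOpen_lt continuous_const continuous_re).inter
          (isOpen_lt continuous_re continuous_const)).mem_nhds ⟨h1, h2⟩
      exact h ▸ ((differentiableOn_dslope n).2 fun w hw =>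
        (k.d w hw.1.le hw.2.le).differentiableWithinAt).differentiableAt n
    · exact (differentiableAt_dslope_of_ne h).2 (k.d z z1 z2)
  · have := ((k.o.trans g_o).sub (isBigO_const_one ℝ (Φ (-u)) _)).mul (inv_o u)
    refine this.congr' ((ev (|u.im| + 1)).mono fun z hz => ?_) (by simp [EventuallyEq])
    have : z ≠ -u := fun h => by simp [h] at hz; linarith
    simp only [dslope_of_ne _ this, slope_def_field, sub_neg_eq_add, div_eq_mul_inv]

theorem K.i0 {Φ : ℂ → ℂ} {σ : ℝ} (k : K σ σ Φ g) (h : σ ≠ 0) (j : ℕ) :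
    Integrable fun t : ℝ => Φ (σ + t * I) / (σ + t * I) ^ (j + 1) :=
  (K.sh (F := fun z => Φ z / z ^ (j + 1)) ⟨fun z u v => (k.d z u v).fun_div (by fun_prop)
    (pow_ne_zero _ fun e => h (by simpa [e] using le_antisymm u v)),
    by simpa only [div_eq_mul_inv] using k.o.mul (pw_o j)⟩ le_rfl).1

theorem iq (j : ℕ) {u : ℂ} {σ : ℝ} (h1 : σ ≠ 0) (h2 : σ + u.re ≠ 0) :
    Integrable fun t : ℝ => fq j u (σ + t * I) :=
  (K.sh ⟨fun z a b => fq_d j (by rwa [le_antisymm b a]) (by rwa [le_antisymm b a]),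
    fq_o j u⟩ le_rfl).1

theorem st {Φ : ℂ → ℂ} {σ : ℝ} {u : ℂ} {j : ℕ} (k : K σ σ (dslope Φ (-u)) g) (h1 : σ ≠ 0)
    (h2 : σ + u.re ≠ 0) (h : J σ (fq j u) = 0) :
    J σ (fun z => Φ z / (z ^ (j + 1) * (z + u))) = J σ fun z => dslope Φ (-u) z / z ^ (j + 1) := by
  rw [← add_zero (J σ fun z => dslope Φ (-u) z / z ^ (j + 1)), ← mul_zero (Φ (-u)), ← h]
  simp only [J]
  rw [← integral_const_mul, ← integral_add (k.i0 h1 j) ((iq j h1 h2).const_mul _)]
  refine integral_congr_ae (ae_of_all _ fun t => ?_)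
  have n1 : (σ : ℂ) + t * I ≠ 0 := fun e => h1 (by simpa using congrArg re e)
  have n2 : (σ : ℂ) + t * I + u ≠ 0 := fun e => h2 (by simpa using congrArg re e)
  simp only [fq]
  generalize (σ : ℂ) + t * I = z at *
  rw [dslope_of_ne _ (by rwa [Ne, eq_neg_iff_add_eq_zero]), slope_def_field, sub_neg_eq_add]
  field_simp
  ring

theorem step {Φ : ℂ → ℂ} (k : K a b Φ g) (ha : a < 0) (hb : 0 < b) {u : ℂ} (h1 : a < -u.re)
    (h2 : -u.re < b) (j : ℕ) :
    J b (fun z => Φ z / (z ^ (j + 1) * (z + u))) - J a (fun z => Φ z / (z ^ (j + 1) * (z + u))) =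
      J b (fun z => dslope Φ (-u) z / z ^ (j + 1)) -
        J a fun z => dslope Φ (-u) z / z ^ (j + 1) := by
  have k' := k.ds h1 h2
  rw [st (k'.ln (by linarith) le_rfl) hb.ne' (by linarith) (zr j hb (by linarith)),
    st (k'.ln le_rfl (by linarith)) ha.ne (by linarith) (zl j ha (by linarith))]

theorem base {Φ : ℂ → ℂ} (k : K a b Φ g) (ha : a < 0) (hb : 0 < b) :
    J b (fun z => Φ z / z ^ (0 + 1)) - J a (fun z => Φ z / z ^ (0 + 1)) = 2 * π * Φ 0 := by
  have k' := k.ds (u := 0) (by simpa) (by simpa)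
  rw [neg_zero] at k'
  obtain ⟨u, hu⟩ : ∃ u : ℂ, u = ((-2 * a : ℝ) : ℂ) := ⟨_, rfl⟩
  have ur : u.re = -2 * a := by rw [hu, ofReal_re]
  have n2 : ∀ z : ℂ, a ≤ z.re → z + u ≠ 0 := fun z h e => by
    have := congrArg re e
    rw [add_re, ur, zero_re] at this
    linarith
  have eF : ∀ z : ℂ, z ≠ 0 → z + u ≠ 0 → dslope Φ 0 z + Φ 0 * (z + u)⁻¹ =
      Φ z / z ^ (0 + 1) - Φ 0 * u * fq 0 u z := fun z h1 h2 => by
    rw [dslope_of_ne _ h1, slope_def_field, fq]
    field_simp
    ring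
  have kF : K a b (fun z => dslope Φ 0 z + Φ 0 * (z + u)⁻¹) fun z => g z * g z := by
    refine ⟨fun z z1 z2 => (k'.d z z1 z2).fun_add ((DifferentiableAt.fun_inv (𝕜 := ℂ)
      (h := fun z : ℂ => z + u) (by fun_prop) (n2 z z1)).const_mul _), ?_⟩
    refine ((k.o.mul (pw_o 0)).sub ((fq_o 0 u).const_mul_left (Φ 0 * u))).congr'
      ((ev 1).mono fun z hz => ?_) EventuallyEq.rfl
    have z1 : z.im ≠ 0 := fun e => by simp [e] at hz; linarith
    exact (eF z (fun e => z1 (by simp [e])) fun e => z1 (by simpa [hu] using congrArg im e)).symm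
  have l : ∀ σ : ℝ, a ≤ σ → σ ≤ b → σ ≠ 0 → J σ (fun z => dslope Φ 0 z + Φ 0 * (z + u)⁻¹) =
      J σ (fun z => Φ z / z ^ (0 + 1)) - Φ 0 * u * J σ (fq 0 u) := fun σ h1 h2 h3 => by
    simp only [J]
    rw [← integral_const_mul, ← integral_sub ((k.ln h1 h2).i0 h3 0)
      ((iq 0 h3 (by linarith)).const_mul _)]
    exact integral_congr_ae (ae_of_all _ fun t => eF _
      (fun e => h3 (by simpa using congrArg re e)) (n2 _ (by simpa)))
  have e := (kF.sh (by linarith)).2
  have v : J a (fq 0 u) = π / a := by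
    have : ∀ t : ℝ, fq 0 u (a + t * I) = -(((-a) ^ 2 + t ^ 2)⁻¹ : ℝ) := fun t => by
      rw [fq, hu]
      push_cast
      rw [neg_inv]
      congr 1
      linear_combination (t : ℂ) ^ 2 * I_mul_I
    simp only [J, this]
    rw [integral_neg, integral_complex_ofReal, (i1 (by linarith)).2]
    push_cast
    rw [div_neg, neg_neg]
  rw [l a le_rfl (by linarith) ha.ne, l b (by linarith) le_rfl hb.ne', zr 0 hb (by linarith), v,
    hu] at e
  have : (a : ℂ) ≠ 0 := ofReal_ne_zero.2 ha.ne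
  have e2 : ((-2 * a : ℝ) : ℂ) * (π / a) = -(2 * π) := by push_cast; field_simp
  linear_combination -e - Φ 0 * e2

theorem main (ha : a < 0) (hb : 0 < b) (j : ℕ) : ∀ {Φ : ℂ → ℂ}, K a b Φ g →
    J b (fun z => Φ z / z ^ (j + 1)) - J a (fun z => Φ z / z ^ (j + 1)) =
      2 * π * (iteratedDeriv j Φ 0 / j.factorial) := by
  induction j with
  | zero => intro Φ k; simpa using base k ha hb
  | succ j ih =>
    intro Φ k
    have k' := k.ds (u := 0) (by simpa) (by simpa)
    have s := step k ha hb (u := 0) (by simpa) (by simpa) j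
    rw [ih k'] at s
    simp only [neg_zero, add_zero, ← pow_succ] at s k'
    rw [s]
    have n : {z : ℂ | a < z.re ∧ z.re < b} ∈ 𝓝 0 :=
      ((isOpen_lt continuous_const continuous_re).inter
        (isOpen_lt continuous_re continuous_const)).mem_nhds ⟨ha, hb⟩
    have an : ∀ {F : ℂ → ℂ}, K a b F g → AnalyticAt ℂ F 0 := fun k =>
      DifferentiableOn.analyticAt (fun w hw => (k.d w hw.1.le hw.2.le).differentiableWithinAt) n
    have := congrArg (fun p => p.coeff j) ((an k').hasFPowerSeriesAt.eq_formalMultilinearSeries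
      (an k).hasFPowerSeriesAt.has_fpower_series_dslope_fslope)
    simp only [FormalMultilinearSeries.coeff_fslope,
      FormalMultilinearSeries.coeff_ofScalars] at this
    rw [this]

end SHA

open SHA in
theorem sh : SHS := by
  intro Φ a b C ha hb h
  have k : K a b Φ g := by
    refine ⟨fun z u v => (h z u v).1, .of_bound |C| ?_⟩
    filter_upwards [ev 1, mem_inf_of_right (mem_principal_self _)] with z z1 z2
    refine (h z z2.1 z2.2).2.trans ?_
    rw [g, norm_inv, Real.norm_eq_abs, abs_abs, ← div_eq_mul_inv]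
    exact div_le_div₀ (abs_nonneg C) (le_abs_self C) (by linarith) (by nlinarith [sq_abs z.im])
  have p : (π : ℂ) ≠ 0 := ofReal_ne_zero.2 Real.pi_ne_zero
  have e : ∀ (F : ℂ → ℂ) (v : ℂ), J b F - J a F = 2 * π * v → ln b F - ln a F = v :=
    fun F v e => by
      rw [ln, ln, ← mul_sub]
      refine (congrArg _ e).trans ?_
      field_simp
  refine ⟨fun j => e _ _ (main ha hb j k), fun j u r M r0 u1 a1 b1 hM => ?_⟩
  have ur := abs_le.1 ((abs_re_le_norm u).trans u1)
  have k' := k.ds (u := u) (by linarith) (by linarith)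
  have M0 : 0 ≤ M := (norm_nonneg _).trans (hM 0 (by simp; linarith))
  rw [e _ _ ((step k ha hb (by linarith) (by linarith) j).trans (main ha hb j k'))]
  have c := norm_iteratedDeriv_le_of_forall_mem_sphere_norm_le (f := dslope Φ (-u)) (c := 0)
    (R := 2 * r) (C := 2 * M / r) j (by linarith) (DifferentiableOn.diffContOnCl fun z hz => by
      rw [closure_ball _ (by linarith), mem_closedBall_zero_iff] at hz
      have := abs_le.1 ((abs_re_le_norm z).trans hz)
      exact (k'.d z (by linarith) (by linarith)).differentiableWithinAt) fun z hz => by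
      rw [mem_sphere_zero_iff_norm] at hz
      have e3 := norm_sub_le (z + u) u
      rw [add_sub_cancel_right] at e3
      have n : z ≠ -u := fun e => by rw [e, norm_neg] at hz; linarith
      rw [dslope_of_ne _ n, slope_def_field, sub_neg_eq_add, norm_div]
      refine div_le_div₀ (by linarith) ((norm_sub_le _ _).trans ?_) r0 (by linarith)
      linarith [hM z hz.le, hM (-u) (by rw [norm_neg]; linarith)]
  have f0 : (0 : ℝ) < j.factorial := by exact_mod_cast j.factorial_pos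
  rw [norm_div, norm_natCast, div_le_iff₀ f0]
  refine c.trans ?_
  rw [pow_succ', ← div_div, mul_comm _ (j.factorial : ℝ), mul_div_assoc]
  gcongr
  linarith

end Pool.Agent.MP_20b2fd_nt.F5
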