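import Pool.Agent.MP_20b2fd_nt.F5.Spec

/-! A sum against an integral. -/

set_option autoImplicit false

namespace Pool.Agent.MP_20b2fd_nt.F5

open MeasureTheory Finset

namespace SIA

/-- one unit interval -/
theorem loc {f : ℝ → ℝ} {a B : ℝ} (hi : IntervalIntegrable f volume a (a + 1))
    (h : ∀ x ∈ Set.Icc a (a + 1), |f x - f a| ≤ B) : |f a - ∫ x in a..(a + 1), f x| ≤ B := by
  have e : ∫ x in a..(a + 1), (f x - f a) = (∫ x in a..(a + 1), f x) - f a := by
    rw [intervalIntegral.integral_sub hi intervalIntegrable_const, intervalIntegral.integral_const]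
    simp
  have h1 := intervalIntegral.norm_integral_le_of_norm_le_const (a := a) (b := a + 1) (C := B)
    (f := fun x => f x - f a) fun x hx => by
      rw [Set.uIoc_of_le (by linarith)] at hx
      exact h x ⟨hx.1.le, hx.2⟩
  rw [e, Real.norm_eq_abs, abs_sub_comm] at h1
  simpa using h1

end SIA

theorem si : SIS := by
  refine ⟨4, by norm_num, fun f f₁ Γ X₀ M₀ M hX hM hMM hΓ hd h0 h1 hb => ?_⟩
  have hc : ContinuousOn f (Set.Ioi 0) := fun x hx => (hd x hx).continuousAt.continuousWithinAt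
  have hM0 : (0 : ℝ) ≤ M := Nat.cast_nonneg M
  have hz : ∀ x ∈ Set.Ioi (0 : ℝ) \ Set.Ioc (1 : ℝ) (M + 1), f x = 0 := fun x hx => by
    by_cases h : x ≤ 1
    · exact h0 x hx.1 (h.trans hX)
    · have : ¬x ≤ M + 1 := fun h' => hx.2 ⟨not_le.1 h, h'⟩
      exact h1 x (by linarith [not_le.1 this])
  have hI : ∀ a b : ℝ, 0 < a → a ≤ b → IntervalIntegrable f volume a b := fun a b ha hab => by
    refine (hc.mono ?_).intervalIntegrable
    rw [Set.uIcc_of_le hab]
    exact fun x hx => ha.trans_le hx.1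
  have hi : IntegrableOn f (Set.Ioc (1 : ℝ) (M + 1)) := (hI 1 (M + 1) one_pos (by linarith)).1
  refine ⟨hi.of_forall_sdiff_eq_zero measurableSet_Ioi hz, ?_⟩
  have e1 : ∫ x in Set.Ioi (0 : ℝ), f x =
      ∑ k ∈ range M, ∫ x in ((k : ℝ) + 1)..((k : ℝ) + 1 + 1), f x := by
    rw [setIntegral_eq_of_subset_of_forall_sdiff_eq_zero measurableSet_Ioi
      (fun x hx => one_pos.trans hx.1) hz, ← intervalIntegral.integral_of_le (by linarith)]
    have := intervalIntegral.sum_integral_adjacent_intervals (f := f) (μ := volume)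
      (a := fun k : ℕ => (k : ℝ) + 1) (n := M) fun k _ =>
        hI _ _ (by positivity) (by push_cast; linarith)
    simpa using this.symm
  have e2 : ∑ x ∈ Icc 1 M, f (x : ℕ) = ∑ k ∈ range M, f ((k : ℝ) + 1) := by
    rw [← Finset.Ico_add_one_right_eq_Icc, sum_Ico_eq_sum_range]
    simp [add_comm]
  rw [e1, e2, ← sum_sub_distrib]
  obtain ⟨g, hg⟩ : ∃ g : ℕ → ℝ, g = fun k : ℕ => 1 / max ((k : ℝ) + 1) (X₀ / 2) := ⟨_, rfl⟩
  have key : ∀ k : ℕ, |f ((k : ℝ) + 1) - ∫ x in ((k : ℝ) + 1)..((k : ℝ) + 1 + 1), f x| ≤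
      2 * Γ * (g k - g (k + 1)) := fun k => by
    have hk : (0 : ℝ) ≤ k := Nat.cast_nonneg k
    have hg0 : 0 ≤ 2 * Γ * (g k - g (k + 1)) := by
      refine mul_nonneg (by positivity) (sub_nonneg.2 ?_)
      rw [hg]
      exact one_div_le_one_div_of_le (lt_max_of_lt_left (by positivity))
        (max_le_max (by push_cast; linarith) le_rfl)
    refine SIA.loc (hI _ _ (by positivity) (by linarith)) fun x hx => ?_
    by_cases c1 : M₀ ≤ (k : ℝ) + 1
    · rw [h1 x (c1.trans hx.1), h1 _ c1]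
      simpa using hg0
    by_cases c2 : (k : ℝ) + 1 + 1 ≤ X₀
    · rw [h0 x (by linarith [hx.1]) (hx.2.trans c2), h0 _ (by positivity) (by linarith)]
      simpa using hg0
    push Not at c1 c2
    have m := norm_image_sub_le_of_norm_deriv_le_segment' (f := f) (f' := f₁)
      (a := (k : ℝ) + 1) (b := (k : ℝ) + 1 + 1) (C := Γ / ((k : ℝ) + 1) ^ 2)
      (fun y hy => (hd y (by linarith [hy.1])).hasDerivWithinAt) (fun y hy => by
        refine (hb y (by linarith [hy.1]) (by linarith [hy.2])).trans ?_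
        exact div_le_div_of_nonneg_left hΓ (by positivity)
          (pow_le_pow_left₀ (by positivity) hy.1 2)) x hx
    refine (m.trans (mul_le_of_le_one_right (by positivity) (by linarith [hx.2]))).trans ?_
    have e3 : g k - g (k + 1) = 1 / (((k : ℝ) + 1) * ((k : ℝ) + 1 + 1)) := by
      rw [hg]
      push_cast
      rw [max_eq_left (by linarith), max_eq_left (by linarith)]
      field_simp
      ring
    rw [e3, mul_one_div, div_le_div_iff₀ (by positivity) (by positivity)]
    nlinarith [mul_nonneg hΓ (mul_nonneg hk (by positivity : 0 ≤ (k : ℝ) + 1))]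
  refine ((abs_sum_le_sum_abs _ _).trans (sum_le_sum fun k _ => key k)).trans ?_
  rw [← mul_sum, sum_range_sub']
  have a1 : g 0 ≤ 2 / X₀ := by
    have hX0 : 0 < X₀ / 2 := by linarith
    rw [hg, ← one_div_div X₀ 2]
    exact one_div_le_one_div_of_le hX0 (le_max_right _ _)
  have a2 : 0 ≤ g M := by
    rw [hg]
    exact one_div_nonneg.2 (le_max_of_le_left (by positivity))
  calc 2 * Γ * (g 0 - g M) ≤ 2 * Γ * (2 / X₀) :=
        mul_le_mul_of_nonneg_left (by linarith) (by positivity)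
    _ = 4 * Γ / X₀ := by ring

end Pool.Agent.MP_20b2fd_nt.F5
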