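import Pool.Agent.MP_20b2fd_nt.F5.Util

/-! The sharp cut against the smooth cut. -/

set_option autoImplicit false

namespace Pool.Agent.MP_20b2fd_nt.F5

open Finset
open Pool.Agent.MP_c5bf7b_nt.H38 (Phi Ch)
open Pool.Agent.MP_20b2fd_nt.H38
open scoped Real

namespace TWA

/-- the operator with given coefficients -/
noncomputable def OP (N : ℕ) (c g : ℕ → ℂ) (n : ℕ) : ℂ := ∑ k ∈ Icc 1 N, c k * Bh g k n

theorem op_le {N n : ℕ} {c g : ℕ → ℂ} {a b : ℝ} (hn : 1 ≤ n) (ha : 0 ≤ a) (hb : 0 ≤ b)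
    (hc : ∀ k ∈ Icc 1 N, ‖c k‖ ≤ a) (hg : ∀ m, 1 ≤ m → m ≤ N * n → ‖g m‖ ≤ b) :
    ‖OP N c g n‖ ≤ a * b * N ^ 3 := by
  have h : ∀ k ∈ Icc 1 N, ‖c k * Bh g k n‖ ≤ a * (N * (N * b)) := fun k hk => by
    obtain ⟨k1, k2⟩ := mem_Icc.1 hk
    have g1 : k.gcd n ≤ N := (Nat.gcd_le_left n k1).trans k2
    rw [norm_mul]
    refine mul_le_mul (hc k hk) ((norm_sum_le _ _).trans ((sum_le_card_nsmul _ _ (N * b)
      fun d hd => ?_).trans ?_)) (norm_nonneg _) ha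
    · have d1 := Nat.dvd_of_mem_divisors hd
      have d2 : d ^ 2 ∣ k * n :=
        sq d ▸ mul_dvd_mul (d1.trans (Nat.gcd_dvd_left _ _)) (d1.trans (Nat.gcd_dvd_right _ _))
      rw [norm_mul, Complex.norm_natCast]
      exact mul_le_mul (Nat.cast_le.2 ((Nat.divisor_le hd).trans g1)) (hg _
        (Nat.div_pos (Nat.le_of_dvd (Nat.mul_pos k1 hn) d2)
          (pow_pos (Nat.pos_of_mem_divisors hd) 2))
        ((Nat.div_le_self _ _).trans (Nat.mul_le_mul_right n k2))) (norm_nonneg _) (Nat.cast_nonneg _)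
    · rw [nsmul_eq_mul]
      exact mul_le_mul_of_nonneg_right
        (Nat.cast_le.2 ((Nat.card_divisors_le_self _).trans g1)) (by positivity)
  refine (norm_sum_le _ _).trans ((sum_le_card_nsmul _ _ _ h).trans (le_of_eq ?_))
  rw [Nat.card_Icc, nsmul_eq_mul, Nat.add_sub_cancel]
  ring

theorem op_sub (N n : ℕ) (c c' g g' : ℕ → ℂ) : OP N c g n - OP N c' g' n =
    OP N (fun k => c k - c' k) g n + OP N c' (fun m => g m - g' m) n := by
  simp only [OP, Bh, mul_sub, sub_mul, sum_sub_distrib]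
  ring

theorem op_sub' (N n : ℕ) (c c' g : ℕ → ℂ) :
    OP N c g n - OP N c' g n = OP N (fun k => c k - c' k) g n := by
  simp only [OP, sub_mul, sum_sub_distrib]

theorem main {N : ℕ} {y w f : ℕ → ℂ} {e : ℝ} (he : 0 ≤ e) (hy : ∀ k ∈ Icc 1 N, ‖y k‖ ≤ N)
    (hw : ∀ k ∈ Icc 1 N, ‖w k‖ ≤ N) (hd : ∀ k ∈ Icc 1 N, ‖y k - w k‖ ≤ e)
    (hf : ∀ m, 1 ≤ m → m ≤ N ^ 3 → ‖f m‖ ≤ (N : ℝ) ^ 10) {n : ℕ} (h1 : 1 ≤ n) (h2 : n ≤ N) :
    ‖OP N y f n - OP N w f n‖ ≤ 2 * N ^ 17 * e ∧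
      ‖OP N y (OP N y f) n - OP N w (OP N w f) n‖ ≤ 2 * N ^ 17 * e := by
  have N1 : (1 : ℝ) ≤ N := by exact_mod_cast h1.trans h2
  have hf' : ∀ m, m ≤ N * N → ∀ l, 1 ≤ l → l ≤ N * m → ‖f l‖ ≤ (N : ℝ) ^ 10 := fun m hm l a b =>
    hf l a (b.trans ((Nat.mul_le_mul_left N hm).trans (le_of_eq (by ring))))
  have a1 : ∀ m, 1 ≤ m → m ≤ N * N → ‖OP N y f m - OP N w f m‖ ≤ e * N ^ 10 * N ^ 3 :=
    fun m a b => op_sub' N m y w f ▸ op_le a he (by positivity) hd (hf' m b)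
  have nn : N * n ≤ N * N := Nat.mul_le_mul_left N h2
  refine ⟨(a1 n h1 (h2.trans (Nat.le_mul_self N))).trans ?_, ?_⟩
  · have : (N : ℝ) ^ 13 ≤ N ^ 17 := pow_le_pow_right₀ N1 (by norm_num)
    have := mul_le_mul_of_nonneg_left this he
    have : 0 ≤ e * N ^ 17 := by positivity
    linarith
  · rw [op_sub]
    refine (norm_add_le_of_le (op_le h1 he (by positivity) hd fun m a b => op_le a
      (Nat.cast_nonneg N) (by positivity) hy (hf' m (b.trans nn))) (op_le h1 (Nat.cast_nonneg N)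
      (by positivity) hw fun m a b => a1 m a (b.trans nn))).trans (le_of_eq (by ring))

theorem xr_eq {D : ℕ} {χ : Ch D} (h : χ ^ 2 = 1) (k : ℕ) : ((xr χ k : ℝ) : ℂ) = χ k := by
  unfold xr
  rw [Int.cast_natCast]
  rcases MulChar.isQuadratic_iff_sq_eq_one.2 h (k : ZMod D) with e | e | e <;> simp [e]

theorem ty_eq {D N : ℕ} {χ : Ch D} {θ : ℝ} {w : ℕ → ℂ} (h0 : k0 θ N ≤ N)
    (h : ∀ k ∈ Icc 1 (k0 θ N), ((yk χ N k : ℝ) : ℂ) = w k) (f : ℕ → ℝ) :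
    (fun n => ((TY χ θ N f n : ℝ) : ℂ)) =
      OP N (fun k => if k ≤ k0 θ N then w k else 0) fun m => (f m : ℝ) := by
  funext n
  simp only [TY, Op, OP, ite_mul, zero_mul, id]
  rw [← sum_filter, show (Icc 1 N).filter (· ≤ k0 θ N) = Icc 1 (k0 θ N) by
    ext k; simp only [mem_filter, mem_Icc]; omega, Complex.ofReal_sum]
  refine sum_congr rfl fun k hk => ?_
  rw [Complex.ofReal_mul, h k hk, Bh, Bh]
  push_cast
  rfl

theorem wk_le {D : ℕ} (χ : Ch D) (W : ℝ → ℝ) (Q : ℝ) {k : ℕ} (hk : 1 ≤ k) :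
    ‖wk χ W Q k‖ ≤ |W (k / Q)| := by
  rw [wk, norm_div, norm_mul, Complex.norm_real, Complex.norm_natCast, Real.norm_eq_abs]
  exact (div_le_self (by positivity) (by exact_mod_cast hk)).trans
    (mul_le_of_le_one_left (abs_nonneg _) (χ.norm_le_one _))

end TWA

open TWA in
theorem twOf : TWOf := by
  rintro ⟨C, hC, -, -, -, hV⟩ θ θ0 θ1
  obtain ⟨N₁, h3, hN₁⟩ := U.ev_log (2 * C) 1 one_pos
  obtain ⟨N₂, -, hN₂⟩ := U.ev_exp 2 17 (half_pos θ0)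
  refine ⟨max N₁ N₂, fun N D _ χ hN hp ⟨q1, q2, q3, q4⟩ => ?_⟩
  replace hN₁ := hN₁ N ((le_max_left _ _).trans hN)
  replace hN₂ := hN₂ N ((le_max_right _ _).trans hN)
  rw [pow_one, Real.rpow_one] at hN₁
  have N1 : (1 : ℝ) < N := by exact_mod_cast hp.one_lt
  have N0 : (0 : ℝ) < N := by linarith
  have D0 : 0 < D := NeZero.pos D
  have D1 : (1 : ℝ) ≤ D := by exact_mod_cast D0
  have DN : (D : ℝ) < N := q4.trans_lt (by
    simpa using Real.rpow_lt_rpow_of_exponent_lt N1 (show θ / 2 < 1 by linarith))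
  have hj : jj χ N = 0 ∨ jj χ N = 1 := by
    unfold jj
    split_ifs <;> simp
  refine ⟨⟨hp, q1, q3, q2, q4.trans (Real.rpow_le_rpow_of_exponent_le N1.le (by linarith)), hj, ?_⟩,
    fun f hf n h1 h2 => ?_⟩
  · have u : IsUnit (N : ZMod D) := (ZMod.isUnit_iff_coprime N D).2
      (hp.coprime_iff_not_dvd.2 (Nat.not_dvd_of_pos_of_lt D0 (by exact_mod_cast DN)))
    have := MulChar.isQuadratic_iff_sq_eq_one.2 q3 (-(N : ZMod D))
    have h0 : χ (-(N : ZMod D)) ≠ 0 := (u.neg.map χ).ne_zero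
    unfold jj
    push_cast
    split_ifs with h
    · rw [h, pow_zero]
    · rw [pow_one]
      tauto
  obtain ⟨-, v1, v2⟩ := hV _ hj
  obtain ⟨⟨⟨W₁, v2⟩, -⟩, v3⟩ := v2 ((N : ℝ) ^ (2 * θ)) (Real.one_le_rpow N1.le (by linarith))
  have s1 : 1 ≤ √(N : ℝ) := Real.one_le_sqrt.2 N1.le
  have s2 : √(N : ℝ) ≤ N := Real.sqrt_le_iff.2 ⟨N0.le, by nlinarith⟩
  have Q1 : 1 ≤ Qc D N := one_le_mul_of_one_le_of_one_le D1 s1
  have Q0 : 0 < Qc D N := by linarith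
  have e1 : (N : ℝ) ^ (1 / 2 + θ) = N ^ θ * √(N : ℝ) := by
    rw [Real.rpow_add N0, Real.sqrt_eq_rpow, mul_comm]
  have x0 : ∀ k : ℕ, 1 ≤ k → 0 < k / Qc D N := fun k hk => div_pos (by exact_mod_cast hk) Q0
  set w := wk χ (Wc (jj χ N) ((N : ℝ) ^ (2 * θ))) (Qc D N) with hw
  have a1 : ∀ k ∈ Icc 1 N, ‖w k‖ ≤ N := fun k hk => by
    obtain ⟨k1, k2⟩ := mem_Icc.1 hk
    have k3 : (1 : ℝ) ≤ k := by exact_mod_cast k1
    have l1 := Real.log_nonneg k3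
    have l2 : Real.log k ≤ Real.log N := Real.log_le_log (by linarith) (by exact_mod_cast k2)
    have l3 := Real.log_nonneg Q1
    have l4 : Real.log (Qc D N) ≤ Real.log (N ^ 2) :=
      Real.log_le_log Q0 (sq (N : ℝ) ▸ mul_le_mul DN.le s2 (by linarith) N0.le)
    rw [Real.log_pow, Nat.cast_ofNat] at l4
    have l5 : |Real.log (k / Qc D N)| ≤ 2 * Real.log N := by
      rw [Real.log_div (by linarith) Q0.ne', abs_le]
      constructor <;> linarith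
    refine (wk_le χ _ _ k1).trans ((v2 _ (x0 k k1)).2.1.trans ?_)
    nlinarith
  have a2 : ∀ k ∈ Icc 1 (k0 θ N), ((yk χ N k : ℝ) : ℂ) = w k := fun k hk => by
    obtain ⟨k1, k2⟩ := mem_Icc.1 hk
    have k3 : (k : ℝ) ≤ N ^ θ * √(N : ℝ) := e1 ▸ (Nat.le_floor_iff (by positivity)).1 k2
    have k4 : k / Qc D N < N ^ (2 * θ) := by
      refine lt_of_le_of_lt ((div_le_iff₀ Q0).2 (k3.trans (mul_le_mul_of_nonneg_left ?_
        (by positivity)))) (Real.rpow_lt_rpow_of_exponent_lt N1 (by linarith))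
      exact le_mul_of_one_le_left (by linarith) D1
    have := v3 _ (x0 k k1)
    rw [if_neg (not_le.2 k4), abs_nonpos_iff, sub_eq_zero] at this
    rw [hw, yk, wk, this, ← xr_eq q3]
    push_cast
    rfl
  have a3 : ∀ k ∈ Icc 1 N, ‖(if k ≤ k0 θ N then w k else 0) - w k‖ ≤
      Real.exp (-(N : ℝ) ^ (θ / 2)) := fun k hk => by
    have k1 := (mem_Icc.1 hk).1
    split_ifs with h
    · rw [sub_self, norm_zero]
      positivity
    have k3 : N ^ θ * √(N : ℝ) < k := e1 ▸ (Nat.floor_lt (by positivity)).1 (not_le.1 h)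
    have p1 : 1 ≤ (N : ℝ) ^ (θ / 2) := Real.one_le_rpow N1.le (by linarith)
    have k4 : (N : ℝ) ^ (θ / 2) ≤ k / Qc D N := by
      refine (le_div_iff₀ Q0).2 (le_trans ?_ k3.le)
      rw [Qc, ← mul_assoc, ← add_halves θ, Real.rpow_add N0, add_halves]
      gcongr
    obtain ⟨b1, b2, -⟩ := v1 _ (x0 k k1)
    rw [zero_sub, norm_neg]
    refine (wk_le χ _ _ k1).trans ?_
    rw [Wc, abs_mul, abs_of_nonneg b1, abs_of_nonneg bm.nonneg]
    refine (mul_le_of_le_one_right b1 bm.le_one).trans ((b2 (p1.trans k4)).trans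
      (Real.exp_le_exp.2 ?_))
    nlinarith [Real.pi_gt_three]
  have h0 : k0 θ N ≤ N := Nat.floor_le_of_le (by
    simpa using Real.rpow_le_rpow_of_exponent_le N1.le (show 1 / 2 + θ ≤ 1 by linarith))
  obtain ⟨m1, m2⟩ := main (f := fun m => (f m : ℝ)) (Real.exp_pos _).le (fun k hk => by
    split_ifs
    exacts [a1 k hk, by simp]) a1 a3 (fun m a b => by simpa using hf m a b) h1 h2
  refine ⟨le_trans (le_of_eq ?_) (m1.trans hN₂), le_trans (le_of_eq ?_) (m2.trans hN₂)⟩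
  · rw [← ty_eq h0 a2]
    rfl
  · rw [← ty_eq h0 a2 f, ← ty_eq h0 a2]
    rfl

end Pool.Agent.MP_20b2fd_nt.F5
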