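import Pool.Agent.MP_20b2fd_nt.F5.Spec

/-! Summation by parts in two variables. -/

set_option autoImplicit false

namespace Pool.Agent.MP_20b2fd_nt.F5

open Finset

namespace VAA

theorem abel (f c : ℕ → ℂ) (M : ℕ) : ∑ x ∈ Icc 1 M, f x * c x =
    ∑ X ∈ Icc 1 M, (f X - f (X + 1)) * ∑ x ∈ Icc 1 X, c x + f (M + 1) * ∑ x ∈ Icc 1 M, c x := by
  induction M with
  | zero => simp
  | succ M ih =>
    simp only [sum_Icc_succ_top (Nat.le_add_left 1 M), ih]
    ring

theorem abel2 (F c : ℕ → ℕ → ℂ) (M : ℕ) (h : ∀ x, F x (M + 1) = 0 ∧ F (M + 1) x = 0) :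
    ∑ x ∈ Icc 1 M, ∑ y ∈ Icc 1 M, F x y * c x y = ∑ Y ∈ Icc 1 M, ∑ X ∈ Icc 1 M,
      ((F (X + 1) (Y + 1) - F (X + 1) Y) - (F X (Y + 1) - F X Y)) *
        ∑ x ∈ Icc 1 X, ∑ y ∈ Icc 1 Y, c x y := by
  simp only [abel (F _) (c _) M, (h _).1, zero_mul, add_zero]
  rw [sum_comm]
  refine sum_congr rfl fun Y _ => ?_
  rw [abel (fun x => F x Y - F x (Y + 1)), (h _).2, (h _).2, sub_zero, zero_mul, add_zero]
  exact sum_congr rfl fun X _ => by ring

theorem mvt (f f' : ℝ → ℝ) {t K : ℝ}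
    (h : ∀ x ∈ Set.Icc t (t + 1), HasDerivAt f (f' x) x ∧ |f' x| ≤ K) : |f (t + 1) - f t| ≤ K := by
  simpa using norm_image_sub_le_of_norm_deriv_le_segment' (fun x hx => (h x hx).1.hasDerivWithinAt)
    (fun x hx => (h x (Set.Ico_subset_Icc_self hx)).2) (t + 1) (by simp)

theorem tail {m : ℝ} (hm : 0 < m) (M : ℕ) :
    ∑ X ∈ Icc 1 M, (if m ≤ X then ((X : ℝ) ^ 2)⁻¹ else 0) ≤ 2 / m := by
  have c := Nat.ceil_pos.2 hm
  rw [← sum_filter]
  refine (sum_le_sum_of_subset_of_nonneg (t := Ioo (⌈m⌉₊ - 1) (M + 1)) (fun X hX => ?_)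
    fun _ _ _ => by positivity).trans ((sum_Ioo_inv_sq_le _ _).trans ?_)
  · simp only [mem_filter, mem_Icc, ← Nat.ceil_le] at hX
    rw [mem_Ioo]
    omega
  · rw [Nat.cast_pred c, sub_add_cancel]
    exact div_le_div_of_nonneg_left two_pos.le hm (Nat.le_ceil m)

theorem m3 {a b c a' b' c' : ℝ} (h1 : |a| ≤ a') (h2 : |b| ≤ b') (h3 : |c| ≤ c') :
    |a * b * c| ≤ a' * b' * c' := by
  rw [abs_mul, abs_mul]
  have := (abs_nonneg a).trans h1
  have := (abs_nonneg b).trans h2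
  gcongr

end VAA

open VAA in
theorem va : VAS := by
  refine ⟨320, by norm_num, fun a a₁ b b₁ G G₁ G₂ A Γ M₀ m₀ S M c h1 h8 hM hd ha h0 hG hG0 hS => ?_⟩
  have S0 : 0 ≤ S := by simpa using hS 0 0 (by simp; linarith) (by simp; linarith)
  have Γ0 : 0 ≤ Γ := (abs_nonneg _).trans (hG 1 le_rfl (by nlinarith)).1
  have m0 : 0 < m₀ := by linarith
  have M1 : M₀ ≤ (M + 1 : ℕ) := by push_cast; linarith
  rw [abel2 (fun x y => ((a x * b y * G (x * y) : ℝ) : ℂ)) c M fun x => by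
    simp only [(h0 _ M1).1, (h0 _ M1).2]; simp]
  let u : ℕ → ℝ := fun X => if m₀ / (4 * M₀) ≤ X then ((X : ℝ) ^ 2)⁻¹ else 0
  have u0 : ∀ X, 0 ≤ u X := fun X => by simp only [u]; positivity
  refine (norm_sum_le_of_le _ (n := fun Y => ∑ X ∈ Icc 1 M, 5 * A ^ 2 * Γ * S * (u Y * u X))
    fun Y hY => norm_sum_le_of_le _ fun X hX => ?_).trans ?_
  · have X1 : (1 : ℝ) ≤ X := Nat.one_le_cast.2 (mem_Icc.1 hX).1
    have Y1 : (1 : ℝ) ≤ Y := Nat.one_le_cast.2 (mem_Icc.1 hY).1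
    have p0 : 0 ≤ 5 * A ^ 2 * Γ * S * (u Y * u X) := by
      have := u0 X
      have := u0 Y
      positivity
    rw [← Complex.ofReal_sub, ← Complex.ofReal_sub, ← Complex.ofReal_sub, norm_mul,
      Complex.norm_real, Real.norm_eq_abs]
    push_cast
    rcases le_or_gt M₀ X with hx | hx
    · simpa [(h0 _ hx).1, (h0 (X + 1) (by linarith)).1] using p0
    rcases le_or_gt M₀ Y with hy | hy
    · simpa [(h0 _ hy).2, (h0 (Y + 1) (by linarith)).2] using p0
    by_cases q : m₀ / (4 * M₀) ≤ X ∧ m₀ / (4 * M₀) ≤ Y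
    swap
    · have w : ((X : ℝ) + 1) * (Y + 1) ≤ m₀ := by
        rcases not_and_or.1 q with q | q <;> rw [not_le, lt_div_iff₀ (by positivity)] at q <;>
          nlinarith
      rw [hG0 _ (by positivity) w, hG0 (_ * Y) (by positivity) (by nlinarith),
        hG0 (X * _) (by positivity) (by nlinarith), hG0 (X * Y) (by positivity) (by nlinarith)]
      simpa using p0
    refine (mul_le_mul (mvt (K := 5 * A ^ 2 * Γ * (u Y * u X))
      (fun x => a x * b (Y + 1) * G (x * (Y + 1)) - a x * b Y * G (x * Y))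
      (fun x => (a₁ x * b (Y + 1) * G (x * (Y + 1)) +
        a x * b (Y + 1) * (G₁ (x * (Y + 1)) * (Y + 1))) -
        (a₁ x * b Y * G (x * Y) + a x * b Y * (G₁ (x * Y) * Y))) fun x hx' => ⟨?_, ?_⟩)
      (hS X Y hx.le hy.le) (norm_nonneg _) ?_).trans_eq (by ring)
    · have x0 : 0 < x := by linarith [hx'.1]
      have d : ∀ y, 0 < y → HasDerivAt (fun x => a x * b y * G (x * y))
          (a₁ x * b y * G (x * y) + a x * b y * (G₁ (x * y) * y)) x := fun y hy =>
        ((hd x x0).1.mul_const _).mul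
          ((hd _ (mul_pos x0 hy)).2.2.1.comp x (hasDerivAt_mul_const y))
      exact (d _ (by positivity)).sub (d _ (by positivity))
    · have x1 : 1 ≤ x := X1.trans hx'.1
      refine mvt (fun y => a₁ x * b y * G (x * y) + a x * b y * (G₁ (x * y) * y))
        (fun y => (a₁ x * b₁ y * G (x * y) + a₁ x * b y * (G₁ (x * y) * x)) +
          (a x * b₁ y * (G₁ (x * y) * y) + a x * b y * (G₂ (x * y) * x * y + G₁ (x * y) * 1)))
        fun y hy' => ?_
      have y1 : 1 ≤ y := Y1.trans hy'.1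
      obtain ⟨-, -, d1, d2⟩ := hd (x * y) (by positivity)
      have d3 := (hd y (by positivity)).2.1
      have d4 : HasDerivAt (x * ·) x y := by simpa using (hasDerivAt_id y).const_mul x
      refine ⟨((d3.const_mul _).mul (d1.comp y d4)).add
        ((d3.const_mul _).mul ((d2.comp y d4).mul (hasDerivAt_id y))), ?_⟩
      obtain ⟨e1, e2, -⟩ := ha x x1 (by linarith [hx'.2])
      obtain ⟨-, -, e3, e4⟩ := ha y y1 (by linarith [hy'.2])
      obtain ⟨e5, e6, e7⟩ := hG (x * y) (by nlinarith) (by nlinarith [hx'.2, hy'.2])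
      have k : ∀ {g t s : ℝ}, |g| ≤ s → 0 ≤ t → |g * t| ≤ s * t := fun h ht => by
        rw [abs_mul, abs_of_nonneg ht]
        exact mul_le_mul_of_nonneg_right h ht
      have x0 : 0 < x := by linarith
      have y0 : 0 < y := by linarith
      refine ((abs_add_le _ _).trans (add_le_add ((abs_add_le _ _).trans (add_le_add (m3 e2 e4 e5)
        (m3 e2 e3 (k e6 x0.le)))) ((abs_add_le _ _).trans (add_le_add (m3 e1 e4 (k e6 y0.le))
        (m3 e1 e3 ((abs_add_le _ _).trans (add_le_add (k (k e7 x0.le) y0.le)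
        (k e6 zero_le_one)))))))).trans ?_
      refine le_trans (le_of_eq (b := 5 * A ^ 2 * Γ * ((y ^ 2)⁻¹ * (x ^ 2)⁻¹)) ?_) ?_
      · field_simp
        ring
      · simp only [u, if_pos q.1, if_pos q.2]
        gcongr
        exacts [hy'.1, hx'.1]
    · have := u0 X
      have := u0 Y
      positivity
  · simp only [← mul_sum]
    rw [← sum_mul]
    have t := tail (m := m₀ / (4 * M₀)) (by positivity) M
    refine (mul_le_mul_of_nonneg_left (mul_le_mul t t (sum_nonneg fun _ _ => u0 _)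
      (by positivity)) (by positivity)).trans_eq ?_
    field_simp
    ring

end Pool.Agent.MP_20b2fd_nt.F5
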