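import Pool.Agent.MP_20b2fd_nt.F5.Spec

/-! The sum over the shifts as a line integral. -/

set_option autoImplicit false

namespace Pool.Agent.MP_20b2fd_nt.F5

open MeasureTheory Complex Set Filter
open Pool.Agent.MP_20b2fd_nt.H38
open scoped Real

namespace ZAA

theorem subst (F : ℝ → ℂ) {c : ℝ} (hc : 0 < c) :
    ∫ x in Ioi (0 : ℝ), (x : ℂ)⁻¹ * F (c / x) = ∫ t in Ioi (0 : ℝ), (t : ℂ)⁻¹ * F t := by
  have h1 := mellin_comp_inv (fun t => F (c * t)) 0
  rw [neg_zero, mellin_comp_mul_left _ _ hc] at h1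
  simpa [mellin, cpow_neg_one, div_eq_mul_inv] using h1

theorem cp {x : ℝ} (hx : 0 < x) (u : ℂ) : (x : ℂ) ^ u = exp (Real.log x * u) := by
  rw [cpow_def_of_ne_zero (by exact_mod_cast hx.ne'), ofReal_log hx.le]

theorem nrm {x : ℝ} (hx : 0 < x) (τ : ℝ) : ‖(x : ℂ) ^ (((2 : ℝ) : ℂ) + τ * I)‖ = x ^ 2 := by
  rw [norm_cpow_eq_rpow_re_of_pos hx]
  simp

theorem nrm' {x : ℝ} (hx : 0 < x) (τ : ℝ) :
    ‖(x : ℂ) ^ (-(((2 : ℝ) : ℂ) + τ * I))‖ = (x ^ 2)⁻¹ := by rw [cpow_neg, norm_inv, nrm hx]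

theorem cont {x : ℝ} (hx : 0 < x) :
    Continuous fun τ : ℝ => (x : ℂ) ^ (((2 : ℝ) : ℂ) + τ * I) := by
  simp only [cp hx]
  fun_prop

theorem cont' {x : ℝ} (hx : 0 < x) :
    Continuous fun τ : ℝ => (x : ℂ) ^ (-(((2 : ℝ) : ℂ) + τ * I)) := by
  simp only [cp hx]
  fun_prop

theorem fub {G κ : ℝ → ℂ} (hG : Integrable G) (hκ : ContinuousOn κ (Ioi 0))
    (hi : IntegrableOn (fun t => t * ‖κ t‖) (Ioi 0)) :
    (Integrable fun τ : ℝ => G τ * mellin κ ((2 : ℝ) + τ * I)) ∧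
    IntegrableOn (fun t : ℝ => ∫ τ : ℝ, G τ * ((t : ℂ) ^ (((2 : ℝ) : ℂ) + τ * I - 1) * κ t))
      (Ioi 0) ∧
    ∫ t in Ioi (0 : ℝ), ∫ τ : ℝ, G τ * ((t : ℂ) ^ (((2 : ℝ) : ℂ) + τ * I - 1) * κ t) =
      ∫ τ : ℝ, G τ * mellin κ ((2 : ℝ) + τ * I) := by
  have h : Integrable (Function.uncurry fun t τ : ℝ =>
      G τ * ((t : ℂ) ^ (((2 : ℝ) : ℂ) + τ * I - 1) * κ t))
      ((volume.restrict (Ioi 0)).prod volume) := by
    refine (Integrable.mul_prod hi hG.norm).mono' (hG.1.comp_snd.mul (AEStronglyMeasurable.mul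
      (Measurable.aestronglyMeasurable (by fun_prop))
      (hκ.aestronglyMeasurable measurableSet_Ioi).comp_fst)) ?_
    filter_upwards [Measure.quasiMeasurePreserving_fst.ae (ae_restrict_mem measurableSet_Ioi)]
      with z hz
    simp only [Function.uncurry, norm_mul]
    rw [norm_cpow_eq_rpow_re_of_pos hz]
    norm_num [mul_comm]
  refine ⟨?_, h.integral_prod_left, ?_⟩
  · simpa [integral_const_mul, mellin] using h.integral_prod_right
  · simpa [integral_const_mul, mellin] using integral_integral_swap h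

theorem gint {C : ℝ} (j : ℕ) (h1 : ∀ u : ℂ, -1 < u.re → DifferentiableAt ℂ gm u)
    (h2 : ∀ u : ℂ, -1 / 2 ≤ u.re → u.re ≤ 2 → ‖gm u‖ ≤ C / (1 + |u.im|) ^ 10) :
    Integrable fun τ : ℝ => gm ((2 : ℝ) + τ * I) / (((2 : ℝ) : ℂ) + τ * I) ^ (j + 1) := by
  have n1 : ∀ τ : ℝ, 1 ≤ ‖((2 : ℝ) : ℂ) + τ * I‖ := fun τ =>
    le_trans (by simp) (re_le_norm _)
  refine (integrable_inv_one_add_sq.const_mul C).mono' (Continuous.aestronglyMeasurable
    (Continuous.div (continuous_iff_continuousAt.2 fun τ => ContinuousAt.comp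
      (f := fun τ : ℝ => ((2 : ℝ) : ℂ) + τ * I) (h1 _ (by simp; norm_num)).continuousAt
      (by fun_prop)) (by fun_prop) fun τ => pow_ne_zero _ fun e => ?_))
    (Eventually.of_forall fun τ => ?_)
  · have := n1 τ
    rw [e, norm_zero] at this
    linarith
  · have h := h2 ((2 : ℝ) + τ * I) (by simp; norm_num) (by simp)
    have C0 : 0 ≤ C := by
      have := (norm_nonneg _).trans h
      by_contra hn
      exact absurd this (not_le.2 (div_neg_of_neg_of_pos (not_le.1 hn) (by positivity)))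
    rw [norm_div, norm_pow]
    refine (div_le_self (norm_nonneg _) (one_le_pow₀ (n1 τ))).trans (h.trans ?_)
    rw [← div_eq_mul_inv]
    refine div_le_div_of_nonneg_left C0 (by positivity) ?_
    have a := abs_nonneg τ
    simp only [add_im, ofReal_im, mul_im, ofReal_re, I_im, I_re, mul_one, mul_zero, add_zero,
      zero_add]
    refine le_trans ?_ (pow_le_pow_right₀ (by linarith) (show 2 ≤ 10 by norm_num))
    nlinarith [sq_abs τ]

theorem dec {R x : ℝ} (hR : 1 ≤ R) (hx : R ≤ x) :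
    Real.exp (-2 * π * x) ≤ 2 * Real.exp (-R) / x ^ 2 := by
  have x0 : 0 < x := by linarith
  have h1 : Real.exp (-2 * π * x) ≤ Real.exp (-R) * Real.exp (-x) := by
    rw [← Real.exp_add]
    exact Real.exp_le_exp.2 (by nlinarith [Real.pi_gt_three])
  have h2 : Real.exp (-x) ≤ 2 / x ^ 2 := by
    rw [Real.exp_neg, inv_eq_one_div, div_le_div_iff₀ (Real.exp_pos _) (by positivity)]
    linarith [Real.quadratic_le_exp_of_nonneg x0.le]
  calc _ ≤ Real.exp (-R) * (2 / x ^ 2) := h1.trans (by gcongr)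
    _ = _ := by ring

end ZAA

open ZAA in
theorem zaOf : ZAOf := by
  rintro ⟨C, -, h1, -, h2, h3⟩
  refine ⟨2, one_le_two, fun j κ a Q v R hj hQ hv hR hκ hi a0 hs => ?_⟩
  obtain ⟨vc, hV, hW⟩ := h3 j hj
  have hP : 0 < Q * v := mul_pos hQ hv
  set P := Q * v with hPe
  set g : ℂ → ℂ := fun u => gm u / u ^ (j + 1) with hg
  have gi : Integrable fun τ : ℝ => g ((2 : ℝ) + τ * I) := gint j h1 h2
  have gP : Integrable fun τ : ℝ => g ((2 : ℝ) + τ * I) * (P : ℂ) ^ (((2 : ℝ) : ℂ) + τ * I) :=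
    gi.mul_bdd (cont hP).aestronglyMeasurable (Eventually.of_forall fun τ => (nrm hP τ).le)
  set Φ : ℝ → ℂ := fun τ => g ((2 : ℝ) + τ * I) * (P : ℂ) ^ (((2 : ℝ) : ℂ) + τ * I) *
    mellin κ ((2 : ℝ) + τ * I) with hΦ
  have Φi : Integrable Φ := (fub gP hκ hi).1
  set b : ℕ → ℝ → ℂ := fun h τ => a h * (h : ℂ) ^ (-(((2 : ℝ) : ℂ) + τ * I)) with hb
  have hb1 : ∀ h : ℕ, Continuous (b h) ∧ ∀ τ, ‖b h τ‖ = ‖a h‖ / (h : ℝ) ^ 2 := fun h => by
    rcases Nat.eq_zero_or_pos h with rfl | h0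
    · simp [hb, a0, continuous_const]
    · have h0' : (0 : ℝ) < h := by exact_mod_cast h0
      exact ⟨continuous_const.mul (cont' h0'), fun τ => by
        rw [hb, norm_mul, div_eq_mul_inv, ← nrm' h0' τ]; rfl⟩
  have S1 := hasSum_integral_of_summable_integral_norm (μ := volume)
    (F := fun h τ => Φ τ * b h τ) (fun h => Φi.mul_bdd (hb1 h).1.aestronglyMeasurable
      (Eventually.of_forall fun τ => ((hb1 h).2 τ).le)) (by
        simp only [norm_mul, (hb1 _).2, integral_mul_const]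
        exact hs.mul_left _)
  simp only [tsum_mul_left] at S1
  refine ⟨Φi.mul_bdd (continuous_tsum (fun h => (hb1 h).1) hs
    fun h τ => ((hb1 h).2 τ).le).aestronglyMeasurable (Eventually.of_forall fun τ =>
      tsum_of_norm_bounded hs.hasSum fun h => ((hb1 h).2 τ).le), ?_⟩
  have S2 := S1.mul_left (1 / (2 * π) : ℂ)
  set M := ∫ t in Ioi (0 : ℝ), t * ‖κ t‖ with hM
  have key : ∀ h : ℕ, ‖a h * (∫ x in Ioi (0 : ℝ), ((Wc j R (x / Q) / x : ℝ) : ℂ) * κ (h / (v * x)))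
      - 1 / (2 * π) * ∫ τ, Φ τ * b h τ‖
      ≤ 2 * Real.exp (-R) * P ^ 2 * M * (‖a h‖ / (h : ℝ) ^ 2) := fun h => by
    rcases Nat.eq_zero_or_pos h with rfl | h0
    · simp [hb, a0]
    have h0' : (0 : ℝ) < h := by exact_mod_cast h0
    have e1 : ∫ x in Ioi (0 : ℝ), ((Wc j R (x / Q) / x : ℝ) : ℂ) * κ (h / (v * x)) =
        ∫ t in Ioi (0 : ℝ), (t : ℂ)⁻¹ * ((Wc j R (h / (P * t)) : ℝ) * κ t) := by
      rw [← subst _ (div_pos h0' hv)]
      refine setIntegral_congr_fun measurableSet_Ioi fun x (hx : 0 < x) => ?_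
      have : h / (P * (h / v / x)) = x / Q := by rw [hPe]; field_simp
      simp only [this]
      rw [div_div]
      push_cast
      ring
    obtain ⟨-, f2, f3⟩ := fub (gP.mul_bdd (cont' h0').aestronglyMeasurable
      (Eventually.of_forall fun τ => (nrm' h0' τ).le)) hκ hi
    have e2 : ∀ t ∈ Ioi (0 : ℝ), 1 / (2 * π) * ∫ τ : ℝ,
        g ((2 : ℝ) + τ * I) * (P : ℂ) ^ (((2 : ℝ) : ℂ) + τ * I) *
          ((h : ℝ) : ℂ) ^ (-(((2 : ℝ) : ℂ) + τ * I)) *
          ((t : ℂ) ^ (((2 : ℝ) : ℂ) + τ * I - 1) * κ t) =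
        (t : ℂ)⁻¹ * ((Vj j (h / (P * t)) : ℝ) * κ t) := fun t (ht : 0 < t) => by
      rw [(hV _ (by positivity)).2.2, ln, mul_assoc, mul_left_comm, ← integral_mul_const,
        ← integral_const_mul (t : ℂ)⁻¹]
      congr 2
      funext τ
      rw [cpow_sub _ _ (by exact_mod_cast ht.ne'), cpow_one, cp ht, cp hP, cp h0',
        cp (show 0 < h / (P * t) by positivity), Real.log_div h0'.ne' (by positivity),
        Real.log_mul hP.ne' ht.ne']
      rw [show ((Real.log h - (Real.log P + Real.log t) : ℝ) : ℂ) * -(((2 : ℝ) : ℂ) + τ * I) =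
        Real.log P * (((2 : ℝ) : ℂ) + τ * I) + Real.log h * -(((2 : ℝ) : ℂ) + τ * I) +
          Real.log t * (((2 : ℝ) : ℂ) + τ * I) by push_cast; ring, exp_add, exp_add]
      ring
    have vi : IntegrableOn (fun t : ℝ => (t : ℂ)⁻¹ * ((Vj j (h / (P * t)) : ℝ) * κ t)) (Ioi 0) :=
      IntegrableOn.congr_fun (f2.const_mul _) e2 measurableSet_Ioi
    have e3 : 1 / (2 * π) * ∫ τ, Φ τ * b h τ =
        a h * ∫ t in Ioi (0 : ℝ), (t : ℂ)⁻¹ * ((Vj j (h / (P * t)) : ℝ) * κ t) := by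
      rw [← setIntegral_congr_fun measurableSet_Ioi e2, integral_const_mul, f3, mul_left_comm,
        ← integral_const_mul (a h)]
      congr 2
      funext τ
      simp only [hΦ, hb, ofReal_natCast]
      ring
    have bd : ∀ t ∈ Ioi (0 : ℝ), ‖(t : ℂ)⁻¹ * ((Wc j R (h / (P * t)) : ℝ) * κ t) -
        (t : ℂ)⁻¹ * ((Vj j (h / (P * t)) : ℝ) * κ t)‖
        ≤ 2 * Real.exp (-R) * P ^ 2 / (h : ℝ) ^ 2 * (t * ‖κ t‖) := fun t (ht : 0 < t) => by
      have x0 : 0 < h / (P * t) := by positivity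
      have w : |Vj j (h / (P * t)) - Wc j R (h / (P * t))|
          ≤ 2 * Real.exp (-R) / (h / (P * t)) ^ 2 := by
        refine ((hW R hR).2 _ x0).trans ?_
        split_ifs with c
        · exact ((hV _ x0).2.1 (hR.trans c)).trans (dec hR c)
        · positivity
      rw [← mul_sub, ← sub_mul, norm_mul, norm_mul, norm_inv, ← ofReal_sub, norm_real, norm_real,
        Real.norm_of_nonneg ht.le, Real.norm_eq_abs, abs_sub_comm]
      calc _ ≤ t⁻¹ * (2 * Real.exp (-R) / (h / (P * t)) ^ 2 * ‖κ t‖) := by gcongr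
        _ = _ := by field_simp
    have c0 : ContinuousOn (fun t : ℝ => h / (P * t)) (Ioi 0) :=
      continuousOn_const.div (by fun_prop) fun t (ht : 0 < t) => by positivity
    have wm : AEStronglyMeasurable (fun t : ℝ => (t : ℂ)⁻¹ * ((Wc j R (h / (P * t)) : ℝ) * κ t))
        (volume.restrict (Ioi 0)) := by
      refine ContinuousOn.aestronglyMeasurable (ContinuousOn.mul (ContinuousOn.inv₀ (by fun_prop)
        fun t (ht : 0 < t) => by exact_mod_cast ht.ne') (ContinuousOn.mul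
          (continuous_ofReal.comp_continuousOn ?_) hκ)) measurableSet_Ioi
      exact (vc.comp c0 fun t ht => div_pos h0' (mul_pos hP ht)).mul
        (bm.continuous.comp_continuousOn (c0.div_const _))
    have di := (hi.const_mul _).mono' (wm.sub vi.1) (ae_restrict_of_forall_mem measurableSet_Ioi bd)
    have wi : IntegrableOn (fun t : ℝ => (t : ℂ)⁻¹ * ((Wc j R (h / (P * t)) : ℝ) * κ t))
        (Ioi 0) := by simpa [IntegrableOn] using di.add vi
    rw [e1, e3, ← mul_sub, ← integral_sub wi vi, norm_mul]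
    have := norm_integral_le_of_norm_le (hi.const_mul _)
      (ae_restrict_of_forall_mem measurableSet_Ioi bd)
    rw [integral_const_mul] at this
    calc _ ≤ ‖a h‖ * (2 * Real.exp (-R) * P ^ 2 / (h : ℝ) ^ 2 * M) := by gcongr
      _ = _ := by ring
  have S3 := hs.hasSum.mul_left (2 * Real.exp (-R) * P ^ 2 * M)
  have S4 := Summable.of_norm_bounded S3.summable key
  refine le_of_eq_of_le ?_ (tsum_of_norm_bounded S3 key)
  rw [Summable.tsum_sub (by simpa using S4.add S2.summable) S2.summable, S2.tsum_eq]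
  rfl

end Pool.Agent.MP_20b2fd_nt.F5
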