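import Pool.Agent.MP_20b2fd_nt.F5.ZB1

/-! The terms of frequency zero as a line integral. -/

set_option autoImplicit false

namespace Pool.Agent.MP_20b2fd_nt.F5

open MeasureTheory Complex Finset ArithmeticFunction
open DirichletCharacter (LFunction)
open Pool.Agent.MP_c5bf7b_nt.H38 (Ch)
open Pool.Agent.MP_20b2fd_nt.H38
open scoped Real

namespace ZBA

/-- approximation by a line integral -/
def Ap (z : ℂ) (Φ : ℂ → ℂ) (ε : ℝ) : Prop :=
  (Integrable fun t : ℝ => Φ ((2 : ℝ) + t * I)) ∧ ‖z - ln 2 Φ‖ ≤ ε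

theorem Ap.mono {z : ℂ} {Φ : ℂ → ℂ} {ε ε' : ℝ} (h : Ap z Φ ε) (h' : ε ≤ ε') : Ap z Φ ε' :=
  ⟨h.1, h.2.trans h'⟩

theorem Ap.add {z z' : ℂ} {Φ Φ' : ℂ → ℂ} {ε ε' : ℝ} (h : Ap z Φ ε) (h' : Ap z' Φ' ε') :
    Ap (z + z') (fun u => Φ u + Φ' u) (ε + ε') := by
  refine ⟨h.1.add h'.1, ?_⟩
  have e : z + z' - ln 2 (fun u => Φ u + Φ' u) = (z - ln 2 Φ) + (z' - ln 2 Φ') := by
    unfold ln
    rw [integral_add h.1 h'.1]
    ring
  rw [e]
  exact (norm_add_le _ _).trans (add_le_add h.2 h'.2)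

theorem Ap.mul {z : ℂ} {Φ : ℂ → ℂ} {ε : ℝ} (h : Ap z Φ ε) (c : ℂ) {b : ℝ} (hc : ‖c‖ ≤ b) :
    Ap (c * z) (fun u => c * Φ u) (b * ε) := by
  refine ⟨h.1.const_mul c, ?_⟩
  have e : c * z - ln 2 (fun u => c * Φ u) = c * (z - ln 2 Φ) := by
    unfold ln
    rw [integral_const_mul]
    ring
  rw [e, norm_mul]
  exact mul_le_mul hc h.2 (norm_nonneg _) ((norm_nonneg _).trans hc)

theorem Ap.sum (s : Finset ℕ) {z : ℕ → ℂ} {Φ : ℕ → ℂ → ℂ} {ε b : ℝ} (hε : 0 ≤ ε)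
    (hb : (s.card : ℝ) ≤ b) (h : ∀ i ∈ s, Ap (z i) (Φ i) ε) :
    Ap (∑ i ∈ s, z i) (fun u => ∑ i ∈ s, Φ i u) (b * ε) := by
  refine ⟨integrable_finsetSum s fun i hi => (h i hi).1, ?_⟩
  have e : ∑ i ∈ s, z i - ln 2 (fun u => ∑ i ∈ s, Φ i u) = ∑ i ∈ s, (z i - ln 2 (Φ i)) := by
    unfold ln
    rw [integral_finsetSum s fun i hi => (h i hi).1, mul_sum, sum_sub_distrib]
  rw [e]
  refine (norm_sum_le _ _).trans ((sum_le_card_nsmul s _ ε fun i hi => (h i hi).2).trans ?_)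
  rw [nsmul_eq_mul]
  exact mul_le_mul_of_nonneg_right hb hε

theorem kr_of {T : ℝ} {κ : ℝ → ℝ} (h1 : ContinuousOn (fe κ 1) (Set.Ioi 0))
    (h2 : ContinuousOn (fe κ (-1)) (Set.Ioi 0)) (h : ∀ t, T ≤ |t| → κ t = 0) :
    Kr T κ := by
  refine ⟨⟨((h1.sub h2).div_const 2).congr fun t _ => ?_, fun t ht => ?_⟩,
    ((h1.add h2).div_const 2).congr fun t _ => ?_, fun t ht => ?_⟩
  · simp only [fe, Pi.sub_apply]
    push_cast
    ring
  · rw [h t (ht.trans (le_abs_self t)), ofReal_zero]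
  · simp only [fe, Pi.add_apply]
    push_cast
    ring
  · rw [h (-t) (by rw [abs_neg]; exact ht.trans (le_abs_self t)), ofReal_zero]

theorem sum_b : Summable fun m : ℕ => tau m * (1 + Real.log m) / (m : ℝ) ^ 2 := by
  obtain ⟨C, hC, h⟩ := U.tau_eps (show (0 : ℝ) < 1 / 4 by norm_num)
  refine Summable.of_nonneg_of_le (fun m => div_nonneg (mul_nonneg (U.tau_nonneg m)
    (by linarith [Real.log_natCast_nonneg m])) (sq_nonneg _)) (fun m => ?_)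
    ((Real.summable_nat_rpow.2 (show (-3 / 2 : ℝ) < -1 by norm_num)).mul_left (5 * C))
  rcases Nat.eq_zero_or_pos m with rfl | hm
  · simp only [U.tau_zero, zero_mul, zero_div]
    positivity
  have h1 : (1 : ℝ) ≤ m := by exact_mod_cast hm
  have h0 : (0 : ℝ) < m := by linarith
  have h2 := Real.log_le_rpow_div h0.le (show (0 : ℝ) < 1 / 4 by norm_num)
  have h3 := Real.one_le_rpow h1 (show (0 : ℝ) ≤ 1 / 4 by norm_num)
  have h4 : tau m * (1 + Real.log m) ≤ C * (m : ℝ) ^ (1 / 4 : ℝ) * (5 * (m : ℝ) ^ (1 / 4 : ℝ)) :=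
    mul_le_mul (h m) (by linarith) (by linarith [Real.log_natCast_nonneg m]) (by positivity)
  rw [div_le_iff₀ (by positivity)]
  refine h4.trans (le_of_eq ?_)
  have e : (m : ℝ) ^ (1 / 4 : ℝ) * (m : ℝ) ^ (1 / 4 : ℝ) = (m : ℝ) ^ (-3 / 2 : ℝ) * (m : ℝ) ^ 2 := by
    rw [← Real.rpow_two, ← Real.rpow_add h0, ← Real.rpow_add h0]
    norm_num
  linear_combination 5 * C * e

noncomputable def SB : ℝ := ∑' m : ℕ, tau m * (1 + Real.log m) / (m : ℝ) ^ 2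

theorem sum_a {a : ℕ → ℂ} {b : ℝ} (h : ∀ m, ‖a m‖ ≤ b * (tau m * (1 + Real.log m))) :
    (Summable fun m : ℕ => ‖a m‖ / (m : ℝ) ^ 2) ∧ ∑' m : ℕ, ‖a m‖ / (m : ℝ) ^ 2 ≤ b * SB := by
  have h1 : ∀ m : ℕ, ‖a m‖ / (m : ℝ) ^ 2 ≤ b * (tau m * (1 + Real.log m) / (m : ℝ) ^ 2) :=
    fun m => by
      rw [← mul_div_assoc]
      exact div_le_div_of_nonneg_right (h m) (sq_nonneg _)
  have h2 := Summable.of_nonneg_of_le (fun m => by positivity) h1 (sum_b.mul_left b)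
  refine ⟨h2, (h2.tsum_le_tsum h1 (sum_b.mul_left b)).trans (le_of_eq ?_)⟩
  rw [tsum_mul_left, SB]

theorem SB_nonneg : 0 ≤ SB := tsum_nonneg fun m => div_nonneg (mul_nonneg (U.tau_nonneg m)
  (by linarith [Real.log_natCast_nonneg m])) (sq_nonneg _)

variable {D : ℕ} (χ : Ch D)

theorem a_bd {g N : ℕ} (hg : g ≤ N) (m : ℕ) : ‖a0 χ g m‖ ≤ N * (tau m * (1 + Real.log m)) ∧
    ‖a1 χ g m‖ ≤ N * (tau m * (1 + Real.log m)) := by
  have h1 : tau (g * m) ≤ N * tau m := (U.tau_mul_le g m).trans (mul_le_mul_of_nonneg_right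
    ((U.tau_le g).trans (by exact_mod_cast hg)) (U.tau_nonneg m))
  have h2 := χ.norm_le_one (m : ZMod D)
  have h3 := Real.log_natCast_nonneg m
  have h4 := U.tau_nonneg (g * m)
  have h5 : 0 ≤ N * tau m := h4.trans h1
  unfold a0 a1
  rw [norm_mul, norm_mul, norm_real, norm_real, Real.norm_of_nonneg h4,
    Real.norm_of_nonneg (mul_nonneg h4 h3)]
  constructor
  · nlinarith [mul_le_of_le_one_right h4 h2, mul_nonneg h5 h3]
  · nlinarith [mul_le_of_le_one_right (mul_nonneg h4 h3) h2, mul_le_mul_of_nonneg_right h1 h3]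

theorem cf_bd [NeZero D] (N n g : ℕ) {e : ℕ} (he : 0 < e) : ‖cf χ N n g e‖ ≤ 1 := by
  unfold cf
  have h1 : (1 : ℝ) ≤ D := by exact_mod_cast NeZero.pos D
  have h2 : (1 : ℝ) ≤ e := by exact_mod_cast he
  have h3 : ‖(moebius e : ℂ)‖ ≤ 1 := by
    rw [norm_intCast]
    exact_mod_cast abs_moebius_le_one
  rw [norm_div, norm_mul, norm_mul, norm_mul, norm_natCast, norm_natCast]
  exact div_le_one_of_le₀ ((mul_le_one₀ (mul_le_one₀ (χ.norm_le_one _) (norm_nonneg _)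
    (χ.norm_le_one _)) (norm_nonneg _) h3).trans (one_le_mul_of_one_le_of_one_le h1 h2))
    (by positivity)

theorem cc_bd {N D g e : ℕ} (hN : 1 ≤ N) (hD : (D : ℝ) ≤ N) (hg : g ≤ N) (he : e ≤ N) :
    ‖((cc N D g e : ℝ) : ℂ)‖ ≤ 8 * N := by
  have h : ∀ m : ℕ, (m : ℝ) ≤ N → 0 ≤ Real.log m ∧ Real.log m ≤ N := fun m hm =>
    ⟨Real.log_natCast_nonneg m, (Real.log_le_self (Nat.cast_nonneg m)).trans hm⟩
  have h1 := h N le_rfl
  have h2 := h D hD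
  have h3 := h g (by exact_mod_cast hg)
  have h4 := h e (by exact_mod_cast he)
  have h5 : (1 : ℝ) ≤ N := by exact_mod_cast hN
  rw [norm_real, Real.norm_eq_abs, abs_le, cc]
  constructor <;> linarith [Real.one_half_lt_eulerMascheroniConstant,
    Real.eulerMascheroniConstant_lt_two_thirds]

theorem cpw {x : ℝ} (hx : 0 < x) (u : ℂ) : (x : ℂ) ^ u = exp (Real.log x * u) := by
  rw [cpow_def_of_ne_zero (ofReal_ne_zero.2 hx.ne'), ofReal_log hx.le]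

theorem split {Q : ℝ} {N d g m : ℕ} (hQ : 0 < Q) (hN : 0 < N) (hd : 0 < d) (hg : 0 < g)
    (hm : 0 < m) (u : ℂ) : ((Q / d * (m / (g * N)) : ℝ) : ℂ) ^ u =
      ((Q / N : ℝ) : ℂ) ^ u * ((d : ℂ) ^ (-u) * (m : ℂ) ^ u * (g : ℂ) ^ (-u)) := by
  have N0 : (0 : ℝ) < N := by exact_mod_cast hN
  have d0 : (0 : ℝ) < d := by exact_mod_cast hd
  have g0 : (0 : ℝ) < g := by exact_mod_cast hg
  have m0 : (0 : ℝ) < m := by exact_mod_cast hm
  rw [← ofReal_natCast d, ← ofReal_natCast m, ← ofReal_natCast g, cpw (by positivity),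
    cpw (by positivity), cpw d0, cpw m0, cpw g0, ← exp_add, ← exp_add, ← exp_add,
    Real.log_mul (by positivity) (by positivity), Real.log_div hQ.ne' d0.ne',
    Real.log_div m0.ne' (by positivity), Real.log_mul g0.ne' N0.ne', Real.log_div hQ.ne' N0.ne']
  congr 1
  push_cast
  ring

/-- the integrand of the Mellin formula -/
noncomputable def Ph (j : ℕ) (x : ℝ) (κ : ℝ → ℂ) (a : ℕ → ℂ) (u : ℂ) : ℂ :=
  gm u / u ^ (j + 1) * (x : ℂ) ^ u * mellin κ u * ∑' h : ℕ, a h * (h : ℂ) ^ (-u)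

theorem collect [NeZero D] (h3 : AR3S) (hC : ZCS) {Q : ℝ} {N n : ℕ} (j : ℕ) (k : ℝ → ℝ)
    (hQ : 0 < Q) (hN : 0 < N) (hn : 1 ≤ n) {u : ℂ} (hu : 1 < u.re) :
    ∑ d ∈ n.divisors, χ d * ∑ g ∈ (n / d).divisors, ∑ e ∈ (n / d / g).divisors,
      cf χ N (n / d) g e *
        (Ph j (Q / d * ((n / d : ℕ) / (g * N))) (fe (fun t => k t * lg t) (χ (-1)).re) (a0 χ g) u +
          Ph j (Q / d * ((n / d : ℕ) / (g * N))) (fe k (χ (-1)).re) (a1 χ g) u +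
          cc N D g e * Ph j (Q / d * ((n / d : ℕ) / (g * N))) (fe k (χ (-1)).re) (a0 χ g) u) =
      gm u / u ^ (j + 1) * ZI χ Q N k n u := by
  obtain ⟨c1, c2⟩ := hC D χ n u hn
  set P := gm u / u ^ (j + 1) * (χ N / D * ((Q / N : ℝ) : ℂ) ^ u) with hP
  set β := P * (mel k (χ (-1)).re u * LFunction χ u ^ 2) with hβ
  set α := P * (mel (fun t => k t * lg t) (χ (-1)).re u * LFunction χ u ^ 2 +
    mel k (χ (-1)).re u * (LFunction χ u ^ 2 *
      ((Real.log N - 2 * Real.log D + 2 * Real.eulerMascheroniConstant : ℝ) : ℂ) -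
      2 * LFunction χ u * deriv (LFunction χ) u)) with hα
  have e : gm u / u ^ (j + 1) * ZI χ Q N k n u = α * Af χ (-u) 0 n - β * A1 χ (-u) n := by
    rw [hα, hβ, hP]
    unfold ZI
    ring
  rw [e, ← c1, ← c2, mul_sum, mul_sum, ← sum_sub_distrib]
  refine sum_congr rfl fun d hd => ?_
  rw [mul_sum, mul_sum, mul_sum, ← sum_sub_distrib]
  refine sum_congr rfl fun g hg => ?_
  rw [mul_sum, mul_sum, mul_sum, ← sum_sub_distrib]
  refine sum_congr rfl fun e he => ?_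
  have hd0 := Nat.pos_of_mem_divisors hd
  have hg0 := Nat.pos_of_mem_divisors hg
  obtain ⟨s1, s2⟩ := h3 D χ g u hg0 hu
  rw [hα, hβ, hP]
  unfold Ph a0 a1 cf cc mel
  rw [s1.tsum_eq, s2.tsum_eq,
    split hQ hN hd0 hg0 (Nat.pos_of_ne_zero (Nat.mem_divisors.1 hg).2) u]
  push_cast
  ring

end ZBA

open ZBA in
theorem zbOf : ZBOf := by
  rintro ⟨CV, -, -, -, -, hV⟩ h3 hC hF ⟨CM, hCM, hM⟩ ⟨CA, hCA, hA⟩ δ hδ hδ1
  obtain ⟨N₀, hN3, hN₀⟩ := U.ev_exp (10 * CA * CM * SB) 14 hδ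
  refine ⟨N₀, fun N D _ χ j n k hN hR hk hn hnN => ?_⟩
  have hN1 : 1 ≤ N := by omega
  have N1 : (1 : ℝ) ≤ N := by exact_mod_cast hN1
  have N0 : (0 : ℝ) < N := by linarith
  set R := (N : ℝ) ^ δ with hRd
  have hR1 : 1 ≤ R := Real.one_le_rpow N1 hδ.le
  have hD : (D : ℝ) ≤ N := hR.hD.trans (Real.rpow_le_self_of_one_le N1 (by linarith))
  have D0 : (0 : ℝ) < D := by exact_mod_cast NeZero.pos D
  have hQ : 0 < Qc D N := mul_pos D0 (Real.sqrt_pos.2 N0)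
  have hQ2 : Qc D N ≤ (N : ℝ) ^ 2 := by
    rw [sq]
    exact mul_le_mul hD (Real.sqrt_le_self_iff.2 (Or.inr N1)) (Real.sqrt_nonneg _) N0.le
  obtain ⟨⟨W₁, hW₁⟩, hW2⟩ := ((hV j hR.hj).2.2 R hR1).1
  have hW : Wk R (Wc j R) :=
    ⟨fun x hx => (hW₁ x hx).1.continuousAt.continuousWithinAt, hW2⟩
  obtain ⟨hs1, hs2, -⟩ := hF D χ hR.prim hR.sq hR.ne
  set s := (χ (-1)).re with hs
  have hs3 : |s| = 1 := by rcases hs1 with e | e <;> rw [e] <;> norm_num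
  have hvan : ∀ t, (N : ℝ) ≤ |t| → k t = 0 := by
    obtain ⟨B, _, -, -, h, -⟩ := hk.2.2.2.1
    exact h
  have hk1 : Kr N k := kr_of (hM _ _ _ 1 k k hk (by norm_num) (Or.inl rfl)).1
    (hM _ _ _ (-1) k k hk (by norm_num) (Or.inl rfl)).1 hvan
  have hk2 : Kr N fun t => k t * lg t := kr_of (hM _ _ _ 1 k _ hk (by norm_num) (Or.inr rfl)).1
    (hM _ _ _ (-1) k _ hk (by norm_num) (Or.inr rfl)).1 fun t ht => by rw [hvan t ht, zero_mul]
  have hk0 : k (-1) = 0 := hk.2.2.2.2 _ (by rw [add_neg_cancel, abs_zero]; positivity)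
  set ε := CA * Real.exp (-R) * (N : ℝ) ^ 4 * (CM * (N : ℝ) ^ 5) * (N * SB) with hε
  have hSB := SB_nonneg
  have hε0 : 0 ≤ ε := by positivity
  have key : ∀ (κ : ℝ → ℝ) (a : ℕ → ℂ) (Q v : ℝ), (κ = k ∨ κ = fun t => k t * lg t) → a 0 = 0 →
      (∀ m, ‖a m‖ ≤ N * (tau m * (1 + Real.log m))) → 0 < Q → 0 < v → Q * v ≤ (N : ℝ) ^ 2 →
      Ap (Z (Wc j R) Q (fe κ s) a v) (Ph j (Q * v) (fe κ s) a) ε := by
    intro κ a Q v hκ a0 ha Q0 v0 hQv
    obtain ⟨m1, -, -, m2, m3⟩ := hM _ _ _ s k κ hk hs3 hκ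
    obtain ⟨b1, b2⟩ := sum_a ha
    obtain ⟨z1, z2⟩ := hA j (fe κ s) a Q v R hR.hj Q0 v0 hR1 m1 m2 a0 b1
    refine ⟨z1, ?_⟩
    unfold Z J
    simp only [div_div _ v]
    refine z2.trans ?_
    have m4 : CM * N * (N : ℝ) ^ 3 / (1 / N) = CM * (N : ℝ) ^ 5 := by field_simp
    have m5 : (Q * v) ^ 2 ≤ (N : ℝ) ^ 4 := by
      rw [show (N : ℝ) ^ 4 = ((N : ℝ) ^ 2) ^ 2 by ring]
      exact pow_le_pow_left₀ (by positivity) hQv 2
    rw [m4] at m3
    exact mul_le_mul (mul_le_mul (mul_le_mul_of_nonneg_left m5 (by positivity)) m3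
      (integral_nonneg_of_ae ((ae_restrict_mem measurableSet_Ioi).mono fun t ht =>
        mul_nonneg (le_of_lt ht) (norm_nonneg _))) (by positivity)) b2
      (tsum_nonneg fun _ => by positivity) (by positivity)
  have card : ∀ m : ℕ, m ≤ N → (m.divisors.card : ℝ) ≤ N := fun m hm => by
    exact_mod_cast (Nat.card_divisors_le_self m).trans hm
  have main : Ap (ZT χ (Wc j R) (Qc D N) N k n) (fun u => ∑ d ∈ n.divisors, χ d *
      ∑ g ∈ (n / d).divisors, ∑ e ∈ (n / d / g).divisors, cf χ N (n / d) g e *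
        (Ph j (Qc D N / d * ((n / d : ℕ) / (g * N))) (fe (fun t => k t * lg t) s) (a0 χ g) u +
          Ph j (Qc D N / d * ((n / d : ℕ) / (g * N))) (fe k s) (a1 χ g) u +
          cc N D g e * Ph j (Qc D N / d * ((n / d : ℕ) / (g * N))) (fe k s) (a0 χ g) u))
      (N * (1 * (N * (N * (1 * (ε + ε + 8 * N * ε)))))) := by
    unfold ZT
    refine Ap.sum _ (by positivity) (card n hnN) fun d hd => Ap.mul ?_ _ (χ.norm_le_one _)
    have hd0 := Nat.pos_of_mem_divisors hd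
    have d1 : (1 : ℝ) ≤ d := by exact_mod_cast hd0
    have hn1 : 1 ≤ n / d := Nat.div_pos (Nat.divisor_le hd) hd0
    have hn2 : n / d ≤ N := (Nat.div_le_self _ _).trans hnN
    have hQd : 0 < Qc D N / d := by positivity
    rw [zf_eq χ hW hk1 hk2 hQd N0 hN1 hn1 hk0 hs2]
    refine Ap.sum _ (by positivity) (card _ hn2) fun g hg => ?_
    have hg0 := Nat.pos_of_mem_divisors hg
    have g1 : (1 : ℝ) ≤ g := by exact_mod_cast hg0
    have hg2 : g ≤ N := (Nat.divisor_le hg).trans hn2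
    have hn3 : n / d / g ≤ N := (Nat.div_le_self _ _).trans hn2
    have hv : (0 : ℝ) < (n / d : ℕ) / (g * N) := by positivity
    have hv1 : ((n / d : ℕ) : ℝ) / (g * N) ≤ 1 := div_le_one_of_le₀
      (le_trans (by exact_mod_cast hn2) (le_mul_of_one_le_left N0.le g1)) (by positivity)
    have hQv : Qc D N / d * ((n / d : ℕ) / (g * N)) ≤ (N : ℝ) ^ 2 :=
      (mul_le_of_le_one_right hQd.le hv1).trans ((div_le_self hQ.le d1).trans hQ2)
    have z0 : a0 χ g 0 = 0 := by simp [a0, U.tau_zero]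
    have z1 : a1 χ g 0 = 0 := by simp [ZBA.a1]
    refine Ap.sum _ (by positivity) (card _ hn3) fun e he =>
      Ap.mul ?_ _ (cf_bd χ _ _ _ (Nat.pos_of_mem_divisors he))
    exact ((key _ _ _ _ (Or.inr rfl) z0 (fun m => (a_bd χ hg2 m).1) hQd hv hQv).add
      (key _ _ _ _ (Or.inl rfl) z1 (fun m => (a_bd χ hg2 m).2) hQd hv hQv)).add
      ((key _ _ _ _ (Or.inl rfl) z0 (fun m => (a_bd χ hg2 m).1) hQd hv hQv).mul _
        (cc_bd hN1 hD hg2 ((Nat.divisor_le he).trans hn3)))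
  have fin := main.2
  unfold ln at fin ⊢
  have hu : ∀ t : ℝ, 1 < (((2 : ℝ) : ℂ) + t * I).re := fun t => by simp
  simp only [hs, collect χ h3 hC j k hQ hN1 hn (hu _)] at fin
  refine fin.trans (le_trans ?_ (hN₀ N hN))
  have e : 10 * CA * CM * SB * (N : ℝ) ^ 14 * Real.exp (-R) = N * (N * (N * (10 * N * ε))) := by
    rw [hε]
    ring
  rw [e, one_mul, one_mul]
  gcongr
  nlinarith

end Pool.Agent.MP_20b2fd_nt.F5
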