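import Pool.Agent.MP_20b2fd_nt.F5.Spec

/-! The terms of frequency zero reproduce the diagonal: an identity of Dirichlet convolutions. -/

set_option autoImplicit false

namespace Pool.Agent.MP_20b2fd_nt.F5

open Finset ArithmeticFunction
open Pool.Agent.MP_c5bf7b_nt.H38 (Ch)
open Pool.Agent.MP_20b2fd_nt.H38

namespace ZCA

/-- a function on the natural numbers as an arithmetic function -/
noncomputable def af (f : ℕ → ℂ) : ArithmeticFunction ℂ :=
  ⟨fun n => if n = 0 then 0 else f n, if_pos rfl⟩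

theorem af_apply (f : ℕ → ℂ) {n : ℕ} (hn : n ≠ 0) : af f n = f n := if_neg hn

theorem af_mul (f g : ℕ → ℂ) :
    af f * af g = af fun n => ∑ x ∈ n.divisorsAntidiagonal, f x.1 * g x.2 := by
  ext n
  rcases eq_or_ne n 0 with rfl | hn
  · simp
  rw [af_apply _ hn, mul_apply]
  refine sum_congr rfl fun x hx => ?_
  rw [af_apply _ (Nat.left_ne_zero_of_mem_divisorsAntidiagonal hx),
    af_apply _ (Nat.right_ne_zero_of_mem_divisorsAntidiagonal hx)]

variable {D : ℕ} (χ : Ch D) (u : ℂ)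

theorem inv : af (fun d => χ d * (d : ℂ) ^ (-u)) *
    af (fun e => (moebius e : ℂ) * χ e * (e : ℂ) ^ (-u)) = 1 := by
  rw [af_mul]
  ext n
  rcases eq_or_ne n 0 with rfl | hn
  · simp
  have e := congrArg (fun f : ArithmeticFunction ℂ => χ n * (n : ℂ) ^ (-u) * f n)
    (coe_zeta_mul_coe_moebius (R := ℂ))
  have e' : χ n * (n : ℂ) ^ (-u) * (1 : ArithmeticFunction ℂ) n = (1 : ArithmeticFunction ℂ) n := by
    rcases eq_or_ne n 1 with rfl | h1
    · simp
    · simp [h1]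
  rw [af_apply _ hn, ← e', ← e, mul_apply, mul_sum]
  refine sum_congr rfl fun x hx => ?_
  have h1 := Nat.left_ne_zero_of_mem_divisorsAntidiagonal hx
  rw [← (Nat.mem_divisorsAntidiagonal.1 hx).1, Nat.cast_mul, Nat.cast_mul, map_mul,
    Complex.natCast_mul_natCast_cpow, natCoe_apply, zeta_apply_ne h1, intCoe_apply]
  push_cast
  ring

theorem nest (a F b c : ℕ → ℂ) {n : ℕ} (hn : n ≠ 0) :
    (af a * (af F * (af b * af c))) n = ∑ d ∈ n.divisors, ∑ g ∈ (n / d).divisors,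
      ∑ e ∈ (n / d / g).divisors, a d * (F g * (b e * c (n / d / g / e))) := by
  rw [af_mul, af_mul, af_mul, af_apply _ hn,
    Nat.sum_divisorsAntidiagonal fun x y => a x * ∑ z ∈ y.divisorsAntidiagonal,
      F z.1 * ∑ w ∈ z.2.divisorsAntidiagonal, b w.1 * c w.2]
  refine sum_congr rfl fun d _ => ?_
  rw [Nat.sum_divisorsAntidiagonal fun x y => F x * ∑ w ∈ y.divisorsAntidiagonal, b w.1 * c w.2,
    mul_sum]
  refine sum_congr rfl fun g _ => ?_
  rw [Nat.sum_divisorsAntidiagonal fun x y => b x * c y, mul_sum, mul_sum]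

theorem key (β t : ℕ → ℂ) {n : ℕ} (hn : n ≠ 0) :
    ∑ d ∈ n.divisors, ∑ g ∈ (n / d).divisors, ∑ e ∈ (n / d / g).divisors,
      χ d * (d : ℂ) ^ (-u) * ((n / d : ℕ) : ℂ) ^ u * χ ((n / d / g : ℕ) : ZMod D) *
        ((moebius e : ℂ) / e) * (g : ℂ) ^ (-u) * (β e * ∑ y ∈ g.divisorsAntidiagonal,
          (moebius y.1 : ℂ) * χ y.1 * (y.1 : ℂ) ^ (-u) * t y.2) =
    ∑ x ∈ n.divisorsAntidiagonal, χ x.1 * (x.1 : ℂ) ^ (- -u) *
      ∑ y ∈ x.2.divisorsAntidiagonal,
        (moebius y.1 : ℂ) * χ y.1 * (y.1 : ℂ) ^ (-1 - -u) * β y.1 * t y.2 := by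
  have h1 := nest (fun d => χ d * (d : ℂ) ^ (-u)) (fun g => ∑ y ∈ g.divisorsAntidiagonal,
    (moebius y.1 : ℂ) * χ y.1 * (y.1 : ℂ) ^ (-u) * t y.2)
    (fun e => (moebius e : ℂ) * χ e * (e : ℂ) ^ (-1 - -u) * β e)
    (fun r => χ r * (r : ℂ) ^ (- -u)) hn
  have h2 : ∀ a m t b c : ArithmeticFunction ℂ, a * m = 1 →
      a * (m * t * (b * c)) = c * (b * t) := fun a m t b c h => by
    linear_combination (t * b * c) * h
  rw [← af_mul (fun e => (moebius e : ℂ) * χ e * (e : ℂ) ^ (-u)) t, h2 _ _ _ _ _ (inv χ u), af_mul,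
    af_mul, af_apply _ hn] at h1
  rw [h1]
  refine sum_congr rfl fun d hd => sum_congr rfl fun g hg => sum_congr rfl fun e he => ?_
  obtain ⟨r, hr⟩ := Nat.dvd_of_mem_divisors he
  have e1 : n / d = g * (e * r) := by
    rw [← hr, Nat.mul_div_cancel' (Nat.dvd_of_mem_divisors hg)]
  have hg0 : (g : ℂ) ≠ 0 := Nat.cast_ne_zero.2 (Nat.pos_of_mem_divisors hg).ne'
  have he0 : (e : ℂ) ≠ 0 := Nat.cast_ne_zero.2 (Nat.pos_of_mem_divisors he).ne'
  have e2 : (g : ℂ) ^ u * (g : ℂ) ^ (-u) = 1 := by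
    rw [← Complex.cpow_add _ _ hg0, add_neg_cancel, Complex.cpow_zero]
  have e3 : (e : ℂ) ^ (-1 - -u) = (e : ℂ) ^ u / e := by
    rw [show -1 - -u = u - 1 by ring, Complex.cpow_sub _ _ he0, Complex.cpow_one]
  rw [hr, Nat.mul_div_cancel_left _ (Nat.pos_of_mem_divisors he), e1, Nat.cast_mul (α := ℂ),
    Complex.natCast_mul_natCast_cpow, Nat.cast_mul (α := ℂ), Complex.natCast_mul_natCast_cpow,
    Nat.cast_mul, map_mul, e3, neg_neg]
  generalize ∑ y ∈ g.divisorsAntidiagonal, (moebius y.1 : ℂ) * χ y.1 * (y.1 : ℂ) ^ (-u) * t y.2 = T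
  linear_combination (χ d * (d : ℂ) ^ (-u) * (e : ℂ) ^ u * (r : ℂ) ^ u * χ e * χ r *
    ((moebius e : ℂ) / e) * β e * T) * e2

end ZCA

open ZCA in
theorem zcS : ZCS := by
  intro D χ n u hn
  have hn' : n ≠ 0 := by omega
  have k0 := key χ u (fun _ => 1) (fun j => (tau j : ℝ)) hn'
  have k1 := key χ u (fun _ => 1) (fun j => ((tau j * Real.log j : ℝ) : ℂ)) hn'
  have k2 := key χ u (fun e => ((2 * Real.log e : ℝ) : ℂ)) (fun j => (tau j : ℝ)) hn'
  constructor
  · simp only [one_mul, mul_one] at k0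
    simp only [T0, Af, mul_zero, sub_zero, neg_zero, Complex.cpow_zero, mul_one]
    exact k0
  · have k := congrArg₂ (· + ·) k1 k2
    simp only [← sum_add_distrib, ← mul_add] at k
    refine (sum_congr rfl fun d _ => sum_congr rfl fun g _ => sum_congr rfl fun e _ => ?_).trans
      (k.trans (sum_congr rfl fun x _ => congrArg _ (sum_congr rfl fun y hy => ?_)))
    · congr 1
      simp only [T0, T1, mul_sum, ← sum_add_distrib, ← sum_sub_distrib]
      refine sum_congr rfl fun y hy => ?_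
      rw [← (Nat.mem_divisorsAntidiagonal.1 hy).1, Nat.cast_mul, Real.log_mul
        (Nat.cast_ne_zero.2 (Nat.left_ne_zero_of_mem_divisorsAntidiagonal hy))
        (Nat.cast_ne_zero.2 (Nat.right_ne_zero_of_mem_divisorsAntidiagonal hy))]
      simp only [Complex.ofReal_add, Complex.ofReal_mul]
      ring
    · rw [Real.log_mul
        (pow_ne_zero 2 (Nat.cast_ne_zero.2 (Nat.left_ne_zero_of_mem_divisorsAntidiagonal hy)))
        (Nat.cast_ne_zero.2 (Nat.right_ne_zero_of_mem_divisorsAntidiagonal hy)), Real.log_pow]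
      simp only [Complex.ofReal_add, Complex.ofReal_mul, Nat.cast_ofNat]
      ring

end Pool.Agent.MP_20b2fd_nt.F5
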