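import Pool.Agent.MP_20b2fd_nt.F5.Util
import Pool.Agent.MP_74e98a_nt.H98.Ker

/-! The terms of frequency zero against the diagonal. -/

set_option autoImplicit false

namespace Pool.Agent.MP_20b2fd_nt.F5

open MeasureTheory Complex Finset Filter Topology
open DirichletCharacter (LFunction)
open Pool.Agent.MP_c5bf7b_nt.H38 (Phi Ch)
open Pool.Agent.MP_20b2fd_nt.H38
open scoped Real

namespace ZDA

noncomputable def cc (D N : ℕ) : ℝ :=
  Real.log N - 2 * Real.log D + 2 * Real.eulerMascheroniConstant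

noncomputable def ZJ {D : ℕ} [NeZero D] (χ : Ch D) (Q : ℝ) (N n : ℕ) (m₂ m₁ u : ℂ) : ℂ :=
  χ N / D * ((Q / N : ℝ) : ℂ) ^ u *
    (m₂ * (LFunction χ u ^ 2 * Af χ (-u) 0 n) +
      m₁ * (LFunction χ u ^ 2 * ((cc D N : ℂ) * Af χ (-u) 0 n - A1 χ (-u) n) -
        2 * LFunction χ u * deriv (LFunction χ) u * Af χ (-u) 0 n))

theorem ZI_eq {D : ℕ} [NeZero D] (χ : Ch D) (Q : ℝ) (N : ℕ) (k : ℝ → ℝ) (n : ℕ) (u : ℂ) :
    ZI χ Q N k n u =
      ZJ χ Q N n (mel (fun t => k t * lg t) (χ (-1)).re u) (mel k (χ (-1)).re u) u := rfl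

theorem ZJ_bd {D : ℕ} [NeZero D] (χ : Ch D) {Q : ℝ} {N n : ℕ} {m₂ m₁ u : ℂ} {m a a₁ b : ℝ}
    (h0 : 0 < Q / N) (h1 : Q / N ≤ 1) (hu : 1 / 2 ≤ u.re) (hm₂ : ‖m₂‖ ≤ m) (hm₁ : ‖m₁‖ ≤ m)
    (ha : ‖Af χ (-u) 0 n‖ ≤ a) (ha₁ : ‖A1 χ (-u) n‖ ≤ a₁) (hb : ‖LFunction χ u‖ ≤ b)
    (hb' : ‖deriv (LFunction χ) u‖ ≤ b) :
    ‖ZJ χ Q N n m₂ m₁ u‖ ≤ √(Q / N) / D * (m * b ^ 2 * ((3 + |cc D N|) * a + a₁)) := by
  have hD : (0 : ℝ) < D := by exact_mod_cast Nat.pos_of_ne_zero (NeZero.ne D)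
  have hm0 : 0 ≤ m := (norm_nonneg _).trans hm₁
  have ha0 : 0 ≤ a := (norm_nonneg _).trans ha
  have hb0 : 0 ≤ b := (norm_nonneg _).trans hb
  have e1 : ‖χ N / D * ((Q / N : ℝ) : ℂ) ^ u‖ ≤ √(Q / N) / D := by
    rw [norm_mul, norm_div, norm_cpow_eq_rpow_re_of_pos h0, Complex.norm_natCast,
      Real.sqrt_eq_rpow, div_mul_eq_mul_div]
    refine div_le_div_of_nonneg_right ?_ hD.le
    calc _ ≤ 1 * (Q / N) ^ (1 / 2 : ℝ) :=
          mul_le_mul (χ.norm_le_one _) (Real.rpow_le_rpow_of_exponent_ge h0 h1 hu)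
            (by positivity) zero_le_one
      _ = _ := one_mul _
  have e2 : ‖LFunction χ u ^ 2‖ ≤ b ^ 2 := by rw [norm_pow]; gcongr
  have e3 : ‖(cc D N : ℂ) * Af χ (-u) 0 n - A1 χ (-u) n‖ ≤ |cc D N| * a + a₁ := by
    refine (norm_sub_le _ _).trans (add_le_add ?_ ha₁)
    rw [norm_mul, Complex.norm_real, Real.norm_eq_abs]; gcongr
  have e4 : ‖2 * LFunction χ u * deriv (LFunction χ) u * Af χ (-u) 0 n‖ ≤ 2 * b * b * a := by
    rw [norm_mul, norm_mul, norm_mul, Complex.norm_two]; gcongr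
  have e5 : ‖m₂ * (LFunction χ u ^ 2 * Af χ (-u) 0 n)‖ ≤ m * (b ^ 2 * a) := by
    rw [norm_mul, norm_mul]; gcongr
  have e6 : ‖LFunction χ u ^ 2 * ((cc D N : ℂ) * Af χ (-u) 0 n - A1 χ (-u) n)‖ ≤
      b ^ 2 * (|cc D N| * a + a₁) := by
    rw [norm_mul]; gcongr
  unfold ZJ
  rw [norm_mul]
  refine mul_le_mul e1 ?_ (norm_nonneg _) (by positivity)
  refine (norm_add_le _ _).trans ?_
  rw [norm_mul m₁]
  have e7 := mul_le_mul hm₁ ((norm_sub_le _ _).trans (add_le_add e6 e4)) (norm_nonneg _) hm0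
  calc _ ≤ m * (b ^ 2 * a) + m * (b ^ 2 * (|cc D N| * a + a₁) + 2 * b * b * a) := add_le_add e5 e7
    _ = _ := by ring

theorem G_bd {g z u : ℂ} {j : ℕ} {C B : ℝ} (hj : j = 0 ∨ j = 1) (hu : 1 / 2 ≤ u.re)
    (hg : ‖g‖ ≤ C / (1 + |u.im|) ^ 10) (hz : ‖z‖ ≤ B * (1 + |u.im|) ^ 4) (hC : 0 ≤ C)
    (hB : 0 ≤ B) : ‖g / u ^ (j + 1) * z‖ ≤ 4 * C * B * (1 + u.im ^ 2)⁻¹ := by
  have h1 : 1 / 2 ≤ ‖u‖ := hu.trans (re_le_norm u)
  have h2 : 1 / 4 ≤ ‖u‖ ^ (j + 1) := by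
    rcases hj with rfl | rfl
    · rw [zero_add, pow_one]; linarith
    · nlinarith
  have h3 := abs_nonneg u.im
  have h4 : 1 + u.im ^ 2 ≤ (1 + |u.im|) ^ 6 := by
    calc _ ≤ (1 + |u.im|) ^ 2 := by nlinarith [sq_abs u.im]
      _ ≤ _ := pow_le_pow_right₀ (by linarith) (by norm_num)
  rw [norm_mul, norm_div, norm_pow]
  calc _ ≤ C / (1 + |u.im|) ^ 10 / (1 / 4) * (B * (1 + |u.im|) ^ 4) := by gcongr
    _ = 4 * C * B * ((1 + |u.im|) ^ 6)⁻¹ := by field_simp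
    _ ≤ _ := by gcongr

theorem cp (x : ℝ) (hx : 0 < x) (u : ℂ) : (x : ℂ) ^ u = exp (u * Real.log x) := by
  rw [cpow_def_of_ne_zero (ofReal_ne_zero.2 hx.ne'), ← ofReal_log hx.le, mul_comm]

theorem gm_Gu {u : ℂ} (hu : 0 < u.re) : gm u * Gu u = gm (-u) := by
  have h : Gamma (1 + u) ≠ 0 := Gamma_ne_zero_of_re_pos (by simp; linarith)
  have hπ : (2 * π : ℂ) ≠ 0 := by simp
  have e : (2 * π : ℂ) ^ (-u) * (2 * π : ℂ) ^ (2 * u) = (2 * π : ℂ) ^ (- -u) := by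
    rw [← cpow_add _ _ hπ]; congr 1; ring
  unfold gm Gu
  rw [← e, ← sub_eq_add_neg]
  field_simp

theorem pw_eq {D N : ℕ} (hD : 0 < D) (hN : 0 < N) (u : ℂ) :
    ((Qc D N / N : ℝ) : ℂ) ^ u * (D : ℂ) ^ (1 - 2 * u) = D * (Qc D N : ℂ) ^ (-u) := by
  have hD' : (0 : ℝ) < D := by exact_mod_cast hD
  have hN' : (0 : ℝ) < N := by exact_mod_cast hN
  have hs := Real.sqrt_pos.2 hN'
  have hQ : 0 < Qc D N := mul_pos hD' hs
  have e1 : Real.log (Qc D N) = Real.log D + Real.log N / 2 := by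
    rw [Qc, Real.log_mul hD'.ne' hs.ne', Real.log_sqrt hN'.le]
  have e2 : (D : ℂ) = exp (Real.log D) := by
    rw [← ofReal_exp, Real.exp_log hD', ofReal_natCast]
  rw [cp _ (div_pos hQ hN'), cp _ hQ, ← ofReal_natCast D, cp _ hD', ofReal_natCast,
    Real.log_div hQ.ne' hN'.ne', e1]
  conv_rhs => rw [e2]
  rw [← exp_add, ← exp_add]
  congr 1
  simp only [ofReal_sub, ofReal_add, ofReal_div, ofReal_ofNat]
  ring

theorem ident (hF : FES) (hK : KBS) {δ : ℝ} {N D : ℕ} [NeZero D] {χ : Ch D} {j : ℕ}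
    (h : Rg δ N D χ j) (n : ℕ) {u : ℂ} (hu : u.re = 1 / 2) :
    2 * (gm u / u ^ (j + 1) * ZJ χ (Qc D N) N n (mel (fun t => π * lg t ^ 2) (χ (-1)).re u)
      (mel (fun t => π * lg t) (χ (-1)).re u) u) = -(π * FD χ j N n (-u)) := by
  obtain ⟨hs, hs', hf⟩ := hF D χ h.prim h.sq h.ne
  obtain ⟨f1, f2⟩ := hf u (by linarith) (by linarith)
  obtain ⟨k1, k2⟩ := hK _ u hs hu
  have hD : 0 < D := Nat.pos_of_ne_zero (NeZero.ne D)
  have hD' : (D : ℂ) ≠ 0 := by exact_mod_cast hD.ne'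
  have hN : (0 : ℝ) < N := by exact_mod_cast h.pr.pos
  have hu0 : u ≠ 0 := fun e => by rw [e] at hu; norm_num at hu
  have e1 := pw_eq hD h.pr.pos u
  have e2 := gm_Gu (u := u) (by linarith)
  have e3 : χ N * ((χ (-1)).re : ℂ) = (-1) ^ j := by
    rw [← hs', ← h.sg, ← map_mul]; congr 1; push_cast; ring
  have e4 : ((LN N : ℝ) : ℂ) = Real.log N - 2 * Real.log (2 * π) := by
    have : LN N = Real.log N - 2 * Real.log (2 * π) := by
      rw [LN, Real.log_div hN.ne' (by positivity), show 4 * π ^ 2 = (2 * π) ^ 2 by ring,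
        Real.log_pow]
      norm_num
    rw [this]
    simp only [ofReal_sub, ofReal_mul, ofReal_ofNat]
  have e5 : (cc D N : ℂ) =
      Real.log N - 2 * Real.log D + 2 * Real.eulerMascheroniConstant := by
    simp only [cc, ofReal_add, ofReal_sub, ofReal_mul, ofReal_ofNat]
  have e6 : (-u) ^ (j + 1) = -((-1) ^ j * u ^ (j + 1)) := by rw [neg_pow]; ring
  have e7 : ((-1 : ℂ) ^ j) * (-1) ^ j = 1 := by rw [← mul_pow]; simp
  have e8 : ((-1 : ℂ) ^ j) ≠ 0 := pow_ne_zero _ (by norm_num)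
  have e9 := pow_ne_zero (j + 1) hu0
  unfold ZJ FD Hf
  rw [f2, f1, e4, e5, e6, ← sub_eq_add_neg, ← e2]
  generalize mel (fun t => π * lg t ^ 2) (χ (-1)).re u = M₂ at *
  generalize mel (fun t => π * lg t) (χ (-1)).re u = M₁ at *
  generalize deriv (Ys (χ (-1)).re) u = Y₁ at *
  generalize Ys (χ (-1)).re u = Y at *
  generalize deriv (LFunction χ) (1 - u) = L₁
  generalize LFunction χ (1 - u) = L
  generalize Af χ (-u) 0 n = A
  generalize A1 χ (-u) n = B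
  generalize ((Qc D N / N : ℝ) : ℂ) ^ u = q at *
  generalize (D : ℂ) ^ (1 - 2 * u) = d at *
  generalize (Qc D N : ℂ) ^ (-u) = r at *
  generalize ((Real.log (2 * π) : ℝ) : ℂ) = lp at *
  generalize ((Real.log N : ℝ) : ℂ) = lN
  generalize ((Real.log D : ℝ) : ℂ) = lD
  generalize ((Real.eulerMascheroniConstant : ℝ) : ℂ) = γ at *
  generalize ((χ (-1)).re : ℂ) = s at *
  generalize ((-1 : ℂ) ^ j) = ε at *
  generalize u ^ (j + 1) = w at *
  have z1 : M₂ * (d * Y * L ^ 2 * A) + M₁ * (d * Y * L ^ 2 * ((lN - 2 * lD + 2 * γ) * A - B) -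
      d * ((Y₁ - 2 * lD * Y) * L ^ 2 - Y * (2 * L * L₁)) * A) =
      d * (s * π / 2 * Gu u) * (L ^ 2 * ((lN - 2 * lp) * A - B) + 2 * L * L₁ * A) := by
    rw [← k1]; linear_combination d * L ^ 2 * A * k2
  rw [z1]
  generalize L ^ 2 * ((lN - 2 * lp) * A - B) + 2 * L * L₁ * A = H
  have z2 : r = q * d / D := by rw [e1]; field_simp
  rw [z2]
  field_simp
  linear_combination (gm u * q * d * Gu u * H * ε) * e3 + (gm u * q * d * Gu u * H) * e7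

theorem fin {G F : ℂ → ℂ} {ε : ℝ} (hG : Integrable fun t : ℝ => G ((1 / 2 : ℝ) + t * I))
    (hF : Continuous fun t : ℝ => F (-((1 / 2 : ℝ) + t * I)))
    (h : ∀ t : ℝ, ‖2 * G ((1 / 2 : ℝ) + t * I) + π * F (-((1 / 2 : ℝ) + t * I))‖ ≤
      2 * ε * (1 + t ^ 2)⁻¹) :
    ‖2 * ln (1 / 2) G + π * ln (-1 / 2) F‖ ≤ ε := by
  have hb := integrable_inv_one_add_sq.const_mul (2 * ε)
  have h1 := hG.const_mul 2
  have h2 : Integrable fun t : ℝ =>
      2 * G ((1 / 2 : ℝ) + t * I) + π * F (-((1 / 2 : ℝ) + t * I)) :=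
    hb.mono' (h1.aestronglyMeasurable.add (hF.aestronglyMeasurable.const_mul _))
      (Eventually.of_forall h)
  have h3 : Integrable fun t : ℝ => π * F (-((1 / 2 : ℝ) + t * I)) :=
    (h2.sub h1).congr (Eventually.of_forall fun t => by simp)
  have e1 : ∫ t : ℝ, F ((-1 / 2 : ℝ) + t * I) = ∫ t : ℝ, F (-((1 / 2 : ℝ) + t * I)) := by
    rw [← integral_neg_eq_self]
    congr 1 with t
    congr 1; push_cast; ring
  have e2 : 2 * ln (1 / 2) G + π * ln (-1 / 2) F = 1 / (2 * π) * ∫ t : ℝ,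
      (2 * G ((1 / 2 : ℝ) + t * I) + π * F (-((1 / 2 : ℝ) + t * I))) := by
    rw [integral_add h1 h3, integral_const_mul, integral_const_mul, ln, ln, e1]; ring
  have h4 := norm_integral_le_of_norm_le hb (Eventually.of_forall h)
  rw [integral_const_mul, integral_univ_inv_one_add_sq] at h4
  have e3 : ‖(1 / (2 * π) : ℂ)‖ = 1 / (2 * π) := by simp [abs_of_pos Real.pi_pos]
  rw [e2, norm_mul, e3]
  calc _ ≤ 1 / (2 * π) * (2 * ε * π) := by gcongr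
    _ = ε := by field_simp

theorem ZJ_sub {D : ℕ} [NeZero D] (χ : Ch D) (Q : ℝ) (N n : ℕ) (a b c d u : ℂ) :
    ZJ χ Q N n a b u = ZJ χ Q N n c d u + ZJ χ Q N n (a - c) (b - d) u := by
  unfold ZJ; ring

theorem num {δ : ℝ} {N D n : ℕ} (hN : 3 ≤ N) (hD0 : 0 < D) (hδ : 0 < δ) (hδ1 : δ ≤ 1 / 1000)
    (hD : (D : ℝ) ≤ (N : ℝ) ^ δ) (hn1 : 1 ≤ n) (hn : (n : ℝ) ≤ 2 * (N : ℝ) ^ (1 / 2 + 3 * δ)) :
    0 < Qc D N / N ∧ Qc D N / N ≤ 1 ∧ (n : ℝ) ≤ (N : ℝ) ^ 2 ∧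
      √(Qc D N / N) * D * √n ≤ 2 * ((N : ℝ) ^ δ) ^ 3 ∧
      3 + |cc D N| + 2 * Real.log n ≤ 7 * (1 + Real.log N) := by
  have h3 : (3 : ℝ) ≤ N := by exact_mod_cast hN
  have h0 : (0 : ℝ) < N := by linarith
  have h1 : (1 : ℝ) ≤ N := by linarith
  have hD1 : (1 : ℝ) ≤ D := by exact_mod_cast hD0
  have hn1' : (1 : ℝ) ≤ n := by exact_mod_cast hn1
  have hs := Real.sqrt_pos.2 h0
  have hss := Real.mul_self_sqrt h0.le
  have hq : Qc D N / N = D / √N := by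
    rw [Qc, div_eq_div_iff h0.ne' hs.ne', mul_assoc, hss]
  have hx : (N : ℝ) ^ δ ≤ √N := by
    rw [Real.sqrt_eq_rpow]; exact Real.rpow_le_rpow_of_exponent_le h1 (by linarith)
  have hx0 : 0 < (N : ℝ) ^ δ := by positivity
  have hn2 : (n : ℝ) ≤ (N : ℝ) ^ 2 := by
    have : (N : ℝ) ^ (1 / 2 + 3 * δ) ≤ (N : ℝ) ^ (1 : ℝ) :=
      Real.rpow_le_rpow_of_exponent_le h1 (by linarith)
    rw [Real.rpow_one] at this
    nlinarith
  have e1 : (N : ℝ) ^ (1 / 2 + 3 * δ) = √N * ((N : ℝ) ^ δ) ^ 3 := by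
    rw [Real.rpow_add h0, Real.sqrt_eq_rpow, mul_comm 3 δ, Real.rpow_mul h0.le]
    norm_num
  have hl := Real.log_nonneg h1
  have hlD := Real.log_nonneg hD1
  have hlD' : Real.log D ≤ Real.log N := by
    refine Real.log_le_log (by linarith) (hD.trans ?_)
    have : (N : ℝ) ^ δ ≤ (N : ℝ) ^ (1 : ℝ) := Real.rpow_le_rpow_of_exponent_le h1 (by linarith)
    rwa [Real.rpow_one] at this
  have hln : Real.log n ≤ 2 * Real.log N := by
    have := Real.log_le_log (by linarith) hn2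
    rwa [Real.log_pow, Nat.cast_ofNat] at this
  have hc : |cc D N| ≤ 3 * Real.log N + 2 := by
    have g1 := Real.eulerMascheroniConstant_lt_two_thirds
    have g2 := Real.one_half_lt_eulerMascheroniConstant
    rw [cc, abs_le]; constructor <;> linarith
  refine ⟨by rw [hq]; positivity, by rw [hq, div_le_one hs]; linarith, hn2, ?_, by linarith⟩
  rw [e1] at hn
  generalize (N : ℝ) ^ δ = x at *
  refine le_of_pow_le_pow_left₀ two_ne_zero (by positivity) ?_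
  rw [hq, mul_pow, mul_pow, Real.sq_sqrt (by positivity), Real.sq_sqrt (by positivity)]
  calc _ ≤ x / √N * x ^ 2 * (2 * (√N * x ^ 3)) := by gcongr
    _ = 2 * x ^ 6 := by field_simp
    _ ≤ _ := by nlinarith [pow_pos hx0 6]

end ZDA

open ZDA in
theorem zdOf : ZDOf := by
  rintro ⟨CV, hCV, gd, -, gb, -⟩ ⟨CL, hCL, hL⟩ ⟨CA, -, hA⟩ hF ⟨CK, hCK, hKM⟩ hK ⟨CM, hCM, hM⟩ δ hδ hδ1
  obtain ⟨N₁, h3, hN₁⟩ := U.ev_log 10 0 (show 0 < 40 * δ by positivity)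
  obtain ⟨N₂, -, hN₂⟩ := U.ev_tau 2 (show 0 < δ / 3 by positivity)
  obtain ⟨N₃, -, hN₃⟩ := U.ev_log (112 * CV * CL ^ 2 * CK) 1 hδ
  refine ⟨max N₁ (max N₂ N₃), fun N D _ χ j n hN h hk hn1 hn => ?_⟩
  have a1 : N₁ ≤ N := (le_max_left _ _).trans hN
  have a2 : N₂ ≤ N := (le_max_left _ _).trans ((le_max_right _ _).trans hN)
  have a3 : N₃ ≤ N := (le_max_right _ _).trans ((le_max_right _ _).trans hN)
  have hD : 0 < D := Nat.pos_of_ne_zero (NeZero.ne D)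
  have hD' : (0 : ℝ) < D := by exact_mod_cast hD
  have hN0 : (0 : ℝ) < N := by exact_mod_cast h.pr.pos
  have hN1 : (1 : ℝ) ≤ N := by exact_mod_cast h.pr.pos
  obtain ⟨q0, q1, hn2, q2, q3⟩ := num (h3.trans a1) hD hδ hδ1 h.hD hn1 hn
  obtain ⟨hs, -, -⟩ := hF D χ h.prim h.sq h.ne
  have hs1 : |(χ (-1)).re| = 1 := by rcases hs with e | e <;> simp [e]
  obtain ⟨Ld, Lb⟩ := (hL D).1 χ h.ne
  obtain ⟨Ad, -, A1d, Ab, Ab', -, Hd⟩ := hA D χ n hn1
  obtain ⟨-, m1d, m1b, -⟩ := hM N N (1 / N) _ _ _ hk hs1 (Or.inl rfl)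
  obtain ⟨-, m2d, m2b, -⟩ := hM N N (1 / N) _ _ _ hk hs1 (Or.inr rfl)
  have key : ∀ (u m₂ m₁ : ℂ) (m a a₁ : ℝ), 1 / 2 ≤ u.re → u.re ≤ 2 → ‖m₂‖ ≤ m → ‖m₁‖ ≤ m →
      ‖Af χ (-u) 0 n‖ ≤ a → ‖A1 χ (-u) n‖ ≤ a₁ →
      ‖gm u / u ^ (j + 1) * ZJ χ (Qc D N) N n m₂ m₁ u‖ ≤ 4 * CV * (√(Qc D N / N) * D *
        (m * CL ^ 2 * ((3 + |cc D N|) * a + a₁))) * (1 + u.im ^ 2)⁻¹ := by
    intro u m₂ m₁ m a a₁ hu hu' b1 b2 b3 b4
    have := (norm_nonneg _).trans b1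
    have := (norm_nonneg _).trans b3
    have := (norm_nonneg _).trans b4
    obtain ⟨b5, b6⟩ := Lb u (by linarith) (by linarith)
    refine G_bd h.hj hu (gb u (by linarith) hu') ?_ (by linarith) (by positivity)
    refine (ZJ_bd χ q0 q1 hu b1 b2 b3 b4 b5 b6).trans (le_of_eq ?_)
    field_simp
  have hne : ∀ u : ℂ, u.re ≠ 0 → u ^ (j + 1) ≠ 0 := fun u hu =>
    pow_ne_zero _ fun e => hu (by rw [e]; rfl)
  have Ld' : Differentiable ℂ (deriv (LFunction χ)) := fun z =>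
    (Ld.analyticAt z).deriv.differentiableAt
  obtain ⟨hi, hsh⟩ := MP_74e98a_nt.H98.shift0
    (f := fun u => gm u / u ^ (j + 1) * ZI χ (Qc D N) N (kN δ N) n u) (a := 1 / 2) (b := 2)
    (C := 4 * CV * (√(Qc D N / N) * D * (CM * N * (N : ℝ) ^ 3 / (1 / N) * CL ^ 2 *
      ((3 + |cc D N|) * (n : ℝ) ^ 5 + 2 * (n : ℝ) ^ 6)))) (by norm_num)
    (fun u hu hu' => by
      have d1 := gd u (by linarith)
      have d2 := m1d u (by linarith)
      have d3 := m2d u (by linarith)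
      have d4 := Ld u
      have d5 := Ld' u
      have d6 : DifferentiableAt ℂ (fun u => Af χ (-u) 0 n) u :=
        ((Ad 0).comp differentiable_neg) u
      have d7 : DifferentiableAt ℂ (fun u => A1 χ (-u) n) u := (A1d.comp differentiable_neg) u
      have d8 : DifferentiableAt ℂ (fun u : ℂ => ((Qc D N / N : ℝ) : ℂ) ^ u) u :=
        differentiableAt_id.const_cpow (Or.inl (ofReal_ne_zero.2 q0.ne'))
      have d9 : DifferentiableAt ℂ (fun u => gm u / u ^ (j + 1)) u :=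
        d1.div (differentiableAt_id.pow _) (hne u (by linarith))
      refine d9.mul ?_
      unfold ZI
      exact (d8.const_mul _).mul ((d3.mul ((d4.pow 2).mul d6)).add (d2.mul
        (((d4.pow 2).mul ((d6.const_mul _).sub d7)).sub (((d4.const_mul 2).mul d5).mul d6)))))
    (fun σ t h1 h2 => by
      have r1 : (σ + t * I : ℂ).re = σ := by simp
      have r2 : (σ + t * I : ℂ).im = t := by simp
      have b := Ab' (-(σ + t * I)) (by rw [neg_re, r1]; linarith)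
      have := key (σ + t * I) _ _ _ _ _ (by rw [r1]; exact h1) (by rw [r1]; exact h2)
        (m2b _ (by rw [r1]; exact h1) (by rw [r1]; exact h2))
        (m1b _ (by rw [r1]; exact h1) (by rw [r1]; exact h2)) b.1 b.2
      rwa [r2] at this)
  have e0 : (ln 2 fun u => gm u / u ^ (j + 1) * ZI χ (Qc D N) N (kN δ N) n u) =
      ln (1 / 2) fun u => gm u / u ^ (j + 1) * ZI χ (Qc D N) N (kN δ N) n u := by
    unfold ln; rw [hsh]
  have hQ : 0 < Qc D N := (div_pos_iff_of_pos_right hN0).1 q0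
  have hU : (1 : ℝ) ≤ (N : ℝ) ^ (100 * δ) := Real.one_le_rpow hN1 (by positivity)
  have hη : (N : ℝ) ^ (-40 * δ) ≤ 1 / 10 := by
    have := hN₁ N a1
    rw [pow_zero, mul_one] at this
    rw [neg_mul, Real.rpow_neg hN0.le, ← one_div]
    exact one_div_le_one_div_of_le (by norm_num) this
  have y1 : ((N : ℝ) ^ (100 * δ)) ^ (-1 / 5 : ℝ) = (N : ℝ) ^ (-20 * δ) := by
    rw [← Real.rpow_mul hN0.le]; congr 1; ring
  have y2 : √((N : ℝ) ^ (-40 * δ)) = (N : ℝ) ^ (-20 * δ) := by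
    rw [Real.sqrt_eq_rpow, ← Real.rpow_mul hN0.le]; congr 1; ring
  have y3 : (N : ℝ) ^ (-15 * δ) = (N : ℝ) ^ (-20 * δ) * ((N : ℝ) ^ δ) ^ 5 := by
    rw [← Real.rpow_natCast, ← Real.rpow_mul hN0.le, ← Real.rpow_add hN0]; congr 1; push_cast; ring
  have y4 : tau n ^ 3 ≤ (N : ℝ) ^ δ := by
    have : ((N : ℝ) ^ (δ / 3)) ^ 3 = (N : ℝ) ^ δ := by
      rw [← Real.rpow_natCast, ← Real.rpow_mul hN0.le]; congr 1; push_cast; ring
    rw [← this]
    exact pow_le_pow_left₀ (U.tau_nonneg n) (hN₂ N a2 n hn2) 3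
  rw [e0]
  refine le_trans (fin (ε := 4 * CV * (√(Qc D N / N) * D * (CK * (2 * (N : ℝ) ^ (-20 * δ)) *
    CL ^ 2 * ((3 + |cc D N|) * (√n * tau n ^ 3) + √n * tau n ^ 3 * (2 * Real.log n)))))
    (hi (1 / 2) le_rfl (by norm_num)) ?_ fun t => ?_) ?_
  · refine continuous_iff_continuousAt.2 fun t => ?_
    have r1 : (-((1 / 2 : ℝ) + t * I) : ℂ).re = -(1 / 2) := by simp
    have d : DifferentiableAt ℂ (FD χ j N n) (-((1 / 2 : ℝ) + t * I)) := by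
      unfold FD
      exact (((gd _ (by rw [r1]; norm_num)).mul (differentiableAt_id.const_cpow
        (Or.inl (ofReal_ne_zero.2 hQ.ne')))).mul ((Hd h.ne _).1 _)).div
        (differentiableAt_id.pow _) (hne _ (by rw [r1]; norm_num))
    exact ContinuousAt.comp (f := fun t : ℝ => (-((1 / 2 : ℝ) + t * I) : ℂ))
      d.continuousAt (by fun_prop)
  · have r1 : ((1 / 2 : ℝ) + t * I : ℂ).re = 1 / 2 := by simp
    have r2 : ((1 / 2 : ℝ) + t * I : ℂ).im = t := by simp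
    generalize ((1 / 2 : ℝ) + t * I : ℂ) = u at *
    obtain ⟨c1, c2⟩ := (hKM _ hU).2.2 _ _ u (by positivity) hη hs r1
    rw [y1, y2, ← two_mul] at c1 c2
    have b := Ab (-u) (by rw [neg_re, r1]; norm_num)
    have c3 := key u _ _ _ _ _ r1.ge (by rw [r1]; norm_num) c2 c1 b.1 b.2
    have c4 := ident hF hK h n r1
    rw [ZI_eq, ZJ_sub χ _ N n _ _ (mel (fun t => π * lg t ^ 2) (χ (-1)).re u)
      (mel (fun t => π * lg t) (χ (-1)).re u), mul_add, mul_add, c4, add_right_comm,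
      neg_add_cancel, zero_add, norm_mul, Complex.norm_two, mul_assoc 2, ← r2]
    exact mul_le_mul_of_nonneg_left c3 zero_le_two
  · have c5 := hN₃ N a3
    have hl : 0 ≤ Real.log n := Real.log_nonneg (by exact_mod_cast hn1)
    have hl' := Real.log_nonneg hN1
    have := U.tau_nonneg n
    rw [y3]
    rw [pow_one] at c5
    have hy : 0 ≤ (N : ℝ) ^ (-20 * δ) := by positivity
    have hx : 0 ≤ (N : ℝ) ^ δ := by positivity
    generalize (N : ℝ) ^ (-20 * δ) = y at *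
    generalize (N : ℝ) ^ δ = x at *
    calc _ = 8 * CV * CL ^ 2 * CK * y * (√(Qc D N / N) * D * √n) * tau n ^ 3 *
          (3 + |cc D N| + 2 * Real.log n) := by ring
      _ ≤ 8 * CV * CL ^ 2 * CK * y * (2 * x ^ 3) * x * (7 * (1 + Real.log N)) := by gcongr
      _ = y * x ^ 4 * (112 * CV * CL ^ 2 * CK * (1 + Real.log N)) := by ring
      _ ≤ y * x ^ 4 * x := by gcongr
      _ = _ := by ring

end Pool.Agent.MP_20b2fd_nt.F5
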