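import Pool.Agent.MP_20b2fd_nt.F5.V
import Pool.Agent.MP_20b2fd_nt.F5.SH
import Pool.Agent.MP_20b2fd_nt.F5.ME
import Pool.Agent.MP_20b2fd_nt.F5.LB
import Pool.Agent.MP_20b2fd_nt.F5.AR0
import Pool.Agent.MP_20b2fd_nt.F5.AR3
import Pool.Agent.MP_20b2fd_nt.F5.AR1
import Pool.Agent.MP_20b2fd_nt.F5.BL
import Pool.Agent.MP_20b2fd_nt.F5.AR2
import Pool.Agent.MP_20b2fd_nt.F5.ZC
import Pool.Agent.MP_20b2fd_nt.F5.FE
import Pool.Agent.MP_20b2fd_nt.F5.MK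
import Pool.Agent.MP_20b2fd_nt.F5.KC
import Pool.Agent.MP_20b2fd_nt.F5.BX
import Pool.Agent.MP_20b2fd_nt.F5.VA
import Pool.Agent.MP_20b2fd_nt.F5.GK
import Pool.Agent.MP_20b2fd_nt.F5.RH
import Pool.Agent.MP_20b2fd_nt.F5.HS
import Pool.Agent.MP_20b2fd_nt.F5.AL
import Pool.Agent.MP_20b2fd_nt.F5.SI
import Pool.Agent.MP_20b2fd_nt.F5.CA
import Pool.Agent.MP_20b2fd_nt.F5.CB
import Pool.Agent.MP_20b2fd_nt.F5.CO
import Pool.Agent.MP_20b2fd_nt.F5.OZ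
import Pool.Agent.MP_20b2fd_nt.F5.ZA
import Pool.Agent.MP_20b2fd_nt.F5.ZB
import Pool.Agent.MP_20b2fd_nt.F5.ZD
import Pool.Agent.MP_20b2fd_nt.F5.DG
import Pool.Agent.MP_20b2fd_nt.F5.PB
import Pool.Agent.MP_20b2fd_nt.F5.CU
import Pool.Agent.MP_20b2fd_nt.F5.EY
import Pool.Agent.MP_20b2fd_nt.F5.FX
import Pool.Agent.MP_20b2fd_nt.F5.FY1
import Pool.Agent.MP_20b2fd_nt.F5.KV
import Pool.Agent.MP_20b2fd_nt.F5.FY2
import Pool.Agent.MP_20b2fd_nt.F5.FY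
import Pool.Agent.MP_20b2fd_nt.F5.TW
import Pool.Agent.MP_20b2fd_nt.F5.FF
import Pool.Agent.MP_20b2fd_nt.H38.AllA
import Pool.Agent.MP_20b2fd_nt.H38.PhZ
import Pool.Agent.MP_20b2fd_nt.H38.Mel1
import Pool.Agent.MP_20b2fd_nt.H96.AllB

/-! The moments of the perturbation: the rows put together. -/

set_option autoImplicit false

namespace Pool.Agent.MP_20b2fd_nt.F5.All

theorem me : MES := meOf v
theorem lb : LBS := lbOf H38.phZ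
theorem ar1 : AR1S := ar1Of ar3
theorem ar2 : AR2S := ar2Of blS
theorem bx : BXS := bxOf (kcOf H38.kl)
theorem oz : OZS :=
  ozOf (coOf (caOf H38.bbS bx va gk hs) (cbOf gk (alOf rh hs) si))
theorem zb : ZBS := zbOf v ar3 zcS feS mk (zaOf v)
theorem zd : ZDS := zdOf v lb ar0 feS H96.All.kmS H96.All.kbS mk
theorem dg : DGS := dgOf v sh me lb ar0 ar1
theorem pb : PBS := pbOf v
theorem fy1 : FY1S :=
  fy1Of v H38.All.ker H38.mel1 H96.All.kmS oz zb zd dg pb (cuOf H38.mel1)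
theorem fy2 : FY2S := fy2Of v lb ar0 (kvOf v sh me lb ar0 blS ar2)
theorem ff : FFS :=
  ffOf H38.All.xg H96.All.kmS (eyOf v sh me lb) (fxOf H38.All.xg H96.All.kmS dg pb)
    (fyOf fy1 fy2) (twOf v)

end Pool.Agent.MP_20b2fd_nt.F5.All
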