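import Pool.Agent.MP_20b2fd_nt.F5.Util

set_option autoImplicit false

namespace Pool.Agent.MP_20b2fd_nt.F5

open Finset

theorem fyOf : FYOf := by
  rintro ⟨δ₁, h1, H1⟩ ⟨C, δ₂, hC, h2, H2⟩
  refine ⟨C, min (min δ₁ δ₂) (1 / 1000), hC, by positivity, fun δ C' hδ hδ' hC' => ?_⟩
  have d1 : δ ≤ δ₁ := hδ'.trans ((min_le_left _ _).trans (min_le_left _ _))
  have d2 : δ ≤ δ₂ := hδ'.trans ((min_le_left _ _).trans (min_le_right _ _))
  have d3 : δ ≤ 1 / 1000 := hδ'.trans (min_le_right _ _)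
  obtain ⟨N₁, hN1⟩ := H1 δ C' hδ d1 hC'
  obtain ⟨N₂, hN2⟩ := H2 δ hδ d2
  obtain ⟨N₃, h3, hN3⟩ := U.ev_log 2 0 hδ
  refine ⟨max N₁ (max N₂ N₃), fun N D _ χ j c₀ ι J ν l L₁ B hN hR hc hM => ?_⟩
  have n1 : N₁ ≤ N := (le_max_left _ _).trans hN
  have n2 : N₂ ≤ N := ((le_max_left _ _).trans (le_max_right _ _)).trans hN
  have n3 : N₃ ≤ N := ((le_max_right _ _).trans (le_max_right _ _)).trans hN
  have hp : (1 : ℝ) ≤ N := by exact_mod_cast (show 1 ≤ N by omega)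
  have hp' : (0 : ℝ) < N := by linarith
  have e2 := hN2 N D χ j ι J ν l L₁ B n2 hR hM
  have e3 := hN3 N n3
  rw [pow_zero, mul_one] at e3
  set a := fun i => PN χ j δ N (PN χ j δ N (elc ((N : ℝ) ^ (100 * δ)) c₀ N)) (l i)
  set b := fun i => PN χ j δ N (Rn χ j (LN N) (H38.Qc D N)) (l i)
  have e1 : ‖∑ i ∈ J, ν i * (a i - b i)‖ ≤ (N : ℝ) ^ (-9 * δ) := by
    calc _ ≤ ∑ i ∈ J, ‖ν i‖ * (N : ℝ) ^ (-12 * δ) := by
          refine norm_sum_le_of_le _ fun i hi => ?_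
          rw [norm_mul]
          exact mul_le_mul_of_nonneg_left
            (hN1 N D χ j (l i) c₀ n1 hR hc (hM.hl i hi).1 (hM.hl i hi).2) (norm_nonneg _)
      _ ≤ (N : ℝ) ^ (3 * δ) * (N : ℝ) ^ (-12 * δ) := by
          rw [← sum_mul]; exact mul_le_mul_of_nonneg_right hM.hν (by positivity)
      _ = _ := by rw [← Real.rpow_add hp']; congr 1; ring
  have e4 : (N : ℝ) ^ (-1 / 20 : ℝ) ≤ (N : ℝ) ^ (-9 * δ) :=
    Real.rpow_le_rpow_of_exponent_le hp (by linarith)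
  have e5 : 2 * (N : ℝ) ^ (-9 * δ) ≤ (N : ℝ) ^ (-8 * δ) := by
    refine (mul_le_mul_of_nonneg_right e3 (by positivity)).trans_eq ?_
    rw [← Real.rpow_add hp']; congr 1; ring
  have e6 : ∑ i ∈ J, ν i * a i = ∑ i ∈ J, ν i * (a i - b i) + ∑ i ∈ J, ν i * b i := by
    rw [← sum_add_distrib]; exact sum_congr rfl fun i _ => by ring
  calc ‖∑ i ∈ J, ν i * a i‖ ≤ ‖∑ i ∈ J, ν i * (a i - b i)‖ + ‖∑ i ∈ J, ν i * b i‖ := by
        rw [e6]; exact norm_add_le _ _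
    _ ≤ _ := by linarith

end Pool.Agent.MP_20b2fd_nt.F5
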