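import Pool.Agent.MP_20b2fd_nt.F5.Spec
import Pool.Agent.MP_20b2fd_nt.H38.Mel2

/-! Mellin transforms of a kernel that vanishes near the singular point. -/

set_option autoImplicit false

namespace Pool.Agent.MP_20b2fd_nt.F5

open MeasureTheory Filter Topology Asymptotics Set
open Pool.Agent.MP_20b2fd_nt.H38

namespace MKA

theorem lg_le {t η : ℝ} (ht : t ≠ 0) (h0 : 0 < η) (h1 : η ≤ 1) (h : η < |1 + t|) :
    |lg t| ≤ 1 / η * (1 + abs (Real.log |t|)) := by
  have a0 := abs_pos.2 ht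
  have a1 := h0.trans h
  have e : |1 + 1 / t| = |1 + t| / |t| := by
    rw [← abs_div]
    congr 1
    field_simp
    ring
  have b0 : 1 ≤ 1 / η := (one_le_div h0).2 h1
  have b1 := abs_nonneg (Real.log |t|)
  have b2 : |1 + t| ≤ 1 + |t| := by simpa using abs_add_le 1 t
  have b3 : |t| ≤ |1 + t| + 1 := by simpa using abs_sub (1 + t) 1
  rw [lg, e, abs_le]
  constructor
  · have c1 := Real.log_le_sub_one_of_pos (div_pos a0 a1)
    have c2 : |t| / |1 + t| ≤ 1 + 1 / η := by
      rw [div_le_iff₀ a1]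
      have : 1 ≤ 1 / η * |1 + t| := by
        rw [one_div_mul_eq_div, one_le_div h0]
        exact h.le
      linarith
    rw [← inv_div |t|, Real.log_inv]
    nlinarith
  · refine le_trans ?_ (le_mul_of_one_le_left (by positivity) b0)
    rcases le_total 1 |t| with c | c
    · have c1 := Real.log_le_sub_one_of_pos (div_pos a1 a0)
      have c2 : |1 + t| / |t| ≤ 2 := by
        rw [div_le_iff₀ a0]
        linarith
      linarith
    · have c1 := Real.log_le_sub_one_of_pos a1
      rw [Real.log_div a1.ne' a0.ne']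
      linarith [neg_le_abs (Real.log |t|)]

theorem maj {x σ : ℝ} (hx : 0 < x) (h1 : 1 / 2 ≤ σ) (h2 : σ ≤ 2) :
    x ^ (σ - 1) * (1 + |Real.log x|) ^ 2 ≤ 81 * x ^ (-3 / 4 : ℝ) + 4 * x ^ 2 := by
  have p1 : 0 < x ^ (-3 / 4 : ℝ) := by positivity
  rcases le_total x 1 with c | c
  · have a1 : x ^ (σ - 1) ≤ x ^ (-1 / 2 : ℝ) :=
      Real.rpow_le_rpow_of_exponent_ge hx c (by linarith)
    have a2 := Real.log_le_sub_one_of_pos (Real.rpow_pos_of_pos hx (-1 / 8))
    have a3 : 1 ≤ x ^ (-1 / 8 : ℝ) :=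
      Real.one_le_rpow_of_pos_of_le_one_of_nonpos hx c (by norm_num)
    rw [Real.log_rpow hx] at a2
    have a4 : 1 + |Real.log x| ≤ 9 * x ^ (-1 / 8 : ℝ) := by
      rw [abs_of_nonpos (Real.log_nonpos hx.le c)]
      linarith
    have a5 : x ^ (-1 / 2 : ℝ) * (9 * x ^ (-1 / 8 : ℝ)) ^ 2 = 81 * x ^ (-3 / 4 : ℝ) := by
      rw [show (-3 / 4 : ℝ) = -1 / 2 + (-1 / 8 + -1 / 8) by norm_num, Real.rpow_add hx,
        Real.rpow_add hx]
      ring
    have a6 : x ^ (σ - 1) * (1 + |Real.log x|) ^ 2 ≤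
        x ^ (-1 / 2 : ℝ) * (9 * x ^ (-1 / 8 : ℝ)) ^ 2 := by gcongr
    nlinarith [sq_nonneg x]
  · have a1 : x ^ (σ - 1) ≤ x := by
      simpa using Real.rpow_le_rpow_of_exponent_le c (show σ - 1 ≤ 1 by linarith)
    have a2 := Real.log_le_sub_one_of_pos (Real.sqrt_pos.2 hx)
    rw [Real.log_sqrt hx.le] at a2
    have a4 : 1 + |Real.log x| ≤ 2 * √x := by
      rw [abs_of_nonneg (Real.log_nonneg c)]
      linarith
    have a6 : x ^ (σ - 1) * (1 + |Real.log x|) ^ 2 ≤ x * (2 * √x) ^ 2 := by gcongr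
    rw [mul_pow, Real.sq_sqrt hx.le] at a6
    linarith

theorem int_le {F : Type} [NormedAddCommGroup F] [NormedSpace ℝ F] {h : ℝ → F} {R A σ : ℝ}
    (hR : 1 ≤ R) (hA : 0 ≤ A) (h1 : 1 / 2 ≤ σ) (h2 : σ ≤ 2) (h0 : ∀ x, R < x → h x = 0)
    (hb : ∀ x, 0 < x → ‖h x‖ ≤ x ^ (σ - 1) * (A * (1 + |Real.log x|) ^ 2)) :
    ‖∫ x in Ioi 0, h x‖ ≤ 326 * A * R ^ 3 := by
  have R0 : 0 < R := by linarith
  have i1 : IntervalIntegrable (fun x : ℝ => x ^ (-3 / 4 : ℝ)) volume 0 R :=
    intervalIntegral.intervalIntegrable_rpow' (by norm_num)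
  have i2 : IntervalIntegrable (fun x : ℝ => x ^ 2) volume 0 R :=
    (continuous_pow 2).intervalIntegrable _ _
  rw [setIntegral_eq_of_subset_of_forall_sdiff_eq_zero measurableSet_Ioi
    (Ioc_subset_Ioi_self : Ioc 0 R ⊆ Ioi 0) fun x hx => h0 x (not_le.1 fun h => hx.2 ⟨hx.1, h⟩)]
  refine (norm_integral_le_of_norm_le (g := fun x => A * (81 * x ^ (-3 / 4 : ℝ) + 4 * x ^ 2))
    (((i1.const_mul 81).add (i2.const_mul 4)).const_mul A).1 ?_).trans ?_
  · refine (ae_restrict_iff' measurableSet_Ioc).2 (.of_forall fun x hx => (hb x hx.1).trans ?_)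
    rw [mul_left_comm]
    exact mul_le_mul_of_nonneg_left (maj hx.1 h1 h2) hA
  · rw [← intervalIntegral.integral_of_le R0.le, intervalIntegral.integral_const_mul,
      intervalIntegral.integral_add (i1.const_mul 81) (i2.const_mul 4),
      intervalIntegral.integral_const_mul, intervalIntegral.integral_const_mul,
      integral_rpow (Or.inl (by norm_num)), integral_pow, Real.zero_rpow (by norm_num),
      mul_comm 326, mul_assoc]
    refine mul_le_mul_of_nonneg_left ?_ hA
    have a1 : R ^ (-3 / 4 + 1 : ℝ) ≤ R ^ 3 := by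
      exact_mod_cast Real.rpow_le_rpow_of_exponent_le hR (show (-3 / 4 + 1 : ℝ) ≤ 3 by norm_num)
    have a2 : 0 < R ^ 3 := by positivity
    norm_num at a1 ⊢
    linarith

theorem big {g : ℝ → ℂ} {A b : ℝ} (h : 0 < b)
    (hb : ∀ x, 0 < x → ‖g x‖ ≤ A * (1 + |Real.log x|) ^ 2) : g =O[𝓝[>] 0] (· ^ (-b)) := by
  have h1 := Mel2A.big0 (g := fun x => ((1 + |Real.log x| : ℝ) : ℂ)) (A := 1) (half_pos h)
    fun x _ => by rw [Complex.norm_real, Real.norm_of_nonneg (by positivity), one_mul]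
  refine (IsBigO.trans (IsBigO.of_bound A ?_) (h1.mul h1)).congr' EventuallyEq.rfl ?_
  · filter_upwards [self_mem_nhdsWithin] with x hx
    rw [norm_mul, Complex.norm_real, Real.norm_of_nonneg (by positivity), ← sq]
    exact hb x hx
  · filter_upwards [self_mem_nhdsWithin] with x hx
    rw [← Real.rpow_add hx]
    congr 1
    ring

theorem ker {R E η : ℝ} {k κ : ℝ → ℝ} (h : KOK R E η k) (hκ : κ = k ∨ κ = fun t => k t * lg t) :
    0 ≤ E ∧ (∀ t, R ≤ |t| → κ t = 0) ∧
      ∀ t, t ≠ 0 → ContinuousAt κ t ∧ |κ t| ≤ E / η * (1 + abs (Real.log |t|)) ^ 2 := by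
  obtain ⟨-, h0, h1, ⟨B, D, rfl, hD, hz, -, -, hE⟩, hη⟩ := h
  have E0 : 0 ≤ E := by
    have := (hE 1 one_ne_zero).1
    simp only [abs_one, Real.log_one, abs_zero, add_zero, mul_one] at this
    exact (abs_nonneg _).trans this
  refine ⟨E0, ?_⟩
  rcases hκ with rfl | rfl
  · refine ⟨hz, fun t ht => ⟨(hD 0 t ht).continuousAt, (hE t ht).1.trans ?_⟩⟩
    refine mul_le_mul (le_div_self E0 h0 h1) (le_self_pow₀ ?_ two_ne_zero) (by positivity)
      (by positivity)
    exact le_add_of_nonneg_right (abs_nonneg _)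
  · refine ⟨fun t ht => by simp [hz t ht], fun t ht => ⟨?_, ?_⟩⟩
    · by_cases c : |1 + t| < η
      · have : ∀ᶠ x in 𝓝 t, |1 + x| < η :=
          (continuous_const.add continuous_id).abs.continuousAt.eventually (gt_mem_nhds c)
        exact continuousAt_const.congr (this.mono fun x hx => by
          change (0 : ℝ) = D 0 x * lg x
          rw [hη x hx.le, zero_mul])
      · refine (hD 0 t ht).continuousAt.mul
          ((continuousAt_const.add (continuousAt_const.div continuousAt_id ht)).abs.log ?_)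
        intro e
        have e1 : 1 + 1 / t = 0 := abs_eq_zero.1 e
        have e2 : 1 + t = 0 := by
          field_simp at e1
          linarith
        rw [e2, abs_zero] at c
        exact c h0
    · rcases le_or_gt |1 + t| η with c | c
      · simp only [hη t c, zero_mul, abs_zero]
        positivity
      · rw [abs_mul]
        refine (mul_le_mul (hE t ht).1 (lg_le ht h0 h1 c) (abs_nonneg _)
          (by positivity)).trans_eq ?_
        ring

end MKA

open MKA

theorem mk : MKS := by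
  refine ⟨652, by norm_num, fun R E η s k κ h hs hκ => ?_⟩
  obtain ⟨E0, hz, hk⟩ := ker h hκ
  obtain ⟨hR, h0, -⟩ := h
  have c : ContinuousOn (fe κ s) (Ioi 0) := fun x hx =>
    (Complex.continuous_ofReal.continuousAt.comp ((((hk (-x) (neg_ne_zero.2 (ne_of_gt hx))).1).comp
      continuous_neg.continuousAt).add
      (continuousAt_const.mul (hk x (ne_of_gt hx)).1))).continuousWithinAt
  have z : ∀ x, R < x → fe κ s x = 0 := fun x hx => by
    have a : R ≤ |x| := hx.le.trans (le_abs_self x)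
    simp [fe, hz x a, hz (-x) (by rwa [abs_neg])]
  have b : ∀ x, 0 < x → ‖fe κ s x‖ ≤ 2 * (E / η) * (1 + |Real.log x|) ^ 2 := fun x hx => by
    have a1 := (hk x hx.ne').2
    have a2 := (hk (-x) (neg_ne_zero.2 hx.ne')).2
    rw [abs_neg, abs_of_pos hx] at a2
    rw [abs_of_pos hx] at a1
    rw [fe, Complex.norm_real, Real.norm_eq_abs]
    refine (abs_add_le _ _).trans ?_
    rw [abs_mul, hs]
    linarith
  have A0 : 0 ≤ 2 * (E / η) := by positivity
  have e : 326 * (2 * (E / η)) * R ^ 3 = 652 * E * R ^ 3 / η := by ring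
  refine ⟨c, fun u hu => (Mel2A.conv c z (big (half_pos hu) b) (half_lt_self hu)).2,
    fun u h1 h2 => ?_, ?_, ?_⟩
  · refine (int_le hR A0 h1 h2 (fun x hx => by rw [z x hx, smul_zero]) fun x hx => ?_).trans_eq e
    rw [norm_smul, Complex.norm_cpow_eq_rpow_re_of_pos hx, Complex.sub_re, Complex.one_re]
    exact mul_le_mul_of_nonneg_left (b x hx) (by positivity)
  · have := (Mel2A.conv (s := 2) c z (big one_pos b) (by norm_num)).1
    refine IntegrableOn.congr_fun this.norm (fun x hx => ?_) measurableSet_Ioi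
    rw [norm_smul, Complex.norm_cpow_eq_rpow_re_of_pos hx]
    norm_num
  · refine (le_abs_self _).trans ((int_le (σ := 2) (h := fun t => t * ‖fe κ s t‖) hR A0
      (by norm_num) le_rfl (fun x hx => by rw [z x hx, norm_zero, mul_zero])
      fun x hx => ?_).trans_eq e)
    rw [Real.norm_of_nonneg (by positivity), show (2 : ℝ) - 1 = 1 by norm_num, Real.rpow_one]
    exact mul_le_mul_of_nonneg_left (b x hx) hx.le

end Pool.Agent.MP_20b2fd_nt.F5
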