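import Pool.Agent.MP_20b2fd_nt.F5.Util

/-! Reindexing the double Hecke action. -/

set_option autoImplicit false

namespace Pool.Agent.MP_20b2fd_nt.F5

open Finset
open Pool.Agent.MP_c5bf7b_nt.H38 (Ch)
open Pool.Agent.MP_20b2fd_nt.H38

namespace OZA

variable {D : ℕ} (χ : Ch D) {W : ℝ → ℝ} {R Q : ℝ} {N : ℕ}

theorem resc (hW : ∀ x, 2 * R ≤ x → W x = 0) (hQ : 0 < Q) (hN : 2 * Q * R ≤ N) {d : ℕ}
    (hd : 1 ≤ d) (g : ℕ → ℂ) :
    ∑ k ∈ Icc 1 N, wk χ W Q k * (if d ∣ k then g k else 0) =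
      χ d / d * ∑ y ∈ Icc 1 N, wk χ W (Q / d) y * g (d * y) := by
  have e : ∀ y : ℕ, χ d / d * (wk χ W (Q / d) y * g (d * y)) = wk χ W Q (d * y) * g (d * y) := by
    intro y
    unfold wk
    rw [div_div_eq_mul_div, Nat.cast_mul, map_mul]
    push_cast
    rw [mul_comm (y : ℝ)]
    ring
  simp only [mul_sum, e, mul_ite, mul_zero]
  rw [← sum_filter, ← sum_image (s := Icc 1 N) (g := fun y => d * y)
    (f := fun k => wk χ W Q k * g k) fun a _ b _ h => Nat.eq_of_mul_eq_mul_left hd h]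
  refine sum_subset ?_ ?_
  · intro k hk
    rw [mem_filter, mem_Icc] at hk
    obtain ⟨⟨h1, h2⟩, y, rfl⟩ := hk
    refine mem_image.2 ⟨y, mem_Icc.2 ⟨Nat.pos_of_mul_pos_left h1, ?_⟩, rfl⟩
    exact (Nat.le_mul_of_pos_left y hd).trans h2
  · intro k hk hk'
    obtain ⟨y, hy, rfl⟩ := mem_image.1 hk
    rw [mem_Icc] at hy
    have h1 : N < d * y := by
      by_contra h
      exact hk' (mem_filter.2 ⟨mem_Icc.2 ⟨Nat.mul_pos hd hy.1, by omega⟩, dvd_mul_right _ _⟩)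
    have h2 : (N : ℝ) ≤ (d * y : ℕ) := by exact_mod_cast h1.le
    unfold wk
    rw [hW _ (by rw [le_div_iff₀ hQ]; linarith)]
    simp

theorem P1 (hW : ∀ x, 2 * R ≤ x → W x = 0) (hQ : 0 < Q) (hN : 2 * Q * R ≤ N) (f : ℕ → ℂ) {l : ℕ}
    (hl : 1 ≤ l) : PT χ W Q N f l =
      ∑ d ∈ l.divisors, χ d * ∑ k ∈ Icc 1 N, wk χ W (Q / d) k * f (k * (l / d)) := by
  unfold PT
  simp only [U.Bh_eq f _ hl]
  rw [sum_congr rfl fun k _ => mul_sum _ _ _, sum_comm]
  refine sum_congr rfl fun d hd => ?_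
  have h1 := Nat.pos_of_mem_divisors hd
  obtain ⟨m, rfl⟩ := Nat.dvd_of_mem_divisors hd
  have h2 : (d : ℂ) ≠ 0 := by exact_mod_cast h1.ne'
  rw [resc χ hW hQ hN h1, mul_sum, mul_sum, Nat.mul_div_cancel_left _ h1]
  refine sum_congr rfl fun y _ => ?_
  rw [show d * y * (d * m) = d ^ 2 * (y * m) by ring, Nat.mul_div_cancel_left _ (by positivity)]
  field_simp

theorem dv {k l : ℕ} (hk : k ∈ Icc 1 N) (hl : 1 ≤ l) (F : ℕ → ℂ) :
    ∑ d ∈ (k * l).divisors, F d = ∑ a ∈ l.divisors, ∑ b ∈ Icc 1 N,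
      if b.Coprime (l / a) then (if b ∣ k then F (a * b) else 0) else 0 := by
  rw [mem_Icc] at hk
  simp only [← ite_and]
  rw [← sum_product' (f := fun a b => if b.Coprime (l / a) ∧ b ∣ k then F (a * b) else 0),
    ← sum_filter]
  refine sum_nbij' (fun d => (d.gcd l, d / d.gcd l)) (fun x => x.1 * x.2) ?_ ?_ ?_ ?_ ?_
  · intro d hd
    have h0 := Nat.pos_of_mem_divisors hd
    have hg : 0 < d.gcd l := Nat.gcd_pos_of_pos_right d hl
    have hc := Nat.coprime_div_gcd_div_gcd hg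
    have h1 : d / d.gcd l ∣ k := by
      refine hc.dvd_of_dvd_mul_right (Nat.dvd_of_mul_dvd_mul_right hg ?_)
      rw [Nat.div_mul_cancel (Nat.gcd_dvd_left _ _), mul_assoc,
        Nat.div_mul_cancel (Nat.gcd_dvd_right _ _)]
      exact Nat.dvd_of_mem_divisors hd
    simp only [mem_filter, mem_product, Nat.mem_divisors, mem_Icc]
    exact ⟨⟨⟨Nat.gcd_dvd_right _ _, by omega⟩, Nat.pos_of_dvd_of_pos h1 hk.1,
      (Nat.le_of_dvd hk.1 h1).trans hk.2⟩, hc, h1⟩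
  · intro x hx
    simp only [mem_filter, mem_product, Nat.mem_divisors] at hx ⊢
    exact ⟨mul_comm k l ▸ Nat.mul_dvd_mul hx.1.1.1 hx.2.2, (Nat.mul_pos hk.1 hl).ne'⟩
  · intro d _
    exact Nat.mul_div_cancel' (Nat.gcd_dvd_left _ _)
  · rintro ⟨a, b⟩ hx
    simp only [mem_filter, mem_product] at hx
    have h0 := Nat.pos_of_mem_divisors hx.1.1
    obtain ⟨m, rfl⟩ := Nat.dvd_of_mem_divisors hx.1.1
    have h1 := hx.2.1
    rw [Nat.mul_div_cancel_left _ h0] at h1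
    simp only [Nat.gcd_mul_left, h1.gcd_eq_one, mul_one, Nat.mul_div_cancel_left _ h0]
  · intro d _
    rw [Nat.mul_div_cancel' (Nat.gcd_dvd_left _ _)]

theorem inner (hW : ∀ x, 2 * R ≤ x → W x = 0) (hR : 1 ≤ R) (hQ : 0 < Q) (hN : 2 * Q * R ≤ N)
    (E : ℝ → ℕ → ℂ) {l : ℕ} (hl : 1 ≤ l) {ε P : ℝ} (hε : 0 ≤ ε) (hP : 0 < P) (hP' : P ≤ Q)
    (hE : ∀ (Q₁ Q₂ : ℝ) (lam : ℕ), 0 < Q₁ → Q₁ ≤ Q → 0 < Q₂ → Q₂ ≤ Q → 1 ≤ lam → lam ≤ l →
      ‖∑ y ∈ Icc 1 N, wk χ W Q₂ y * E Q₁ (lam * y)‖ ≤ ε) :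
    ‖∑ k ∈ Icc 1 N, wk χ W P k * ∑ d ∈ (k * l).divisors, χ d * E (Q / d) (k * l / d)‖ ≤
      l * ((1 + Real.log N) * ε) := by
  rw [sum_congr rfl fun k hk => by rw [dv hk hl, mul_sum], sum_comm]
  refine (norm_sum_le _ _).trans ((sum_le_card_nsmul _ _ ((1 + Real.log N) * ε)
    fun a ha => ?_).trans ?_)
  · have h0 := Nat.pos_of_mem_divisors ha
    obtain ⟨m, rfl⟩ := Nat.dvd_of_mem_divisors ha
    rw [sum_congr rfl fun k _ => mul_sum _ _ _, sum_comm, Nat.mul_div_cancel_left _ h0]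
    refine (norm_sum_le _ _).trans (le_trans ?_ (mul_le_mul_of_nonneg_right (U.sum_inv N) hε))
    rw [sum_mul]
    refine sum_le_sum fun b hb => ?_
    have hb1 := (mem_Icc.1 hb).1
    have hb2 : (1 : ℝ) ≤ b := by exact_mod_cast hb1
    have hab : (1 : ℝ) ≤ (a * b : ℕ) := by exact_mod_cast Nat.mul_pos h0 hb1
    by_cases hc : b.Coprime m
    · simp only [if_pos hc]
      rw [resc χ hW hP (by nlinarith) hb1, norm_mul]
      refine mul_le_mul ?_ ?_ (norm_nonneg _) (by positivity)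
      · rw [norm_div, Complex.norm_natCast]
        exact div_le_div_of_nonneg_right (χ.norm_le_one _) (by positivity)
      · have e : ∀ y, b * y * (a * m) / (a * b) = m * y := fun y => by
          rw [show b * y * (a * m) = a * b * (m * y) by ring,
            Nat.mul_div_cancel_left _ (Nat.mul_pos h0 hb1)]
        simp only [e, mul_left_comm (wk χ W _ _)]
        rw [← mul_sum, norm_mul]
        refine (mul_le_of_le_one_left (norm_nonneg _) (χ.norm_le_one _)).trans ?_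
        exact hE _ _ m (by positivity) (div_le_self hQ.le hab) (by positivity)
          ((div_le_self hP.le hb2).trans hP') (Nat.pos_of_mul_pos_left hl)
          (Nat.le_mul_of_pos_left m h0)
    · simp only [if_neg hc, mul_zero, sum_const_zero, norm_zero]
      positivity
  · rw [nsmul_eq_mul]
    exact mul_le_mul_of_nonneg_right (U.tau_le l)
      (mul_nonneg (by linarith [Real.log_natCast_nonneg N]) hε)

end OZA

theorem ozOf : OZOf := by
  intro hC ϑ C h0 h1 h2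
  obtain ⟨N₁, hN₁⟩ := hC ϑ C h0 h1 h2
  obtain ⟨N₂, h3, hN₂⟩ := U.ev_log 1 1 (show (0 : ℝ) < 1 / 200 by norm_num)
  refine ⟨max N₁ N₂, fun N D _ χ R Q W k l hN hR hQ hQR hl hl' => ?_⟩
  have n1 : (1 : ℝ) ≤ N := by exact_mod_cast (show 1 ≤ N by omega)
  have n0 : (0 : ℝ) < N := by linarith
  have hW := hR.hW.2
  have r1 := hR.hR
  have hN' : 2 * Q * R ≤ N := hQR.trans ((Real.rpow_le_rpow_of_exponent_le n1
    (by linarith [show (1 : ℝ) / 10 ^ 4 ≤ 1 / 2 by norm_num])).trans (Real.rpow_one _).le)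
  have lg := hN₂ N (by omega)
  rw [pow_one, one_mul] at lg
  have lg0 : 0 ≤ 1 + Real.log N := by linarith [Real.log_natCast_nonneg N]
  rw [OZA.P1 χ hW hQ hN' _ hl]
  refine (norm_sum_le _ _).trans ((sum_le_card_nsmul _ _
    (l * ((1 + Real.log N) * (N : ℝ) ^ (-1 / 30 : ℝ))) fun d hd => ?_).trans ?_)
  · have d0 := Nat.pos_of_mem_divisors hd
    have d1 : (1 : ℝ) ≤ d := by exact_mod_cast d0
    have m1 : 1 ≤ l / d := Nat.div_pos (Nat.divisor_le hd) d0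
    have m2 : ((l / d : ℕ) : ℝ) ≤ l := by exact_mod_cast Nat.div_le_self l d
    rw [norm_mul]
    refine (mul_le_of_le_one_left (norm_nonneg _) (χ.norm_le_one _)).trans (le_trans ?_
      (mul_le_mul_of_nonneg_right m2 (by positivity)))
    refine le_trans (le_of_eq ?_) (OZA.inner χ hW r1 hQ hN' (fun Q₁ n =>
      ∑ x ∈ Icc 1 N, wk χ W Q₁ x * (Od k N (x * n) : ℝ) - zf χ W Q₁ N k n) m1 (by positivity)
      (show 0 < Q / d by positivity) (div_le_self hQ.le d1) fun Q₁ Q₂ lam a1 a2 a3 a4 a5 a6 =>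
        hN₁ N D χ R Q₁ Q₂ W k lam (by omega) hR a1 a3 (le_trans (by nlinarith) hQR)
          (le_trans (by nlinarith) hQR) a5 (le_trans (by exact_mod_cast a6) (m2.trans hl')))
    congr 1
    refine sum_congr rfl fun y hy => ?_
    rw [OZA.P1 χ hW hQ hN' _ (Nat.mul_pos (mem_Icc.1 hy).1 m1), ZT, ← sum_sub_distrib]
    simp only [mul_sub]
  · rw [nsmul_eq_mul]
    calc _ ≤ (N : ℝ) ^ ϑ * ((N : ℝ) ^ ϑ * ((N : ℝ) ^ (1 / 200 : ℝ) * (N : ℝ) ^ (-1 / 30 : ℝ))) := by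
          have := (U.tau_le l).trans hl'
          unfold tau at this
          gcongr
      _ ≤ _ := by
          rw [← Real.rpow_add n0, ← Real.rpow_add n0, ← Real.rpow_add n0]
          exact Real.rpow_le_rpow_of_exponent_le n1 (by
            linarith [show (1 : ℝ) / 10 ^ 4 ≤ 1 / 1000 by norm_num])

end Pool.Agent.MP_20b2fd_nt.F5
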