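import Pool.Agent.MP_20b2fd_nt.H38.SpecC
import Pool.Agent.MP_20b2fd_nt.H38.SpecX

/-! The moments of the perturbation by an exceptional character.
Paper proof: /team-store/MP_20b2fd_F5_plan.md -/

set_option autoImplicit false

namespace Pool.Agent.MP_20b2fd_nt.F5

open MeasureTheory Complex Finset Filter Topology ArithmeticFunction
open DirichletCharacter (LFunction)
open Pool.Agent.MP_c5bf7b_nt.H38 (Phi Ch)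
open Pool.Agent.MP_20b2fd_nt.H38
open scoped Real

/-! ### weights and line integrals -/

noncomputable def Wc (j : ℕ) (R x : ℝ) : ℝ := Vj j x * bm (x / R)

noncomputable def gm (u : ℂ) : ℂ := (2 * π : ℂ) ^ (-u) * Gamma (1 + u)

/-- the integral on a vertical line -/
noncomputable def ln (σ : ℝ) (F : ℂ → ℂ) : ℂ := 1 / (2 * π) * ∫ t : ℝ, F (σ + t * I)

def WOK (C R : ℝ) (W : ℝ → ℝ) : Prop :=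
  (∃ W₁ : ℝ → ℝ, ∀ x, 0 < x →
    HasDerivAt W (W₁ x) x ∧ |W x| ≤ C * (1 + |Real.log x|) ∧ |W₁ x| ≤ C / x) ∧
  ∀ x, 2 * R ≤ x → W x = 0

def VS : Prop :=
  ∃ C : ℝ, 1 ≤ C ∧ (∀ u : ℂ, -1 < u.re → DifferentiableAt ℂ gm u) ∧ gm 0 = 1 ∧
    (∀ u : ℂ, -1 / 2 ≤ u.re → u.re ≤ 2 → ‖gm u‖ ≤ C / (1 + |u.im|) ^ 10) ∧
    ∀ j : ℕ, j = 0 ∨ j = 1 → ContinuousOn (Vj j) (Set.Ioi 0) ∧
      (∀ x : ℝ, 0 < x → 0 ≤ Vj j x ∧ (1 ≤ x → Vj j x ≤ Real.exp (-2 * π * x)) ∧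
        (Vj j x : ℂ) = ln 2 fun u => gm u / u ^ (j + 1) * (x : ℂ) ^ (-u)) ∧
      ∀ R : ℝ, 1 ≤ R → WOK C R (Wc j R) ∧
        ∀ x : ℝ, 0 < x → |Vj j x - Wc j R x| ≤ if R ≤ x then Vj j x else 0

/-- moving the line across the origin -/
def SHS : Prop :=
  ∀ (Φ : ℂ → ℂ) (a b C : ℝ), a < 0 → 0 < b →
    (∀ z : ℂ, a ≤ z.re → z.re ≤ b → DifferentiableAt ℂ Φ z ∧ ‖Φ z‖ ≤ C / (1 + z.im ^ 2)) →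
    (∀ j : ℕ, ln b (fun z => Φ z / z ^ (j + 1)) - ln a (fun z => Φ z / z ^ (j + 1)) =
      iteratedDeriv j Φ 0 / j.factorial) ∧
    ∀ (j : ℕ) (u : ℂ) (r M : ℝ), 0 < r → ‖u‖ ≤ r → 2 * r < -a → 2 * r < b →
      (∀ z : ℂ, ‖z‖ ≤ 2 * r → ‖Φ z‖ ≤ M) →
      ‖ln b (fun z => Φ z / (z ^ (j + 1) * (z + u))) -
        ln a (fun z => Φ z / (z ^ (j + 1) * (z + u)))‖ ≤ 2 * M / r ^ (j + 1)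

/-- a weighted sum as a line integral -/
def MES : Prop :=
  ∃ C : ℝ, 1 ≤ C ∧ ∀ (j N : ℕ) (Q R C₀ : ℝ) (c : ℕ → ℂ) (F : ℂ → ℂ), j = 0 ∨ j = 1 → 1 ≤ Q →
    1 ≤ R → 2 * Q * R ≤ N → (∀ k : ℕ, 1 ≤ k → ‖c k‖ ≤ C₀ * k) →
    (∀ u : ℂ, u.re = 2 → HasSum (fun k : ℕ => c k * (k : ℂ) ^ (-(1 + u))) (F u)) →
    ‖∑ k ∈ Icc 1 N, c k * (Wc j R (k / Q) : ℝ) / k -
      ln 2 fun u => gm u / u ^ (j + 1) * (Q : ℂ) ^ u * F u‖ ≤ C * C₀ * Q * Real.exp (-R)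

/-- sizes of the functions attached to characters -/
def LBS : Prop :=
  ∃ C : ℝ, 1 ≤ C ∧ ∀ (D : ℕ) [NeZero D],
    (∀ χ : Ch D, χ ≠ 1 → Differentiable ℂ (LFunction χ) ∧
      ∀ s : ℂ, 1 / 4 ≤ s.re → s.re ≤ 4 → ‖LFunction χ s‖ ≤ C * D * (1 + |s.im|) ^ 2 ∧
        ‖deriv (LFunction χ) s‖ ≤ C * D * (1 + |s.im|) ^ 2) ∧
    Differentiable ℂ (Phi (1 : Ch D)) ∧
    (∀ s : ℂ, s ≠ 1 → LFunction (1 : Ch D) s = Phi (1 : Ch D) s / (s - 1)) ∧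
    (∀ s : ℂ, 1 / 4 ≤ s.re → s.re ≤ 4 → ‖Phi (1 : Ch D) s‖ ≤ C * D * (1 + |s.im|) ^ 2) ∧
    (∀ s : ℂ, 3 / 2 ≤ s.re → DifferentiableAt ℂ (LFunction (1 : Ch D)) s ∧
      LFunction (1 : Ch D) s ≠ 0 ∧ ‖(LFunction (1 : Ch D) s)⁻¹‖ ≤ C) ∧
    ∀ z : ℂ, ‖z‖ ≤ 1 / 2 → ‖z‖ * Real.log D ≤ 3 →
      ‖Phi (1 : Ch D) (1 + z)‖ ≤ C * (D.totient / D)

/-! ### arithmetic -/

section arith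

variable {D : ℕ} (χ : Ch D)

noncomputable def wk (W : ℝ → ℝ) (Q : ℝ) (k : ℕ) : ℂ := χ k * (W (k / Q) : ℝ) / k

/-- the Hecke action of the twisted polynomial on a functional -/
noncomputable def PT (W : ℝ → ℝ) (Q : ℝ) (N : ℕ) (l : ℕ → ℂ) (n : ℕ) : ℂ :=
  ∑ k ∈ Icc 1 N, wk χ W Q k * Bh l k n

noncomputable def Af (u w : ℂ) (n : ℕ) : ℂ :=
  ∑ x ∈ n.divisorsAntidiagonal, χ x.1 * (x.1 : ℂ) ^ (-u) *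
    ∑ y ∈ x.2.divisorsAntidiagonal, (moebius y.1 : ℂ) * χ y.1 * (y.1 : ℂ) ^ (-1 - u - 2 * w) *
      ((tau y.2 : ℝ) * (y.2 : ℂ) ^ (-w))

noncomputable def A1 (u : ℂ) (n : ℕ) : ℂ :=
  ∑ x ∈ n.divisorsAntidiagonal, χ x.1 * (x.1 : ℂ) ^ (-u) *
    ∑ y ∈ x.2.divisorsAntidiagonal, (moebius y.1 : ℂ) * χ y.1 * (y.1 : ℂ) ^ (-1 - u) *
      ((tau y.2 * Real.log ((y.1 : ℝ) ^ 2 * y.2) : ℝ) : ℂ)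

noncomputable def T0 (g : ℕ) (u : ℂ) : ℂ :=
  ∑ y ∈ g.divisorsAntidiagonal, (moebius y.1 : ℂ) * χ y.1 * (y.1 : ℂ) ^ (-u) * (tau y.2 : ℝ)

noncomputable def T1 (g : ℕ) (u : ℂ) : ℂ :=
  ∑ y ∈ g.divisorsAntidiagonal,
    (moebius y.1 : ℂ) * χ y.1 * (y.1 : ℂ) ^ (-u) * ((tau y.2 * Real.log y.1 : ℝ) : ℂ)

noncomputable def sl0 (u v w : ℂ) (p a : ℕ) : ℂ :=
  ∑' i : ℕ, (χ p * (p : ℂ) ^ (-1 - v)) ^ i * Af χ u w (p ^ (i + a))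

noncomputable def bl (u v w : ℂ) (p a : ℕ) : ℂ :=
  sl0 χ u v w p a * ((1 - χ p ^ 2 * (p : ℂ) ^ (-1 - u - v)) *
    (1 - χ p * (p : ℂ) ^ (-1 - v - w)) ^ 2 / (1 - χ p ^ 2 * (p : ℂ) ^ (-2 - u - v - 2 * w)))

noncomputable def bp (u v w : ℂ) (p a : ℕ) : ℂ :=
  ∑ i ∈ range (a + 1), (χ p * (p : ℂ) ^ (-v)) ^ i * bl χ u v w p (a - i)

/-- the multiplicative function of the twisted fourth moment -/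
noncomputable def Bf (u v w : ℂ) (l : ℕ) : ℂ :=
  ∏ p ∈ l.primeFactors, bp χ u v w p (l.factorization p)

/-- the mean value over the residue classes -/
noncomputable def rho0 (α n : ℕ) (H : ℤ) : ℂ :=
  1 / (α * D : ℂ) * ∑ x ∈ range (α * D), if (α : ℤ) ∣ n * x + H then χ x else 0

/-- the mean value of the twisted divisor function -/
noncomputable def zc (N n : ℕ) (h : ℤ) (y : ℝ) : ℂ :=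
  ∑ g ∈ (n.gcd h.natAbs).divisors, ∑ e ∈ (n / g).divisors,
    χ ((-N * (h / g) : ℤ) : ZMod D) * χ ((n / g : ℕ) : ZMod D) * (moebius e : ℂ) / (D * e) *
      ((y - 2 * Real.log (g * D * e) + 2 * Real.eulerMascheroniConstant : ℝ) : ℂ)

noncomputable def zf (W : ℝ → ℝ) (Q : ℝ) (N : ℕ) (k : ℝ → ℝ) (n : ℕ) : ℂ :=
  ∑' h : ℤ, (tau h.natAbs : ℝ) * ∫ x in Set.Ioi (0 : ℝ),
    ((W (x / Q) / x * k (h * N / (n * x)) : ℝ) : ℂ) * zc χ N n h (Real.log |n * x + h * N|)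

/-- the terms of frequency zero -/
noncomputable def ZT (W : ℝ → ℝ) (Q : ℝ) (N : ℕ) (k : ℝ → ℝ) (n : ℕ) : ℂ :=
  ∑ d ∈ n.divisors, χ d * zf χ W (Q / d) N k (n / d)

variable [NeZero D]

noncomputable def Hf (La : ℝ) (n : ℕ) (u : ℂ) : ℂ :=
  LFunction χ (1 + u) ^ 2 * (La * Af χ u 0 n - A1 χ u n) +
    2 * LFunction χ (1 + u) * deriv (LFunction χ) (1 + u) * Af χ u 0 n

/-- the main term of the twisted third moment -/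
noncomputable def Rn (j : ℕ) (La Q : ℝ) (n : ℕ) : ℂ :=
  π * iteratedDeriv j (fun u => gm u * (Q : ℂ) ^ u * Hf χ La n u) 0

end arith

noncomputable def l0 (La : ℝ) (m : ℕ) : ℂ := ((tau m * (La - Real.log m) : ℝ) : ℂ)

def AR0S : Prop :=
  ∃ C : ℝ, 1 ≤ C ∧ ∀ (D : ℕ) [NeZero D] (χ : Ch D) (n : ℕ), 1 ≤ n →
    (∀ w : ℂ, Differentiable ℂ fun u => Af χ u w n) ∧
    (∀ u : ℂ, Differentiable ℂ fun w => Af χ u w n) ∧ (Differentiable ℂ fun u => A1 χ u n) ∧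
    (∀ u : ℂ, -1 / 2 ≤ u.re → ‖Af χ u 0 n‖ ≤ √n * tau n ^ 3 ∧
      ‖A1 χ u n‖ ≤ √n * tau n ^ 3 * (2 * Real.log n)) ∧
    (∀ u : ℂ, -2 ≤ u.re → ‖Af χ u 0 n‖ ≤ (n : ℝ) ^ 5 ∧ ‖A1 χ u n‖ ≤ 2 * (n : ℝ) ^ 6) ∧
    (∀ u w : ℂ, ‖u‖ ≤ 1 / 100 → ‖w‖ ≤ 1 / 100 → ‖Af χ u w n‖ ≤ C * n) ∧
    (χ ≠ 1 → ∀ La : ℝ, Differentiable ℂ (Hf χ La n) ∧ ∀ u : ℂ,
      HasDerivAt (fun w => exp (La * w) * LFunction χ (1 + u + w) ^ 2 * Af χ u w n) (Hf χ La n u) 0)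

def AR3S : Prop :=
  ∀ (D : ℕ) [NeZero D] (χ : Ch D) (g : ℕ) (u : ℂ), 1 ≤ g → 1 < u.re →
    HasSum (fun h : ℕ => (tau (g * h) : ℝ) * χ h * (h : ℂ) ^ (-u))
      (LFunction χ u ^ 2 * T0 χ g u) ∧
    HasSum (fun h : ℕ => ((tau (g * h) * Real.log h : ℝ) : ℂ) * χ h * (h : ℂ) ^ (-u))
      (LFunction χ u ^ 2 * T1 χ g u - 2 * LFunction χ u * deriv (LFunction χ) u * T0 χ g u)

def AR1S : Prop :=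
  ∀ (D : ℕ) [NeZero D] (χ : Ch D) (La : ℝ) (n : ℕ) (u : ℂ), 1 ≤ n → 0 < u.re →
    HasSum (fun k : ℕ => χ k * Bh (l0 La) k n * (k : ℂ) ^ (-(1 + u))) (Hf χ La n u)

def BLS : Prop :=
  ∃ (C : ℝ) (A : ℕ), 1 ≤ C ∧ ∀ (D : ℕ) (χ : Ch D) (u w : ℂ), ‖u‖ ≤ 1 / 100 → ‖w‖ ≤ 1 / 100 →
    (∀ v : ℂ, Bf χ u v w 1 = 1 ∧
      (∀ m n : ℕ, m.Coprime n → Bf χ u v w (m * n) = Bf χ u v w m * Bf χ u v w n) ∧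
      ∀ p a : ℕ, p.Prime → 1 ≤ a → Bf χ u v w (p ^ a) = bp χ u v w p a) ∧
    (∀ (v : ℂ) (p : ℕ), -1 / 4 ≤ v.re → p.Prime → bl χ u v w p 0 = 1 ∧ ∀ a : ℕ,
      Summable fun i : ℕ => ‖(χ p * (p : ℂ) ^ (-1 - v)) ^ i * Af χ u w (p ^ (i + a))‖) ∧
    (∀ (v : ℂ) (l : ℕ), -1 / 4 ≤ v.re → 1 ≤ l →
      DifferentiableAt ℂ (fun v => Bf χ u v w l) v ∧ ‖Bf χ u v w l‖ ≤ (l : ℝ) ^ A) ∧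
    ∀ (v : ℂ) (p : ℕ) (ρ : ℝ), p.Prime → ‖u‖ ≤ ρ → ‖v‖ ≤ ρ → ‖w‖ ≤ ρ → ρ ≤ 1 / 100 →
      ρ * Real.log p ≤ 2 →
      ‖bp χ u v w p 1 - (2 * (p : ℂ) ^ (-w) + χ p * (p : ℂ) ^ (-u) + χ p * (p : ℂ) ^ (-v))‖ ≤
        C / p ∧ ∀ a : ℕ, ‖bp χ u v w p a‖ ≤ C ^ (a + 1)

def AR2S : Prop :=
  ∀ (D : ℕ) [NeZero D] (χ : Ch D) (u v w : ℂ) (l : ℕ), χ ^ 2 = 1 → ‖u‖ ≤ 1 / 100 →
    ‖w‖ ≤ 1 / 100 → v.re = 2 → 1 ≤ l →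
    HasSum (fun k : ℕ => χ k * Bh (Af χ u w) k l * (k : ℂ) ^ (-(1 + v)))
      (LFunction (1 : Ch D) (1 + u + v) * LFunction χ (1 + v + w) ^ 2 /
        LFunction (1 : Ch D) (2 + u + v + 2 * w) * Bf χ u v w l)

/-- the terms of frequency zero reproduce the diagonal -/
def ZCS : Prop :=
  ∀ (D : ℕ) (χ : Ch D) (n : ℕ) (u : ℂ), 1 ≤ n →
    ∑ d ∈ n.divisors, ∑ g ∈ (n / d).divisors, ∑ e ∈ (n / d / g).divisors,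
      χ d * (d : ℂ) ^ (-u) * ((n / d : ℕ) : ℂ) ^ u * χ ((n / d / g : ℕ) : ZMod D) *
        ((moebius e : ℂ) / e) * (g : ℂ) ^ (-u) * T0 χ g u = Af χ (-u) 0 n ∧
    ∑ d ∈ n.divisors, ∑ g ∈ (n / d).divisors, ∑ e ∈ (n / d / g).divisors,
      χ d * (d : ℂ) ^ (-u) * ((n / d : ℕ) : ℂ) ^ u * χ ((n / d / g : ℕ) : ZMod D) *
        ((moebius e : ℂ) / e) * (g : ℂ) ^ (-u) *
        (((Real.log g + 2 * Real.log e : ℝ) : ℂ) * T0 χ g u - T1 χ g u) = A1 χ (-u) n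

/-! ### the archimedean factors -/

noncomputable def lg (t : ℝ) : ℝ := Real.log |1 + 1 / t|

noncomputable def Ys (s : ℝ) (u : ℂ) : ℂ :=
  2 * (2 * π : ℂ) ^ (2 * u - 2) * Gamma (1 - u) ^ 2 * (1 - s * cos (π * u))

noncomputable def Gu (u : ℂ) : ℂ := (2 * π : ℂ) ^ (2 * u) * Gamma (1 - u) / Gamma (1 + u)

def FES : Prop :=
  ∀ (D : ℕ) [NeZero D] (χ : Ch D), χ.IsPrimitive → χ ^ 2 = 1 → χ ≠ 1 →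
    ((χ (-1)).re = 1 ∨ (χ (-1)).re = -1) ∧ χ (-1) = (χ (-1)).re ∧
    ∀ u : ℂ, 0 < u.re → u.re < 1 →
      LFunction χ u ^ 2 = (D : ℂ) ^ (1 - 2 * u) * Ys (χ (-1)).re u * LFunction χ (1 - u) ^ 2 ∧
      2 * LFunction χ u * deriv (LFunction χ) u = (D : ℂ) ^ (1 - 2 * u) *
        ((deriv (Ys (χ (-1)).re) u - 2 * Real.log D * Ys (χ (-1)).re u) * LFunction χ (1 - u) ^ 2 -
          Ys (χ (-1)).re u * (2 * LFunction χ (1 - u) * deriv (LFunction χ) (1 - u)))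

/-- the kernel tends to its limit -/
def KMS : Prop :=
  ∃ C : ℝ, 1 ≤ C ∧ ∀ U : ℝ, 1 ≤ U → |a1 U - π| ≤ 2 / U ∧
    (∀ t : ℝ, t ≠ 0 → t ≠ -1 → |Kf U t| ≤ C * (1 + |Real.log (mn t)|)) ∧
    ∀ (η s : ℝ) (u : ℂ), 0 < η → η ≤ 1 / 10 → s = 1 ∨ s = -1 → u.re = 1 / 2 →
      ‖mel (kc1 η (Kf U)) s u - mel (fun t => π * lg t) s u‖ ≤ C * (U ^ (-1 / 5 : ℝ) + √η) ∧
      ‖mel (fun t => kc1 η (Kf U) t * lg t) s u - mel (fun t => π * lg t ^ 2) s u‖ ≤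
        C * (U ^ (-1 / 5 : ℝ) + √η)

def KBS : Prop :=
  ∀ (s : ℝ) (u : ℂ), s = 1 ∨ s = -1 → u.re = 1 / 2 →
    mel (fun t => π * lg t) s u * Ys s u = s * π / 2 * Gu u ∧
    mel (fun t => π * lg t ^ 2) s u * Ys s u - mel (fun t => π * lg t) s u * deriv (Ys s) u +
      2 * Real.eulerMascheroniConstant * (mel (fun t => π * lg t) s u * Ys s u) =
      -2 * Real.log (2 * π) * (mel (fun t => π * lg t) s u * Ys s u)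

/-- a kernel that vanishes near the singular point -/
def KOK (R E η : ℝ) (k : ℝ → ℝ) : Prop :=
  1 ≤ R ∧ 0 < η ∧ η ≤ 1 ∧ (∃ B : ℝ, CutOK R B E k) ∧ ∀ t, |1 + t| ≤ η → k t = 0

def MKS : Prop :=
  ∃ C : ℝ, 1 ≤ C ∧ ∀ (R E η s : ℝ) (k κ : ℝ → ℝ), KOK R E η k → |s| = 1 →
    κ = k ∨ κ = (fun t => k t * lg t) → ContinuousOn (fe κ s) (Set.Ioi 0) ∧
    (∀ u : ℂ, 0 < u.re → DifferentiableAt ℂ (mel κ s) u) ∧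
    (∀ u : ℂ, 1 / 2 ≤ u.re → u.re ≤ 2 → ‖mel κ s u‖ ≤ C * E * R ^ 3 / η) ∧
    IntegrableOn (fun t => t * ‖fe κ s t‖) (Set.Ioi 0) ∧
    ∫ t in Set.Ioi (0 : ℝ), t * ‖fe κ s t‖ ≤ C * E * R ^ 3 / η

/-! ### the frequencies that are not zero -/

noncomputable def om0 (x : ℝ) : ℝ := Real.smoothTransition (1 / 2 - Real.log x)

noncomputable def Kc (α lam : ℕ) (H ν μ : ℤ) : ℂ :=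
  ∑ x ∈ range α, ∑ y ∈ range α,
    if (α : ℤ) ∣ lam * x * y + H then ee ((ν * x + μ * y) / α) else 0

def KCS : Prop :=
  ∀ (N α lam : ℕ) (h ν μ : ℤ), N.Prime → 1 ≤ α → α < N → h ≠ 0 →
    ‖Kc α lam (h * N) ν μ‖ ≤ |(h : ℝ)| ^ 4 * bb α * (ν.gcd α : ℝ) ^ (1 / 4 : ℝ)

def BXS : Prop :=
  ∃ C : ℝ, 1 ≤ C ∧ ∀ (D : ℕ) [NeZero D] (χ : Ch D) (N α lam X Y : ℕ) (h : ℤ), N.Prime → 1 ≤ α →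
    α < N → h ≠ 0 →
    ‖∑ x ∈ Icc 1 X, ∑ y ∈ Icc 1 Y, χ y *
      ((if (α : ℤ) ∣ lam * x * y + h * N then χ x else 0) - rho0 χ α (lam * y) (h * N))‖ ≤
      C * D ^ 4 * |(h : ℝ)| ^ 4 * tau α * bb α * (1 + Real.log (α * D)) *
        (Y / α + 1 + Real.log (α * D))

/-- summation by parts in two variables -/
def VAS : Prop :=
  ∃ C : ℝ, 1 ≤ C ∧ ∀ (a a₁ b b₁ G G₁ G₂ : ℝ → ℝ) (A Γ M₀ m₀ S : ℝ) (M : ℕ) (c : ℕ → ℕ → ℂ),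
    1 ≤ M₀ → 8 * M₀ ≤ m₀ → M₀ ≤ M →
    (∀ x, 0 < x → HasDerivAt a (a₁ x) x ∧ HasDerivAt b (b₁ x) x ∧ HasDerivAt G (G₁ x) x ∧
      HasDerivAt G₁ (G₂ x) x) →
    (∀ x, 1 ≤ x → x ≤ 2 * M₀ →
      |a x| ≤ A / x ∧ |a₁ x| ≤ A / x ^ 2 ∧ |b x| ≤ A / x ∧ |b₁ x| ≤ A / x ^ 2) →
    (∀ x, M₀ ≤ x → a x = 0 ∧ b x = 0) →
    (∀ m, 1 ≤ m → m ≤ 4 * M₀ ^ 2 → |G m| ≤ Γ ∧ |G₁ m| ≤ Γ / m ∧ |G₂ m| ≤ Γ / m ^ 2) →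
    (∀ m, 0 < m → m ≤ m₀ → G m = 0) →
    (∀ X Y : ℕ, (X : ℝ) ≤ M₀ → (Y : ℝ) ≤ M₀ → ‖∑ x ∈ Icc 1 X, ∑ y ∈ Icc 1 Y, c x y‖ ≤ S) →
    ‖∑ x ∈ Icc 1 M, ∑ y ∈ Icc 1 M, ((a x * b y * G (x * y) : ℝ) : ℂ) * c x y‖ ≤
      C * S * A ^ 2 * Γ * (M₀ / m₀) ^ 2

/-- the kernel as a function of the product of the variables -/
def GKS : Prop :=
  ∃ C : ℝ, 1 ≤ C ∧ ∀ (R E η lam H α : ℝ) (k : ℝ → ℝ), KOK R E η k → 0 < lam → H ≠ 0 → 0 < α →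
    ∃ G₁ G₂ F₁ L₁ : ℝ → ℝ, ∀ m Γ : ℝ, 0 < m →
      Γ = C * E * R ^ 2 / η ^ 2 * (1 + abs (Real.log |H / (lam * m)|)) →
      HasDerivAt (fun m => k (H / (lam * m)) * om0 (α / |lam * m + H|)) (G₁ m) m ∧
      HasDerivAt G₁ (G₂ m) m ∧ HasDerivAt (fun m => k (H / (lam * m))) (F₁ m) m ∧
      HasDerivAt (fun m => k (H / (lam * m)) * Real.log |lam * m + H|) (L₁ m) m ∧
      |k (H / (lam * m))| ≤ Γ ∧ |k (H / (lam * m)) * om0 (α / |lam * m + H|)| ≤ Γ ∧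
      |G₁ m| ≤ Γ / m ∧ |G₂ m| ≤ Γ / m ^ 2 ∧ |F₁ m| ≤ Γ / m ∧
      abs (k (H / (lam * m)) * Real.log |lam * m + H|) ≤ Γ * (1 + |Real.log (lam * m)|) ∧
      |L₁ m| ≤ Γ * (1 + |Real.log (lam * m)|) / m

def RHS : Prop :=
  ∀ (D : ℕ) [NeZero D] (χ : Ch D) (α n : ℕ) (H : ℤ), χ.IsPrimitive → χ ^ 2 = 1 → 1 ≤ α → 1 ≤ n →
    rho0 χ α n H = if ((n.gcd α : ℕ) : ℤ) ∣ H ∧ D ∣ α / n.gcd α then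
      χ ((-(H / (n.gcd α : ℕ)) : ℤ) : ZMod D) * χ ((n / n.gcd α : ℕ) : ZMod D) /
        ((α / n.gcd α : ℕ) : ℂ) else 0

def HSS : Prop :=
  (∀ n A : ℕ, 1 ≤ n → 2 * n ≤ (A + 1) ^ 2 →
    tau n = 2 * ∑ α ∈ Icc 1 A, if α ∣ n then om0 ((α : ℝ) ^ 2 / n) else 0) ∧
  ∃ C : ℝ, 1 ≤ C ∧ ∀ (Y : ℝ) (A : ℕ), 0 < Y → 2 * Y ≤ ((A : ℝ) + 1) ^ 2 →
    |2 * ∑ β ∈ Icc 1 A, om0 ((β : ℝ) ^ 2 / Y) / β -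
      (Real.log Y + 2 * Real.eulerMascheroniConstant)| ≤ C / √Y

def ALS : Prop :=
  ∃ C : ℝ, 1 ≤ C ∧ ∀ (D : ℕ) [NeZero D] (χ : Ch D) (N n A : ℕ) (h : ℤ) (Y : ℝ), χ.IsPrimitive →
    χ ^ 2 = 1 → N.Prime → A < N → 1 ≤ n → h ≠ 0 → 0 < Y → 2 * Y ≤ ((A : ℝ) + 1) ^ 2 →
    ‖2 * ∑ α ∈ Icc 1 A, rho0 χ α n (h * N) * (om0 ((α : ℝ) ^ 2 / Y) : ℝ) -
      zc χ N n h (Real.log Y)‖ ≤ C * tau n ^ 2 * |(h : ℝ)| / √Y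

/-- a sum against an integral -/
def SIS : Prop :=
  ∃ C : ℝ, 1 ≤ C ∧ ∀ (f f₁ : ℝ → ℝ) (Γ X₀ M₀ : ℝ) (M : ℕ), 1 ≤ X₀ → 1 ≤ M₀ → M₀ ≤ M → 0 ≤ Γ →
    (∀ x, 0 < x → HasDerivAt f (f₁ x) x) → (∀ x, 0 < x → x ≤ X₀ → f x = 0) →
    (∀ x, M₀ ≤ x → f x = 0) → (∀ x, 1 ≤ x → x ≤ 2 * M₀ → |f₁ x| ≤ Γ / x ^ 2) →
    IntegrableOn f (Set.Ioi 0) ∧ |∑ x ∈ Icc 1 M, f x - ∫ x in Set.Ioi (0 : ℝ), f x| ≤ C * Γ / X₀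

/-- the sizes of the data in the estimate of the error -/
structure Rg0 (ϑ C : ℝ) (N D : ℕ) (χ : Ch D) (R : ℝ) (W k : ℝ → ℝ) : Prop where
  pr : N.Prime
  prim : χ.IsPrimitive
  sq : χ ^ 2 = 1
  hD : (D : ℝ) ≤ (N : ℝ) ^ ϑ
  hR : 1 ≤ R
  hR' : R ≤ N
  hW : WOK C R W
  hk : KOK ((N : ℝ) ^ ϑ) ((N : ℝ) ^ ϑ) ((N : ℝ) ^ (-ϑ)) k

/-- the sum over the first variable with a weight that depends on it -/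
noncomputable def sx (W : ℝ → ℝ) (Q : ℝ) (N : ℕ) (k : ℝ → ℝ) (n : ℕ) (h : ℤ) (c : ℕ → ℂ) : ℂ :=
  ∑ x ∈ Icc 1 N, ((W (x / Q) / x * k (h * N / (n * x)) : ℝ) : ℂ) * c x

/-- the bound for the moduli -/
noncomputable def AN (ϑ : ℝ) (N : ℕ) : ℕ := ⌊2 * (N : ℝ) ^ (1 / 2 + 2 * ϑ)⌋₊

noncomputable def ra {D : ℕ} (χ : Ch D) (ϑ : ℝ) (N n : ℕ) (h : ℤ) (x : ℕ) : ℂ :=
  2 * ∑ α ∈ Icc 1 (AN ϑ N),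
    rho0 χ α n (h * N) * (om0 ((α : ℝ) ^ 2 / |(n : ℝ) * x + h * N|) : ℝ)

def CAS : Prop :=
  ∀ ϑ C : ℝ, 0 < ϑ → ϑ ≤ 1 / 10 ^ 4 → 1 ≤ C → ∃ N₀ : ℕ, ∀ (N D : ℕ) [NeZero D] (χ : Ch D)
    (R Q₁ Q₂ : ℝ) (W k : ℝ → ℝ) (lam : ℕ) (h : ℤ), N₀ ≤ N → Rg0 ϑ C N D χ R W k → 0 < Q₁ →
    0 < Q₂ → 2 * Q₁ * R ≤ (N : ℝ) ^ (1 / 2 + ϑ) → 2 * Q₂ * R ≤ (N : ℝ) ^ (1 / 2 + ϑ) → 1 ≤ lam →
    (lam : ℝ) ≤ (N : ℝ) ^ ϑ → h ≠ 0 → |(h : ℝ)| ≤ (N : ℝ) ^ (4 * ϑ) →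
    ‖∑ y ∈ Icc 1 N, wk χ W Q₂ y * sx W Q₁ N k (lam * y) h fun x =>
      χ x * (tau ((lam * y : ℕ) * x + h * N : ℤ).natAbs : ℝ) - ra χ ϑ N (lam * y) h x‖ ≤
      (N : ℝ) ^ (-1 / 25 : ℝ)

def CBS : Prop :=
  ∀ ϑ C : ℝ, 0 < ϑ → ϑ ≤ 1 / 10 ^ 4 → 1 ≤ C → ∃ N₀ : ℕ, ∀ (N D : ℕ) [NeZero D] (χ : Ch D)
    (R Q : ℝ) (W k : ℝ → ℝ) (n : ℕ) (h : ℤ), N₀ ≤ N → Rg0 ϑ C N D χ R W k → 0 < Q →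
    2 * Q * R ≤ (N : ℝ) ^ (1 / 2 + ϑ) → 1 ≤ n → (n : ℝ) ≤ (N : ℝ) ^ (1 / 2 + 2 * ϑ) → h ≠ 0 →
    |(h : ℝ)| ≤ (N : ℝ) ^ (4 * ϑ) →
    ‖sx W Q N k n h (ra χ ϑ N n h) - ∫ x in Set.Ioi (0 : ℝ),
      ((W (x / Q) / x * k (h * N / (n * x)) : ℝ) : ℂ) * zc χ N n h (Real.log |n * x + h * N|)‖ ≤
      (N : ℝ) ^ (-1 / 4 : ℝ)

def COS : Prop :=
  ∀ ϑ C : ℝ, 0 < ϑ → ϑ ≤ 1 / 10 ^ 4 → 1 ≤ C → ∃ N₀ : ℕ, ∀ (N D : ℕ) [NeZero D] (χ : Ch D)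
    (R Q₁ Q₂ : ℝ) (W k : ℝ → ℝ) (lam : ℕ), N₀ ≤ N → Rg0 ϑ C N D χ R W k → 0 < Q₁ →
    0 < Q₂ → 2 * Q₁ * R ≤ (N : ℝ) ^ (1 / 2 + ϑ) → 2 * Q₂ * R ≤ (N : ℝ) ^ (1 / 2 + ϑ) → 1 ≤ lam →
    (lam : ℝ) ≤ (N : ℝ) ^ ϑ →
    ‖∑ y ∈ Icc 1 N, wk χ W Q₂ y *
      (∑ x ∈ Icc 1 N, wk χ W Q₁ x * (Od k N (x * (lam * y)) : ℝ) - zf χ W Q₁ N k (lam * y))‖ ≤
      (N : ℝ) ^ (-1 / 30 : ℝ)

def OZS : Prop :=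
  ∀ ϑ C : ℝ, 0 < ϑ → ϑ ≤ 1 / 10 ^ 4 → 1 ≤ C → ∃ N₀ : ℕ, ∀ (N D : ℕ) [NeZero D] (χ : Ch D)
    (R Q : ℝ) (W k : ℝ → ℝ) (l : ℕ), N₀ ≤ N → Rg0 ϑ C N D χ R W k → 0 < Q →
    2 * Q * R ≤ (N : ℝ) ^ (1 / 2 + ϑ) → 1 ≤ l → (l : ℝ) ≤ (N : ℝ) ^ ϑ →
    ‖PT χ W Q N (fun n => PT χ W Q N (fun m => (Od k N m : ℝ)) n - ZT χ W Q N k n) l‖ ≤
      (N : ℝ) ^ (-1 / 40 : ℝ)

/-! ### the frequency zero -/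

def ZAS : Prop :=
  ∃ C : ℝ, 1 ≤ C ∧ ∀ (j : ℕ) (κ : ℝ → ℂ) (a : ℕ → ℂ) (Q v R : ℝ), j = 0 ∨ j = 1 → 0 < Q → 0 < v →
    1 ≤ R → ContinuousOn κ (Set.Ioi 0) → IntegrableOn (fun t => t * ‖κ t‖) (Set.Ioi 0) →
    a 0 = 0 → (Summable fun h : ℕ => ‖a h‖ / (h : ℝ) ^ 2) →
    (Integrable fun t : ℝ => (fun u => gm u / u ^ (j + 1) * ((Q * v : ℝ) : ℂ) ^ u * mellin κ u *
      ∑' h : ℕ, a h * (h : ℂ) ^ (-u)) ((2 : ℝ) + t * I)) ∧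
    ‖(∑' h : ℕ, a h * ∫ x in Set.Ioi (0 : ℝ), ((Wc j R (x / Q) / x : ℝ) : ℂ) * κ (h / (v * x))) -
      ln 2 fun u => gm u / u ^ (j + 1) * ((Q * v : ℝ) : ℂ) ^ u * mellin κ u *
        ∑' h : ℕ, a h * (h : ℂ) ^ (-u)‖ ≤
      C * Real.exp (-R) * (Q * v) ^ 2 * (∫ t in Set.Ioi (0 : ℝ), t * ‖κ t‖) *
        ∑' h : ℕ, ‖a h‖ / (h : ℝ) ^ 2

noncomputable def ZI {D : ℕ} [NeZero D] (χ : Ch D) (Q : ℝ) (N : ℕ) (k : ℝ → ℝ) (n : ℕ)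
    (u : ℂ) : ℂ :=
  χ N / D * ((Q / N : ℝ) : ℂ) ^ u *
    (mel (fun t => k t * lg t) (χ (-1)).re u * (LFunction χ u ^ 2 * Af χ (-u) 0 n) +
      mel k (χ (-1)).re u * (LFunction χ u ^ 2 *
        (((Real.log N - 2 * Real.log D + 2 * Real.eulerMascheroniConstant : ℝ) : ℂ) *
          Af χ (-u) 0 n - A1 χ (-u) n) -
        2 * LFunction χ u * deriv (LFunction χ) u * Af χ (-u) 0 n))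

/-- the standing hypotheses -/
structure Rg (δ : ℝ) (N D : ℕ) (χ : Ch D) (j : ℕ) : Prop where
  pr : N.Prime
  prim : χ.IsPrimitive
  sq : χ ^ 2 = 1
  ne : χ ≠ 1
  hD : (D : ℝ) ≤ (N : ℝ) ^ δ
  hj : j = 0 ∨ j = 1
  sg : χ (-(N : ℤ)) = (-1) ^ j

noncomputable def LN (N : ℕ) : ℝ := Real.log (N / (4 * π ^ 2))

noncomputable def PN {D : ℕ} (χ : Ch D) (j : ℕ) (δ : ℝ) (N : ℕ) : (ℕ → ℂ) → ℕ → ℂ :=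
  PT χ (Wc j ((N : ℝ) ^ δ)) (Qc D N) N

/-- the integrand of the diagonal -/
noncomputable def FD {D : ℕ} [NeZero D] (χ : Ch D) (j N n : ℕ) (u : ℂ) : ℂ :=
  gm u * (Qc D N : ℂ) ^ u * Hf χ (LN N) n u / u ^ (j + 1)

/-- the kernel that is used -/
noncomputable def kN (δ : ℝ) (N : ℕ) : ℝ → ℝ :=
  kc1 ((N : ℝ) ^ (-40 * δ)) (Kf ((N : ℝ) ^ (100 * δ)))

def ZBS : Prop :=
  ∀ δ : ℝ, 0 < δ → δ ≤ 1 / 10 → ∃ N₀ : ℕ, ∀ (N D : ℕ) [NeZero D] (χ : Ch D) (j n : ℕ)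
    (k : ℝ → ℝ), N₀ ≤ N → Rg δ N D χ j → KOK N N (1 / N) k → 1 ≤ n → n ≤ N →
    ‖ZT χ (Wc j ((N : ℝ) ^ δ)) (Qc D N) N k n -
      ln 2 fun u => gm u / u ^ (j + 1) * ZI χ (Qc D N) N k n u‖ ≤ 1 / N

def ZDS : Prop :=
  ∀ δ : ℝ, 0 < δ → δ ≤ 1 / 1000 → ∃ N₀ : ℕ, ∀ (N D : ℕ) [NeZero D] (χ : Ch D) (j n : ℕ),
    N₀ ≤ N → Rg δ N D χ j → KOK N N (1 / N) (kN δ N) → 1 ≤ n →
    (n : ℝ) ≤ 2 * (N : ℝ) ^ (1 / 2 + 3 * δ) →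
    ‖2 * (ln 2 fun u => gm u / u ^ (j + 1) * ZI χ (Qc D N) N (kN δ N) n u) +
      π * ln (-1 / 2) (FD χ j N n)‖ ≤ (N : ℝ) ^ (-15 * δ)

/-! ### the moments -/

def DGS : Prop :=
  ∀ δ : ℝ, 0 < δ → δ ≤ 1 / 10 → ∃ N₀ : ℕ, ∀ (N D : ℕ) [NeZero D] (χ : Ch D) (j n : ℕ),
    N₀ ≤ N → Rg δ N D χ j → 1 ≤ n → n ≤ N →
    ‖π * PN χ j δ N (l0 (LN N)) n - π * ln (-1 / 2) (FD χ j N n) -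
      Rn χ j (LN N) (Qc D N) n‖ ≤ 1 / N ∧
    ‖π * ln (-1 / 2) (FD χ j N n)‖ ≤ (N : ℝ) ^ (3 * δ - 1 / 4) * √n

/-- trivial bounds -/
def PBS : Prop :=
  ∀ δ : ℝ, 0 < δ → δ ≤ 1 / 10 → ∃ N₀ : ℕ, ∀ (N D : ℕ) [NeZero D] (χ : Ch D) (j : ℕ)
    (f : ℕ → ℂ), N₀ ≤ N → Rg δ N D χ j →
    (∀ (n : ℕ) (ε : ℝ), 1 ≤ n → n ≤ N →
      (∀ m : ℕ, 1 ≤ m → (m : ℝ) ≤ 2 * (N : ℝ) ^ (1 / 2 + 2 * δ) * n → ‖f m‖ ≤ ε) →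
      ‖PN χ j δ N f n‖ ≤ ε * (N : ℝ) ^ δ) ∧
    ∀ l : ℕ, 1 ≤ l → (l : ℝ) ≤ (N : ℝ) ^ δ → ‖PN χ j δ N (PN χ j δ N f) l‖ ≤
      (N : ℝ) ^ (3 * δ) * ∑ m ∈ Icc 1 ⌊(N : ℝ) ^ (1 + 6 * δ)⌋₊, ‖f m‖ / m

def CUS : Prop :=
  ∀ δ C : ℝ, 0 < δ → δ ≤ 1 / 1000 → 1 ≤ C → ∃ N₀ : ℕ, ∀ (N : ℕ) (K : ℝ → ℝ), N₀ ≤ N →
    (∀ t : ℝ, t ≠ 0 → t ≠ -1 → |K t| ≤ C * (1 + |Real.log (mn t)|)) →
    ∑ m ∈ Icc 1 ⌊(N : ℝ) ^ (1 + 6 * δ)⌋₊,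
      |Od (fun t => K t - kc1 ((N : ℝ) ^ (-40 * δ)) K t) N m| / m ≤ (N : ℝ) ^ (-25 * δ)

/-- the functional of the geometric side -/
noncomputable def elc (U c₀ : ℝ) (N m : ℕ) : ℂ := (ell U c₀ N m : ℝ)

/-- the main term of the first moment -/
noncomputable def R1 {D : ℕ} [NeZero D] (χ : Ch D) (j : ℕ) (Q : ℝ) (l : ℕ) : ℂ :=
  iteratedDeriv j (fun u => gm u * (Q : ℂ) ^ u *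
    (LFunction χ (1 + u) * ∑ d ∈ l.divisors, χ d * (d : ℂ) ^ (-u))) 0

/-- the first moment -/
def EYS : Prop :=
  ∀ δ : ℝ, 0 < δ → δ ≤ 1 / 100 → ∃ N₀ : ℕ, ∀ (N D : ℕ) [NeZero D] (χ : Ch D) (j l : ℕ),
    N₀ ≤ N → Rg δ N D χ j → 1 ≤ l → (l : ℝ) ≤ (N : ℝ) ^ δ →
    ‖PN χ j δ N (fun _ => 1) l - R1 χ j (Qc D N) l‖ ≤ (N : ℝ) ^ (-1 / 10 : ℝ)

/-- the mixed moment -/
def FXS : Prop :=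
  ∀ δ C : ℝ, 0 < δ → δ ≤ 1 / 1000 → 1 ≤ C → ∃ N₀ : ℕ, ∀ (N D : ℕ) [NeZero D] (χ : Ch D)
    (j n : ℕ) (c₀ : ℝ), N₀ ≤ N → Rg δ N D χ j →
    |c₀ + 2 * π * Real.log (2 * π)| ≤ C * (N : ℝ) ^ (-20 * δ) → 1 ≤ n →
    (n : ℝ) ≤ (N : ℝ) ^ (1 / 2 - 300 * δ) →
    ‖PN χ j δ N (elc ((N : ℝ) ^ (100 * δ)) c₀ N) n - Rn χ j (LN N) (Qc D N) n‖ ≤
      (N : ℝ) ^ (-15 * δ)

def FY1S : Prop :=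
  ∃ δ₀ : ℝ, 0 < δ₀ ∧ ∀ δ C : ℝ, 0 < δ → δ ≤ δ₀ → 1 ≤ C → ∃ N₀ : ℕ, ∀ (N D : ℕ) [NeZero D]
    (χ : Ch D) (j l : ℕ) (c₀ : ℝ), N₀ ≤ N → Rg δ N D χ j →
    |c₀ + 2 * π * Real.log (2 * π)| ≤ C * (N : ℝ) ^ (-20 * δ) → 1 ≤ l → (l : ℝ) ≤ (N : ℝ) ^ δ →
    ‖PN χ j δ N (PN χ j δ N (elc ((N : ℝ) ^ (100 * δ)) c₀ N)) l -
      PN χ j δ N (Rn χ j (LN N) (Qc D N)) l‖ ≤ (N : ℝ) ^ (-12 * δ)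

/-- the data of the mollifier -/
structure Mo (δ : ℝ) (N D : ℕ) [NeZero D] (χ : Ch D) {ι : Type} (J : Finset ι) (ν : ι → ℂ)
    (l : ι → ℕ) (L₁ B : ℝ) : Prop where
  hl : ∀ i ∈ J, 1 ≤ l i ∧ (l i : ℝ) ≤ (N : ℝ) ^ δ
  hν : ∑ i ∈ J, ‖ν i‖ ≤ (N : ℝ) ^ (3 * δ)
  hL : ∀ z : ℂ, ‖z‖ ≤ 4 / Real.log N → ‖LFunction χ (1 + z)‖ ≤ L₁ / Real.log N
  hB : ∀ u v w : ℂ, ‖u‖ ≤ 2 / Real.log N → ‖v‖ ≤ 2 / Real.log N → ‖w‖ ≤ 2 / Real.log N →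
    ‖∑ i ∈ J, ν i * Bf χ u v w (l i)‖ ≤ B

def KVS : Prop :=
  ∃ C δ₀ : ℝ, 1 ≤ C ∧ 0 < δ₀ ∧ ∀ δ : ℝ, 0 < δ → δ ≤ δ₀ → ∃ N₀ : ℕ, ∀ (N D : ℕ) [NeZero D]
    (χ : Ch D) (j : ℕ) (ι : Type) (J : Finset ι) (ν : ι → ℂ) (l : ι → ℕ) (L₁ B : ℝ), N₀ ≤ N →
    Rg δ N D χ j → Mo δ N D χ J ν l L₁ B →
    (∀ u w : ℂ, ‖u‖ ≤ 1 / Real.log N → ‖w‖ ≤ 1 / Real.log N →
      ‖∑ i ∈ J, ν i * PN χ j δ N (Af χ u w) (l i)‖ ≤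
        C * (D.totient / D) * B * L₁ ^ 2 * (Real.log N ^ (j + 1) / Real.log N ^ 2) +
          (N : ℝ) ^ (-1 / 10 : ℝ)) ∧
    (j = 0 → ‖∑ i ∈ J, ν i * PN χ j δ N (Af χ 0 0) (l i)‖ ≤
      C * (D.totient / D) * B * L₁ * ‖LFunction χ 1‖ + (N : ℝ) ^ (-1 / 10 : ℝ))

def FY2S : Prop :=
  ∃ C δ₀ : ℝ, 1 ≤ C ∧ 0 < δ₀ ∧ ∀ δ : ℝ, 0 < δ → δ ≤ δ₀ → ∃ N₀ : ℕ, ∀ (N D : ℕ) [NeZero D]
    (χ : Ch D) (j : ℕ) (ι : Type) (J : Finset ι) (ν : ι → ℂ) (l : ι → ℕ) (L₁ B : ℝ), N₀ ≤ N →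
    Rg δ N D χ j → Mo δ N D χ J ν l L₁ B →
    ‖∑ i ∈ J, ν i * PN χ j δ N (Rn χ j (LN N) (Qc D N)) (l i)‖ ≤
      C * (D.totient / D) * B * L₁ ^ 2 * (if j = 0 then ‖LFunction χ 1‖ ^ 2 else L₁ ^ 2) +
        (N : ℝ) ^ (-1 / 20 : ℝ)

/-- the second moment of the perturbation -/
def FYS : Prop :=
  ∃ C δ₀ : ℝ, 1 ≤ C ∧ 0 < δ₀ ∧ ∀ δ C' : ℝ, 0 < δ → δ ≤ δ₀ → 1 ≤ C' → ∃ N₀ : ℕ,
    ∀ (N D : ℕ) [NeZero D] (χ : Ch D) (j : ℕ) (c₀ : ℝ) (ι : Type) (J : Finset ι) (ν : ι → ℂ)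
    (l : ι → ℕ) (L₁ B : ℝ), N₀ ≤ N → Rg δ N D χ j →
    |c₀ + 2 * π * Real.log (2 * π)| ≤ C' * (N : ℝ) ^ (-20 * δ) → Mo δ N D χ J ν l L₁ B →
    ‖∑ i ∈ J, ν i * PN χ j δ N (PN χ j δ N (elc ((N : ℝ) ^ (100 * δ)) c₀ N)) (l i)‖ ≤
      C * (D.totient / D) * B * L₁ ^ 2 * (if j = 0 then ‖LFunction χ 1‖ ^ 2 else L₁ ^ 2) +
        (N : ℝ) ^ (-8 * δ)

/-- the sharp cut against the smooth cut -/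
def TWS : Prop :=
  ∀ θ : ℝ, 0 < θ → θ ≤ 1 / 100 → ∃ N₀ : ℕ, ∀ (N D : ℕ) [NeZero D] (χ : Ch D), N₀ ≤ N → N.Prime →
    QC χ N (θ / 2) → Rg (2 * θ) N D χ (jj χ N) ∧ ∀ f : ℕ → ℝ,
      (∀ m : ℕ, 1 ≤ m → m ≤ N ^ 3 → |f m| ≤ (N : ℝ) ^ 10) → ∀ n : ℕ, 1 ≤ n → n ≤ N →
      ‖(TY χ θ N f n : ℝ) - PN χ (jj χ N) (2 * θ) N (fun m => (f m : ℝ)) n‖ ≤ 1 / N ∧
      ‖(TY χ θ N (TY χ θ N f) n : ℝ) - PN χ (jj χ N) (2 * θ) N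
        (PN χ (jj χ N) (2 * θ) N fun m => (f m : ℝ)) n‖ ≤ 1 / N

/-- the output of the block -/
def FFS : Prop :=
  ∃ C θ₀ : ℝ, 1 ≤ C ∧ 0 < θ₀ ∧ ∀ θ C' : ℝ, 0 < θ → θ ≤ θ₀ → 1 ≤ C' → ∃ N₀ : ℕ,
    ∀ (N D : ℕ) [NeZero D] (χ : Ch D) (c₀ : ℝ), N₀ ≤ N → N.Prime → QC χ N (θ / 2) →
    |c₀ + 2 * π * Real.log (2 * π)| ≤ C' * ((N : ℝ) ^ (200 * θ)) ^ (-1 / 5 : ℝ) →
    (∀ l : ℕ, 1 ≤ l → (l : ℝ) ≤ (N : ℝ) ^ (2 * θ) →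
      ‖(TY χ θ N (fun _ => 1) l : ℝ) - R1 χ (jj χ N) (Qc D N) l‖ ≤ (N : ℝ) ^ (-25 * θ)) ∧
    (∀ n : ℕ, 1 ≤ n → (n : ℝ) ≤ (N : ℝ) ^ (1 / 2 - 600 * θ) →
      ‖(TY χ θ N (ell ((N : ℝ) ^ (200 * θ)) c₀ N) n : ℝ) - Rn χ (jj χ N) (LN N) (Qc D N) n‖ ≤
        (N : ℝ) ^ (-25 * θ)) ∧
    ∀ (ι : Type) (J : Finset ι) (ν : ι → ℝ) (l : ι → ℕ) (L₁ B : ℝ),
      Mo (2 * θ) N D χ J (fun i => (ν i : ℂ)) l L₁ B →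
      |∑ i ∈ J, ν i * TY χ θ N (TY χ θ N (ell ((N : ℝ) ^ (200 * θ)) c₀ N)) (l i)| ≤
        C * (D.totient / D) * B * L₁ ^ 2 *
          (if jj χ N = 0 then ‖LFunction χ 1‖ ^ 2 else L₁ ^ 2) + (N : ℝ) ^ (-15 * θ)

/-! ### rows -/

def MEOf : Prop := VS → MES
def LBOf : Prop := PhZ → LBS
def AR1Of : Prop := AR3S → AR1S
def AR2Of : Prop := BLS → AR2S
def KCOf : Prop := KlS → KCS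
def BXOf : Prop := KCS → BXS
def ALOf : Prop := RHS → HSS → ALS
def CAOf : Prop := BbS → BXS → VAS → GKS → HSS → CAS
def CBOf : Prop := GKS → ALS → SIS → CBS
def COOf : Prop := CAS → CBS → COS
def OZOf : Prop := COS → OZS
def ZAOf : Prop := VS → ZAS
def ZBOf : Prop := VS → AR3S → ZCS → FES → MKS → ZAS → ZBS
def ZDOf : Prop := VS → LBS → AR0S → FES → KMS → KBS → MKS → ZDS
def DGOf : Prop := VS → SHS → MES → LBS → AR0S → AR1S → DGS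
def PBOf : Prop := VS → PBS
def CUOf : Prop := Mel1S → CUS
def EYOf : Prop := VS → SHS → MES → LBS → EYS
def FXOf : Prop := XgS → KMS → DGS → PBS → FXS
def FY1Of : Prop := VS → KerS → Mel1S → KMS → OZS → ZBS → ZDS → DGS → PBS → CUS → FY1S
def KVOf : Prop := VS → SHS → MES → LBS → AR0S → BLS → AR2S → KVS
def FY2Of : Prop := VS → LBS → AR0S → KVS → FY2S
def FYOf : Prop := FY1S → FY2S → FYS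
def TWOf : Prop := VS → TWS
def FFOf : Prop := XgS → KMS → EYS → FXS → FYS → TWS → FFS

end Pool.Agent.MP_20b2fd_nt.F5
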