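import Pool.Agent.MP_20b2fd_nt.F5.Spec
import Pool.Agent.MP_74e98a_nt.H25.Div

/-! Small tools for the rows of this block. -/

set_option autoImplicit false

namespace Pool.Agent.MP_20b2fd_nt.F5.U

open Finset Filter Topology
open Pool.Agent.MP_20b2fd_nt.H38

theorem tau_nonneg (n : ℕ) : 0 ≤ tau n := Nat.cast_nonneg _

theorem tau_zero : tau 0 = 0 := by simp [tau]

theorem tau_le (n : ℕ) : tau n ≤ n := by
  unfold tau; exact_mod_cast Nat.card_divisors_le_self n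

theorem one_le_tau {n : ℕ} (h : 1 ≤ n) : 1 ≤ tau n := by
  unfold tau
  have : 0 < n.divisors.card := card_pos.mpr ⟨1, Nat.one_mem_divisors.mpr (by omega)⟩
  exact_mod_cast this

theorem tau_dvd {d n : ℕ} (h : d ∣ n) (hn : n ≠ 0) : tau d ≤ tau n := by
  unfold tau; exact_mod_cast card_le_card (Nat.divisors_subset_of_dvd hn h)

theorem tau_mul_le (a b : ℕ) : tau (a * b) ≤ tau a * tau b := by
  unfold tau
  rw [Nat.divisors_mul]
  exact_mod_cast Finset.card_mul_le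

/-- the divisor bound -/
theorem tau_eps {ε : ℝ} (hε : 0 < ε) : ∃ C : ℝ, 1 ≤ C ∧ ∀ n : ℕ, tau n ≤ C * (n : ℝ) ^ ε :=
  Pool.Agent.MP_74e98a_nt.H25.divisor_bound ε hε

/-- a constant times a power of the logarithm is below any small power -/
theorem ev_log (C : ℝ) (k : ℕ) {ε : ℝ} (hε : 0 < ε) :
    ∃ N₀ : ℕ, 3 ≤ N₀ ∧ ∀ N : ℕ, N₀ ≤ N → C * (1 + Real.log N) ^ k ≤ (N : ℝ) ^ ε := by
  have h1 := (isLittleO_log_rpow_rpow_atTop (k : ℝ) hε).bound
    (show (0 : ℝ) < 1 / ((|C| + 1) * 2 ^ k) by positivity)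
  have h2 := (tendsto_natCast_atTop_atTop (R := ℝ)).eventually h1
  obtain ⟨N₁, hN⟩ := eventually_atTop.mp h2
  refine ⟨max 3 N₁, le_max_left _ _, fun N h => ?_⟩
  have h3 : (3 : ℝ) ≤ N := by exact_mod_cast (le_max_left _ _).trans h
  have hl : 1 ≤ Real.log N := by
    rw [Real.le_log_iff_exp_le (by linarith)]
    linarith [Real.exp_one_lt_d9]
  have h4 := hN N ((le_max_right _ _).trans h)
  rw [Real.norm_of_nonneg (by positivity), Real.norm_of_nonneg (by positivity),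
    Real.rpow_natCast, div_mul_eq_mul_div, le_div_iff₀ (by positivity)] at h4
  have h5 : (1 + Real.log N) ^ k ≤ 2 ^ k * Real.log N ^ k := by
    rw [← mul_pow]; exact pow_le_pow_left₀ (by linarith) (by linarith) k
  calc C * (1 + Real.log N) ^ k ≤ (|C| + 1) * (2 ^ k * Real.log N ^ k) :=
        mul_le_mul (by linarith [le_abs_self C]) h5 (by positivity) (by positivity)
    _ ≤ _ := by linarith

/-- the divisor function on a polynomial range -/
theorem ev_tau (A : ℕ) {ε : ℝ} (hε : 0 < ε) :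
    ∃ N₀ : ℕ, 3 ≤ N₀ ∧ ∀ N : ℕ, N₀ ≤ N → ∀ n : ℕ, (n : ℝ) ≤ (N : ℝ) ^ A → tau n ≤ (N : ℝ) ^ ε := by
  have h0 : 0 < ε / (2 * (A + 1)) := by positivity
  obtain ⟨C, hC, h⟩ := tau_eps h0
  obtain ⟨N₀, h3, hN⟩ := ev_log C 0 (half_pos hε)
  refine ⟨N₀, h3, fun N hN' n hn => (h n).trans ?_⟩
  have h1 : (1 : ℝ) ≤ N := by exact_mod_cast (show 1 ≤ N by omega)
  have h4 := hN N hN'
  rw [pow_zero, mul_one] at h4
  have h5 : (n : ℝ) ^ (ε / (2 * (A + 1))) ≤ (N : ℝ) ^ (ε / 2) := by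
    refine (Real.rpow_le_rpow (by positivity) hn h0.le).trans ?_
    rw [← Real.rpow_natCast, ← Real.rpow_mul (by positivity)]
    refine Real.rpow_le_rpow_of_exponent_le h1 ?_
    rw [← mul_div_assoc, div_le_div_iff₀ (by positivity) (by positivity)]
    nlinarith
  calc C * (n : ℝ) ^ (ε / (2 * (A + 1))) ≤ (N : ℝ) ^ (ε / 2) * (N : ℝ) ^ (ε / 2) :=
        mul_le_mul h4 h5 (by positivity) (by positivity)
    _ = _ := by rw [← Real.rpow_add (by positivity), add_halves]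

/-- an exponentially small term -/
theorem ev_exp (C : ℝ) (A : ℕ) {δ : ℝ} (hδ : 0 < δ) :
    ∃ N₀ : ℕ, 3 ≤ N₀ ∧ ∀ N : ℕ, N₀ ≤ N →
      C * (N : ℝ) ^ A * Real.exp (-(N : ℝ) ^ δ) ≤ 1 / N := by
  obtain ⟨N₀, h3, hN⟩ := ev_log (|C| + (A + 1)) 1 hδ
  refine ⟨N₀, h3, fun N h => ?_⟩
  have h1 : (1 : ℝ) ≤ N := by exact_mod_cast (show 1 ≤ N by omega)
  have hl := Real.log_nonneg h1
  have h4 := hN N h
  rw [pow_one] at h4
  have h5 : C * (N : ℝ) ^ (A + 1) ≤ Real.exp ((N : ℝ) ^ δ) := by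
    have e1 : (N : ℝ) ^ (A + 1) = Real.exp ((A + 1 : ℕ) * Real.log N) := by
      rw [Real.exp_nat_mul, Real.exp_log (by linarith)]
    have e2 : C ≤ Real.exp |C| := by linarith [le_abs_self C, Real.add_one_le_exp |C|]
    rw [e1]
    refine (mul_le_mul_of_nonneg_right e2 (Real.exp_pos _).le).trans ?_
    rw [← Real.exp_add]
    refine Real.exp_le_exp.mpr (le_trans ?_ h4)
    push_cast
    nlinarith [abs_nonneg C, mul_nonneg (abs_nonneg C) hl, (Nat.cast_nonneg A : (0 : ℝ) ≤ A)]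
  rw [Real.exp_neg, ← div_eq_mul_inv, div_le_div_iff₀ (Real.exp_pos _) (by linarith), one_mul,
    mul_assoc, ← pow_succ]
  exact h5

theorem sum_inv (M : ℕ) : ∑ k ∈ Icc 1 M, (1 : ℝ) / k ≤ 1 + Real.log M := by
  have := harmonic_le_one_add_log M
  rw [harmonic_eq_sum_Icc] at this
  push_cast at this
  simpa [one_div] using this

/-- the sum over a greatest common divisor as a sum over the divisors of one variable -/
theorem Bh_eq {R : Type} [CommSemiring R] (l : ℕ → R) (k : ℕ) {n : ℕ} (hn : 1 ≤ n) :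
    Bh l k n = ∑ d ∈ n.divisors, if d ∣ k then (d : R) * l (k * n / d ^ 2) else 0 := by
  unfold Bh
  rw [← sum_filter]
  refine sum_congr ?_ fun _ _ => rfl
  ext d
  have : k.gcd n ≠ 0 := (Nat.gcd_pos_of_pos_right k hn).ne'
  simp only [Nat.mem_divisors, mem_filter, Nat.dvd_gcd_iff]
  constructor
  · rintro ⟨⟨h1, h2⟩, _⟩; exact ⟨⟨h2, by omega⟩, h1⟩
  · rintro ⟨⟨h1, _⟩, h2⟩; exact ⟨⟨h2, h1⟩, this⟩

end Pool.Agent.MP_20b2fd_nt.F5.U
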