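import Pool.Agent.MP_20b2fd_nt.F5.Spec
import Pool.Agent.MP_74e98a_nt.H98.Ker

/-! Row V: the weights and their line integrals. -/

set_option autoImplicit false

namespace Pool.Agent.MP_20b2fd_nt.F5

open MeasureTheory Complex Filter Topology Set
open Pool.Agent.MP_20b2fd_nt.H38 Pool.Agent.MP_74e98a_nt.H98
open scoped Real

namespace VA

theorem gm_diff (u : ℂ) (hu : -1 < u.re) : DifferentiableAt ℂ gm u := by
  unfold gm
  refine (differentiableAt_id.neg.const_cpow (Or.inl (by exact_mod_cast Real.two_pi_pos.ne'))).mul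
    (DifferentiableAt.comp u (differentiableAt_Gamma _ fun m h => ?_) (by fun_prop))
  have := congrArg re h
  simp only [add_re, one_re, natCast_re, neg_re] at this
  linarith [m.cast_nonneg (α := ℝ)]

theorem gm_le : ∃ C : ℝ, ∀ u : ℂ, -1 / 2 ≤ u.re → u.re ≤ 2 → ‖gm u‖ ≤ C / (1 + |u.im|) ^ 10 := by
  obtain ⟨C, ε, hε, h⟩ := ker_decay (W := 0) (by simp; positivity) (a := 1 / 2) (by norm_num) 3
  have hC : 0 ≤ C := by simpa using (norm_nonneg _).trans (h 1 0 (by norm_num) (by norm_num))
  refine ⟨2 * π * C * ((10 + 2).factorial * Real.exp ε / ε ^ (10 + 2)), fun u h1 h2 => ?_⟩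
  have h3 := h (1 + u.re) u.im (by linarith) (by linarith)
  rw [mul_zero, neg_zero, exp_zero, mul_one, ofReal_add, add_assoc, re_add_im, ofReal_one] at h3
  have h4 : ‖(2 * π : ℂ) ^ (-u)‖ ≤ 2 * π := by
    rw [show (2 * π : ℂ) = ((2 * π : ℝ) : ℂ) by push_cast; rfl,
      norm_cpow_eq_rpow_re_of_pos Real.two_pi_pos]
    exact Real.rpow_le_self_of_one_le (by linarith [Real.pi_gt_three]) (by rw [neg_re]; linarith)
  have h5 := (pow_exp_le 10 hε u.im).trans (mul_le_of_le_one_right (by positivity)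
    (inv_le_one_of_one_le₀ (le_add_of_nonneg_right (sq_nonneg _))))
  rw [le_div_iff₀ (by positivity), gm, norm_mul]
  calc _ ≤ 2 * π * (C * Real.exp (-(ε * |u.im|))) * (1 + |u.im|) ^ 10 := by gcongr
    _ = 2 * π * C * ((1 + |u.im|) ^ 10 * Real.exp (-(ε * |u.im|))) := by ring
    _ ≤ _ := by gcongr

theorem ne0 (t : ℝ) : ((2 : ℝ) + t * I : ℂ) ≠ 0 := fun h => by simpa using congrArg re h

theorem f0_eq {y : ℝ} (hy : 0 < y) {u : ℂ} (hu : u ≠ 0) :
    gm u / u ^ (0 + 1) * (y : ℂ) ^ (-u) = G 0 (Real.log (2 * π * y)) u := by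
  have h := mul_cpow_ofReal_nonneg Real.two_pi_pos.le hy.le (-u)
  have h0 : 0 < 2 * π * y := by positivity
  rw [← ofReal_mul, cpow_def_of_ne_zero (ofReal_ne_zero.2 h0.ne'), ← ofReal_log h0.le] at h
  rw [gm, G, add_comm 1 u, Gamma_add_one u hu, Nat.cast_zero, add_zero, mul_comm u (Real.log _ : ℂ),
    ← mul_neg, h]
  push_cast
  field_simp

theorem im0 (y : ℝ) : |(y : ℂ).im| < π / 2 := by
  simp only [ofReal_im, abs_zero]
  positivity

theorem ln0 {y : ℝ} (hy : 0 < y) : ((Real.exp (-2 * π * y) : ℝ) : ℂ) =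
    ln 2 fun u => gm u / u ^ (0 + 1) * (y : ℂ) ^ (-u) := by
  have h := cahen (im0 (Real.log (2 * π * y))) (k := 0) (σ := 2) (by norm_num)
  rw [← ofReal_exp, Real.exp_log (by positivity)] at h
  simp only [ln, f0_eq hy (ne0 _), h]
  have hπ : (π : ℂ) ≠ 0 := ofReal_ne_zero.mpr Real.pi_pos.ne'
  push_cast
  field_simp

theorem ln1 {x : ℝ} (hx : 0 < x) : (Vj 1 x : ℂ) =
    ln 2 fun u => gm u / u ^ (1 + 1) * (x : ℂ) ^ (-u) := by
  have hi := int_G (im0 (Real.log (2 * π * x))) (k := 0) (σ := 2) (by norm_num)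
  simp only [← f0_eq hx (ne0 _)] at hi
  have hp : Integrable (Function.uncurry fun s t : ℝ => (s : ℂ) ^ (-((2 : ℝ) + t * I : ℂ) - 1) *
      (gm ((2 : ℝ) + t * I) / ((2 : ℝ) + t * I) ^ (0 + 1) * (x : ℂ) ^ (-((2 : ℝ) + t * I : ℂ))))
      ((volume.restrict (Ioi 1)).prod volume) := by
    refine ((integrableOn_Ioi_rpow_of_lt (a := -3) (by norm_num) one_pos).mul_prod hi.norm).mono'
      (AEStronglyMeasurable.mul (Measurable.aestronglyMeasurable (by fun_prop))
        hi.aestronglyMeasurable.comp_snd) ?_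
    filter_upwards [Measure.quasiMeasurePreserving_fst.ae (ae_restrict_mem measurableSet_Ioi)]
      with p hp
    simp only [Function.uncurry]
    rw [norm_mul, norm_cpow_eq_rpow_re_of_pos (one_pos.trans hp)]
    norm_num
  have h := integral_integral_swap hp
  rw [Vj, if_neg one_ne_zero, ← integral_complex_ofReal, ln]
  calc _ = ∫ s in Ioi (1 : ℝ), 1 / (2 * π : ℂ) * ∫ t : ℝ, (s : ℂ) ^ (-((2 : ℝ) + t * I : ℂ) - 1) *
        (gm ((2 : ℝ) + t * I) / ((2 : ℝ) + t * I) ^ (0 + 1) *
          (x : ℂ) ^ (-((2 : ℝ) + t * I : ℂ))) := by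
        refine setIntegral_congr_fun measurableSet_Ioi fun s hs => ?_
        have s0 : 0 < s := one_pos.trans hs
        rw [ofReal_div, mul_assoc _ x, ln0 (mul_pos hx s0), ln, mul_div_assoc, ← integral_div]
        congr 2 with t
        rw [ofReal_mul, mul_cpow_ofReal_nonneg hx.le s0.le,
          cpow_sub _ _ (ofReal_ne_zero.2 s0.ne'), cpow_one]
        ring
    _ = _ := by
        rw [integral_const_mul, h]
        congr 2 with t
        rw [integral_mul_const, integral_Ioi_cpow_of_lt (by norm_num) one_pos, ofReal_one, one_cpow,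
          sub_add_cancel]
        have := ne0 t
        field_simp
        ring

/-- the integrand -/
noncomputable def g (s : ℝ) : ℝ := Real.exp (-2 * π * s) / s

theorem ng : -2 * π < 0 := by linarith [Real.pi_pos]

theorem g_int {x : ℝ} (hx : 0 < x) : IntegrableOn g (Ioi x) := by
  refine ((integrableOn_exp_mul_Ioi ng x).div_const x).mono'
    (Measurable.aestronglyMeasurable (by unfold g; fun_prop)) ?_
  filter_upwards [ae_restrict_mem measurableSet_Ioi] with s hs
  have s0 : 0 < s := hx.trans hs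
  rw [g, Real.norm_of_nonneg (by positivity)]
  gcongr
  exact le_of_lt hs

theorem v1_eq {x : ℝ} (hx : 0 < x) : Vj 1 x = ∫ s in Ioi x, g s := by
  have h := integral_comp_mul_left_Ioi g 1 hx
  rw [mul_one, smul_eq_mul, eq_inv_mul_iff_mul_eq₀ hx.ne', ← integral_const_mul] at h
  rw [← h, Vj, if_neg one_ne_zero]
  refine integral_congr_ae (Eventually.of_forall fun s => ?_)
  simp only [g]
  rw [mul_assoc _ x, mul_div_assoc', mul_div_mul_left _ _ hx.ne']

theorem v1_sub {x : ℝ} (hx : 0 < x) : Vj 1 x = Vj 1 1 - ∫ s in (1 : ℝ)..x, g s := by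
  rw [v1_eq hx, v1_eq one_pos,
    ← intervalIntegral.integral_interval_add_Ioi (g_int one_pos) (g_int hx)]
  ring

theorem g_ii {x y : ℝ} (hx : 0 < x) (hy : 0 < y) : IntervalIntegrable g volume x y := by
  refine ContinuousOn.intervalIntegrable (ContinuousOn.div (by fun_prop) continuousOn_id ?_)
  exact fun s hs => ((lt_min hx hy).trans_le hs.1).ne'

theorem exp_le {x : ℝ} (hx : 0 < x) : 2 * π * Real.exp (-2 * π * x) ≤ 1 / x := by
  rw [neg_mul, neg_mul, Real.exp_neg, ← div_eq_mul_inv, div_le_div_iff₀ (Real.exp_pos _) hx]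
  linarith [Real.add_one_le_exp (2 * π * x)]

theorem exp_le1 {x : ℝ} (hx : 0 < x) : Real.exp (-2 * π * x) ≤ 1 :=
  Real.exp_le_one_iff.2 (mul_neg_of_neg_of_pos ng hx).le

theorem v1_le {x : ℝ} (hx : 1 ≤ x) : Vj 1 x ≤ Real.exp (-2 * π * x) := by
  have x0 : 0 < x := one_pos.trans_le hx
  rw [v1_eq x0]
  calc _ ≤ ∫ s in Ioi x, Real.exp (-2 * π * s) :=
        setIntegral_mono_on (g_int x0) (integrableOn_exp_mul_Ioi ng x) measurableSet_Ioi
          fun s hs => div_le_self (Real.exp_pos _).le (hx.trans (le_of_lt hs))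
    _ ≤ _ := by
        rw [integral_exp_mul_Ioi ng, neg_mul 2, neg_div_neg_eq]
        exact div_le_self (Real.exp_pos _).le (by linarith [Real.pi_gt_three])

theorem props (j : ℕ) (hj : j = 0 ∨ j = 1) : ∃ V₁ : ℝ → ℝ, ∀ x : ℝ, 0 < x →
    HasDerivAt (Vj j) (V₁ x) x ∧ |V₁ x| ≤ 1 / x ∧ 0 ≤ Vj j x ∧ Vj j x ≤ 1 + |Real.log x| ∧
    (1 ≤ x → Vj j x ≤ Real.exp (-2 * π * x)) ∧
    (Vj j x : ℂ) = ln 2 fun u => gm u / u ^ (j + 1) * (x : ℂ) ^ (-u) := by
  rcases hj with rfl | rfl
  · have e : Vj 0 = fun x => Real.exp (-2 * π * x) := funext fun x => if_pos rfl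
    rw [e]
    refine ⟨_, fun x hx => ⟨((hasDerivAt_id' x).const_mul (-2 * π)).exp, ?_, (Real.exp_pos _).le,
      (exp_le1 hx).trans (le_add_of_nonneg_right (abs_nonneg _)), fun _ => le_rfl, ln0 hx⟩⟩
    rw [abs_of_neg (mul_neg_of_pos_of_neg (Real.exp_pos _) (by linarith [ng]))]
    linarith [exp_le hx]
  · refine ⟨fun x => -g x, fun x hx => ⟨?_, ?_, ?_, ?_, v1_le, ln1 hx⟩⟩
    · have h := (intervalIntegral.integral_hasDerivAt_right (g_ii one_pos hx)
        (Measurable.stronglyMeasurable (by unfold g; fun_prop)).stronglyMeasurableAtFilter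
        (ContinuousAt.div (by fun_prop) continuousAt_id hx.ne')).const_sub (Vj 1 1)
      exact h.congr_of_eventuallyEq ((eventually_gt_nhds hx).mono fun y hy => v1_sub hy)
    · rw [abs_neg, g, abs_of_pos (by positivity)]
      gcongr
      exact exp_le1 hx
    · rw [v1_eq hx]
      exact setIntegral_nonneg measurableSet_Ioi fun s hs =>
        div_nonneg (Real.exp_pos _).le (hx.trans hs).le
    · rcases le_total 1 x with h | h
      · exact ((v1_le h).trans (exp_le1 hx)).trans (le_add_of_nonneg_right (abs_nonneg _))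
      · have h1 : ∫ s in x..1, g s ≤ ∫ s in x..1, s⁻¹ :=
          intervalIntegral.integral_mono_on h (g_ii hx one_pos)
            (intervalIntegral.intervalIntegrable_inv
              (fun s hs => ((lt_min hx one_pos).trans_le hs.1).ne') continuousOn_id)
            fun s hs => by
              have s0 := hx.trans_le hs.1
              rw [g, ← one_div]
              gcongr
              exact exp_le1 s0
        rw [integral_inv_of_pos hx one_pos, one_div, Real.log_inv] at h1
        rw [v1_sub hx, intervalIntegral.integral_symm]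
        linarith [(v1_le le_rfl).trans (exp_le1 one_pos), neg_le_abs (Real.log x)]

end VA

open VA in
theorem v : VS := by
  obtain ⟨C, hC⟩ := gm_le
  have hb : ContDiff ℝ 1 (bm : ℝ → ℝ) := bm.contDiff
  obtain ⟨B, hB⟩ := (hb.continuous_deriv le_rfl).bounded_above_of_compact_support
    bm.hasCompactSupport.deriv
  have B0 : 0 ≤ B := (norm_nonneg _).trans (hB 0)
  have c1 : 1 + B ≤ max C (1 + B) := le_max_right _ _
  refine ⟨max C (1 + B), by linarith, gm_diff, by simp [gm], fun u h1 h2 =>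
    (hC u h1 h2).trans (by gcongr; exact le_max_left _ _), fun j hj => ?_⟩
  obtain ⟨V₁, hV⟩ := props j hj
  refine ⟨fun x hx => (hV x hx).1.continuousAt.continuousWithinAt,
    fun x hx => ⟨(hV x hx).2.2.1, (hV x hx).2.2.2.2⟩, fun R hR => ?_⟩
  have R0 : 0 < R := one_pos.trans_le hR
  have hm : ∀ x : ℝ, 0 < x → x < R → x / R ∈ Metric.ball (0 : ℝ) bm.rIn := fun x hx h => by
    rw [mem_ball_zero_iff, Real.norm_of_nonneg (by positivity)]
    exact (div_lt_one R0).2 h
  refine ⟨⟨⟨fun x => V₁ x * bm (x / R) + Vj j x * (deriv bm (x / R) * (1 / R)), fun x hx => ?_⟩,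
    fun x hx => ?_⟩, fun x hx => ?_⟩
  · obtain ⟨h1, h2, h3, h4, h5, -⟩ := hV x hx
    have b0 : 0 ≤ bm (x / R) := bm.nonneg
    have b1 : bm (x / R) ≤ 1 := bm.le_one
    refine ⟨h1.mul ((hb.differentiable one_ne_zero _).hasDerivAt.comp x
      ((hasDerivAt_id' x).div_const R)), ?_, ?_⟩
    · rw [Wc, abs_of_nonneg (mul_nonneg h3 b0)]
      exact ((mul_le_of_le_one_right h3 b1).trans h4).trans
        (le_mul_of_one_le_left (by positivity) (by linarith))
    · have h6 : |Vj j x * (deriv bm (x / R) * (1 / R))| ≤ B / x := by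
        rcases lt_or_ge x R with h | h
        · rw [(bm.eventuallyEq_one_of_mem_ball (hm x hx h)).deriv_eq]
          simp only [Pi.one_def, deriv_const, zero_mul, mul_zero, abs_zero]
          positivity
        · have h7 : Vj j x ≤ 1 / x := (h5 (hR.trans h)).trans (le_trans (le_mul_of_one_le_left
            (Real.exp_pos _).le (by linarith [Real.pi_gt_three])) (exp_le hx))
          rw [abs_mul, abs_mul, abs_of_nonneg h3, abs_of_pos (one_div_pos.2 R0)]
          calc _ ≤ 1 / x * (B * 1) := by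
                gcongr
                · exact hB _
                · exact (div_le_one R0).2 hR
            _ = _ := by ring
      have h7 : |V₁ x * bm (x / R)| ≤ 1 / x := by
        rw [abs_mul, abs_of_nonneg b0]
        exact (mul_le_of_le_one_right (abs_nonneg _) b1).trans h2
      refine (abs_add_le _ _).trans ((add_le_add h7 h6).trans ?_)
      rw [← add_div]
      gcongr
  · rw [Wc, bm.zero_of_le_dist, mul_zero]
    rw [dist_zero_right]
    exact le_trans ((le_div_iff₀ R0).2 hx) (le_abs_self _)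
  · have h3 := (hV x hx).2.2.1
    rw [Wc, ← mul_one_sub]
    split_ifs with h
    · rw [abs_of_nonneg (mul_nonneg h3 (sub_nonneg.2 bm.le_one))]
      exact mul_le_of_le_one_right h3 (sub_le_self _ bm.nonneg)
    · rw [bm.one_of_mem_closedBall (Metric.ball_subset_closedBall (hm x hx (not_le.1 h)))]
      simp

end Pool.Agent.MP_20b2fd_nt.F5
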