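import Pool.Agent.MP_20b2fd_nt.F5.Util

/-! The terms of frequency zero as sums over positive integers. -/

set_option autoImplicit false

namespace Pool.Agent.MP_20b2fd_nt.F5.ZBA

open MeasureTheory Complex Finset ArithmeticFunction
open Pool.Agent.MP_c5bf7b_nt.H38 (Ch)
open Pool.Agent.MP_20b2fd_nt.H38

/-- the basic integral -/
noncomputable def J (W : ℝ → ℝ) (Q : ℝ) (κ : ℝ → ℂ) (c : ℝ) : ℂ :=
  ∫ x in Set.Ioi (0 : ℝ), ((W (x / Q) / x : ℝ) : ℂ) * κ (c / x)

structure Wk (R : ℝ) (W : ℝ → ℝ) : Prop where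
  cont : ContinuousOn W (Set.Ioi 0)
  van : ∀ x, 2 * R ≤ x → W x = 0

structure Kk (T : ℝ) (κ : ℝ → ℂ) : Prop where
  cont : ContinuousOn κ (Set.Ioi 0)
  van : ∀ t, T ≤ t → κ t = 0

structure Kr (T : ℝ) (κ : ℝ → ℝ) : Prop where
  pos : Kk T fun t => (κ t : ℂ)
  neg : Kk T fun t => (κ (-t) : ℂ)

variable {R Q T : ℝ} {W : ℝ → ℝ}

theorem J_int {κ : ℝ → ℂ} {c : ℝ} (hW : Wk R W) (hκ : Kk T κ) (hQ : 0 < Q) (hT : 0 < T)
    (hc : 0 < c) :
    IntegrableOn (fun x : ℝ => ((W (x / Q) / x : ℝ) : ℂ) * κ (c / x)) (Set.Ioi 0) := by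
  have h0 : 0 < c / T := div_pos hc hT
  have h1 : ContinuousOn (fun x : ℝ => ((W (x / Q) / x : ℝ) : ℂ) * κ (c / x)) (Set.Ioi 0) := by
    refine ContinuousOn.mul (continuous_ofReal.comp_continuousOn (ContinuousOn.div
      (hW.cont.comp (by fun_prop) fun x hx => div_pos hx hQ) continuousOn_id
      fun x hx => ne_of_gt hx)) (hκ.cont.comp
      (continuousOn_const.div continuousOn_id fun x hx => ne_of_gt hx) fun x hx => div_pos hc hx)
  refine ((h1.mono fun x hx => lt_of_lt_of_le h0 hx.1).integrableOn_Icc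
    (a := c / T) (b := 2 * R * Q)).of_forall_sdiff_eq_zero measurableSet_Ioi fun x hx => ?_
  have hx0 : 0 < x := hx.1
  rcases lt_or_ge x (c / T) with h | h
  · rw [hκ.van _ ((le_div_iff₀ hx0).2 (by rw [lt_div_iff₀ hT] at h; linarith)), mul_zero]
  · have h2 : 2 * R * Q < x := lt_of_not_ge fun h' => hx.2 ⟨h, h'⟩
    rw [hW.van _ ((le_div_iff₀ hQ).2 h2.le)]
    simp

theorem J_zero {κ : ℝ → ℂ} {c : ℝ} (hW : Wk R W) (hκ : Kk T κ) (hQ : 0 < Q) (hT : 0 < T)
    (hc : 2 * R * Q * T ≤ c) : J W Q κ c = 0 := by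
  refine setIntegral_eq_zero_of_forall_eq_zero fun x hx => ?_
  have hx0 : 0 < x := hx
  rcases le_total (2 * R * Q) x with h | h
  · rw [hW.van _ ((le_div_iff₀ hQ).2 h)]
    simp
  · rw [hκ.van _ ((le_div_iff₀ hx0).2 (by nlinarith)), mul_zero]

theorem Kr.fe {κ : ℝ → ℝ} (h : Kr T κ) (s : ℝ) : Kk T (fe κ s) := by
  have e : H38.fe κ s = fun t => (κ (-t) : ℂ) + s * (κ t : ℂ) := by
    ext t
    simp [H38.fe]
  rw [e]
  exact ⟨h.neg.cont.add (continuousOn_const.mul h.pos.cont),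
    fun t ht => by simp only [h.neg.van t ht, h.pos.van t ht, mul_zero, add_zero]⟩

theorem J_fe {κ : ℝ → ℝ} {c : ℝ} (hW : Wk R W) (hκ : Kr T κ) (hQ : 0 < Q) (hT : 0 < T)
    (hc : 0 < c) (s : ℝ) : J W Q (fe κ s) c =
      J W Q (fun t => (κ (-t) : ℂ)) c + s * J W Q (fun t => (κ t : ℂ)) c := by
  unfold J
  rw [← integral_const_mul, ← integral_add (J_int hW hκ.neg hQ hT hc)
    ((J_int hW hκ.pos hQ hT hc).const_mul _)]
  congr 1
  ext x
  simp only [fe]
  push_cast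
  ring

theorem sum_J {κ : ℝ → ℂ} {v : ℝ} (hW : Wk R W) (hκ : Kk T κ) (hQ : 0 < Q) (hT : 0 < T)
    (hv : 0 < v) (a : ℕ → ℂ) : Summable fun m : ℕ => a m * J W Q κ (m / v) := by
  refine summable_of_ne_finset_zero (s := range ⌈2 * R * Q * T * v⌉₊) fun m hm => ?_
  rw [mem_range, not_lt, Nat.ceil_le] at hm
  rw [J_zero hW hκ hQ hT ((le_div_iff₀ hv).2 hm), mul_zero]

variable {D : ℕ} (χ : Ch D)

/-- the arithmetic factor against a weight -/
noncomputable def zg (N n : ℕ) (h : ℤ) (φ : ℕ → ℕ → ℂ) : ℂ :=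
  ∑ g ∈ (n.gcd h.natAbs).divisors, ∑ e ∈ (n / g).divisors,
    χ ((-N * (h / g) : ℤ) : ZMod D) * χ ((n / g : ℕ) : ZMod D) * (moebius e : ℂ) / (D * e) * φ g e

noncomputable def ph (D : ℕ) (y : ℝ) (g e : ℕ) : ℂ :=
  ((y - 2 * Real.log (g * D * e) + 2 * Real.eulerMascheroniConstant : ℝ) : ℂ)

noncomputable def cf (N n g e : ℕ) : ℂ :=
  χ N * χ ((n / g : ℕ) : ZMod D) * (moebius e : ℂ) / (D * e)

theorem zc_add (N n : ℕ) (h : ℤ) (y z : ℝ) :
    zc χ N n h (y + z) = zg χ N n h (fun _ _ => 1) * z + zg χ N n h (ph D y) := by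
  unfold zc zg ph
  simp only [sum_mul, ← sum_add_distrib]
  refine sum_congr rfl fun g _ => sum_congr rfl fun e _ => ?_
  push_cast
  ring

theorem zg_pos (N n M : ℕ) (φ : ℕ → ℕ → ℂ) :
    zg χ N n M φ = χ (-1) * zg χ N n (-M) φ := by
  unfold zg
  rw [Int.natAbs_neg]
  simp only [mul_sum]
  refine sum_congr rfl fun g hg => sum_congr rfl fun e _ => ?_
  have h1 : (g : ℤ) ∣ M := Int.natCast_dvd_natCast.2
    ((Nat.dvd_of_mem_divisors hg).trans (Nat.gcd_dvd_right _ _))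
  have h2 : χ ((-N * ((M : ℤ) / g) : ℤ) : ZMod D)
      = χ (-1) * χ ((-N * (-(M : ℤ) / g) : ℤ) : ZMod D) := by
    rw [Int.neg_ediv_of_dvd h1, ← map_mul]
    congr 1
    push_cast
    ring
  rw [h2]
  ring

theorem zg_neg (N M : ℕ) {n : ℕ} (hn : 1 ≤ n) (φ : ℕ → ℕ → ℂ) :
    zg χ N n (-M) φ = ∑ g ∈ n.divisors, ∑ e ∈ (n / g).divisors,
      if g ∣ M then cf χ N n g e * (χ ((M / g : ℕ) : ZMod D) * φ g e) else 0 := by
  unfold zg
  have e1 : (n.gcd (-(M : ℤ)).natAbs).divisors = n.divisors.filter (· ∣ M) := by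
    ext d
    have : n.gcd M ≠ 0 := (Nat.gcd_pos_of_pos_left M hn).ne'
    simp only [Int.natAbs_neg, Int.natAbs_natCast, Nat.mem_divisors, mem_filter, Nat.dvd_gcd_iff]
    exact ⟨fun h => ⟨⟨h.1.1, by omega⟩, h.1.2⟩, fun h => ⟨⟨h.1.1, h.2⟩, this⟩⟩
  rw [e1, sum_filter]
  refine sum_congr rfl fun g _ => ?_
  split_ifs with h
  · refine sum_congr rfl fun e _ => ?_
    have h2 : χ ((-N * (-(M : ℤ) / g) : ℤ) : ZMod D) = χ N * χ ((M / g : ℕ) : ZMod D) := by
      rw [Int.neg_ediv_of_dvd (Int.natCast_dvd_natCast.2 h), ← map_mul, ← Int.natCast_div,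
        neg_mul_neg, Int.cast_mul, Int.cast_natCast, Int.cast_natCast]
    rw [h2, cf]
    ring
  · exact sum_const_zero.symm

/-- one frequency -/
theorem one {κ₁ κ₂ : ℝ → ℂ} {k : ℝ → ℝ} {c : ℝ} {N n : ℕ} {h : ℤ} (hW : Wk R W) (h₁ : Kk T κ₁)
    (h₂ : Kk T κ₂) (hQ : 0 < Q) (hT : 0 < T) (hc : 0 < c) (hN : 0 < N) (hn : 1 ≤ n) (hh : h ≠ 0)
    (hk : k (-1) = 0) (e₁ : ∀ x : ℝ, κ₁ (c / x) = k (h * N / (n * x)))
    (e₂ : ∀ x : ℝ, κ₂ (c / x) = ((k (h * N / (n * x)) * lg (h * N / (n * x)) : ℝ) : ℂ)) :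
    ∫ x in Set.Ioi (0 : ℝ), ((W (x / Q) / x * k (h * N / (n * x)) : ℝ) : ℂ) *
      zc χ N n h (Real.log |n * x + h * N|) =
      zg χ N n h (fun _ _ => 1) * J W Q κ₂ c +
        zg χ N n h (ph D (Real.log |(h : ℝ) * N|)) * J W Q κ₁ c := by
  unfold J
  rw [← integral_const_mul, ← integral_const_mul, ← integral_add
    ((J_int hW h₂ hQ hT hc).const_mul _) ((J_int hW h₁ hQ hT hc).const_mul _)]
  refine setIntegral_congr_fun measurableSet_Ioi fun x hx => ?_
  have hx0 : (0 : ℝ) < x := hx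
  have hn0 : (0 : ℝ) < n := by exact_mod_cast hn
  have hH : (h : ℝ) * N ≠ 0 := mul_ne_zero (by exact_mod_cast hh) (by exact_mod_cast hN.ne')
  rw [e₁, e₂]
  by_cases h0 : k (h * N / (n * x)) = 0
  · simp [h0]
  have h3 : (n : ℝ) * x + h * N = h * N * (1 + 1 / (h * N / (n * x))) := by
    field_simp
    ring
  have h4 : 1 + 1 / ((h : ℝ) * N / (n * x)) ≠ 0 := fun e => h0 (by
    have e' : (h : ℝ) * N / (n * x) = -1 := by
      rw [e, mul_zero] at h3
      rw [div_eq_iff (by positivity)]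
      linarith
    rw [e', hk])
  have h5 : Real.log |(n : ℝ) * x + h * N| = Real.log |(h : ℝ) * N| + lg (h * N / (n * x)) := by
    rw [h3, abs_mul, Real.log_mul (abs_ne_zero.2 hH) (abs_ne_zero.2 h4), lg]
  rw [h5, zc_add]
  push_cast
  ring

noncomputable def a0 (g m : ℕ) : ℂ := (tau (g * m) : ℝ) * χ m

noncomputable def a1 (g m : ℕ) : ℂ := ((tau (g * m) * Real.log m : ℝ) : ℂ) * χ m

noncomputable def cc (N D g e : ℕ) : ℝ :=
  Real.log N - 2 * Real.log D + 2 * Real.eulerMascheroniConstant - (Real.log g + 2 * Real.log e)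

/-- the sums to which the Mellin formula is applied -/
noncomputable def Z (W : ℝ → ℝ) (Q : ℝ) (κ : ℝ → ℂ) (a : ℕ → ℂ) (v : ℝ) : ℂ :=
  ∑' m : ℕ, a m * J W Q κ (m / v)

theorem zf_eq [NeZero D] {k : ℝ → ℝ} {s : ℝ} {N n : ℕ} (hW : Wk R W) (h₁ : Kr T k)
    (h₂ : Kr T fun t => k t * lg t) (hQ : 0 < Q) (hT : 0 < T) (hN : 0 < N) (hn : 1 ≤ n)
    (hk : k (-1) = 0) (hs : χ (-1) = s) :
    zf χ W Q N k n = ∑ g ∈ n.divisors, ∑ e ∈ (n / g).divisors, cf χ N n g e *
      (Z W Q (fe (fun t => k t * lg t) s) (a0 χ g) (n / (g * N)) +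
        Z W Q (fe k s) (a1 χ g) (n / (g * N)) +
        cc N D g e * Z W Q (fe k s) (a0 χ g) (n / (g * N))) := by
  have hn0 : (0 : ℝ) < n := by exact_mod_cast hn
  have hN0 : (0 : ℝ) < N := by exact_mod_cast hN
  set F : ℤ → ℂ := fun h => (tau h.natAbs : ℝ) * ∫ x in Set.Ioi (0 : ℝ),
    ((W (x / Q) / x * k (h * N / (n * x)) : ℝ) : ℂ) * zc χ N n h (Real.log |n * x + h * N|) with hF
  have hp : ∀ M : ℕ, 0 < M → F M = (tau M : ℝ) * (zg χ N n M (fun _ _ => 1) *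
      J W Q (fun t => ((k t * lg t : ℝ) : ℂ)) (M * N / n) +
      zg χ N n M (ph D (Real.log (M * N))) * J W Q (fun t => (k t : ℂ)) (M * N / n)) := by
    intro M hM
    have := one χ (h := M) (c := M * N / n) hW h₁.pos h₂.pos hQ hT (by positivity) hN hn
      (by exact_mod_cast hM.ne') hk (fun x => by rw [div_div, Int.cast_natCast])
      (fun x => by rw [div_div, Int.cast_natCast])
    simp only [hF]
    rw [this, Int.natAbs_natCast, Int.cast_natCast, abs_of_pos (by positivity)]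
  have hm : ∀ M : ℕ, 0 < M → F (-M) = (tau M : ℝ) * (zg χ N n (-M) (fun _ _ => 1) *
      J W Q (fun t => ((k (-t) * lg (-t) : ℝ) : ℂ)) (M * N / n) +
      zg χ N n (-M) (ph D (Real.log (M * N))) * J W Q (fun t => (k (-t) : ℂ)) (M * N / n)) := by
    intro M hM
    have := one χ (h := -M) (c := M * N / n) hW h₁.neg h₂.neg hQ hT (by positivity) hN hn
      (by simpa using hM.ne') hk
      (fun x => by rw [div_div, Int.cast_neg, Int.cast_natCast, neg_mul, neg_div])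
      (fun x => by rw [div_div, Int.cast_neg, Int.cast_natCast, neg_mul, neg_div])
    simp only [hF]
    rw [this, Int.natAbs_neg, Int.natAbs_natCast, Int.cast_neg, Int.cast_natCast, neg_mul, abs_neg,
      abs_of_pos (by positivity)]
  have h0 : F 0 = 0 := by simp [hF, U.tau_zero]
  have hS : Summable F := by
    set B := ⌈2 * R * Q * T * n⌉₊ with hB
    refine summable_of_ne_finset_zero (s := Icc (-(B : ℤ)) B) fun h hh => ?_
    rw [mem_Icc] at hh
    have hz : ∀ M : ℕ, B < M → ∀ κ, Kk T κ → J W Q κ (M * N / n) = 0 := fun M hM κ hκ =>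
      J_zero hW hκ hQ hT ((le_div_iff₀ hn0).2 ((Nat.ceil_le.1 hM.le).trans
        (le_mul_of_one_le_right (Nat.cast_nonneg M) (by exact_mod_cast hN))))
    obtain ⟨M, rfl | rfl⟩ := h.eq_nat_or_neg
    · rw [hp M (by omega), hz M (by omega) _ h₁.pos, hz M (by omega) _ h₂.pos]
      ring
    · rw [hm M (by omega), hz M (by omega) _ h₁.neg, hz M (by omega) _ h₂.neg]
      ring
  have hsum := hS.hasSum.nat_add_neg
  rw [h0, add_zero] at hsum
  refine hsum.unique ?_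
  set G : ℕ → ℕ → ℕ → ℂ := fun g e m => cf χ N n g e *
    (a0 χ g m * J W Q (fe (fun t => k t * lg t) s) (m / (n / (g * N))) +
      a1 χ g m * J W Q (fe k s) (m / (n / (g * N))) +
      cc N D g e * (a0 χ g m * J W Q (fe k s) (m / (n / (g * N))))) with hG
  have hP : (fun M : ℕ => F M + F (-M)) = fun M => ∑ g ∈ n.divisors, ∑ e ∈ (n / g).divisors,
      if g ∣ M then G g e (M / g) else 0 := by
    ext M
    rcases Nat.eq_zero_or_pos M with rfl | hM
    · simp [h0, hG, a0, a1, U.tau_zero]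
    have hc : (0 : ℝ) < M * N / n := by positivity
    have e1 : F M + F (-M) = (tau M : ℝ) * (zg χ N n (-M) (fun _ _ => 1) *
        J W Q (fe (fun t => k t * lg t) s) (M * N / n) +
        zg χ N n (-M) (ph D (Real.log (M * N))) * J W Q (fe k s) (M * N / n)) := by
      rw [hp M hM, hm M hM, zg_pos, zg_pos, hs, J_fe hW h₁ hQ hT hc, J_fe hW h₂ hQ hT hc]
      ring
    rw [e1, zg_neg χ N M hn, zg_neg χ N M hn]
    simp only [sum_mul, ← sum_add_distrib, mul_sum]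
    refine sum_congr rfl fun g hg => sum_congr rfl fun e he => ?_
    split_ifs with hd
    · obtain ⟨m, rfl⟩ := hd
      have hg0 : 0 < g := Nat.pos_of_mem_divisors hg
      have hm0 : 0 < m := Nat.pos_of_mul_pos_left hM
      have g0 : (g : ℝ) ≠ 0 := by exact_mod_cast hg0.ne'
      have m0 : (m : ℝ) ≠ 0 := by exact_mod_cast hm0.ne'
      have e0 : (e : ℝ) ≠ 0 := by exact_mod_cast (Nat.pos_of_mem_divisors he).ne'
      have D0 : (D : ℝ) ≠ 0 := by exact_mod_cast NeZero.ne D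
      have e2 : ((g * m : ℕ) : ℝ) * N / n = m / (n / (g * N)) := by
        push_cast
        field_simp
      have e3 : ph D (Real.log (((g * m : ℕ) : ℝ) * N)) g e = (Real.log m : ℝ) + (cc N D g e : ℝ) := by
        unfold ph cc
        rw [Nat.cast_mul, Real.log_mul (mul_ne_zero g0 m0) hN0.ne', Real.log_mul g0 m0,
          Real.log_mul (mul_ne_zero g0 D0) e0, Real.log_mul g0 D0]
        push_cast
        ring
      rw [Nat.mul_div_cancel_left m hg0, e2, e3]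
      simp only [hG, a0, a1]
      push_cast
      ring
    · ring
  rw [hP]
  refine hasSum_sum fun g hg => hasSum_sum fun e _ => ?_
  have hg0 : 0 < g := Nat.pos_of_mem_divisors hg
  have hv : (0 : ℝ) < n / (g * N) := by positivity
  have hi : Function.Injective fun m : ℕ => g * m := fun _ _ h => Nat.eq_of_mul_eq_mul_left hg0 h
  refine (hi.hasSum_iff fun M hM => if_neg fun ⟨m, e⟩ => hM ⟨m, e.symm⟩).1 ?_
  have e4 : ((fun M => if g ∣ M then G g e (M / g) else 0) ∘ fun m : ℕ => g * m) = G g e := by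
    ext m
    simp only [Function.comp_apply, dvd_mul_right, if_true, Nat.mul_div_cancel_left m hg0]
  rw [e4]
  exact (((sum_J hW (h₂.fe s) hQ hT hv _).hasSum.add (sum_J hW (h₁.fe s) hQ hT hv _).hasSum).add
    ((sum_J hW (h₁.fe s) hQ hT hv _).hasSum.mul_left _)).mul_left _

end Pool.Agent.MP_20b2fd_nt.F5.ZBA
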